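import Pool.Agent.KZ.AL.Defs

/-!
# KZ4, ALPHA: row functionals
-/

set_option autoImplicit false

namespace Pool.Agent.KZ.AL

open Finset

variable {K : Type} [CommRing K]

theorem sum_ite_mul (C : Finset (Multiset ℕ)) (F : Multiset ℕ → K)
    (hF : ∀ e, e ∉ C → F e = 0) (m : Multiset ℕ) (c : K) :
    ∑ e ∈ C, (if m = e then c else 0) * F e = c * F m := by
  by_cases h : m ∈ C
  · rw [sum_eq_single_of_mem m h, if_pos rfl]
    intro e _ he
    rw [if_neg (Ne.symm he), zero_mul]
  · rw [hF m h, mul_zero]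
    refine sum_eq_zero fun e he => ?_
    rw [if_neg, zero_mul]
    rintro rfl
    exact h he

theorem sum_sT (n : ℕ) (v : ℕ → K) (x y : ℕ) (C : Finset (Multiset ℕ)) (F : Multiset ℕ → K)
    (hF : ∀ e, e ∉ C → F e = 0) : ∑ e ∈ C, sT n v x y e * F e = fT n v x y F := by
  unfold sT fT
  simp only [sum_mul]
  rw [sum_comm]
  refine sum_congr rfl fun a _ => ?_
  rw [sum_comm]
  exact sum_congr rfl fun b _ => sum_ite_mul C F hF _ _

theorem sum_sD (n : ℕ) (u : ℕ → K) (x : ℕ) (C : Finset (Multiset ℕ)) (F : Multiset ℕ → K)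
    (hF : ∀ e, e ∉ C → F e = 0) : ∑ e ∈ C, sD n u x e * F e = fD n u x F := by
  unfold sD fD
  simp only [sum_mul]
  rw [sum_comm]
  refine sum_congr rfl fun a _ => ?_
  rw [sum_comm]
  refine sum_congr rfl fun b _ => ?_
  rw [sum_comm]
  exact sum_congr rfl fun c _ => sum_ite_mul C F hF _ _

theorem ms_swap2 (a b x y : ℕ) : ({a, b, x, y} : Multiset ℕ) = {a, b, y, x} := by
  simp only [Multiset.insert_eq_cons]
  rw [← Multiset.cons_zero y, ← Multiset.cons_zero x, Multiset.cons_swap x y]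

theorem ms_swap0 (a b x y : ℕ) : ({a, b, x, y} : Multiset ℕ) = {b, a, x, y} := by
  simp only [Multiset.insert_eq_cons]
  rw [Multiset.cons_swap a b]

theorem ms_swap1 (a b x y : ℕ) : ({a, b, x, y} : Multiset ℕ) = {a, x, b, y} := by
  simp only [Multiset.insert_eq_cons]
  rw [Multiset.cons_swap b x]

theorem fT_comm (n : ℕ) (v : ℕ → K) (x y : ℕ) (F : Multiset ℕ → K) :
    fT n v x y F = fT n v y x F := by
  unfold fT
  exact sum_congr rfl fun a _ => sum_congr rfl fun b _ => by rw [ms_swap2]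

/-- The gained condition. -/
theorem fD_add_pt (n : ℕ) (v w : ℕ → K) (F : Multiset ℕ → K)
    (hv : ∀ x < n, ∀ y < n, fT n v x y F = 0) (hw : ∀ x < n, ∀ y < n, fT n w x y F = 0)
    (x : ℕ) (hx : x < n) : fD n (fun s => v s + w s) x F = 0 := by
  -- the four linear form
  let Q : (ℕ → K) → (ℕ → K) → (ℕ → K) → K := fun f g h =>
    ∑ a ∈ range n, ∑ b ∈ range n, ∑ c ∈ range n, f a * g b * h c * F {a, b, c, x}
  have hQ1 : ∀ f g h, Q f g h = Q g f h := by
    intro f g h
    show ∑ a ∈ range n, ∑ b ∈ range n, _ = ∑ a ∈ range n, ∑ b ∈ range n, _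
    rw [sum_comm]
    refine sum_congr rfl fun a _ => sum_congr rfl fun b _ => sum_congr rfl fun c _ => ?_
    rw [ms_swap0]
    ring
  have hQ2 : ∀ f g h, Q f g h = Q f h g := by
    intro f g h
    show ∑ a ∈ range n, ∑ b ∈ range n, ∑ c ∈ range n, _ =
      ∑ a ∈ range n, ∑ b ∈ range n, ∑ c ∈ range n, _
    refine sum_congr rfl fun a _ => ?_
    rw [sum_comm]
    refine sum_congr rfl fun b _ => sum_congr rfl fun c _ => ?_
    rw [ms_swap1]
    ring
  have hzero : ∀ f : ℕ → K, (∀ x < n, ∀ y < n, fT n f x y F = 0) → ∀ h, Q f f h = 0 := by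
    intro f hf h
    have h1 : Q f f h = ∑ c ∈ range n, h c * fT n f c x F := by
      calc Q f f h = ∑ a ∈ range n, ∑ c ∈ range n, ∑ b ∈ range n,
            f a * f b * h c * F {a, b, c, x} := sum_congr rfl fun a _ => sum_comm
        _ = ∑ c ∈ range n, ∑ a ∈ range n, ∑ b ∈ range n, f a * f b * h c * F {a, b, c, x} :=
          sum_comm
        _ = _ := by
          refine sum_congr rfl fun c _ => ?_
          unfold fT
          simp only [mul_sum]
          exact sum_congr rfl fun a _ => sum_congr rfl fun b _ => by ring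
    rw [h1]
    exact sum_eq_zero fun c hc => by rw [hf c (mem_range.1 hc) x hx, mul_zero]
  have h1 : fD n (fun s => v s + w s) x F = Q v v v + Q v v w + Q v w v + Q v w w + Q w v v +
      Q w v w + Q w w v + Q w w w := by
    show ∑ a ∈ range n, ∑ b ∈ range n, ∑ c ∈ range n,
      (v a + w a) * (v b + w b) * (v c + w c) * F {a, b, c, x} = _
    simp only [Q, ← sum_add_distrib]
    exact sum_congr rfl fun a _ => sum_congr rfl fun b _ => sum_congr rfl fun c _ => by ring
  rw [h1, hzero v hv, hzero v hv, hQ2 v w v, hzero v hv, hQ1 v w w, hQ2 w v w, hzero w hw,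
    hQ1 w v v, hQ2 v w v, hzero v hv, hzero w hw]
  simp only [add_zero]

end Pool.Agent.KZ.AL
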