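import Pool.Agent.KZ.AL.CntA

/-!
# KZ4, ALPHA: counts
-/

set_option autoImplicit false

namespace Pool.Agent.KZ.AL

open Finset

/-! ### Sums over the specials and the free items -/

private theorem Cn.divmod {k t t' : ℕ} (h1 : t % k = t' % k) (h2 : t / k = t' / k) : t = t' := by
  rw [← Nat.div_add_mod t k, ← Nat.div_add_mod t' k, h1, h2]

private theorem Cn.pair {l l' : ℕ} (h : ({l, l + 1} : Finset ℕ) = {l', l' + 1}) : l = l' := by
  have h1 : l ∈ ({l', l' + 1} : Finset ℕ) := by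
    rw [← h]
    exact mem_insert_self _ _
  have h2 : l + 1 ∈ ({l', l' + 1} : Finset ℕ) := by
    rw [← h]
    exact mem_insert_of_mem (mem_singleton_self _)
  rw [mem_insert, mem_singleton] at h1 h2
  omega

private theorem Cn.tri {l l' : ℕ} (h : ({l, l + 1, l + 2} : Finset ℕ) = {l', l' + 1, l' + 2}) :
    l = l' := by
  have h1 : l ∈ ({l', l' + 1, l' + 2} : Finset ℕ) := by
    rw [← h]
    exact mem_insert_self _ _
  have h2 : l + 2 ∈ ({l', l' + 1, l' + 2} : Finset ℕ) := by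
    rw [← h]
    exact mem_insert_of_mem (mem_insert_of_mem (mem_singleton_self _))
  rw [mem_insert, mem_insert, mem_singleton] at h1 h2
  omega

theorem sum_spP {k : ℕ} (c0 l0 m : ℕ) (f : ℕ × Finset ℕ × ℕ → ℕ) (N : ℕ)
    (hf : ∀ t < m, f (c0 + t % k, {l0 + 2 * (t / k), l0 + 2 * (t / k) + 1}, 0) = N) :
    ∑ S ∈ spP c0 k l0 m, f S = m * N := by
  unfold spP
  rw [sum_image]
  · rw [sum_congr rfl fun t ht => hf t (mem_range.1 ht), sum_const, card_range, smul_eq_mul]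
  · intro t _ t' _ h
    have h0 := congrArg (fun S : ℕ × Finset ℕ × ℕ => S.1) h
    have h1 := congrArg (fun S : ℕ × Finset ℕ × ℕ => S.2.1) h
    beta_reduce at h0 h1
    have h2 := Cn.pair h1
    exact Cn.divmod (k := k) (by omega) (by omega)

theorem sum_spQ {k : ℕ} (c0 l0 s m : ℕ) (f : ℕ × Finset ℕ × ℕ → ℕ) (N : ℕ)
    (hf : ∀ t < m, f (c0 + t % k, {l0 + 3 * (t / k), l0 + 3 * (t / k) + 1, l0 + 3 * (t / k) + 2}, s) =
      N) : ∑ S ∈ spQ c0 k l0 s m, f S = m * N := by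
  unfold spQ
  rw [sum_image]
  · rw [sum_congr rfl fun t ht => hf t (mem_range.1 ht), sum_const, card_range, smul_eq_mul]
  · intro t _ t' _ h
    have h0 := congrArg (fun S : ℕ × Finset ℕ × ℕ => S.1) h
    have h1 := congrArg (fun S : ℕ × Finset ℕ × ℕ => S.2.1) h
    beta_reduce at h0 h1
    have h2 := Cn.tri h1
    exact Cn.divmod (k := k) (by omega) (by omega)

theorem sum_frI {k : ℕ} (c0 l0 m : ℕ) (f : ℕ × ℕ × ℕ → ℕ) (N : ℕ)
    (hf : ∀ t < m, f (c0 + t % k, l0 + t / k, 0) = N) :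
    ∑ S ∈ frI c0 k l0 m, f S = m * N := by
  unfold frI
  rw [sum_image]
  · rw [sum_congr rfl fun t ht => hf t (mem_range.1 ht), sum_const, card_range, smul_eq_mul]
  · intro t _ t' _ h
    have h0 : c0 + t % k = c0 + t' % k := congrArg (fun S : ℕ × ℕ × ℕ => S.1) h
    have h1 : l0 + t / k = l0 + t' / k := congrArg (fun S : ℕ × ℕ × ℕ => S.2.1) h
    exact Cn.divmod (k := k) (by omega) (by omega)

private theorem Cn.sum_union {α : Type} [DecidableEq α] (A B : Finset α) (cls : α → ℕ) (k : ℕ)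
    (hA : ∀ S ∈ A, cls S < k) (hB : ∀ S ∈ B, cls S = k) (f : α → ℕ) :
    ∑ S ∈ A ∪ B, f S = ∑ S ∈ A, f S + ∑ S ∈ B, f S := by
  refine Finset.sum_union ?_
  rw [disjoint_left]
  intro S h1 h2
  have h3 := hA S h1
  have h4 := hB S h2
  omega

/-- The class of a special. -/
private def Cn.cls (h : ℕ) (S : ℕ × Finset ℕ × ℕ) : ℕ :=
  if S.2.2 = 2 then 2 else if h ≤ S.1 then 3 else
    if (∀ B ∈ S.2.1, B < 2 * h) then S.2.2 else 4 + S.2.2

theorem sum_Sp2 (t : Bool) (n h : ℕ) (a : L2) (ha : Rm2 n h a) (f : ℕ × Finset ℕ × ℕ → ℕ)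
    (N1 N2 N3 N4 N5 N6 : ℕ)
    (h1 : ∀ c B, c < 4 → h ≤ B → B + 1 < 2 * h → f (c, {B, B + 1}, 0) = N1)
    (h2 : ∀ c B, c < h → h ≤ B → B + 2 < 2 * h → f (c, {B, B + 1, B + 2}, 1) = N2)
    (h3 : ∀ c B, h ≤ c → c < 2 * h → B + 2 < h → f (c, {B, B + 1, B + 2}, 2) = N3)
    (h4 : ∀ c B, h ≤ c → c < 2 * h → 2 * h ≤ B → B + 1 < n / 4 → f (c, {B, B + 1}, 0) = N4)
    (h5 : ∀ c B, c < h → 2 * h ≤ B → B + 1 < n / 4 → f (c, {B, B + 1}, 0) = N5)
    (h6 : ∀ c B, c < h → 2 * h ≤ B → B + 2 < n / 4 → f (c, {B, B + 1, B + 2}, 1) = N6) :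
    ∑ S ∈ (mk2 t n h a).Sp, f S =
      a.p * N1 + a.q * N2 + a.r * N3 + a.pu * N4 + a.py * N5 + a.qy * N6 := by
  obtain ⟨hh, hn, bp, bq, br, bpu, bpy, bqy, -, -, -⟩ := ha
  have c1 : ∀ S ∈ spP 0 4 h a.p, Cn.cls h S = 0 := by
    intro S hS
    unfold spP at hS
    obtain ⟨t, ht, rfl⟩ := mem_image.1 hS
    rw [mem_range] at ht
    unfold Cn.cls
    rw [if_neg (by show ¬ (0 : ℕ) = 2; omega), if_neg (by show ¬ h ≤ 0 + t % 4; omega), if_pos]
    intro B hB
    have hB' : B = h + 2 * (t / 4) ∨ B = h + 2 * (t / 4) + 1 := by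
      simpa only [mem_insert, mem_singleton] using hB
    omega
  have c2 : ∀ S ∈ spQ 4 14 h 1 a.q, Cn.cls h S = 1 := by
    intro S hS
    unfold spQ at hS
    obtain ⟨t, ht, rfl⟩ := mem_image.1 hS
    rw [mem_range] at ht
    unfold Cn.cls
    rw [if_neg (by show ¬ (1 : ℕ) = 2; omega), if_neg (by show ¬ h ≤ 4 + t % 14; omega), if_pos]
    intro B hB
    have hB' : B = h + 3 * (t / 14) ∨ B = h + 3 * (t / 14) + 1 ∨ B = h + 3 * (t / 14) + 2 := by
      simpa only [mem_insert, mem_singleton] using hB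
    omega
  have c3 : ∀ S ∈ spQ h 12 0 2 a.r, Cn.cls h S = 2 := by
    intro S hS
    unfold spQ at hS
    obtain ⟨t, ht, rfl⟩ := mem_image.1 hS
    unfold Cn.cls
    rw [if_pos rfl]
  have c4 : ∀ S ∈ spP h 8 (2 * h) a.pu, Cn.cls h S = 3 := by
    intro S hS
    unfold spP at hS
    obtain ⟨t, ht, rfl⟩ := mem_image.1 hS
    unfold Cn.cls
    rw [if_neg (by show ¬ (0 : ℕ) = 2; omega), if_pos (by show h ≤ h + t % 8; omega)]
  have c5 : ∀ S ∈ spP 0 4 (2 * h) a.py, Cn.cls h S = 4 := by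
    intro S hS
    unfold spP at hS
    obtain ⟨t, ht, rfl⟩ := mem_image.1 hS
    unfold Cn.cls
    have h8 : ¬ ∀ B ∈ ({2 * h + 2 * (t / 4), 2 * h + 2 * (t / 4) + 1} : Finset ℕ), B < 2 * h := by
      intro hB
      have h7 : 2 * h + 2 * (t / 4) < 2 * h := hB _ (mem_insert_self _ _)
      omega
    rw [if_neg (by show ¬ (0 : ℕ) = 2; omega), if_neg (by show ¬ h ≤ 0 + t % 4; omega), if_neg h8]
    rfl
  have c6 : ∀ S ∈ spQ 4 14 (2 * h) 1 a.qy, Cn.cls h S = 5 := by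
    intro S hS
    unfold spQ at hS
    obtain ⟨t, ht, rfl⟩ := mem_image.1 hS
    unfold Cn.cls
    have h8 : ¬ ∀ B ∈ ({2 * h + 3 * (t / 14), 2 * h + 3 * (t / 14) + 1,
        2 * h + 3 * (t / 14) + 2} : Finset ℕ), B < 2 * h := by
      intro hB
      have h7 : 2 * h + 3 * (t / 14) < 2 * h := hB _ (mem_insert_self _ _)
      omega
    rw [if_neg (by show ¬ (1 : ℕ) = 2; omega), if_neg (by show ¬ h ≤ 4 + t % 14; omega), if_neg h8]
    rfl
  show ∑ S ∈ spP 0 4 h a.p ∪ spQ 4 14 h 1 a.q ∪ spQ h 12 0 2 a.r ∪ spP h 8 (2 * h) a.pu ∪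
    spP 0 4 (2 * h) a.py ∪ spQ 4 14 (2 * h) 1 a.qy, f S = _
  have d1 : ∀ S ∈ spP 0 4 h a.p, Cn.cls h S < 1 := fun S hS => by rw [c1 S hS]; omega
  have d2 : ∀ S ∈ spP 0 4 h a.p ∪ spQ 4 14 h 1 a.q, Cn.cls h S < 2 := by
    intro S hS
    rcases mem_union.1 hS with hS | hS
    · exact (d1 S hS).trans (by omega)
    · rw [c2 S hS]
      omega
  have d3 : ∀ S ∈ spP 0 4 h a.p ∪ spQ 4 14 h 1 a.q ∪ spQ h 12 0 2 a.r, Cn.cls h S < 3 := by
    intro S hS
    rcases mem_union.1 hS with hS | hS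
    · exact (d2 S hS).trans (by omega)
    · rw [c3 S hS]
      omega
  have d4 : ∀ S ∈ spP 0 4 h a.p ∪ spQ 4 14 h 1 a.q ∪ spQ h 12 0 2 a.r ∪ spP h 8 (2 * h) a.pu,
      Cn.cls h S < 4 := by
    intro S hS
    rcases mem_union.1 hS with hS | hS
    · exact (d3 S hS).trans (by omega)
    · rw [c4 S hS]
      omega
  have d5 : ∀ S ∈ spP 0 4 h a.p ∪ spQ 4 14 h 1 a.q ∪ spQ h 12 0 2 a.r ∪ spP h 8 (2 * h) a.pu ∪
      spP 0 4 (2 * h) a.py, Cn.cls h S < 5 := by
    intro S hS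
    rcases mem_union.1 hS with hS | hS
    · exact (d4 S hS).trans (by omega)
    · rw [c5 S hS]
      omega
  rw [Cn.sum_union _ _ (Cn.cls h) 5 d5 c6, Cn.sum_union _ _ (Cn.cls h) 4 d4 c5,
    Cn.sum_union _ _ (Cn.cls h) 3 d3 c4, Cn.sum_union _ _ (Cn.cls h) 2 d2 c3,
    Cn.sum_union _ _ (Cn.cls h) 1 d1 c2,
    sum_spP 0 h a.p f N1 fun t ht => h1 _ _ (by omega) (by omega) (by omega),
    sum_spQ 4 h 1 a.q f N2 fun t ht => h2 _ _ (by omega) (by omega) (by omega),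
    sum_spQ h 0 2 a.r f N3 fun t ht => h3 _ _ (by omega) (by omega) (by omega),
    sum_spP h (2 * h) a.pu f N4 fun t ht => h4 _ _ (by omega) (by omega) (by omega) (by omega),
    sum_spP 0 (2 * h) a.py f N5 fun t ht => h5 _ _ (by omega) (by omega) (by omega),
    sum_spQ 4 (2 * h) 1 a.qy f N6 fun t ht => h6 _ _ (by omega) (by omega) (by omega)]

theorem sum_Sp1 (n h : ℕ) (a : L1) (ha : Rm1 n h a) (f : ℕ × Finset ℕ × ℕ → ℕ) (N1 N2 : ℕ)
    (h1 : ∀ c B, c < 4 → h ≤ B → B + 1 < n / 4 → f (c, {B, B + 1}, 0) = N1)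
    (h2 : ∀ c B, c < h → h ≤ B → B + 2 < n / 4 → f (c, {B, B + 1, B + 2}, 1) = N2) :
    ∑ S ∈ (mk1 n h a).Sp, f S = a.p * N1 + a.q * N2 := by
  obtain ⟨hh, hn, bp, bq, -, -⟩ := ha
  have c1 : ∀ S ∈ spP 0 4 h a.p, S.2.2 < 1 := by
    intro S hS
    unfold spP at hS
    obtain ⟨t, ht, rfl⟩ := mem_image.1 hS
    exact Nat.one_pos
  have c2 : ∀ S ∈ spQ 4 14 h 1 a.q, S.2.2 = 1 := by
    intro S hS
    unfold spQ at hS
    obtain ⟨t, ht, rfl⟩ := mem_image.1 hS
    rfl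
  show ∑ S ∈ spP 0 4 h a.p ∪ spQ 4 14 h 1 a.q, f S = _
  rw [Cn.sum_union _ _ (fun S => S.2.2) 1 c1 c2,
    sum_spP 0 h a.p f N1 fun t ht => h1 _ _ (by omega) (by omega) (by omega),
    sum_spQ 4 h 1 a.q f N2 fun t ht => h2 _ _ (by omega) (by omega) (by omega)]

/-! ### Numbers of variables -/

theorem bl_eq_iff {n x c : ℕ} (hc : c < n / 4) : bl n x = c ↔ 4 * c ≤ x ∧ x < 4 * c + 4 := by
  unfold bl
  split_ifs <;> constructor <;> intro h <;> omega

private theorem Cn.ne {n c : ℕ} (hc : c < n / 4) :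
    ((range n).filter fun x => bl n x ≠ c).card = n - 4 := by
  have h1 : (range n).filter (fun x => bl n x ≠ c) = range n \ Ico (4 * c) (4 * c + 4) := by
    ext x
    rw [mem_filter, mem_sdiff, mem_Ico, ne_eq, bl_eq_iff hc]
  rw [h1, card_sdiff_of_subset, card_range, Nat.card_Ico, Nat.add_sub_cancel_left]
  intro x hx
  rw [mem_Ico] at hx
  rw [mem_range]
  omega

private theorem Cn.V0ne (D : Dg) (hD : D.h0 + D.h1 ≤ D.n / 4) {c : ℕ} (hc : c < D.h0) :
    ((range D.n).filter fun x => bl D.n x ≠ c ∧ D.col (bl D.n x) = 0).card = 4 * D.h0 - 4 := by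
  have h1 : (range D.n).filter (fun x => bl D.n x ≠ c ∧ D.col (bl D.n x) = 0) =
      V0 D \ Ico (4 * c) (4 * c + 4) := by
    ext x
    have hs : x ∈ V0 D → x ∈ range D.n := fun h => V0_sub D hD h
    rw [mem_filter, mem_sdiff, mem_Ico, ne_eq, bl_eq_iff (by omega), mem_V0 D hD]
    tauto
  rw [h1, card_sdiff_of_subset, card_V0, Nat.card_Ico, Nat.add_sub_cancel_left]
  intro x hx
  rw [mem_Ico] at hx
  unfold V0
  rw [mem_range]
  omega

private theorem Cn.V0 (D : Dg) (hD : D.h0 + D.h1 ≤ D.n / 4) :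
    ((range D.n).filter fun x => D.col (bl D.n x) = 0).card = 4 * D.h0 := by
  rw [← card_V0]
  congr 1
  ext x
  have hs : x ∈ Pool.Agent.KZ.AL.V0 D → x ∈ range D.n := fun h => V0_sub D hD h
  rw [mem_filter, mem_V0 D hD]
  tauto

private theorem Cn.V1 (D : Dg) (hD : D.h0 + D.h1 ≤ D.n / 4) :
    ((range D.n).filter fun x => D.col (bl D.n x) = 1).card = 4 * D.h1 := by
  rw [← card_V1]
  congr 1
  ext x
  have hs : x ∈ Pool.Agent.KZ.AL.V1 D → x ∈ range D.n := fun h => V1_sub D hD h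
  rw [mem_filter, mem_V1 D hD]
  tauto

private theorem Cn.e22 : ((2 : ℕ) = 2) = True := eq_self 2

private theorem Cn.e33 : ((3 : ℕ) = 3) = True := eq_self 3

private theorem Cn.e23 : ((2 : ℕ) = 3) = False := eq_false (by omega)

private theorem Cn.e32 : ((3 : ℕ) = 2) = False := eq_false (by omega)

private theorem Cn.card2 (B : ℕ) : ({B, B + 1} : Finset ℕ).card = 2 := card_pair (by omega)

private theorem Cn.card3 (B : ℕ) : ({B, B + 1, B + 2} : Finset ℕ).card = 3 := by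
  rw [card_insert_of_notMem, card_pair (by omega)]
  rw [mem_insert, mem_singleton]
  omega

private theorem Cn.bd2 (t : Bool) (n h : ℕ) (a : L2) (ha : Rm2 n h a) : Bd (mk2 t n h a) where
  h := by
    have := ha.hn
    show h + h ≤ n / 4
    omega
  n01 := by
    show (if t then 3 else 4) ≤ 4
    split_ifs <;> omega
  n02 := by
    show 3 ≤ 4
    omega
  n12 := by
    show (if t then 4 else 3) ≤ 4
    split_ifs <;> omega

private theorem Cn.bd1 (n h : ℕ) (a : L1) (ha : Rm1 n h a) : Bd (mk1 n h a) where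
  h := by
    have := ha.hn
    show h + (n / 4 - h) ≤ n / 4
    omega
  n01 := by
    show 4 ≤ 4
    omega
  n02 := by
    show 3 ≤ 4
    omega
  n12 := by
    show 3 ≤ 4
    omega

private theorem Cn.cRG_eq (D : Dg) (lv : ℕ) : D.cRG lv = ∑ S ∈ D.Sp, ((range D.n).filter fun x =>
    S.2.1.card = 2 ∧ bl D.n x ≠ S.1 ∧ D.adm lv (insert (bl D.n x) S.2.1)).card := by
  unfold Dg.cRG
  rw [card_filter_prod]

private theorem Cn.cLo_eq (D : Dg) (lv : ℕ) : D.cLo lv = ∑ S ∈ D.Sp, ((range D.n).filter fun x =>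
    (S.2.1.card = 2 ∧ bl D.n x ≠ S.1 ∧ D.adm lv (insert S.1 (insert (bl D.n x) S.2.1))) ∨
      (S.2.1.card = 3 ∧ x = 0 ∧ D.adm lv (insert S.1 S.2.1))).card := by
  unfold Dg.cLo
  rw [card_filter_prod]

private theorem Cn.cRF_eq (D : Dg) (lv : ℕ) : D.cRF lv = ∑ δ ∈ D.Fr, ((range D.n).filter fun x =>
    D.adm lv {δ.1, δ.2.1, bl D.n x}).card := by
  unfold Dg.cRF
  rw [card_filter_prod]

/-! ### Level 2 -/

theorem cRT2 (t : Bool) (n h : ℕ) (a : L2) (ha : Rm2 n h a) : (mk2 t n h a).cRT 2 =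
    (if t then 3 else 4) * h * h * Nat.multichoose n 2 +
      (if t then 7 else 6) * h * (n / 4 - 2 * h) *
        (Nat.multichoose n 2 - Nat.multichoose (n - 4 * h) 2) := by
  rw [cRT_two _ (Cn.bd2 t n h a ha)]
  show (if t then 3 else 4) * h * h * Nat.multichoose n 2 +
    (3 * h * (n / 4 - (h + h)) * (Nat.multichoose n 2 - Nat.multichoose (n - 4 * h) 2) +
      (if t then 4 else 3) * h * (n / 4 - (h + h)) *
        (Nat.multichoose n 2 - Nat.multichoose (n - 4 * h) 2)) = _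
  rw [← Nat.two_mul]
  split_ifs <;> ring

theorem cRF2 (t : Bool) (n h : ℕ) (a : L2) (ha : Rm2 n h a) :
    (mk2 t n h a).cRF 2 = a.d * n + (a.z + a.w) * (4 * h) := by
  have hB := (Cn.bd2 t n h a ha).h
  have e0 := Cn.V0 _ hB
  have e1 := Cn.V1 _ hB
  obtain ⟨hh, hn, -, -, -, -, -, -, bd, bz, bw⟩ := ha
  have k0 : ∀ B, (mk2 t n h a).col B = 0 ↔ B < h := col_eq0 (mk2 t n h a)
  have k1 : ∀ B, (mk2 t n h a).col B = 1 ↔ h ≤ B ∧ B < h + h := col_eq1 (mk2 t n h a)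
  rw [Cn.cRF_eq]
  show ∑ δ ∈ frI 0 2 h a.d ∪ frI 0 2 (2 * h) a.z ∪ frI h 4 (2 * h) a.w, _ = _
  have c1 : ∀ δ ∈ frI 0 2 h a.d,
      (if h ≤ δ.1 then 2 else if δ.2.1 < 2 * h then 0 else 1) < 1 := by
    intro δ hδ
    unfold frI at hδ
    obtain ⟨t, ht, rfl⟩ := mem_image.1 hδ
    rw [mem_range] at ht
    rw [if_neg (by show ¬ h ≤ 0 + t % 2; omega), if_pos (by show h + t / 2 < 2 * h; omega)]
    omega
  have c2 : ∀ δ ∈ frI 0 2 (2 * h) a.z,
      (if h ≤ δ.1 then 2 else if δ.2.1 < 2 * h then 0 else 1) = 1 := by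
    intro δ hδ
    unfold frI at hδ
    obtain ⟨t, ht, rfl⟩ := mem_image.1 hδ
    rw [mem_range] at ht
    rw [if_neg (by show ¬ h ≤ 0 + t % 2; omega), if_neg (by show ¬ 2 * h + t / 2 < 2 * h; omega)]
  have c3 : ∀ δ ∈ frI h 4 (2 * h) a.w,
      (if h ≤ δ.1 then 2 else if δ.2.1 < 2 * h then 0 else 1) = 2 := by
    intro δ hδ
    unfold frI at hδ
    obtain ⟨t, ht, rfl⟩ := mem_image.1 hδ
    rw [if_pos (by show h ≤ h + t % 4; omega)]
  rw [Cn.sum_union _ _ (fun δ : ℕ × ℕ × ℕ => if h ≤ δ.1 then 2 else if δ.2.1 < 2 * h then 0 else 1)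
      2 (fun δ hδ => by
        rcases mem_union.1 hδ with hδ | hδ
        · have := c1 δ hδ
          beta_reduce
          omega
        · have := c2 δ hδ
          beta_reduce
          omega) c3,
    Cn.sum_union _ _ (fun δ : ℕ × ℕ × ℕ => if h ≤ δ.1 then 2 else if δ.2.1 < 2 * h then 0 else 1)
      1 c1 c2,
    sum_frI 0 h a.d _ n, sum_frI 0 (2 * h) a.z _ (4 * h), sum_frI h (2 * h) a.w _ (4 * h)]
  · ring
  · intro s hs
    refine Eq.trans (congrArg card (filter_congr fun x _ => ?_)) e0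
    rw [adm2_iff]
    simp only [mem_insert, mem_singleton, exists_eq_or_imp, exists_eq_left, k0, k1]
    omega
  · intro s hs
    refine Eq.trans (congrArg card (filter_congr fun x _ => ?_)) e1
    rw [adm2_iff]
    simp only [mem_insert, mem_singleton, exists_eq_or_imp, exists_eq_left, k0, k1]
    omega
  · intro s hs
    refine Eq.trans (congrArg card (filter_true_of_mem fun x _ => ?_)) (card_range n)
    rw [adm2_iff]
    simp only [mem_insert, mem_singleton, exists_eq_or_imp, exists_eq_left, k0, k1]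
    omega

theorem cRG2 (t : Bool) (n h : ℕ) (a : L2) (ha : Rm2 n h a) :
    (mk2 t n h a).cRG 2 = a.p * (4 * h - 4) := by
  have hB := (Cn.bd2 t n h a ha).h
  have k0 : ∀ B, (mk2 t n h a).col B = 0 ↔ B < h := col_eq0 (mk2 t n h a)
  have k1 : ∀ B, (mk2 t n h a).col B = 1 ↔ h ≤ B ∧ B < h + h := col_eq1 (mk2 t n h a)
  have hh := ha.hh
  rw [Cn.cRG_eq, sum_Sp2 t n h a ha _ (4 * h - 4) 0 0 0 0 0]
  · ring
  · intro c B h1 h2 h3
    refine Eq.trans (congrArg card (filter_congr fun x _ => ?_))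
      (Cn.V0ne _ hB (c := c) (by show c < h; omega))
    rw [adm2_iff]
    simp only [mem_insert, mem_singleton, exists_eq_or_imp, exists_eq_left, k0, k1, Cn.card2, Cn.e22,
      Cn.e23, true_and, false_and, or_false]
    omega
  · intro c B h1 h2 h3
    rw [card_eq_zero, filter_eq_empty_iff]
    rintro x - ⟨h4, -⟩
    rw [Cn.card3] at h4
    omega
  · intro c B h1 h2 h3
    rw [card_eq_zero, filter_eq_empty_iff]
    rintro x - ⟨h4, -⟩
    rw [Cn.card3] at h4
    omega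
  · intro c B h1 h2 h3 h4
    rw [card_eq_zero, filter_eq_empty_iff]
    rintro x - ⟨-, -, h5⟩
    rw [adm2_iff] at h5
    simp only [mem_insert, mem_singleton, exists_eq_or_imp, exists_eq_left, k0, k1] at h5
    omega
  · intro c B h1 h2 h3
    rw [card_eq_zero, filter_eq_empty_iff]
    rintro x - ⟨-, -, h5⟩
    rw [adm2_iff] at h5
    simp only [mem_insert, mem_singleton, exists_eq_or_imp, exists_eq_left, k0, k1] at h5
    omega
  · intro c B h1 h2 h3
    rw [card_eq_zero, filter_eq_empty_iff]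
    rintro x - ⟨h4, -⟩
    rw [Cn.card3] at h4
    omega

private theorem Cn.one {n : ℕ} (hn : 0 < n) (P : ℕ → Prop) [DecidablePred P]
    (hP : ∀ x, P x ↔ x = 0) : ((range n).filter P).card = 1 := by
  have h1 : (range n).filter P = {0} := by
    ext x
    rw [mem_filter, mem_singleton, mem_range, hP]
    omega
  rw [h1, card_singleton]

theorem cLo2 (t : Bool) (n h : ℕ) (a : L2) (ha : Rm2 n h a) :
    (mk2 t n h a).cLo 2 = a.p * (n - 4) + a.q + a.r + (a.pu + a.py) * (4 * h) := by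
  have hB := (Cn.bd2 t n h a ha).h
  have k0 : ∀ B, (mk2 t n h a).col B = 0 ↔ B < h := col_eq0 (mk2 t n h a)
  have k1 : ∀ B, (mk2 t n h a).col B = 1 ↔ h ≤ B ∧ B < h + h := col_eq1 (mk2 t n h a)
  have hh := ha.hh
  have hn := ha.hn
  rw [Cn.cLo_eq, sum_Sp2 t n h a ha _ (n - 4) 1 1 (4 * h) (4 * h) 0]
  · ring
  · intro c B h1 h2 h3
    refine Eq.trans (congrArg card (filter_congr fun x _ => ?_))
      (Cn.ne (n := n) (c := c) (by omega))
    rw [adm2_iff]
    simp only [mem_insert, mem_singleton, exists_eq_or_imp, exists_eq_left, k0, k1, Cn.card2, Cn.e22,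
      Cn.e23, true_and, false_and, or_false]
    show _ ↔ bl n x ≠ c
    constructor
    · intro h4
      exact h4.1
    · intro h4
      exact ⟨h4, by omega, by omega⟩
  · intro c B h1 h2 h3
    refine Cn.one (by show 0 < n; omega) _ fun x => ?_
    simp only [adm2_iff, mem_insert, mem_singleton, exists_eq_or_imp, exists_eq_left, k0, k1,
      Cn.card3, Cn.e33, Cn.e32, true_and, false_and, false_or]
    omega
  · intro c B h1 h2 h3
    refine Cn.one (by show 0 < n; omega) _ fun x => ?_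
    simp only [adm2_iff, mem_insert, mem_singleton, exists_eq_or_imp, exists_eq_left, k0, k1,
      Cn.card3, Cn.e33, Cn.e32, true_and, false_and, false_or]
    omega
  · intro c B h1 h2 h3 h4
    refine Eq.trans (congrArg card (filter_congr fun x _ => ?_)) (Cn.V0 _ hB)
    simp only [adm2_iff, mem_insert, mem_singleton, exists_eq_or_imp, exists_eq_left, k0, k1,
      Cn.card2, Cn.e22, Cn.e23, true_and, false_and, or_false]
    omega
  · intro c B h1 h2 h3
    refine Eq.trans (congrArg card (filter_congr fun x _ => ?_)) (Cn.V1 _ hB)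
    simp only [adm2_iff, mem_insert, mem_singleton, exists_eq_or_imp, exists_eq_left, k0, k1,
      Cn.card2, Cn.e22, Cn.e23, true_and, false_and, or_false]
    omega
  · intro c B h1 h2 h3
    rw [card_eq_zero, filter_eq_empty_iff]
    intro x _
    simp only [adm2_iff, mem_insert, mem_singleton, exists_eq_or_imp, exists_eq_left, k0, k1,
      Cn.card3, Cn.e33, Cn.e32, true_and, false_and, false_or]
    omega

theorem cPr2 (t : Bool) (n h : ℕ) (a : L2) (ha : Rm2 n h a) (T U Y : ℕ)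
    (hT : T = (if t then 3 else 4) * h * h) (hU : U = (if t then 4 else 3) * h * (n / 4 - 2 * h))
    (hY : Y = 3 * h * (n / 4 - 2 * h)) :
    (mk2 t n h a).cPr 2 = T * (T - 1) + 2 * T * (U + Y) + 2 * (U * Y) := by
  refine cPr_two _ (Cn.bd2 t n h a ha) T U Y ?_ ?_ ?_
  · rw [card_E01]
    exact hT
  · rw [card_E02]
    show Y = 3 * h * (n / 4 - (h + h))
    rw [hY, Nat.two_mul]
  · rw [card_E12]
    show U = (if t then 4 else 3) * h * (n / 4 - (h + h))
    rw [hU, Nat.two_mul]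

theorem ad2 (t : Bool) (n h : ℕ) (a : L2) (ha : Rm2 n h a) :
    ((mk2 t n h a).ad 2).card + 2 * Nat.multichoose (n - 4 * h) 4 =
      Nat.multichoose n 4 + Nat.multichoose (n - 8 * h) 4 := by
  have h1 := ad_two _ (Cn.bd2 t n h a ha).h
  have h2 : ((mk2 t n h a).ad 2).card +
      (Nat.multichoose (n - 4 * h) 4 + Nat.multichoose (n - 4 * h) 4) =
      Nat.multichoose n 4 + Nat.multichoose (n - 4 * (h + h)) 4 := h1
  have h3 : 4 * (h + h) = 8 * h := by ring
  rw [h3] at h2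
  omega

/-! ### Level 1 -/

private theorem Cn.hs1 (n h : ℕ) (a : L1) (ha : Rm1 n h a) :
    (mk1 n h a).h0 + (mk1 n h a).h1 = (mk1 n h a).n / 4 := by
  have := ha.hn
  show h + (n / 4 - h) = n / 4
  omega

theorem cRT1 (n h : ℕ) (a : L1) (ha : Rm1 n h a) :
    (mk1 n h a).cRT 1 = 4 * h * (n / 4 - h) * Nat.multichoose n 2 :=
  cRT_one _ (Cn.bd1 n h a ha) (Cn.hs1 n h a ha)

theorem cRF1 (n h : ℕ) (a : L1) (ha : Rm1 n h a) :
    (mk1 n h a).cRF 1 = a.d * n + a.w * (4 * h) := by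
  have hB := (Cn.bd1 n h a ha).h
  have e0 := Cn.V0 _ hB
  obtain ⟨hh, hn, -, -, bd, bw⟩ := ha
  have k0 : ∀ B, (mk1 n h a).col B = 0 ↔ B < h := col_eq0 (mk1 n h a)
  rw [Cn.cRF_eq]
  show ∑ δ ∈ frI 0 2 h a.d ∪ (range a.w).image
    (fun t => (h + t / 4, h + t / 4 + 2 + t % 4, 0)), _ = _
  have c1 : ∀ δ ∈ frI 0 2 h a.d, (if h ≤ δ.1 then 1 else 0) < 1 := by
    intro δ hδ
    unfold frI at hδ
    obtain ⟨t, ht, rfl⟩ := mem_image.1 hδ
    rw [if_neg (by show ¬ h ≤ 0 + t % 2; omega)]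
    omega
  have c2 : ∀ δ ∈ (range a.w).image (fun t => (h + t / 4, h + t / 4 + 2 + t % 4, 0)),
      (if h ≤ δ.1 then 1 else 0) = 1 := by
    intro δ hδ
    obtain ⟨t, ht, rfl⟩ := mem_image.1 hδ
    rw [if_pos (by show h ≤ h + t / 4; omega)]
  rw [Cn.sum_union _ _ (fun δ : ℕ × ℕ × ℕ => if h ≤ δ.1 then 1 else 0) 1 c1 c2,
    sum_frI 0 h a.d _ n]
  · congr 1
    rw [sum_image]
    · rw [sum_congr rfl (g := fun _ => 4 * h), sum_const, card_range, smul_eq_mul]
      intro s hs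
      refine Eq.trans (congrArg card (filter_congr fun x _ => ?_)) e0
      rw [adm1_iff]
      simp only [mem_insert, mem_singleton, exists_eq_or_imp, exists_eq_left, k0]
      omega
    · intro s _ s' _ hss
      have h1 : h + s / 4 = h + s' / 4 := congrArg (fun δ : ℕ × ℕ × ℕ => δ.1) hss
      have h2 : h + s / 4 + 2 + s % 4 = h + s' / 4 + 2 + s' % 4 :=
        congrArg (fun δ : ℕ × ℕ × ℕ => δ.2.1) hss
      exact Cn.divmod (k := 4) (by omega) (by omega)
  · intro s hs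
    refine Eq.trans (congrArg card (filter_true_of_mem fun x _ => ?_)) (card_range n)
    rw [adm1_iff]
    simp only [mem_insert, mem_singleton, exists_eq_or_imp, exists_eq_left, k0]
    omega

theorem cRG1 (n h : ℕ) (a : L1) (ha : Rm1 n h a) : (mk1 n h a).cRG 1 = a.p * (4 * h - 4) := by
  have hB := (Cn.bd1 n h a ha).h
  have k0 : ∀ B, (mk1 n h a).col B = 0 ↔ B < h := col_eq0 (mk1 n h a)
  have hh := ha.hh
  rw [Cn.cRG_eq, sum_Sp1 n h a ha _ (4 * h - 4) 0]
  · ring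
  · intro c B h1 h2 h3
    refine Eq.trans (congrArg card (filter_congr fun x _ => ?_))
      (Cn.V0ne _ hB (c := c) (by show c < h; omega))
    rw [adm1_iff]
    simp only [mem_insert, mem_singleton, exists_eq_or_imp, exists_eq_left, k0, Cn.card2, Cn.e22,
      Cn.e23, true_and, false_and, or_false]
    omega
  · intro c B h1 h2 h3
    rw [card_eq_zero, filter_eq_empty_iff]
    rintro x - ⟨h4, -⟩
    rw [Cn.card3] at h4
    omega

theorem cLo1 (n h : ℕ) (a : L1) (ha : Rm1 n h a) :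
    (mk1 n h a).cLo 1 = a.p * (n - 4) + a.q := by
  have k0 : ∀ B, (mk1 n h a).col B = 0 ↔ B < h := col_eq0 (mk1 n h a)
  have hh := ha.hh
  have hn := ha.hn
  rw [Cn.cLo_eq, sum_Sp1 n h a ha _ (n - 4) 1]
  · ring
  · intro c B h1 h2 h3
    refine Eq.trans (congrArg card (filter_congr fun x _ => ?_))
      (Cn.ne (n := n) (c := c) (by omega))
    rw [adm1_iff]
    simp only [mem_insert, mem_singleton, exists_eq_or_imp, exists_eq_left, k0, Cn.card2, Cn.e22,
      Cn.e23, true_and, false_and, or_false]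
    show _ ↔ bl n x ≠ c
    constructor
    · intro h4
      exact h4.1
    · intro h4
      exact ⟨h4, by omega⟩
  · intro c B h1 h2 h3
    refine Cn.one (by show 0 < n; omega) _ fun x => ?_
    simp only [adm1_iff, mem_insert, mem_singleton, exists_eq_or_imp, exists_eq_left, k0,
      Cn.card3, Cn.e33, Cn.e32, true_and, false_and, false_or]
    omega

theorem cPr1 (n h : ℕ) (a : L1) (ha : Rm1 n h a) (T : ℕ) (hT : T = 4 * h * (n / 4 - h)) :
    (mk1 n h a).cPr 1 = T * (T - 1) := by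
  refine cPr_one _ (Cn.bd1 n h a ha) (Cn.hs1 n h a ha) T ?_
  rw [card_E01]
  exact hT

theorem ad1 (n h : ℕ) (a : L1) (ha : Rm1 n h a) :
    ((mk1 n h a).ad 1).card + Nat.multichoose (n - 4 * h) 4 = Nat.multichoose n 4 :=
  ad_one _ (Cn.bd1 n h a ha).h

end Pool.Agent.KZ.AL
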