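import Pool.Agent.KZ.AL.Mk

/-!
# KZ4, ALPHA: counts, general part
-/

set_option autoImplicit false

namespace Pool.Agent.KZ.AL

open Finset

/-! ### Pairs and multisets of variables -/

/-- The pairs `x ≤ y` in `S`. -/
def le2 (S : Finset ℕ) : Finset (ℕ × ℕ) := (S ×ˢ S).filter fun r => r.1 ≤ r.2

theorem card_le2 (S : Finset ℕ) : (le2 S).card = Nat.multichoose S.card 2 := by
  have h1 : (le2 S).card = ((S ×ˢ S).filter fun r => r.2 ≤ r.1).card := by
    refine card_bij (fun r _ => (r.2, r.1)) ?_ ?_ ?_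
    · intro r hr
      unfold le2 at hr
      rw [mem_filter, mem_product] at hr ⊢
      exact ⟨⟨hr.1.2, hr.1.1⟩, hr.2⟩
    · rintro ⟨a, b⟩ _ ⟨c, d⟩ _ h
      rw [Prod.mk.injEq] at h ⊢
      exact ⟨h.2, h.1⟩
    · intro r hr
      rw [mem_filter, mem_product] at hr
      refine ⟨(r.2, r.1), ?_, rfl⟩
      unfold le2
      rw [mem_filter, mem_product]
      exact ⟨⟨hr.1.2, hr.1.1⟩, hr.2⟩
  have h2 : (le2 S).card + ((S ×ˢ S).filter fun r => r.2 ≤ r.1).card =
      (S ×ˢ S).card + ((S ×ˢ S).filter fun r => r.1 = r.2).card := by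
    unfold le2
    rw [← card_union_add_card_inter]
    congr 1
    · congr 1
      ext r
      rw [mem_union, mem_filter, mem_filter]
      constructor
      · rintro (h | h)
        · exact h.1
        · exact h.1
      · intro h
        rcases le_total r.1 r.2 with h' | h'
        · exact Or.inl ⟨h, h'⟩
        · exact Or.inr ⟨h, h'⟩
    · congr 1
      ext r
      rw [mem_inter, mem_filter, mem_filter, mem_filter]
      constructor
      · rintro ⟨h, h'⟩
        exact ⟨h.1, le_antisymm h.2 h'.2⟩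
      · rintro ⟨h, h'⟩
        exact ⟨⟨h, h'.le⟩, ⟨h, h'.ge⟩⟩
  have h3 : ((S ×ˢ S).filter fun r => r.1 = r.2).card = S.card := by
    symm
    refine card_bij (fun a _ => (a, a)) ?_ ?_ ?_
    · intro a ha
      exact mem_filter.2 ⟨mem_product.2 ⟨ha, ha⟩, rfl⟩
    · intro a _ b _ h
      exact (Prod.mk.injEq _ _ _ _ ▸ h).1
    · rintro ⟨a, b⟩ hr
      rw [mem_filter, mem_product] at hr
      have h4 : a = b := hr.2
      subst h4
      exact ⟨a, hr.1.1, rfl⟩
  rw [← h1, h3, card_product] at h2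
  have h4 : 2 * Nat.multichoose S.card 2 = S.card * S.card + S.card := by
    rw [Nat.multichoose_eq, Nat.choose_two_right]
    have h5 : S.card + 2 - 1 = S.card + 1 := by omega
    rw [h5, Nat.add_sub_cancel]
    have h6 : 2 ∣ (S.card + 1) * S.card := by
      rw [mul_comm]
      exact (Nat.even_mul_succ_self S.card).two_dvd
    rw [Nat.mul_div_cancel' h6]
    ring
  omega

/-- The pairs `x ≤ y` which meet `I`. -/
theorem card_le2_or (S I : Finset ℕ) (hI : I ⊆ S) :
    ((le2 S).filter fun r => r.1 ∈ I ∨ r.2 ∈ I).card =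
      Nat.multichoose S.card 2 - Nat.multichoose (S.card - I.card) 2 := by
  have h1 := card_filter_add_card_filter_not (s := le2 S) fun r => r.1 ∈ I ∨ r.2 ∈ I
  have h2 : (le2 S).filter (fun r => ¬ (r.1 ∈ I ∨ r.2 ∈ I)) = le2 (S \ I) := by
    ext r
    unfold le2
    rw [mem_filter, mem_filter, mem_filter, mem_product, mem_product, mem_sdiff, mem_sdiff]
    tauto
  rw [h2, card_le2, card_le2, card_sdiff_of_subset hI] at h1
  omega

theorem card_sym_fin (S : Finset ℕ) (k : ℕ) : (S.sym k).card = Nat.multichoose S.card k := by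
  have h1 : S.sym k = (univ : Finset (Sym {x // x ∈ S} k)).map
      ⟨Sym.map Subtype.val, Sym.map_injective Subtype.val_injective k⟩ := by
    ext m
    rw [mem_sym_iff, mem_map]
    constructor
    · intro h
      refine ⟨m.attach.map fun x => ⟨x.1, h x.1 x.2⟩, mem_univ _, ?_⟩
      show Sym.map Subtype.val (Sym.map (fun x : {x // x ∈ m} => (⟨x.1, h x.1 x.2⟩ : {x // x ∈ S}))
        m.attach) = m
      rw [Sym.map_map]
      exact Sym.attach_map_coe m
    · rintro ⟨m', -, rfl⟩ a ha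
      obtain ⟨b, -, rfl⟩ := Sym.mem_map.1 ha
      exact b.2
  rw [h1, card_map, card_univ, Sym.card_sym_eq_multichoose, Fintype.card_coe]

theorem mem_mons' {n : ℕ} {e : Multiset ℕ} :
    e ∈ mons n ↔ Multiset.card e = 4 ∧ ∀ s ∈ e, s < n := by
  unfold mons
  rw [mem_image]
  constructor
  · rintro ⟨m, hm, rfl⟩
    refine ⟨m.2, fun s hs => ?_⟩
    exact mem_range.1 (mem_sym_iff.1 hm s hs)
  · rintro ⟨h1, h2⟩
    exact ⟨⟨e, h1⟩, mem_sym_iff.2 fun s hs => mem_range.2 (h2 s hs), rfl⟩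

/-- The multisets with variables in `S`. -/
theorem card_mons_sub (n : ℕ) (S : Finset ℕ) (hS : S ⊆ range n) :
    ((mons n).filter fun e => ∀ s ∈ e, s ∈ S).card = Nat.multichoose S.card 4 := by
  rw [← card_sym_fin]
  symm
  refine card_bij (fun (m : Sym ℕ 4) _ => (m : Multiset ℕ)) ?_ ?_ ?_
  · intro m hm
    rw [mem_sym_iff] at hm
    refine mem_filter.2 ⟨mem_mons'.2 ⟨m.2, fun s hs => mem_range.1 (hS (hm s hs))⟩, fun s hs => hm s hs⟩
  · intro m _ m' _ h
    exact Subtype.ext h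
  · intro e he
    rw [mem_filter, mem_mons'] at he
    exact ⟨⟨e, he.1.1⟩, mem_sym_iff.2 fun s hs => he.2 s hs, rfl⟩

theorem card_mons (n : ℕ) : (mons n).card = Nat.multichoose n 4 := by
  have h1 := card_mons_sub n (range n) (Subset.refl _)
  rw [card_range] at h1
  rw [← h1]
  congr 1
  symm
  rw [filter_eq_self]
  intro e he s hs
  exact mem_range.2 ((mem_mons'.1 he).2 s hs)

theorem card_filter_prod {α β : Type} (s : Finset α) (t : Finset β)
    (P : α × β → Prop) [DecidablePred P] :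
    ((s ×ˢ t).filter P).card = ∑ a ∈ s, (t.filter fun b => P (a, b)).card := by
  rw [card_filter, sum_product]
  refine sum_congr rfl fun a _ => ?_
  rw [card_filter]

/-! ### Colours -/

section

variable (D : Dg)

theorem col_bl0 (h : D.h0 + D.h1 ≤ D.n / 4) (x : ℕ) : D.col (bl D.n x) = 0 ↔ x < 4 * D.h0 := by
  unfold Dg.col bl
  split_ifs <;> constructor <;> intro h' <;> first | omega | exact h'.elim

theorem col_bl1 (h : D.h0 + D.h1 ≤ D.n / 4) (x : ℕ) :
    D.col (bl D.n x) = 1 ↔ 4 * D.h0 ≤ x ∧ x < 4 * (D.h0 + D.h1) := by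
  unfold Dg.col bl
  split_ifs <;> constructor <;> intro h' <;> first | omega | exact h'.elim

theorem col_eq0 (B : ℕ) : D.col B = 0 ↔ B < D.h0 := by
  unfold Dg.col
  split_ifs <;> constructor <;> intro h' <;> first | omega | exact h'.elim

theorem col_eq1 (B : ℕ) : D.col B = 1 ↔ D.h0 ≤ B ∧ B < D.h0 + D.h1 := by
  unfold Dg.col
  split_ifs <;> constructor <;> intro h' <;> first | omega | exact h'.elim

theorem col_eq2 (B : ℕ) : D.col B = 2 ↔ D.h0 + D.h1 ≤ B ∧ B < D.n / 4 := by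
  unfold Dg.col
  split_ifs <;> constructor <;> intro h' <;> first | omega | exact h'.elim

theorem adm2_iff (J : Finset ℕ) :
    D.adm 2 J ↔ (∃ B ∈ J, D.col B = 0) ∧ ∃ B ∈ J, D.col B = 1 := by
  unfold Dg.adm
  constructor
  · intro h
    exact ⟨h 0 (by omega), h 1 (by omega)⟩
  · rintro ⟨h0, h1⟩ i hi
    have : i = 0 ∨ i = 1 := by omega
    rcases this with rfl | rfl
    · exact h0
    · exact h1

theorem adm1_iff (J : Finset ℕ) : D.adm 1 J ↔ ∃ B ∈ J, D.col B = 0 := by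
  unfold Dg.adm
  constructor
  · intro h
    exact h 0 (by omega)
  · intro h0 i hi
    have : i = 0 := by omega
    rw [this]
    exact h0

/-- The T-points of the edges with the colours `0`, `1`. -/
def E01 : Finset (ℕ × ℕ × ℕ) := range D.h0 ×ˢ Ico D.h0 (D.h0 + D.h1) ×ˢ range D.n01

def E02 : Finset (ℕ × ℕ × ℕ) := range D.h0 ×ˢ Ico (D.h0 + D.h1) (D.n / 4) ×ˢ range D.n02

def E12 : Finset (ℕ × ℕ × ℕ) :=
  Ico D.h0 (D.h0 + D.h1) ×ˢ Ico (D.h0 + D.h1) (D.n / 4) ×ˢ range D.n12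

theorem mem_E01 {D : Dg} {τ : ℕ × ℕ × ℕ} : τ ∈ E01 D ↔
    τ.1 < D.h0 ∧ (D.h0 ≤ τ.2.1 ∧ τ.2.1 < D.h0 + D.h1) ∧ τ.2.2 < D.n01 := by
  unfold E01
  rw [mem_product, mem_product, mem_range, mem_Ico, mem_range]

theorem mem_E02 {D : Dg} {τ : ℕ × ℕ × ℕ} : τ ∈ E02 D ↔
    τ.1 < D.h0 ∧ (D.h0 + D.h1 ≤ τ.2.1 ∧ τ.2.1 < D.n / 4) ∧ τ.2.2 < D.n02 := by
  unfold E02
  rw [mem_product, mem_product, mem_range, mem_Ico, mem_range]

theorem mem_E12 {D : Dg} {τ : ℕ × ℕ × ℕ} : τ ∈ E12 D ↔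
    (D.h0 ≤ τ.1 ∧ τ.1 < D.h0 + D.h1) ∧ (D.h0 + D.h1 ≤ τ.2.1 ∧ τ.2.1 < D.n / 4) ∧
      τ.2.2 < D.n12 := by
  unfold E12
  rw [mem_product, mem_product, mem_Ico, mem_Ico, mem_range]

structure Bd : Prop where
  h : D.h0 + D.h1 ≤ D.n / 4
  n01 : D.n01 ≤ 4
  n02 : D.n02 ≤ 4
  n12 : D.n12 ≤ 4

theorem TP_eq (hD : Bd D) : D.TP = E01 D ∪ (E02 D ∪ E12 D) := by
  ext τ
  obtain ⟨h1, h2, h3, h4⟩ := hD
  rw [mem_union, mem_union, mem_E01, mem_E02, mem_E12]
  unfold Dg.TP
  rw [mem_filter, mem_product, mem_product, mem_range, mem_range, mem_range]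
  unfold Dg.nn Dg.nb
  simp only [col_eq0, col_eq1, col_eq2]
  split_ifs <;> constructor <;> intro h' <;> first | omega | exact h'.elim

theorem disj_E : Disjoint (E01 D) (E02 D ∪ E12 D) ∧ Disjoint (E02 D) (E12 D) := by
  constructor
  · rw [disjoint_left]
    intro τ h1 h2
    rw [mem_union, mem_E02, mem_E12] at h2
    rw [mem_E01] at h1
    omega
  · rw [disjoint_left]
    intro τ h1 h2
    rw [mem_E12] at h2
    rw [mem_E02] at h1
    omega

theorem card_E01 : (E01 D).card = D.n01 * D.h0 * D.h1 := by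
  unfold E01
  rw [card_product, card_product, card_range, card_range, Nat.card_Ico, Nat.add_sub_cancel_left]
  ring

theorem card_E02 : (E02 D).card = D.n02 * D.h0 * (D.n / 4 - (D.h0 + D.h1)) := by
  unfold E02
  rw [card_product, card_product, card_range, card_range, Nat.card_Ico]
  ring

theorem card_E12 : (E12 D).card = D.n12 * D.h1 * (D.n / 4 - (D.h0 + D.h1)) := by
  unfold E12
  rw [card_product, card_product, card_range, Nat.card_Ico, Nat.card_Ico, Nat.add_sub_cancel_left]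
  ring

theorem sum_TP (hD : Bd D) (f : ℕ × ℕ × ℕ → ℕ) :
    ∑ τ ∈ D.TP, f τ = ∑ τ ∈ E01 D, f τ + (∑ τ ∈ E02 D, f τ + ∑ τ ∈ E12 D, f τ) := by
  rw [TP_eq D hD, sum_union (disj_E D).1, sum_union (disj_E D).2]

/-- The colours of the variables: `0`. -/
def V0 : Finset ℕ := range (4 * D.h0)

/-- The colours of the variables: `1`. -/
def V1 : Finset ℕ := Ico (4 * D.h0) (4 * (D.h0 + D.h1))

theorem card_V0 : (V0 D).card = 4 * D.h0 := card_range _

theorem card_V1 : (V1 D).card = 4 * D.h1 := by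
  unfold V1
  rw [Nat.card_Ico]
  omega

theorem mem_V0 (h : D.h0 + D.h1 ≤ D.n / 4) (x : ℕ) : D.col (bl D.n x) = 0 ↔ x ∈ V0 D := by
  rw [col_bl0 D h]
  unfold V0
  rw [mem_range]

theorem mem_V1 (h : D.h0 + D.h1 ≤ D.n / 4) (x : ℕ) : D.col (bl D.n x) = 1 ↔ x ∈ V1 D := by
  rw [col_bl1 D h]
  unfold V1
  rw [mem_Ico]

theorem V0_sub (h : D.h0 + D.h1 ≤ D.n / 4) : V0 D ⊆ range D.n := by
  intro x hx
  unfold V0 at hx
  rw [mem_range] at hx ⊢
  omega

theorem V1_sub (h : D.h0 + D.h1 ≤ D.n / 4) : V1 D ⊆ range D.n := by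
  intro x hx
  unfold V1 at hx
  rw [mem_Ico] at hx
  rw [mem_range]
  omega

theorem V01_disj : Disjoint (V0 D) (V1 D) := by
  rw [disjoint_left]
  intro x h1 h2
  unfold V0 at h1
  unfold V1 at h2
  rw [mem_range] at h1
  rw [mem_Ico] at h2
  omega

/-! ### T-rows -/

theorem cRT_eq (lv : ℕ) : D.cRT lv = ∑ τ ∈ D.TP, ((le2 (range D.n)).filter fun r =>
    D.adm lv {τ.1, τ.2.1, bl D.n r.1, bl D.n r.2}).card := by
  unfold Dg.cRT
  rw [card_filter_prod]
  refine sum_congr rfl fun τ _ => ?_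
  unfold le2
  rw [filter_filter]

theorem cRT_two (hD : Bd D) : D.cRT 2 = D.n01 * D.h0 * D.h1 * Nat.multichoose D.n 2 +
    (D.n02 * D.h0 * (D.n / 4 - (D.h0 + D.h1)) *
        (Nat.multichoose D.n 2 - Nat.multichoose (D.n - 4 * D.h1) 2) +
      D.n12 * D.h1 * (D.n / 4 - (D.h0 + D.h1)) *
        (Nat.multichoose D.n 2 - Nat.multichoose (D.n - 4 * D.h0) 2)) := by
  rw [cRT_eq, sum_TP D hD]
  congr 1
  · rw [sum_congr rfl (g := fun _ => Nat.multichoose D.n 2), sum_const, smul_eq_mul, card_E01]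
    intro τ hτ
    rw [mem_E01] at hτ
    have h1 : (le2 (range D.n)).filter (fun r =>
        D.adm 2 {τ.1, τ.2.1, bl D.n r.1, bl D.n r.2}) = le2 (range D.n) := by
      rw [filter_eq_self]
      intro r _
      rw [adm2_iff]
      refine ⟨⟨τ.1, by simp, ?_⟩, ⟨τ.2.1, by simp, ?_⟩⟩
      · rw [col_eq0]
        exact hτ.1
      · rw [col_eq1]
        exact hτ.2.1
    rw [h1, card_le2, card_range]
  congr 1
  · rw [sum_congr rfl (g := fun _ => Nat.multichoose D.n 2 - Nat.multichoose (D.n - 4 * D.h1) 2),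
      sum_const, smul_eq_mul, card_E02]
    intro τ hτ
    rw [mem_E02] at hτ
    have h1 : (le2 (range D.n)).filter (fun r =>
        D.adm 2 {τ.1, τ.2.1, bl D.n r.1, bl D.n r.2}) =
        (le2 (range D.n)).filter fun r => r.1 ∈ V1 D ∨ r.2 ∈ V1 D := by
      refine filter_congr fun r _ => ?_
      rw [adm2_iff, ← mem_V1 D hD.h, ← mem_V1 D hD.h]
      have h2 : D.col τ.1 = 0 := (col_eq0 D _).2 hτ.1
      have h3 : D.col τ.2.1 = 2 := (col_eq2 D _).2 hτ.2.1
      simp only [mem_insert, mem_singleton, exists_eq_or_imp, exists_eq_left, h2, h3]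
      simp
    rw [h1, card_le2_or _ _ (V1_sub D hD.h), card_range, card_V1]
  · rw [sum_congr rfl (g := fun _ => Nat.multichoose D.n 2 - Nat.multichoose (D.n - 4 * D.h0) 2),
      sum_const, smul_eq_mul, card_E12]
    intro τ hτ
    rw [mem_E12] at hτ
    have h1 : (le2 (range D.n)).filter (fun r =>
        D.adm 2 {τ.1, τ.2.1, bl D.n r.1, bl D.n r.2}) =
        (le2 (range D.n)).filter fun r => r.1 ∈ V0 D ∨ r.2 ∈ V0 D := by
      refine filter_congr fun r _ => ?_
      rw [adm2_iff, ← mem_V0 D hD.h, ← mem_V0 D hD.h]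
      have h2 : D.col τ.1 = 1 := (col_eq1 D _).2 hτ.1
      have h3 : D.col τ.2.1 = 2 := (col_eq2 D _).2 hτ.2.1
      simp only [mem_insert, mem_singleton, exists_eq_or_imp, exists_eq_left, h2, h3]
      simp
    rw [h1, card_le2_or _ _ (V0_sub D hD.h), card_range, card_V0]

theorem cRT_one (hD : Bd D) (h2 : D.h0 + D.h1 = D.n / 4) :
    D.cRT 1 = D.n01 * D.h0 * D.h1 * Nat.multichoose D.n 2 := by
  rw [cRT_eq, sum_TP D hD]
  have e1 : E02 D = ∅ := by
    rw [← card_eq_zero, card_E02, h2, Nat.sub_self, Nat.mul_zero]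
  have e2 : E12 D = ∅ := by
    rw [← card_eq_zero, card_E12, h2, Nat.sub_self, Nat.mul_zero]
  rw [e1, e2, sum_empty, Nat.add_zero, Nat.add_zero,
    sum_congr rfl (g := fun _ => Nat.multichoose D.n 2), sum_const, smul_eq_mul, card_E01]
  intro τ hτ
  rw [mem_E01] at hτ
  have h1 : (le2 (range D.n)).filter (fun r =>
      D.adm 1 {τ.1, τ.2.1, bl D.n r.1, bl D.n r.2}) = le2 (range D.n) := by
    rw [filter_eq_self]
    intro r _
    rw [adm1_iff]
    refine ⟨τ.1, by simp, ?_⟩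
    rw [col_eq0]
    exact hτ.1
  rw [h1, card_le2, card_range]

/-! ### Pairs -/

theorem cPr_eq (lv : ℕ) : D.cPr lv = ∑ τ ∈ D.TP, (D.TP.filter fun τ' =>
    τ ≠ τ' ∧ D.adm lv {τ.1, τ.2.1, τ'.1, τ'.2.1}).card := by
  unfold Dg.cPr
  have h1 := card_filter_prod D.TP D.TP
    (fun r : (ℕ × ℕ × ℕ) × (ℕ × ℕ × ℕ) =>
      r.1 ≠ r.2 ∧ D.adm lv {r.1.1, r.1.2.1, r.2.1, r.2.2.1})
  refine Eq.trans ?_ h1
  congr 1
  ext r
  rw [mem_filter, mem_filter, mem_offDiag, mem_product]
  tauto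

theorem cPr_two (hD : Bd D) (T U Y : ℕ) (hT : T = (E01 D).card) (hY : Y = (E02 D).card)
    (hU : U = (E12 D).card) : D.cPr 2 = T * (T - 1) + 2 * T * (U + Y) + 2 * (U * Y) := by
  have hTP : D.TP.card = T + (Y + U) := by
    rw [TP_eq D hD, card_union_of_disjoint (disj_E D).1, card_union_of_disjoint (disj_E D).2, hT,
      hU, hY]
  rw [cPr_eq, sum_TP D hD]
  have h1 : ∀ τ ∈ E01 D, (D.TP.filter fun τ' =>
      τ ≠ τ' ∧ D.adm 2 {τ.1, τ.2.1, τ'.1, τ'.2.1}).card = T - 1 + (Y + U) := by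
    intro τ hτ
    have hτT : τ ∈ D.TP := by
      rw [TP_eq D hD]
      exact mem_union_left _ hτ
    have hpos : 0 < T := by
      rw [hT]
      exact card_pos.2 ⟨τ, hτ⟩
    have h2 : (D.TP.filter fun τ' => τ ≠ τ' ∧ D.adm 2 {τ.1, τ.2.1, τ'.1, τ'.2.1}) =
        D.TP.erase τ := by
      ext τ'
      rw [mem_filter, mem_erase]
      rw [mem_E01] at hτ
      constructor
      · rintro ⟨h, h', -⟩
        exact ⟨h'.symm, h⟩
      · rintro ⟨h', h⟩
        refine ⟨h, h'.symm, ?_⟩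
        rw [adm2_iff]
        exact ⟨⟨τ.1, by simp, (col_eq0 D _).2 hτ.1⟩, ⟨τ.2.1, by simp, (col_eq1 D _).2 hτ.2.1⟩⟩
    rw [h2, card_erase_of_mem hτT, hTP]
    omega
  have h2 : ∀ τ ∈ E02 D, (D.TP.filter fun τ' =>
      τ ≠ τ' ∧ D.adm 2 {τ.1, τ.2.1, τ'.1, τ'.2.1}).card = T + U := by
    intro τ hτ
    have h3 : (D.TP.filter fun τ' => τ ≠ τ' ∧ D.adm 2 {τ.1, τ.2.1, τ'.1, τ'.2.1}) =
        E01 D ∪ E12 D := by
      ext τ'
      rw [mem_filter, TP_eq D hD, mem_union, mem_union, mem_union, mem_E01, mem_E02, mem_E12,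
        adm2_iff]
      rw [mem_E02] at hτ
      have h4 : D.col τ.1 = 0 := (col_eq0 D _).2 hτ.1
      have h5 : D.col τ.2.1 = 2 := (col_eq2 D _).2 hτ.2.1
      simp only [mem_insert, mem_singleton, exists_eq_or_imp, exists_eq_left, h4, h5, col_eq1]
      constructor
      · rintro ⟨h6, -, -, h7⟩
        rcases h6 with h6 | h6 | h6
        · exact Or.inl h6
        · exfalso
          rcases h7 with h7 | h7 | h7 | h7
          · omega
          · omega
          · omega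
          · omega
        · exact Or.inr h6
      · intro h6
        refine ⟨by tauto, ?_, by simp, ?_⟩
        · rintro rfl
          omega
        · rcases h6 with h6 | h6
          · exact Or.inr (Or.inr (Or.inr h6.2.1))
          · exact Or.inr (Or.inr (Or.inl h6.1))
    have h4 : Disjoint (E01 D) (E12 D) :=
      disjoint_of_subset_right (subset_union_right (s₁ := E02 D)) (disj_E D).1
    rw [h3, card_union_of_disjoint h4, hT, hU]
  have h3 : ∀ τ ∈ E12 D, (D.TP.filter fun τ' =>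
      τ ≠ τ' ∧ D.adm 2 {τ.1, τ.2.1, τ'.1, τ'.2.1}).card = T + Y := by
    intro τ hτ
    have h3 : (D.TP.filter fun τ' => τ ≠ τ' ∧ D.adm 2 {τ.1, τ.2.1, τ'.1, τ'.2.1}) =
        E01 D ∪ E02 D := by
      ext τ'
      rw [mem_filter, TP_eq D hD, mem_union, mem_union, mem_union, mem_E01, mem_E02, mem_E12,
        adm2_iff]
      rw [mem_E12] at hτ
      have h4 : D.col τ.1 = 1 := (col_eq1 D _).2 hτ.1
      have h5 : D.col τ.2.1 = 2 := (col_eq2 D _).2 hτ.2.1
      simp only [mem_insert, mem_singleton, exists_eq_or_imp, exists_eq_left, h4, h5, col_eq0]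
      constructor
      · rintro ⟨h6, -, h7, -⟩
        rcases h6 with h6 | h6 | h6
        · exact Or.inl h6
        · exact Or.inr h6
        · exfalso
          rcases h7 with h7 | h7 | h7 | h7
          · omega
          · omega
          · omega
          · omega
      · intro h6
        refine ⟨by tauto, ?_, ?_, by simp⟩
        · rintro rfl
          omega
        · rcases h6 with h6 | h6
          · exact Or.inr (Or.inr (Or.inl h6.1))
          · exact Or.inr (Or.inr (Or.inl h6.1))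
    have h4 : Disjoint (E01 D) (E02 D) :=
      disjoint_of_subset_right (subset_union_left (s₂ := E12 D)) (disj_E D).1
    rw [h3, card_union_of_disjoint h4, hT, hY]
  rw [sum_congr rfl h1, sum_congr rfl h2, sum_congr rfl h3, sum_const, sum_const, sum_const,
    smul_eq_mul, smul_eq_mul, smul_eq_mul, ← hT, ← hU, ← hY]
  ring

theorem cPr_one (hD : Bd D) (h2 : D.h0 + D.h1 = D.n / 4) (T : ℕ) (hT : T = (E01 D).card) :
    D.cPr 1 = T * (T - 1) := by
  have e1 : E02 D = ∅ := by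
    rw [← card_eq_zero, card_E02, h2, Nat.sub_self, Nat.mul_zero]
  have e2 : E12 D = ∅ := by
    rw [← card_eq_zero, card_E12, h2, Nat.sub_self, Nat.mul_zero]
  have hTP : D.TP = E01 D := by
    rw [TP_eq D hD, e1, e2, union_empty, union_empty]
  rw [cPr_eq, hTP, sum_congr rfl (g := fun _ => T - 1), sum_const, smul_eq_mul, ← hT]
  intro τ hτ
  have h3 : ((E01 D).filter fun τ' => τ ≠ τ' ∧ D.adm 1 {τ.1, τ.2.1, τ'.1, τ'.2.1}) =
      (E01 D).erase τ := by
    ext τ'
    rw [mem_filter, mem_erase]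
    constructor
    · rintro ⟨h, h', -⟩
      exact ⟨h'.symm, h⟩
    · rintro ⟨h', h⟩
      refine ⟨h, h'.symm, ?_⟩
      rw [adm1_iff]
      exact ⟨τ.1, by simp, (col_eq0 D _).2 (mem_E01.1 hτ).1⟩
  rw [h3, card_erase_of_mem hτ, hT]

/-! ### Columns -/

theorem mem_lb' {n : ℕ} {e : Multiset ℕ} {b : ℕ} : b ∈ lb n e ↔ ∃ s ∈ e, bl n s = b := by
  unfold lb
  rw [mem_image]
  constructor
  · rintro ⟨s, hs, h⟩
    exact ⟨s, Multiset.mem_toFinset.1 hs, h⟩
  · rintro ⟨s, hs, h⟩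
    exact ⟨s, Multiset.mem_toFinset.2 hs, h⟩

theorem ad_one (h : D.h0 + D.h1 ≤ D.n / 4) :
    (D.ad 1).card + Nat.multichoose (D.n - 4 * D.h0) 4 = Nat.multichoose D.n 4 := by
  rw [← card_mons D.n]
  have h1 := card_filter_add_card_filter_not (s := mons D.n) fun e => D.adm 1 (lb D.n e)
  have h2 : (mons D.n).filter (fun e => ¬ D.adm 1 (lb D.n e)) =
      (mons D.n).filter fun e => ∀ s ∈ e, s ∈ range D.n \ V0 D := by
    refine filter_congr fun e he => ?_
    rw [adm1_iff]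
    constructor
    · intro h3 s hs
      rw [mem_sdiff, mem_range]
      refine ⟨(mem_mons'.1 he).2 s hs, fun h4 => h3 ⟨bl D.n s, mem_lb'.2 ⟨s, hs, rfl⟩, ?_⟩⟩
      exact (mem_V0 D h s).2 h4
    · rintro h3 ⟨B, hB, hB'⟩
      obtain ⟨s, hs, rfl⟩ := mem_lb'.1 hB
      have h4 := h3 s hs
      rw [mem_sdiff] at h4
      exact h4.2 ((mem_V0 D h s).1 hB')
  rw [h2, card_mons_sub _ _ sdiff_subset, card_sdiff_of_subset (V0_sub D h), card_range,
    card_V0] at h1
  exact h1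

theorem ad_two (h : D.h0 + D.h1 ≤ D.n / 4) :
    (D.ad 2).card + (Nat.multichoose (D.n - 4 * D.h0) 4 + Nat.multichoose (D.n - 4 * D.h1) 4) =
      Nat.multichoose D.n 4 + Nat.multichoose (D.n - 4 * (D.h0 + D.h1)) 4 := by
  have key : ∀ S : Finset ℕ, S ⊆ range D.n → ((mons D.n).filter fun e => ∀ s ∈ e, s ∉ S).card =
      Nat.multichoose (D.n - S.card) 4 := by
    intro S hS
    have h2 : (mons D.n).filter (fun e => ∀ s ∈ e, s ∉ S) =
        (mons D.n).filter fun e => ∀ s ∈ e, s ∈ range D.n \ S := by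
      refine filter_congr fun e he => ?_
      constructor
      · intro h3 s hs
        rw [mem_sdiff, mem_range]
        exact ⟨(mem_mons'.1 he).2 s hs, h3 s hs⟩
      · intro h3 s hs
        exact (mem_sdiff.1 (h3 s hs)).2
    rw [h2, card_mons_sub _ _ sdiff_subset, card_sdiff_of_subset hS, card_range]
  have h0 := key _ (V0_sub D h)
  have h1 := key _ (V1_sub D h)
  have h01 := key (V0 D ∪ V1 D) (union_subset (V0_sub D h) (V1_sub D h))
  rw [card_V0] at h0
  rw [card_V1] at h1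
  rw [card_union_of_disjoint (V01_disj D), card_V0, card_V1, ← Nat.mul_add] at h01
  have h2 := card_filter_add_card_filter_not (s := mons D.n) fun e => D.adm 2 (lb D.n e)
  have h3 : (mons D.n).filter (fun e => ¬ D.adm 2 (lb D.n e)) =
      (mons D.n).filter (fun e => ∀ s ∈ e, s ∉ V0 D) ∪
        (mons D.n).filter fun e => ∀ s ∈ e, s ∉ V1 D := by
    rw [← filter_or]
    refine filter_congr fun e _ => ?_
    rw [adm2_iff, not_and_or]
    refine or_congr ?_ ?_
    · constructor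
      · intro h3 s hs h4
        exact h3 ⟨bl D.n s, mem_lb'.2 ⟨s, hs, rfl⟩, (mem_V0 D h s).2 h4⟩
      · rintro h3 ⟨B, hB, hB'⟩
        obtain ⟨s, hs, rfl⟩ := mem_lb'.1 hB
        exact h3 s hs ((mem_V0 D h s).1 hB')
    · constructor
      · intro h3 s hs h4
        exact h3 ⟨bl D.n s, mem_lb'.2 ⟨s, hs, rfl⟩, (mem_V1 D h s).2 h4⟩
      · rintro h3 ⟨B, hB, hB'⟩
        obtain ⟨s, hs, rfl⟩ := mem_lb'.1 hB
        exact h3 s hs ((mem_V1 D h s).1 hB')
  have h4 : (mons D.n).filter (fun e => ∀ s ∈ e, s ∉ V0 D) ∩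
      (mons D.n).filter (fun e => ∀ s ∈ e, s ∉ V1 D) =
      (mons D.n).filter fun e => ∀ s ∈ e, s ∉ V0 D ∪ V1 D := by
    rw [← filter_and]
    refine filter_congr fun e _ => ?_
    constructor
    · rintro ⟨h5, h6⟩ s hs h7
      rcases mem_union.1 h7 with h7 | h7
      · exact h5 s hs h7
      · exact h6 s hs h7
    · intro h5
      exact ⟨fun s hs h7 => h5 s hs (mem_union_left _ h7),
        fun s hs h7 => h5 s hs (mem_union_right _ h7)⟩
  have h5 := card_union_add_card_inter ((mons D.n).filter fun e => ∀ s ∈ e, s ∉ V0 D)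
    ((mons D.n).filter fun e => ∀ s ∈ e, s ∉ V1 D)
  rw [h4, ← h3, h0, h1, h01] at h5
  rw [card_mons] at h2
  unfold Dg.ad
  omega

end

end Pool.Agent.KZ.AL
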