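import Pool.Agent.KZ.AL.Ext

/-!
# KZ4, ALPHA: transfer of the finite checks

`θ 0 < θ 1 < … < θ (k - 1)` are the blocks of `J`; the design `D'` has the blocks `0, …, k - 1` with the
same colours.  Variables of `D'` correspond to the variables of `D` in the blocks of `J`
(order isomorphism: `x' ↦` the variable of the block `θ (bl D'.n x')` with the same index in the block).
All rows of `D` with the label `J` come from different rows of `D'` with the label `range k` (gained rows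
from free rows); all pairs and losses of `D'` give different pairs and losses of `D`.
-/

set_option autoImplicit false

namespace Pool.Agent.KZ.AL
open Finset

/-- The index of a variable in its block. -/
def Tr.ix (n s : ℕ) : ℕ := if s < 4 * (n / 4) then s % 4 else 0

/-- The variable with a given block and index. -/
def Tr.vr (n B r : ℕ) : ℕ := if B < n / 4 then 4 * B + r else B + 3 * (n / 4)

theorem Tr.ix_lt (n s : ℕ) : Tr.ix n s < 4 := by
  unfold Tr.ix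
  split_ifs <;> omega

theorem Tr.bl_vr (n B r : ℕ) (hr : r < 4) : bl n (Tr.vr n B r) = B := by
  unfold bl Tr.vr
  split_ifs <;> omega

theorem Tr.ix_vr (n B r : ℕ) (hr : r < 4) (hB : B < n / 4 ∨ r = 0) :
    Tr.ix n (Tr.vr n B r) = r := by
  unfold Tr.ix Tr.vr
  split_ifs <;> omega

theorem Tr.vr_bl (n s : ℕ) : Tr.vr n (bl n s) (Tr.ix n s) = s := by
  unfold Tr.ix Tr.vr bl
  split_ifs <;> omega

theorem Tr.bl_lt (n s : ℕ) : bl n s < n / 4 + n % 4 ↔ s < n := by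
  unfold bl
  split_ifs <;> omega

theorem Tr.bl_lt' (n s : ℕ) : bl n s < n / 4 ∨ Tr.ix n s = 0 := by
  unfold bl Tr.ix
  split_ifs <;> omega

theorem Tr.le_iff (n s t : ℕ) :
    s ≤ t ↔ bl n s < bl n t ∨ (bl n s = bl n t ∧ Tr.ix n s ≤ Tr.ix n t) := by
  unfold bl Tr.ix
  split_ifs <;> omega

theorem Tr.col3 (D : Dg) (h : D.h0 + D.h1 ≤ D.n / 4) (B : ℕ) : D.col B = 3 ↔ D.n / 4 ≤ B := by
  unfold Dg.col
  split_ifs <;> constructor <;> intro hh <;> first | omega | exact absurd hh (by decide)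

theorem Tr.mem_mons {n : ℕ} {e : Multiset ℕ} :
    e ∈ mons n ↔ Multiset.card e = 4 ∧ ∀ a ∈ e, a < n := by
  unfold mons
  rw [mem_image]
  constructor
  · rintro ⟨s, hs, rfl⟩
    rw [Finset.mem_sym_iff] at hs
    exact ⟨s.2, fun a ha => mem_range.1 (hs a ha)⟩
  · rintro ⟨h1, h2⟩
    exact ⟨⟨e, h1⟩, Finset.mem_sym_iff.2 fun a ha => mem_range.2 (h2 a ha), rfl⟩

/-- The correspondence of the blocks and the variables. -/
structure Tr.Cor (D D' : Dg) (J : Finset ℕ) (k : ℕ) (θ ti fi ps : ℕ → ℕ) : Prop where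
  sub : J ⊆ range D.nb
  nb : D'.nb = k
  mono : ∀ i j, i < j → j < k → θ i < θ j
  ti_lt : ∀ B ∈ J, ti B < k
  θ_ti : ∀ B ∈ J, θ (ti B) = B
  θ_mem : ∀ i < k, θ i ∈ J
  ti_θ : ∀ i < k, ti (θ i) = i
  bl_fi : ∀ x, bl D.n x ∈ J → bl D'.n (fi x) = ti (bl D.n x)
  bl_ps : ∀ x < D'.n, bl D.n (ps x) = θ (bl D'.n x)
  ps_fi : ∀ x, bl D.n x ∈ J → ps (fi x) = x
  fi_ps : ∀ x < D'.n, fi (ps x) = x
  fi_le : ∀ x y, bl D.n x ∈ J → bl D.n y ∈ J → (fi x ≤ fi y ↔ x ≤ y)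

theorem Tr.exists_cor (D : Dg) (hD : D.h0 + D.h1 ≤ D.n / 4) (J : Finset ℕ)
    (hJ : J ⊆ range D.nb) (D' : Dg)
    (hh : D'.h0 + D'.h1 ≤ D'.n / 4) (k : ℕ) (θ : ℕ → ℕ) (hk : D'.nb = k)
    (hθ : ∀ B, B ∈ J ↔ ∃ i < k, θ i = B) (hmono : ∀ i j, i < j → j < k → θ i < θ j)
    (hcol : ∀ i < k, D'.col i = D.col (θ i)) :
    ∃ ti fi ps : ℕ → ℕ, Tr.Cor D D' J k θ ti fi ps := by
  classical
  have h1 : ∀ B, ∃ i, B ∈ J → i < k ∧ θ i = B := by
    intro B
    by_cases hB : B ∈ J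
    · obtain ⟨i, hi, hiB⟩ := (hθ B).1 hB
      exact ⟨i, fun _ => ⟨hi, hiB⟩⟩
    · exact ⟨0, fun h => absurd h hB⟩
  choose ti hti using h1
  have hinj : ∀ i < k, ∀ j < k, θ i = θ j → i = j := by
    intro i hi j hj h
    rcases lt_trichotomy i j with h2 | h2 | h2
    · exact absurd h (hmono i j h2 hj).ne
    · exact h2
    · exact absurd h (hmono j i h2 hi).ne'
  have hmem : ∀ i < k, θ i ∈ J := fun i hi => (hθ _).2 ⟨i, hi, rfl⟩
  have hti' : ∀ i < k, ti (θ i) = i := by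
    intro i hi
    have h2 := hti _ (hmem i hi)
    exact hinj _ h2.1 _ hi h2.2
  have hsm : ∀ i < k, (i < D'.n / 4 ↔ θ i < D.n / 4) := by
    intro i hi
    have h2 := Tr.col3 D' hh i
    have h3 := Tr.col3 D hD (θ i)
    rw [hcol i hi] at h2
    rw [← not_le, ← not_le, ← h2, ← h3]
  have hbk : ∀ x < D'.n, bl D'.n x < k := by
    intro x hx
    rw [← hk]
    exact (Tr.bl_lt _ _).2 hx
  have hbl1 : ∀ x, bl D.n x ∈ J → bl D'.n (Tr.vr D'.n (ti (bl D.n x)) (Tr.ix D.n x)) =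
      ti (bl D.n x) := fun x _ => Tr.bl_vr _ _ _ (Tr.ix_lt _ _)
  have hix1 : ∀ x, bl D.n x ∈ J → Tr.ix D'.n (Tr.vr D'.n (ti (bl D.n x)) (Tr.ix D.n x)) =
      Tr.ix D.n x := by
    intro x hx
    refine Tr.ix_vr _ _ _ (Tr.ix_lt _ _) ?_
    have h2 := hti _ hx
    rcases Tr.bl_lt' D.n x with h3 | h3
    · refine Or.inl ((hsm _ h2.1).2 ?_)
      rw [h2.2]
      exact h3
    · exact Or.inr h3
  have hix2 : ∀ x < D'.n, Tr.ix D.n (Tr.vr D.n (θ (bl D'.n x)) (Tr.ix D'.n x)) =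
      Tr.ix D'.n x := by
    intro x hx
    refine Tr.ix_vr _ _ _ (Tr.ix_lt _ _) ?_
    rcases Tr.bl_lt' D'.n x with h3 | h3
    · exact Or.inl ((hsm _ (hbk x hx)).1 h3)
    · exact Or.inr h3
  refine ⟨ti, fun x => Tr.vr D'.n (ti (bl D.n x)) (Tr.ix D.n x),
    fun x => Tr.vr D.n (θ (bl D'.n x)) (Tr.ix D'.n x), hJ, hk, hmono, fun B hB => (hti B hB).1,
    fun B hB => (hti B hB).2, hmem, hti', hbl1, fun x _ => Tr.bl_vr _ _ _ (Tr.ix_lt _ _), ?_, ?_,
    ?_⟩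
  · intro x hx
    rw [hbl1 x hx, hix1 x hx, (hti _ hx).2, Tr.vr_bl]
  · intro x hx
    rw [Tr.bl_vr _ _ _ (Tr.ix_lt _ _), hix2 x hx, hti' _ (hbk x hx), Tr.vr_bl]
  · intro x y hx hy
    rw [Tr.le_iff D'.n, Tr.le_iff D.n x y, hbl1 x hx, hbl1 y hy, hix1 x hx, hix1 y hy]
    have h2 := hti _ hx
    have h3 := hti _ hy
    have h4 : ti (bl D.n x) < ti (bl D.n y) ↔ bl D.n x < bl D.n y := by
      constructor
      · intro h
        have := hmono _ _ h h3.1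
        rwa [h2.2, h3.2] at this
      · intro h
        by_contra h5
        rcases (not_lt.1 h5).lt_or_eq with h6 | h6
        · have := hmono _ _ h6 h2.1
          rw [h2.2, h3.2] at this
          omega
        · have := congrArg θ h6
          rw [h2.2, h3.2] at this
          omega
    have h5 : ti (bl D.n x) = ti (bl D.n y) ↔ bl D.n x = bl D.n y := by
      constructor
      · intro h
        have := congrArg θ h
        rwa [h2.2, h3.2] at this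
      · intro h
        rw [h]
    rw [h4, h5]

namespace Tr.Cor

variable {D D' : Dg} {J : Finset ℕ} {k : ℕ} {θ ti fi ps : ℕ → ℕ}

theorem lt_of_mem (h : Cor D D' J k θ ti fi ps) {x : ℕ} (hx : bl D.n x ∈ J) : x < D.n :=
  (Tr.bl_lt _ _).1 (mem_range.1 (h.sub hx))

theorem bl_lt (h : Cor D D' J k θ ti fi ps) {x : ℕ} (hx : x < D'.n) : bl D'.n x < k := by
  rw [← h.nb]
  exact (Tr.bl_lt _ _).2 hx

theorem ps_mem (h : Cor D D' J k θ ti fi ps) {x : ℕ} (hx : x < D'.n) : bl D.n (ps x) ∈ J := by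
  rw [h.bl_ps x hx]
  exact h.θ_mem _ (h.bl_lt hx)

theorem fi_lt (h : Cor D D' J k θ ti fi ps) {x : ℕ} (hx : bl D.n x ∈ J) : fi x < D'.n := by
  rw [← Tr.bl_lt, h.bl_fi x hx]
  have := h.ti_lt _ hx
  rw [← h.nb] at this
  exact this

theorem θ_inj (h : Cor D D' J k θ ti fi ps) {i j : ℕ} (hi : i < k) (hj : j < k)
    (hij : θ i = θ j) : i = j := by
  have h1 := congrArg ti hij
  rwa [h.ti_θ i hi, h.ti_θ j hj] at h1

theorem ti_inj (h : Cor D D' J k θ ti fi ps) {A B : ℕ} (hA : A ∈ J) (hB : B ∈ J)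
    (hAB : ti A = ti B) : A = B := by
  have h1 := congrArg θ hAB
  rwa [h.θ_ti A hA, h.θ_ti B hB] at h1

theorem ti_lt_iff (h : Cor D D' J k θ ti fi ps) {A B : ℕ} (hA : A ∈ J) (hB : B ∈ J) :
    ti A < ti B ↔ A < B := by
  constructor
  · intro h1
    have := h.mono _ _ h1 (h.ti_lt B hB)
    rwa [h.θ_ti A hA, h.θ_ti B hB] at this
  · intro h1
    by_contra h5
    rcases (not_lt.1 h5).lt_or_eq with h6 | h6
    · have := h.mono _ _ h6 (h.ti_lt A hA)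
      rw [h.θ_ti A hA, h.θ_ti B hB] at this
      omega
    · have := h.ti_inj hB hA h6
      omega

theorem image_ti (h : Cor D D' J k θ ti fi ps) : J.image ti = range k := by
  ext i
  rw [mem_image, mem_range]
  constructor
  · rintro ⟨B, hB, rfl⟩
    exact h.ti_lt B hB
  · intro hi
    exact ⟨θ i, h.θ_mem i hi, h.ti_θ i hi⟩

theorem image_θ (h : Cor D D' J k θ ti fi ps) : (range k).image θ = J := by
  ext B
  rw [mem_image]
  constructor
  · rintro ⟨i, hi, rfl⟩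
    exact h.θ_mem i (mem_range.1 hi)
  · intro hB
    exact ⟨ti B, mem_range.2 (h.ti_lt B hB), h.θ_ti B hB⟩

/-- Change of variables in a sum. -/
theorem sum_eq (h : Cor D D' J k θ ti fi ps) {K : Type} [AddCommMonoid K] (G : ℕ → K)
    (hG : ∀ a, bl D.n a ∉ J → G a = 0) :
    ∑ a ∈ range D.n, G a = ∑ a ∈ range D'.n, G (ps a) := by
  classical
  have h1 : ∑ a ∈ (range D.n).filter (fun a => bl D.n a ∈ J), G a = ∑ a ∈ range D.n, G a := by
    refine sum_subset (filter_subset _ _) fun a ha ha' => hG a fun h2 => ha' ?_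
    exact mem_filter.2 ⟨ha, h2⟩
  rw [← h1]
  refine sum_bij' (fun a _ => fi a) (fun a _ => ps a) ?_ ?_ ?_ ?_ ?_
  · intro a ha
    exact mem_range.2 (h.fi_lt (mem_filter.1 ha).2)
  · intro a ha
    have h2 := h.ps_mem (mem_range.1 ha)
    exact mem_filter.2 ⟨mem_range.2 (h.lt_of_mem h2), h2⟩
  · intro a ha
    exact h.ps_fi a (mem_filter.1 ha).2
  · intro a ha
    exact h.fi_ps a (mem_range.1 ha)
  · intro a ha
    rw [h.ps_fi a (mem_filter.1 ha).2]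

theorem map_eq_iff (h : Cor D D' J k θ ti fi ps) {s e : Multiset ℕ}
    (hs : ∀ a ∈ s, a < D'.n) (he : ∀ a ∈ e, bl D.n a ∈ J) :
    s.map ps = e ↔ s = e.map fi := by
  constructor
  · rintro rfl
    rw [Multiset.map_map]
    conv_lhs => rw [← Multiset.map_id s]
    exact Multiset.map_congr rfl fun a ha => (h.fi_ps a (hs a ha)).symm
  · rintro rfl
    rw [Multiset.map_map]
    conv_rhs => rw [← Multiset.map_id e]
    exact Multiset.map_congr rfl fun a ha => h.ps_fi a (he a ha)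

theorem sT_eq (h : Cor D D' J k θ ti fi ps) (v : ℕ → ℂ) (v' : ℕ → ℤ)
    (hv : ∀ a, bl D.n a ∉ J → v a = 0) (hv' : ∀ a < D'.n, v (ps a) = v' a) {x y : ℕ}
    (hx : bl D.n x ∈ J) (hy : bl D.n y ∈ J) {e : Multiset ℕ} (he : ∀ a ∈ e, bl D.n a ∈ J) :
    sT D.n v x y e = ((sT D'.n v' (fi x) (fi y) (e.map fi) : ℤ) : ℂ) := by
  unfold sT
  rw [h.sum_eq _ (fun a ha => by
    refine sum_eq_zero fun b _ => ?_
    rw [hv a ha, zero_mul]
    exact ite_self _)]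
  push_cast
  refine sum_congr rfl fun a ha => ?_
  rw [h.sum_eq _ (fun b hb => by
    rw [hv b hb, mul_zero]
    exact ite_self _)]
  refine sum_congr rfl fun b hb => ?_
  rw [mem_range] at ha hb
  rw [hv' a ha, hv' b hb]
  refine if_congr ?_ rfl rfl
  have h1 := h.map_eq_iff (s := {a, b, fi x, fi y}) (e := e) (by
    intro c hc
    simp only [Multiset.insert_eq_cons, Multiset.mem_cons, Multiset.mem_singleton] at hc
    rcases hc with rfl | rfl | rfl | rfl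
    · exact ha
    · exact hb
    · exact h.fi_lt hx
    · exact h.fi_lt hy) he
  rw [← h1]
  simp only [Multiset.insert_eq_cons, Multiset.map_cons, Multiset.map_singleton]
  rw [h.ps_fi x hx, h.ps_fi y hy]

theorem sD_eq (h : Cor D D' J k θ ti fi ps) (v : ℕ → ℂ) (v' : ℕ → ℤ)
    (hv : ∀ a, bl D.n a ∉ J → v a = 0) (hv' : ∀ a < D'.n, v (ps a) = v' a) {x : ℕ}
    (hx : bl D.n x ∈ J) {e : Multiset ℕ} (he : ∀ a ∈ e, bl D.n a ∈ J) :
    sD D.n v x e = ((sD D'.n v' (fi x) (e.map fi) : ℤ) : ℂ) := by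
  unfold sD
  rw [h.sum_eq _ (fun a ha => by
    refine sum_eq_zero fun b _ => sum_eq_zero fun c _ => ?_
    rw [hv a ha, zero_mul, zero_mul]
    exact ite_self _)]
  push_cast
  refine sum_congr rfl fun a ha => ?_
  rw [h.sum_eq _ (fun b hb => by
    refine sum_eq_zero fun c _ => ?_
    rw [hv b hb, mul_zero, zero_mul]
    exact ite_self _)]
  refine sum_congr rfl fun b hb => ?_
  rw [h.sum_eq _ (fun c hc => by
    rw [hv c hc, mul_zero]
    exact ite_self _)]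
  refine sum_congr rfl fun c hc => ?_
  rw [mem_range] at ha hb hc
  rw [hv' a ha, hv' b hb, hv' c hc]
  refine if_congr ?_ rfl rfl
  have h1 := h.map_eq_iff (s := {a, b, c, fi x}) (e := e) (by
    intro d hd
    simp only [Multiset.insert_eq_cons, Multiset.mem_cons, Multiset.mem_singleton] at hd
    rcases hd with rfl | rfl | rfl | rfl
    · exact ha
    · exact hb
    · exact hc
    · exact h.fi_lt hx) he
  rw [← h1]
  simp only [Multiset.insert_eq_cons, Multiset.map_cons, Multiset.map_singleton]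
  rw [h.ps_fi x hx]

/-- the columns -/
theorem cols_fi (h : Cor D D' J k θ ti fi ps) {e : Multiset ℕ} (he : e ∈ D.cols J) :
    e.map fi ∈ D'.cols (range k) := by
  unfold Dg.cols at he ⊢
  rw [mem_filter, Tr.mem_mons] at he ⊢
  obtain ⟨⟨h1, h2⟩, h3⟩ := he
  have h4 : ∀ a ∈ e, bl D.n a ∈ J := by
    intro a ha
    rw [← h3]
    exact mem_image_of_mem _ (Multiset.mem_toFinset.2 ha)
  refine ⟨⟨by rw [Multiset.card_map, h1], ?_⟩, ?_⟩
  · intro a ha
    obtain ⟨b, hb, rfl⟩ := Multiset.mem_map.1 ha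
    exact h.fi_lt (h4 b hb)
  · rw [← h.image_ti, ← h3]
    unfold lb
    ext i
    simp only [mem_image, Multiset.mem_toFinset, Multiset.mem_map]
    constructor
    · rintro ⟨_, ⟨b, hb, rfl⟩, rfl⟩
      exact ⟨_, ⟨b, hb, rfl⟩, (h.bl_fi b (h4 b hb)).symm⟩
    · rintro ⟨_, ⟨b, hb, rfl⟩, rfl⟩
      exact ⟨_, ⟨b, hb, rfl⟩, h.bl_fi b (h4 b hb)⟩

theorem cols_ps (h : Cor D D' J k θ ti fi ps) {e : Multiset ℕ} (he : e ∈ D'.cols (range k)) :
    e.map ps ∈ D.cols J := by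
  unfold Dg.cols at he ⊢
  rw [mem_filter, Tr.mem_mons] at he ⊢
  obtain ⟨⟨h1, h2⟩, h3⟩ := he
  refine ⟨⟨by rw [Multiset.card_map, h1], ?_⟩, ?_⟩
  · intro a ha
    obtain ⟨b, hb, rfl⟩ := Multiset.mem_map.1 ha
    exact h.lt_of_mem (h.ps_mem (h2 b hb))
  · rw [← h.image_θ, ← h3]
    unfold lb
    ext i
    simp only [mem_image, Multiset.mem_toFinset, Multiset.mem_map]
    constructor
    · rintro ⟨_, ⟨b, hb, rfl⟩, rfl⟩
      exact ⟨_, ⟨b, hb, rfl⟩, (h.bl_ps b (h2 b hb)).symm⟩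
    · rintro ⟨_, ⟨b, hb, rfl⟩, rfl⟩
      exact ⟨_, ⟨b, hb, rfl⟩, h.bl_ps b (h2 b hb)⟩

theorem mem_of_cols {e : Multiset ℕ} (he : e ∈ D.cols J) : ∀ a ∈ e, bl D.n a ∈ J := by
  unfold Dg.cols at he
  rw [mem_filter] at he
  intro a ha
  rw [← he.2]
  exact mem_image_of_mem _ (Multiset.mem_toFinset.2 ha)

/-- the bijection of the columns -/
noncomputable def ceq (h : Cor D D' J k θ ti fi ps) :
    {e // e ∈ D.cols J} ≃ {e // e ∈ D'.cols (range k)} where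
  toFun e := ⟨e.1.map fi, h.cols_fi e.2⟩
  invFun e := ⟨e.1.map ps, h.cols_ps e.2⟩
  left_inv e := by
    apply Subtype.ext
    exact (h.map_eq_iff (s := e.1.map fi) (e := e.1) (by
      intro a ha
      obtain ⟨b, hb, rfl⟩ := Multiset.mem_map.1 ha
      exact h.fi_lt (mem_of_cols e.2 b hb)) (mem_of_cols e.2)).2 rfl
  right_inv e := by
    apply Subtype.ext
    have h2 : ∀ a ∈ e.1, a < D'.n := by
      have := e.2
      unfold Dg.cols at this
      rw [mem_filter, Tr.mem_mons] at this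
      exact this.1.2
    exact ((h.map_eq_iff (s := e.1) (e := e.1.map ps) h2 (by
      intro a ha
      obtain ⟨b, hb, rfl⟩ := Multiset.mem_map.1 ha
      exact h.ps_mem (h2 b hb))).1 rfl).symm

end Tr.Cor

/-- The smaller and the larger element of a set of two elements. -/
def Tr.mx (L : Finset ℕ) : ℕ := L.sup id

def Tr.mn (L : Finset ℕ) : ℕ := (L.erase (L.sup id)).sup id

theorem Tr.mn_mx {L : Finset ℕ} (h : L.card = 2) : Tr.mn L < Tr.mx L ∧ L = {Tr.mn L, Tr.mx L} := by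
  have key : ∀ a b : ℕ, a < b → Tr.mn {a, b} = a ∧ Tr.mx {a, b} = b := by
    intro a b hab
    have h1 : ({a, b} : Finset ℕ).sup id = b := by
      rw [sup_insert, sup_singleton]
      exact max_eq_right hab.le
    have h2 : ({a, b} : Finset ℕ).erase b = {a} := by
      ext c
      simp only [mem_erase, mem_insert, mem_singleton]
      omega
    refine ⟨?_, h1⟩
    unfold Tr.mn
    rw [h1, h2, sup_singleton]
    rfl
  obtain ⟨a, b, hab, rfl⟩ := card_eq_two.1 h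
  rcases lt_or_gt_of_ne hab with h1 | h1
  · obtain ⟨h2, h3⟩ := key a b h1
    rw [h2, h3]
    exact ⟨h1, rfl⟩
  · rw [pair_comm]
    obtain ⟨h2, h3⟩ := key b a h1
    rw [h2, h3]
    exact ⟨h1, rfl⟩

theorem Tr.mn_mem {L : Finset ℕ} (h : L.card = 2) : Tr.mn L ∈ L := by
  have h1 : Tr.mn L ∈ ({Tr.mn L, Tr.mx L} : Finset ℕ) := mem_insert_self _ _
  rwa [← (Tr.mn_mx h).2] at h1

theorem Tr.mx_mem {L : Finset ℕ} (h : L.card = 2) : Tr.mx L ∈ L := by
  have h1 : Tr.mx L ∈ ({Tr.mn L, Tr.mx L} : Finset ℕ) :=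
    mem_insert_of_mem (mem_singleton_self _)
  rwa [← (Tr.mn_mx h).2] at h1

/-- The map of the rows. -/
def Tr.io (ti fi : ℕ → ℕ) : Rw → Rw
  | .inl r => .inl ((ti r.1.1, ti r.1.2.1, r.1.2.2), fi r.2.1, fi r.2.2)
  | .inr (.inl r) => .inr (.inl ((ti r.1.1, ti r.1.2.1, r.1.2.2), fi r.2))
  | .inr (.inr r) => .inr (.inl ((ti (Tr.mn r.1.2.1), ti (Tr.mx r.1.2.1), r.1.1), fi r.2))

theorem Tr.rank_rows {R R' C : Type} [Fintype R] [Fintype R'] [Fintype C] (M : Matrix R' C ℂ)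
    (ι : R → R') (hι : Function.Injective ι) :
    M.rank + Fintype.card R ≤ (M.submatrix ι id).rank + Fintype.card R' := by
  classical
  rw [Matrix.rank_eq_finrank_span_row, Matrix.rank_eq_finrank_span_row]
  have h1 : Set.range M.row ⊆ Set.range (M.submatrix ι id).row ∪
      Set.range (fun r : {r // r ∉ Set.range ι} => M.row r.1) := by
    rintro _ ⟨r, rfl⟩
    by_cases hr : r ∈ Set.range ι
    · obtain ⟨r0, rfl⟩ := hr
      exact Or.inl ⟨r0, rfl⟩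
    · exact Or.inr ⟨⟨r, hr⟩, rfl⟩
  have h2 := Submodule.finrank_mono (Submodule.span_mono (R := ℂ) h1)
  rw [Submodule.span_union] at h2
  have h3 := Submodule.finrank_add_le_finrank_add_finrank
    (Submodule.span ℂ (Set.range (M.submatrix ι id).row))
    (Submodule.span ℂ (Set.range (fun r : {r // r ∉ Set.range ι} => M.row r.1)))
  have h4 : Module.finrank ℂ (Submodule.span ℂ
      (Set.range (fun r : {r // r ∉ Set.range ι} => M.row r.1))) ≤
      Fintype.card {r // r ∉ Set.range ι} := finrank_range_le_card _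
  have h5 : Fintype.card {r // r ∉ Set.range ι} = Fintype.card R' - Fintype.card R := by
    rw [Fintype.card_subtype_compl]
    congr 1
    exact Fintype.card_congr (Equiv.ofInjective ι hι).symm
  have h6 := Fintype.card_le_of_injective ι hι
  omega

theorem Tr.mem_TP {D : Dg} {τ : ℕ × ℕ × ℕ} : τ ∈ D.TP ↔ τ.1 < D.nb ∧ τ.2.1 < D.nb ∧ τ.2.2 < 4 ∧
    τ.1 < τ.2.1 ∧ τ.2.2 < D.nn (D.col τ.1) (D.col τ.2.1) := by
  unfold Dg.TP
  simp only [mem_filter, mem_product, mem_range]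
  tauto

namespace Tr.Cor

variable {D D' : Dg} {J : Finset ℕ} {k : ℕ} {θ ti fi ps : ℕ → ℕ}

theorem tp_fi (h : Cor D D' J k θ ti fi ps) (hcol : ∀ i < k, D'.col i = D.col (θ i))
    (hnn : ∀ a b, D'.nn a b = D.nn a b) {τ : ℕ × ℕ × ℕ} (hτ : τ ∈ D.TP) (h1 : τ.1 ∈ J)
    (h2 : τ.2.1 ∈ J) : (ti τ.1, ti τ.2.1, τ.2.2) ∈ D'.TP := by
  rw [Tr.mem_TP] at hτ ⊢
  obtain ⟨_, _, h3, h4, h5⟩ := hτ
  dsimp only
  refine ⟨by rw [h.nb]; exact h.ti_lt _ h1, by rw [h.nb]; exact h.ti_lt _ h2, h3,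
    (h.ti_lt_iff h1 h2).2 h4, ?_⟩
  rw [hcol _ (h.ti_lt _ h1), hcol _ (h.ti_lt _ h2), h.θ_ti _ h1, h.θ_ti _ h2, hnn]
  exact h5

theorem tp_θ (h : Cor D D' J k θ ti fi ps) (hcol : ∀ i < k, D'.col i = D.col (θ i))
    (hnn : ∀ a b, D'.nn a b = D.nn a b) {τ : ℕ × ℕ × ℕ} (hτ : τ ∈ D'.TP) :
    (θ τ.1, θ τ.2.1, τ.2.2) ∈ D.TP := by
  rw [Tr.mem_TP, h.nb] at hτ
  rw [Tr.mem_TP]
  obtain ⟨h1, h2, h3, h4, h5⟩ := hτ
  dsimp only
  refine ⟨mem_range.1 (h.sub (h.θ_mem _ h1)), mem_range.1 (h.sub (h.θ_mem _ h2)), h3,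
    h.mono _ _ h4 h2, ?_⟩
  rw [← hcol _ h1, ← hcol _ h2, ← hnn]
  exact h5

theorem k_le (h : Cor D D' J k θ ti fi ps) : k ≤ J.card := by
  have h1 : (J.image ti).card = k := by rw [h.image_ti, card_range]
  rw [← h1]
  exact card_image_le

/-- rows go to rows -/
theorem io_mem (h : Cor D D' J k θ ti fi ps) (hD : D.WF)
    (hcol : ∀ i < k, D'.col i = D.col (θ i)) (hnn : ∀ a b, D'.nn a b = D.nn a b)
    (hFr : k ≤ 3 → ∀ i j m, i < j → j < k → (θ i, θ j, m) ∈ D.Fr → (i, j, m) ∈ D'.Fr)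
    (hFr' : k ≤ 3 → ∀ S ∈ D.Sp, S.2.1.card = 2 → S.1 ∉ J → ∀ i j, i < j → j < k →
      S.2.1 = {θ i, θ j} → (i, j, S.1) ∈ D'.Fr) {r : Rw} (hr : r ∈ D.rows J) :
    Tr.io ti fi r ∈ D'.rows (range k) := by
  unfold Dg.rows at hr ⊢
  rcases r with ⟨τ, x, y⟩ | ⟨δ, x⟩ | ⟨S, x⟩
  · rw [inl_mem_disjSum] at hr
    unfold Tr.io
    rw [inl_mem_disjSum]
    unfold Dg.RT at hr ⊢
    simp only [mem_filter, mem_product, mem_range] at hr ⊢
    obtain ⟨⟨h1, h2, h3⟩, h4, h5⟩ := hr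
    have hA : τ.1 ∈ J := by rw [← h5]; simp
    have hB : τ.2.1 ∈ J := by rw [← h5]; simp
    have hx : bl D.n x ∈ J := by rw [← h5]; simp
    have hy : bl D.n y ∈ J := by rw [← h5]; simp
    refine ⟨⟨h.tp_fi hcol hnn h1 hA hB, h.fi_lt hx, h.fi_lt hy⟩, (h.fi_le x y hx hy).2 h4, ?_⟩
    rw [h.bl_fi x hx, h.bl_fi y hy, ← h.image_ti, ← h5]
    simp only [image_insert, image_singleton]
  · rw [inr_mem_disjSum, inl_mem_disjSum] at hr
    unfold Tr.io
    rw [inr_mem_disjSum, inl_mem_disjSum]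
    unfold Dg.RF at hr ⊢
    simp only [mem_filter, mem_product, mem_range] at hr ⊢
    obtain ⟨⟨h1, h2⟩, h5⟩ := hr
    have hA : δ.1 ∈ J := by rw [← h5]; simp
    have hB : δ.2.1 ∈ J := by rw [← h5]; simp
    have hx : bl D.n x ∈ J := by rw [← h5]; simp
    have hk : k ≤ 3 := by
      refine h.k_le.trans ?_
      rw [← h5]
      exact card_le_three
    refine ⟨⟨?_, h.fi_lt hx⟩, ?_⟩
    · refine hFr hk _ _ _ ((h.ti_lt_iff hA hB).2 (hD.c6 δ h1).1) (h.ti_lt _ hB) ?_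
      rw [h.θ_ti _ hA, h.θ_ti _ hB]
      exact h1
    · rw [h.bl_fi x hx, ← h.image_ti, ← h5]
      simp only [image_insert, image_singleton]
  · rw [inr_mem_disjSum, inr_mem_disjSum] at hr
    unfold Tr.io
    rw [inr_mem_disjSum, inl_mem_disjSum]
    unfold Dg.RG at hr
    unfold Dg.RF
    simp only [mem_filter, mem_product, mem_range] at hr ⊢
    obtain ⟨⟨h1, h2⟩, h3, h4, h5⟩ := hr
    obtain ⟨h6, h7⟩ := Tr.mn_mx h3
    have hx : bl D.n x ∈ J := by rw [← h5]; simp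
    have hL : S.2.1 ⊆ J := by rw [← h5]; exact subset_insert _ _
    have hA : Tr.mn S.2.1 ∈ J := hL (Tr.mn_mem h3)
    have hB : Tr.mx S.2.1 ∈ J := hL (Tr.mx_mem h3)
    have hC : S.1 ∉ J := by
      rw [← h5, mem_insert]
      rintro (h8 | h8)
      · exact h4 h8.symm
      · exact hD.c1 S h1 h8
    have hk : k ≤ 3 := by
      refine h.k_le.trans ?_
      rw [← h5]
      refine (card_insert_le _ _).trans ?_
      rw [h3]
    refine ⟨⟨?_, h.fi_lt hx⟩, ?_⟩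
    · refine hFr' hk S h1 h3 hC _ _ ((h.ti_lt_iff hA hB).2 h6) (h.ti_lt _ hB) ?_
      rw [h.θ_ti _ hA, h.θ_ti _ hB]
      exact h7
    · rw [h.bl_fi x hx, ← h.image_ti, ← h5]
      conv_rhs => rw [h7]
      simp only [image_insert, image_singleton]
      ext i
      simp only [mem_insert, mem_singleton]
      tauto

/-- different rows go to different rows -/
theorem io_inj (h : Cor D D' J k θ ti fi ps) (hD : D.WF) {r r' : Rw} (hr : r ∈ D.rows J)
    (hr' : r' ∈ D.rows J) (he : Tr.io ti fi r = Tr.io ti fi r') : r = r' := by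
  have hfi : ∀ x y, bl D.n x ∈ J → bl D.n y ∈ J → fi x = fi y → x = y := by
    intro x y hx hy hxy
    rw [← h.ps_fi x hx, hxy, h.ps_fi y hy]
  have hRF : ∀ δ x, (δ, x) ∈ D.RF J → δ ∈ D.Fr ∧ δ.1 ∈ J ∧ δ.2.1 ∈ J ∧ bl D.n x ∈ J := by
    intro δ x hr
    unfold Dg.RF at hr
    simp only [mem_filter, mem_product, mem_range] at hr
    obtain ⟨⟨h1, h2⟩, h5⟩ := hr
    exact ⟨h1, by rw [← h5]; simp, by rw [← h5]; simp, by rw [← h5]; simp⟩
  have hRG : ∀ S x, (S, x) ∈ D.RG J → S ∈ D.Sp ∧ S.2.1.card = 2 ∧ Tr.mn S.2.1 ∈ J ∧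
      Tr.mx S.2.1 ∈ J ∧ bl D.n x ∈ J := by
    intro S x hr
    unfold Dg.RG at hr
    simp only [mem_filter, mem_product, mem_range] at hr
    obtain ⟨⟨h1, h2⟩, h3, h4, h5⟩ := hr
    have hL : S.2.1 ⊆ J := by rw [← h5]; exact subset_insert _ _
    exact ⟨h1, h3, hL (Tr.mn_mem h3), hL (Tr.mx_mem h3), by rw [← h5]; simp⟩
  have hmix : ∀ δ x S y, (δ, x) ∈ D.RF J → (S, y) ∈ D.RG J → ti δ.1 = ti (Tr.mn S.2.1) →
      ti δ.2.1 = ti (Tr.mx S.2.1) → δ.2.2 = S.1 → False := by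
    intro δ x S y h1 h2 h3 h4 h5
    obtain ⟨g1, g2, g3, g4⟩ := hRF _ _ h1
    obtain ⟨k1, k2, k3, k4, k5⟩ := hRG _ _ h2
    have e1 := h.ti_inj g2 k3 h3
    have e2 := h.ti_inj g3 k4 h4
    obtain ⟨m1, m2⟩ := Tr.mn_mx k2
    refine hD.c7 S k1 _ _ m1 m2 ?_
    rw [← e1, ← e2, ← h5]
    exact g1
  unfold Dg.rows at hr hr'
  rcases r with ⟨τ, x, y⟩ | ⟨δ, x⟩ | ⟨S, x⟩ <;> rcases r' with ⟨τ', x', y'⟩ | ⟨δ', x'⟩ | ⟨S', x'⟩
  · rw [inl_mem_disjSum] at hr hr'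
    have key : ∀ (τ : ℕ × ℕ × ℕ) (x y : ℕ), (τ, x, y) ∈ D.RT J →
        τ.1 ∈ J ∧ τ.2.1 ∈ J ∧ bl D.n x ∈ J ∧ bl D.n y ∈ J := by
      intro τ x y hr
      unfold Dg.RT at hr
      simp only [mem_filter, mem_product, mem_range] at hr
      obtain ⟨⟨h1, h2, h3⟩, h4, h5⟩ := hr
      exact ⟨by rw [← h5]; simp, by rw [← h5]; simp, by rw [← h5]; simp, by rw [← h5]; simp⟩
    obtain ⟨a1, a2, a3, a4⟩ := key _ _ _ hr
    obtain ⟨b1, b2, b3, b4⟩ := key _ _ _ hr'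
    unfold Tr.io at he
    have h1 := Sum.inl.inj he
    simp only [Prod.mk.injEq] at h1
    obtain ⟨⟨c1, c2, c3⟩, c4, c5⟩ := h1
    have d1 := h.ti_inj a1 b1 c1
    have d2 := h.ti_inj a2 b2 c2
    have d4 := hfi _ _ a3 b3 c4
    have d5 := hfi _ _ a4 b4 c5
    obtain ⟨A, B, m⟩ := τ
    obtain ⟨A', B', m'⟩ := τ'
    dsimp only at d1 d2 c3
    subst d1 d2 c3 d4 d5
    rfl
  · unfold Tr.io at he
    exact absurd he (by simp)
  · unfold Tr.io at he
    exact absurd he (by simp)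
  · unfold Tr.io at he
    exact absurd he (by simp)
  · rw [inr_mem_disjSum, inl_mem_disjSum] at hr hr'
    obtain ⟨_, a1, a2, a3⟩ := hRF _ _ hr
    obtain ⟨_, b1, b2, b3⟩ := hRF _ _ hr'
    unfold Tr.io at he
    have h1 := Sum.inl.inj (Sum.inr.inj he)
    simp only [Prod.mk.injEq] at h1
    obtain ⟨⟨c1, c2, c3⟩, c4⟩ := h1
    have d1 := h.ti_inj a1 b1 c1
    have d2 := h.ti_inj a2 b2 c2
    have d4 := hfi _ _ a3 b3 c4
    obtain ⟨A, B, m⟩ := δ
    obtain ⟨A', B', m'⟩ := δ'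
    dsimp only at d1 d2 c3
    subst d1 d2 c3 d4
    rfl
  · rw [inr_mem_disjSum, inl_mem_disjSum] at hr
    rw [inr_mem_disjSum, inr_mem_disjSum] at hr'
    unfold Tr.io at he
    have h1 := Sum.inl.inj (Sum.inr.inj he)
    simp only [Prod.mk.injEq] at h1
    obtain ⟨⟨c1, c2, c3⟩, c4⟩ := h1
    exact (hmix _ _ _ _ hr hr' c1 c2 c3).elim
  · unfold Tr.io at he
    exact absurd he (by simp)
  · rw [inr_mem_disjSum, inr_mem_disjSum] at hr
    rw [inr_mem_disjSum, inl_mem_disjSum] at hr'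
    unfold Tr.io at he
    have h1 := Sum.inl.inj (Sum.inr.inj he)
    simp only [Prod.mk.injEq] at h1
    obtain ⟨⟨c1, c2, c3⟩, c4⟩ := h1
    exact (hmix _ _ _ _ hr' hr c1.symm c2.symm c3.symm).elim
  · rw [inr_mem_disjSum, inr_mem_disjSum] at hr hr'
    obtain ⟨a0, a1, a2, a3, a4⟩ := hRG _ _ hr
    obtain ⟨b0, b1, b2, b3, b4⟩ := hRG _ _ hr'
    unfold Tr.io at he
    have h1 := Sum.inl.inj (Sum.inr.inj he)
    simp only [Prod.mk.injEq] at h1
    obtain ⟨⟨c1, c2, c3⟩, c4⟩ := h1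
    have d1 := h.ti_inj a2 b2 c1
    have d2 := h.ti_inj a3 b3 c2
    have d4 := hfi _ _ a4 b4 c4
    have e1 : S.2.1 = S'.2.1 := by
      rw [(Tr.mn_mx a1).2, (Tr.mn_mx b1).2, d1, d2]
    have e2 := hD.c5 S a0 S' b0 c3 e1
    subst e2 d4
    rfl

theorem prs_le (h : Cor D D' J k θ ti fi ps) (hcol : ∀ i < k, D'.col i = D.col (θ i))
    (hnn : ∀ a b, D'.nn a b = D.nn a b) : (D'.prs (range k)).card ≤ (D.prs J).card := by
  have key : ∀ τ ∈ D'.TP, ∀ τ' ∈ D'.TP,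
      ((θ τ.1, θ τ.2.1, τ.2.2) : ℕ × ℕ × ℕ) = (θ τ'.1, θ τ'.2.1, τ'.2.2) → τ = τ' := by
    rintro ⟨A, B, m⟩ hτ ⟨A', B', m'⟩ hτ' he
    rw [Tr.mem_TP, h.nb] at hτ hτ'
    simp only [Prod.mk.injEq] at he
    obtain ⟨h1, h2, h3⟩ := he
    have e1 := h.θ_inj hτ.1 hτ'.1 h1
    have e2 := h.θ_inj hτ.2.1 hτ'.2.1 h2
    dsimp only at e1 e2
    rw [e1, e2, h3]
  refine card_le_card_of_injOn (fun r => ((θ r.1.1, θ r.1.2.1, r.1.2.2),
    (θ r.2.1, θ r.2.2.1, r.2.2.2))) ?_ ?_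
  · intro r hr
    rw [mem_coe] at hr ⊢
    unfold Dg.prs at hr ⊢
    rw [mem_filter, mem_offDiag] at hr ⊢
    obtain ⟨⟨h1, h2, h3⟩, h4⟩ := hr
    refine ⟨⟨h.tp_θ hcol hnn h1, h.tp_θ hcol hnn h2, fun h5 => h3 (key _ h1 _ h2 h5)⟩, ?_⟩
    rw [← h.image_θ, ← h4]
    simp only [image_insert, image_singleton]
  · intro r hr r' hr' he
    rw [mem_coe] at hr hr'
    unfold Dg.prs at hr hr'
    rw [mem_filter, mem_offDiag] at hr hr'
    have h1 := congrArg Prod.fst he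
    have h2 := congrArg Prod.snd he
    exact Prod.ext (key _ hr.1.1 _ hr'.1.1 h1) (key _ hr.1.2.1 _ hr'.1.2.1 h2)

theorem los_le (h : Cor D D' J k θ ti fi ps)
    (hSk : ∀ S ∈ D'.Sp, S.1 < k ∧ ∀ B ∈ S.2.1, B < k)
    (hSp' : ∀ S ∈ D'.Sp, (θ S.1, S.2.1.image θ, S.2.2) ∈ D.Sp) :
    (D'.los (range k)).card ≤ (D.los J).card := by
  have hinj : ∀ L : Finset ℕ, (∀ B ∈ L, B < k) → (L.image θ).image ti = L := by
    intro L hL
    rw [image_image]
    conv_rhs => rw [← image_id (s := L)]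
    exact image_congr fun B hB => h.ti_θ B (hL B hB)
  have hcard : ∀ L : Finset ℕ, (∀ B ∈ L, B < k) → (L.image θ).card = L.card := by
    intro L hL
    refine card_image_of_injOn fun a ha b hb hab => ?_
    exact h.θ_inj (hL a ha) (hL b hb) hab
  refine card_le_card_of_injOn (fun r => ((θ r.1.1, r.1.2.1.image θ, r.1.2.2),
    if r.1.2.1.card = 2 then ps r.2 else 0)) ?_ ?_
  · rintro ⟨S, x⟩ hr
    rw [mem_coe] at hr ⊢
    unfold Dg.los at hr ⊢
    simp only [mem_filter, mem_product, mem_range] at hr ⊢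
    obtain ⟨⟨h1, h2⟩, h3⟩ := hr
    obtain ⟨k1, k2⟩ := hSk S h1
    rw [hcard _ k2]
    rcases h3 with ⟨h3, h4, h5⟩ | ⟨h3, h4, h5⟩
    · rw [if_pos h3]
      have h6 := h.ps_mem h2
      refine ⟨⟨hSp' S h1, h.lt_of_mem h6⟩, Or.inl ⟨h3, ?_, ?_⟩⟩
      · rw [h.bl_ps x h2]
        intro h7
        exact h4 (h.θ_inj (h.bl_lt h2) k1 h7)
      · rw [h.bl_ps x h2, ← h.image_θ, ← h5, image_insert, image_insert]
    · rw [if_neg (by omega)]
      have h6 := h.ps_mem h2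
      have h7 := h.lt_of_mem h6
      refine ⟨⟨hSp' S h1, by omega⟩, Or.inr ⟨h3, rfl, ?_⟩⟩
      rw [← h.image_θ, ← h5, image_insert]
  · rintro ⟨S, x⟩ hr ⟨S', x'⟩ hr' he
    rw [mem_coe] at hr hr'
    unfold Dg.los at hr hr'
    simp only [mem_filter, mem_product, mem_range] at hr hr'
    simp only [Prod.mk.injEq] at he
    obtain ⟨⟨e1, e2, e3⟩, e4⟩ := he
    obtain ⟨⟨h1, h2⟩, h3⟩ := hr
    obtain ⟨⟨h1', h2'⟩, h3'⟩ := hr'
    obtain ⟨k1, k2⟩ := hSk S h1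
    obtain ⟨k1', k2'⟩ := hSk S' h1'
    have d1 := h.θ_inj k1 k1' e1
    have d2 : S.2.1 = S'.2.1 := by
      rw [← hinj _ k2, ← hinj _ k2', e2]
    have d3 : S = S' := Prod.ext d1 (Prod.ext d2 e3)
    subst d3
    refine Prod.ext rfl ?_
    by_cases hc : S.2.1.card = 2
    · rw [if_pos hc, if_pos hc] at e4
      change x = x'
      rw [← h.fi_ps x h2, e4, h.fi_ps x' h2']
    · have g1 : x = 0 := by
        rcases h3 with h3 | h3
        · exact absurd h3.1 hc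
        · exact h3.2.1
      have g2 : x' = 0 := by
        rcases h3' with h3' | h3'
        · exact absurd h3'.1 hc
        · exact h3'.2.1
      change x = x'
      rw [g1, g2]

end Tr.Cor

theorem trans (D : Dg) (hD : D.WF) (J : Finset ℕ) (hJ : J ⊆ range D.nb) (D' : Dg)
    (hh : D'.h0 + D'.h1 ≤ D'.n / 4) (hOK : D'.OK) (k : ℕ) (θ : ℕ → ℕ) (hk : D'.nb = k)
    (hθ : ∀ B, B ∈ J ↔ ∃ i < k, θ i = B) (hmono : ∀ i j, i < j → j < k → θ i < θ j)
    (hcol : ∀ i < k, D'.col i = D.col (θ i))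
    (h01 : D'.n01 = D.n01) (h02 : D'.n02 = D.n02) (h12 : D'.n12 = D.n12)
    (hSk : ∀ S ∈ D'.Sp, S.1 < k ∧ ∀ B ∈ S.2.1, B < k)
    (hSp : ∀ S ∈ D.Sp, insert S.1 S.2.1 ⊆ J →
      ∃ S' ∈ D'.Sp, S = (θ S'.1, S'.2.1.image θ, S'.2.2))
    (hSp' : ∀ S ∈ D'.Sp, (θ S.1, S.2.1.image θ, S.2.2) ∈ D.Sp)
    (hFr : k ≤ 3 → ∀ i j m, i < j → j < k → (θ i, θ j, m) ∈ D.Fr → (i, j, m) ∈ D'.Fr)
    (hFr' : k ≤ 3 → ∀ S ∈ D.Sp, S.2.1.card = 2 → S.1 ∉ J → ∀ i j, i < j → j < k →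
      S.2.1 = {θ i, θ j} → (i, j, S.1) ∈ D'.Fr) :
    ∃ p : Pos ℂ, D.Good p ∧ D.Loc p J := by
  classical
  obtain ⟨ti, fi, ps, hc⟩ := Tr.exists_cor D hD.h J hJ D' hh k θ hk hθ hmono hcol
  have hnn : ∀ a b, D'.nn a b = D.nn a b := by
    intro a b
    unfold Dg.nn
    rw [h01, h02, h12]
  obtain ⟨p', hp', hr'⟩ := hOK
  rw [hk] at hr'
  -- the local position
  let w : ℕ × ℕ × ℕ → ℕ → ℂ := fun τ x => if τ.1 ∈ J ∧ τ.2.1 ∈ J ∧ bl D.n x ∈ J then
    ((p'.1 (ti τ.1, ti τ.2.1, τ.2.2) (fi x) : ℤ) : ℂ) else 0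
  let u : ℕ × ℕ × ℕ → ℕ → ℂ := fun τ x => if τ.1 ∈ J ∧ τ.2.1 ∈ J ∧ bl D.n x ∈ J then
    ((p'.2 (ti τ.1, ti τ.2.1, τ.2.2) (fi x) : ℤ) : ℂ) else 0
  let g : ℕ × Finset ℕ × ℕ → ℕ → ℂ := fun S x => if S.2.1 ⊆ J ∧ bl D.n x ∈ S.2.1 then
    ((p'.2 (ti (Tr.mn S.2.1), ti (Tr.mx S.2.1), S.1) (fi x) : ℤ) : ℂ) else 0
  have hw : ∀ τ x, w τ x ≠ 0 → bl D.n x = τ.1 ∨ bl D.n x = τ.2.1 := by
    intro τ x hne
    by_cases h1 : τ.1 ∈ J ∧ τ.2.1 ∈ J ∧ bl D.n x ∈ J
    · have h2 : w τ x = ((p'.1 (ti τ.1, ti τ.2.1, τ.2.2) (fi x) : ℤ) : ℂ) := if_pos h1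
      rw [h2] at hne
      have h3 := hp'.v _ _ (Int.cast_ne_zero.1 hne)
      rw [hc.bl_fi x h1.2.2] at h3
      rcases h3 with h3 | h3
      · exact Or.inl (hc.ti_inj h1.2.2 h1.1 h3)
      · exact Or.inr (hc.ti_inj h1.2.2 h1.2.1 h3)
    · exact absurd (if_neg h1) hne
  have hu : ∀ τ x, u τ x ≠ 0 → bl D.n x = τ.1 ∨ bl D.n x = τ.2.1 := by
    intro τ x hne
    by_cases h1 : τ.1 ∈ J ∧ τ.2.1 ∈ J ∧ bl D.n x ∈ J
    · have h2 : u τ x = ((p'.2 (ti τ.1, ti τ.2.1, τ.2.2) (fi x) : ℤ) : ℂ) := if_pos h1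
      rw [h2] at hne
      have h3 := hp'.u _ _ (Int.cast_ne_zero.1 hne)
      rw [hc.bl_fi x h1.2.2] at h3
      rcases h3 with h3 | h3
      · exact Or.inl (hc.ti_inj h1.2.2 h1.1 h3)
      · exact Or.inr (hc.ti_inj h1.2.2 h1.2.1 h3)
    · exact absurd (if_neg h1) hne
  have hg : ∀ S ∈ D.Sp, ∀ x, g S x ≠ 0 → bl D.n x ∈ S.2.1 := by
    intro S _ x hne
    by_contra h1
    exact hne (if_neg fun h2 => h1 h2.2)
  have hs : ∀ S ∈ D.Sp, insert S.1 S.2.1 ⊆ J → ∀ x, bl D.n x = S.1 → gv (w, u) S x = 0 := by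
    intro S hS hSJ x hx
    obtain ⟨S', hS', he⟩ := hSp S hS hSJ
    obtain ⟨k1, k2⟩ := hSk S' hS'
    have h1 : S.1 = θ S'.1 := by rw [he]
    have h2 : S.2.1 = S'.2.1.image θ := by rw [he]
    have h3 : S.2.2 = S'.2.2 := by rw [he]
    have hxJ : bl D.n x ∈ J := by
      rw [hx, h1]
      exact hc.θ_mem _ k1
    have h4 : gv (w, u) S x = ((gv p' S' (fi x) : ℤ) : ℂ) := by
      unfold gv
      rw [h1, h2, h3, sum_image (fun a ha b hb hab => hc.θ_inj (k2 a ha) (k2 b hb) hab)]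
      push_cast
      refine sum_congr rfl fun B hB => ?_
      have hBk := k2 B hB
      have h5 : pn (θ S'.1) (θ B) S'.2.2 =
          (θ (min S'.1 B), θ (max S'.1 B), S'.2.2) := by
        unfold pn
        rcases lt_trichotomy S'.1 B with h6 | h6 | h6
        · have h7 := hmono _ _ h6 hBk
          rw [min_eq_left h7.le, max_eq_right h7.le, min_eq_left h6.le, max_eq_right h6.le]
        · rw [h6, min_self, max_self, min_self, max_self]
        · have h7 := hmono _ _ h6 k1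
          rw [min_eq_right h7.le, max_eq_left h7.le, min_eq_right h6.le, max_eq_left h6.le]
      have h6 : min S'.1 B < k := (min_le_left _ _).trans_lt k1
      have h7 : max S'.1 B < k := max_lt k1 hBk
      change w (pn (θ S'.1) (θ B) S'.2.2) x = _
      rw [h5]
      have h8 : w (θ (min S'.1 B), θ (max S'.1 B), S'.2.2) x =
          ((p'.1 (ti (θ (min S'.1 B)), ti (θ (max S'.1 B)), S'.2.2) (fi x) : ℤ) : ℂ) :=
        if_pos ⟨hc.θ_mem _ h6, hc.θ_mem _ h7, hxJ⟩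
      rw [h8, hc.ti_θ _ h6, hc.ti_θ _ h7]
      rfl
    rw [h4, hp'.s S' hS' (fi x) (by rw [hc.bl_fi x hxJ, hx, h1, hc.ti_θ _ k1]), Int.cast_zero]
  obtain ⟨p, hp, hp2, hp1, hpg⟩ := ext D hD J w u g hw hu hg hs
  refine ⟨p, hp, ?_⟩
  -- the map of the rows
  let ι : {r // r ∈ D.rows J} → {r // r ∈ D'.rows (range k)} := fun r =>
    ⟨Tr.io ti fi r.1, hc.io_mem hD hcol hnn hFr hFr' r.2⟩
  have hι : Function.Injective ι := by
    intro r r' hrr
    exact Subtype.ext (hc.io_inj hD r.2 r'.2 (congrArg Subtype.val hrr))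
  let M' : Matrix {r // r ∈ D'.rows (range k)} {e // e ∈ D'.cols (range k)} ℂ :=
    (D'.mat p' (range k)).map (Int.cast : ℤ → ℂ)
  have hM : D.mat p J = (M'.submatrix ι id).submatrix (Equiv.refl _) hc.ceq := by
    ext ⟨r, hr⟩ ⟨e, he⟩
    have he' := Tr.Cor.mem_of_cols he
    change D.val p r e = ((D'.val p' (Tr.io ti fi r) (e.map fi) : ℤ) : ℂ)
    have hr0 := hr
    unfold Dg.rows at hr
    rcases r with ⟨τ, x, y⟩ | ⟨δ, x⟩ | ⟨S, x⟩
    · rw [inl_mem_disjSum] at hr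
      unfold Dg.RT at hr
      simp only [mem_filter, mem_product, mem_range] at hr
      obtain ⟨⟨h1, h2, h3⟩, h4, h5⟩ := hr
      have hA : τ.1 ∈ J := by rw [← h5]; simp
      have hB : τ.2.1 ∈ J := by rw [← h5]; simp
      have hx : bl D.n x ∈ J := by rw [← h5]; simp
      have hy : bl D.n y ∈ J := by rw [← h5]; simp
      change sT D.n (p.1 τ) x y e =
        ((sT D'.n (p'.1 (ti τ.1, ti τ.2.1, τ.2.2)) (fi x) (fi y) (e.map fi) : ℤ) : ℂ)
      rw [hp1 τ h1 hA hB]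
      refine hc.sT_eq _ _ (fun a ha => if_neg fun h6 => ha h6.2.2) (fun a ha => ?_) hx hy he'
      have h6 : w τ (ps a) = ((p'.1 (ti τ.1, ti τ.2.1, τ.2.2) (fi (ps a)) : ℤ) : ℂ) :=
        if_pos ⟨hA, hB, hc.ps_mem ha⟩
      refine h6.trans ?_
      rw [hc.fi_ps a ha]
    · rw [inr_mem_disjSum, inl_mem_disjSum] at hr
      unfold Dg.RF at hr
      simp only [mem_filter, mem_product, mem_range] at hr
      obtain ⟨⟨h1, h2⟩, h5⟩ := hr
      have hA : δ.1 ∈ J := by rw [← h5]; simp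
      have hB : δ.2.1 ∈ J := by rw [← h5]; simp
      have hx : bl D.n x ∈ J := by rw [← h5]; simp
      change sD D.n (p.2 δ) x e =
        ((sD D'.n (p'.2 (ti δ.1, ti δ.2.1, δ.2.2)) (fi x) (e.map fi) : ℤ) : ℂ)
      rw [hp2]
      refine hc.sD_eq _ _ (fun a ha => if_neg fun h6 => ha h6.2.2) (fun a ha => ?_) hx he'
      have h6 : u δ (ps a) = ((p'.2 (ti δ.1, ti δ.2.1, δ.2.2) (fi (ps a)) : ℤ) : ℂ) :=
        if_pos ⟨hA, hB, hc.ps_mem ha⟩
      refine h6.trans ?_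
      rw [hc.fi_ps a ha]
    · rw [inr_mem_disjSum, inr_mem_disjSum] at hr
      unfold Dg.RG at hr
      simp only [mem_filter, mem_product, mem_range] at hr
      obtain ⟨⟨h1, h2⟩, h3, h4, h5⟩ := hr
      have hx : bl D.n x ∈ J := by rw [← h5]; simp
      have hL : S.2.1 ⊆ J := by rw [← h5]; exact subset_insert _ _
      have hA : Tr.mn S.2.1 ∈ J := hL (Tr.mn_mem h3)
      have hB : Tr.mx S.2.1 ∈ J := hL (Tr.mx_mem h3)
      have hC : S.1 ∉ J := by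
        rw [← h5, mem_insert]
        rintro (h8 | h8)
        · exact h4 h8.symm
        · exact hD.c1 S h1 h8
      change sD D.n (gv p S) x e =
        ((sD D'.n (p'.2 (ti (Tr.mn S.2.1), ti (Tr.mx S.2.1), S.1)) (fi x) (e.map fi) : ℤ) : ℂ)
      rw [hpg S h1 hC]
      refine hc.sD_eq _ _ (fun a ha => if_neg fun h6 => ha (h6.1 h6.2)) (fun a ha => ?_) hx he'
      by_cases h7 : bl D.n (ps a) ∈ S.2.1
      · have h6 : g S (ps a) =
            ((p'.2 (ti (Tr.mn S.2.1), ti (Tr.mx S.2.1), S.1) (fi (ps a)) : ℤ) : ℂ) :=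
          if_pos ⟨hL, h7⟩
        refine h6.trans ?_
        rw [hc.fi_ps a ha]
      · have h6 : g S (ps a) = 0 := if_neg fun h8 => h7 h8.2
        refine h6.trans ?_
        symm
        rw [Int.cast_eq_zero]
        by_contra h8
        apply h7
        rw [hc.bl_ps a ha]
        rcases hp'.u _ _ h8 with h9 | h9
        · rw [h9]
          dsimp only
          rw [hc.θ_ti _ hA]
          exact Tr.mn_mem h3
        · rw [h9]
          dsimp only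
          rw [hc.θ_ti _ hB]
          exact Tr.mx_mem h3
  have h1 := Tr.rank_rows M' ι hι
  have h2 : (D.mat p J).rank = (M'.submatrix ι id).rank := by
    rw [hM, Matrix.rank_submatrix]
  rw [Fintype.card_coe, Fintype.card_coe] at h1
  have h3 := hc.prs_le hcol hnn
  have h4 := hc.los_le hSk hSp'
  have h5 : M'.rank = ((D'.mat p' (range k)).map (Int.cast : ℤ → ℂ)).rank := rfl
  unfold Dg.Loc
  rw [h2]
  omega

end Pool.Agent.KZ.AL
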