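import Pool.Agent.KZ.AL.Mk
import Pool.Agent.KZ.AL.Trans

/-!
# KZ4, ALPHA: counts of the pairs and of the columns
-/

set_option autoImplicit false

namespace Pool.Agent.KZ.AL

open Finset

/-- The number of the multisets of four variables in a set. -/
theorem CntP.card_sub (n : ℕ) (V : Finset ℕ) (hV : V ⊆ range n) :
    ((mons n).filter fun e => ∀ a ∈ e, a ∈ V).card = Nat.multichoose V.card 4 := by
  classical
  have h0 : Fintype.card (Sym {x // x ∈ V} 4) = Nat.multichoose V.card 4 := by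
    rw [Sym.card_sym_eq_multichoose, Fintype.card_coe]
  rw [← h0, ← Finset.card_univ]
  symm
  refine card_bij (fun s _ => (s : Multiset {x // x ∈ V}).map Subtype.val) ?_ ?_ ?_
  · intro s _
    rw [mem_filter, Tr.mem_mons]
    refine ⟨⟨by rw [Multiset.card_map]; exact s.2, ?_⟩, ?_⟩
    · intro a ha
      obtain ⟨b, _, rfl⟩ := Multiset.mem_map.1 ha
      exact mem_range.1 (hV b.2)
    · intro a ha
      obtain ⟨b, _, rfl⟩ := Multiset.mem_map.1 ha
      exact b.2
  · intro s _ s' _ h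
    exact Sym.coe_injective (Multiset.map_injective Subtype.val_injective h)
  · intro e he
    rw [mem_filter, Tr.mem_mons] at he
    obtain ⟨⟨h1, h2⟩, h3⟩ := he
    lift e to Multiset {x // x ∈ V} using h3
    refine ⟨⟨e, ?_⟩, mem_univ _, rfl⟩
    rwa [Multiset.card_map] at h1

/-- The T-points of the three kinds. -/
theorem CntP.TP_eq (D : Dg) (h : D.h0 + D.h1 ≤ D.n / 4) (h01 : D.n01 ≤ 4) (h02 : D.n02 ≤ 4)
    (h12 : D.n12 ≤ 4) :
    D.TP = (range D.h0 ×ˢ Ico D.h0 (D.h0 + D.h1) ×ˢ range D.n01) ∪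
      ((range D.h0 ×ˢ Ico (D.h0 + D.h1) (D.n / 4) ×ˢ range D.n02) ∪
        (Ico D.h0 (D.h0 + D.h1) ×ˢ Ico (D.h0 + D.h1) (D.n / 4) ×ˢ range D.n12)) := by
  ext ⟨A, B, s⟩
  rw [Tr.mem_TP]
  simp only [mem_union, mem_product, mem_range, mem_Ico]
  have hnb : D.nb = D.n / 4 + D.n % 4 := rfl
  rw [hnb]
  unfold Dg.nn Dg.col
  by_cases a1 : A < D.h0
  · by_cases b1 : B < D.h0
    · simp only [a1, b1, if_true]
      simp
      try omega
    · by_cases b2 : B < D.h0 + D.h1
      · simp only [a1, b1, b2, if_true, if_false]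
        simp
        try omega
      · by_cases b3 : B < D.n / 4
        · simp only [a1, b1, b2, b3, if_true, if_false]
          simp
          try omega
        · simp only [a1, b1, b2, b3, if_true, if_false]
          simp
          try omega
  · by_cases a2 : A < D.h0 + D.h1
    · by_cases b1 : B < D.h0
      · simp only [a1, a2, b1, if_true, if_false]
        simp
        try omega
      · by_cases b2 : B < D.h0 + D.h1
        · simp only [a1, a2, b1, b2, if_true, if_false]
          simp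
          try omega
        · by_cases b3 : B < D.n / 4
          · simp only [a1, a2, b1, b2, b3, if_true, if_false]
            simp
            try omega
          · simp only [a1, a2, b1, b2, b3, if_true, if_false]
            simp
            try omega
    · have : ¬ A < D.h0 := a1
      by_cases a3 : A < D.n / 4
      · simp only [a1, a2, a3, if_true, if_false]
        simp
        try omega
      · simp only [a1, a2, a3, if_true, if_false]
        simp
        try omega

theorem CntP.col0 (D : Dg) (B : ℕ) : D.col B = 0 ↔ B < D.h0 := by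
  unfold Dg.col
  split_ifs with h1 h2 h3
  · exact ⟨fun _ => h1, fun _ => rfl⟩
  · exact ⟨fun h => absurd h (by decide), fun h => absurd h h1⟩
  · exact ⟨fun h => absurd h (by decide), fun h => absurd h h1⟩
  · exact ⟨fun h => absurd h (by decide), fun h => absurd h h1⟩

theorem CntP.col1 (D : Dg) (B : ℕ) : D.col B = 1 ↔ D.h0 ≤ B ∧ B < D.h0 + D.h1 := by
  unfold Dg.col
  split_ifs with h1 h2 h3
  · exact ⟨fun h => absurd h (by decide), fun h => absurd h1 (by omega)⟩
  · exact ⟨fun _ => ⟨by omega, h2⟩, fun _ => rfl⟩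
  · exact ⟨fun h => absurd h (by decide), fun h => absurd h.2 h2⟩
  · exact ⟨fun h => absurd h (by decide), fun h => absurd h.2 h2⟩

theorem CntP.adm2 (D : Dg) (J : Finset ℕ) : D.adm 2 J ↔
    (∃ B ∈ J, B < D.h0) ∧ ∃ B ∈ J, D.h0 ≤ B ∧ B < D.h0 + D.h1 := by
  unfold Dg.adm
  constructor
  · intro h
    obtain ⟨B, h1, h2⟩ := h 0 (by omega)
    obtain ⟨C, h3, h4⟩ := h 1 (by omega)
    exact ⟨⟨B, h1, (CntP.col0 D B).1 h2⟩, C, h3, (CntP.col1 D C).1 h4⟩
  · rintro ⟨⟨B, h1, h2⟩, C, h3, h4⟩ i hi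
    have h5 : i = 0 ∨ i = 1 := by omega
    rcases h5 with rfl | rfl
    · exact ⟨B, h1, (CntP.col0 D B).2 h2⟩
    · exact ⟨C, h3, (CntP.col1 D C).2 h4⟩

theorem CntP.adm1 (D : Dg) (J : Finset ℕ) : D.adm 1 J ↔ ∃ B ∈ J, B < D.h0 := by
  unfold Dg.adm
  constructor
  · intro h
    obtain ⟨B, h1, h2⟩ := h 0 (by omega)
    exact ⟨B, h1, (CntP.col0 D B).1 h2⟩
  · rintro ⟨B, h1, h2⟩ i hi
    have h5 : i = 0 := by omega
    subst h5
    exact ⟨B, h1, (CntP.col0 D B).2 h2⟩

/-- The ordered pairs of the level 2. -/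
theorem CntP.cPr_two (D : Dg) (h : D.h0 + D.h1 ≤ D.n / 4) (h01 : D.n01 ≤ 4) (h02 : D.n02 ≤ 4)
    (h12 : D.n12 ≤ 4) (T U Y : ℕ) (hT : T = D.h0 * (D.h1 * D.n01))
    (hY : Y = D.h0 * ((D.n / 4 - (D.h0 + D.h1)) * D.n02))
    (hU : U = D.h1 * ((D.n / 4 - (D.h0 + D.h1)) * D.n12)) :
    D.cPr 2 = T * (T - 1) + 2 * T * (U + Y) + 2 * (U * Y) := by
  classical
  obtain ⟨X1, hX1⟩ : ∃ s, s = range D.h0 ×ˢ Ico D.h0 (D.h0 + D.h1) ×ˢ range D.n01 := ⟨_, rfl⟩
  obtain ⟨X2, hX2⟩ : ∃ s, s = range D.h0 ×ˢ Ico (D.h0 + D.h1) (D.n / 4) ×ˢ range D.n02 :=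
    ⟨_, rfl⟩
  obtain ⟨X3, hX3⟩ : ∃ s, s = Ico D.h0 (D.h0 + D.h1) ×ˢ Ico (D.h0 + D.h1) (D.n / 4) ×ˢ
    range D.n12 := ⟨_, rfl⟩
  have hTP : D.TP = X1 ∪ (X2 ∪ X3) := by
    rw [CntP.TP_eq D h h01 h02 h12, hX1, hX2, hX3]
  have m1 : ∀ τ, τ ∈ X1 → τ.1 < D.h0 ∧ D.h0 ≤ τ.2.1 ∧ τ.2.1 < D.h0 + D.h1 := by
    intro τ hτ
    rw [hX1] at hτ
    simp only [mem_product, mem_range, mem_Ico] at hτ
    omega
  have m2 : ∀ τ, τ ∈ X2 → τ.1 < D.h0 ∧ D.h0 + D.h1 ≤ τ.2.1 := by
    intro τ hτ
    rw [hX2] at hτ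
    simp only [mem_product, mem_range, mem_Ico] at hτ
    omega
  have m3 : ∀ τ, τ ∈ X3 → D.h0 ≤ τ.1 ∧ τ.1 < D.h0 + D.h1 ∧ D.h0 + D.h1 ≤ τ.2.1 := by
    intro τ hτ
    rw [hX3] at hτ
    simp only [mem_product, mem_range, mem_Ico] at hτ
    omega
  have c1 : X1.card = T := by
    rw [hX1, card_product, card_product, card_range, Nat.card_Ico, card_range, hT]
    congr 2
    omega
  have c2 : X2.card = Y := by
    rw [hX2, card_product, card_product, card_range, Nat.card_Ico, card_range, hY]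
  have c3 : X3.card = U := by
    rw [hX3, card_product, card_product, card_range, Nat.card_Ico, Nat.card_Ico, hU]
    congr 1
    omega
  have d23 : Disjoint X2 X3 := by
    rw [disjoint_left]
    intro τ h2 h3
    have := m2 τ h2
    have := m3 τ h3
    omega
  have d123 : Disjoint X1 (X2 ∪ X3) := by
    rw [disjoint_left]
    intro τ h1 h2
    have := m1 τ h1
    rcases mem_union.1 h2 with h2 | h2
    · have := m2 τ h2
      omega
    · have := m3 τ h2
      omega
  have cTP : D.TP.card = T + (Y + U) := by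
    rw [hTP, card_union_of_disjoint d123, card_union_of_disjoint d23, c1, c2, c3]
  have hneg : D.TP.offDiag.filter (fun r => ¬ D.adm 2 {r.1.1, r.1.2.1, r.2.1, r.2.2.1}) =
      X2.offDiag ∪ X3.offDiag := by
    ext ⟨τ, τ'⟩
    rw [mem_filter, mem_offDiag, mem_union, mem_offDiag, mem_offDiag, CntP.adm2, hTP]
    simp only [mem_union, mem_insert, mem_singleton, exists_eq_or_imp, exists_eq_left]
    constructor
    · rintro ⟨⟨h1, h2, h3⟩, h4⟩
      rcases h1 with h1 | h1 | h1
      · exact absurd (by have := m1 τ h1; omega) h4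
      · rcases h2 with h2 | h2 | h2
        · exact absurd (by have := m1 τ' h2; omega) h4
        · exact Or.inl ⟨h1, h2, h3⟩
        · exact absurd (by have := m2 τ h1; have := m3 τ' h2; omega) h4
      · rcases h2 with h2 | h2 | h2
        · exact absurd (by have := m1 τ' h2; omega) h4
        · exact absurd (by have := m3 τ h1; have := m2 τ' h2; omega) h4
        · exact Or.inr ⟨h1, h2, h3⟩
    · rintro (⟨h1, h2, h3⟩ | ⟨h1, h2, h3⟩)
      · have g1 := m2 τ h1
        have g2 := m2 τ' h2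
        exact ⟨⟨Or.inr (Or.inl h1), Or.inr (Or.inl h2), h3⟩, by omega⟩
      · have g1 := m3 τ h1
        have g2 := m3 τ' h2
        exact ⟨⟨Or.inr (Or.inr h1), Or.inr (Or.inr h2), h3⟩, by omega⟩
  have hd : Disjoint X2.offDiag X3.offDiag := by
    rw [disjoint_left]
    rintro ⟨τ, τ'⟩ h1 h2
    rw [mem_offDiag] at h1 h2
    exact (disjoint_left.1 d23) h1.1 h2.1
  have key := card_filter_add_card_filter_not (s := D.TP.offDiag)
    (fun r => D.adm 2 {r.1.1, r.1.2.1, r.2.1, r.2.2.1})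
  rw [hneg, card_union_of_disjoint hd, offDiag_card, offDiag_card, offDiag_card, c2, c3, cTP]
    at key
  have e1 : ∀ m : ℕ, m * m - m = m * (m - 1) := fun m => by
    rw [Nat.mul_sub, Nat.mul_one]
  rw [e1, e1, e1] at key
  have e2 : D.cPr 2 + (Y * (Y - 1) + U * (U - 1)) = (T + (Y + U)) * (T + (Y + U) - 1) := key
  have e3 : ∀ m : ℕ, m * (m - 1) + m = m * m := by
    intro m
    cases m with
    | zero => rfl
    | succ m =>
      rw [Nat.add_sub_cancel]
      ring
  have f1 := e3 T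
  have f2 := e3 Y
  have f3 := e3 U
  have f4 := e3 (T + (Y + U))
  have f5 : (T + (Y + U)) * (T + (Y + U)) =
      T * T + 2 * T * (U + Y) + 2 * (U * Y) + Y * Y + U * U := by ring
  rw [f5] at f4
  generalize T * T = x1 at *
  generalize Y * Y = x2 at *
  generalize U * U = x3 at *
  generalize 2 * T * (U + Y) = x4 at *
  generalize 2 * (U * Y) = x5 at *
  generalize T * (T - 1) = x6 at *
  generalize Y * (Y - 1) = x7 at *
  generalize U * (U - 1) = x8 at *
  generalize (T + (Y + U)) * (T + (Y + U) - 1) = x9 at *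
  omega

theorem cPr2 (t : Bool) (n h : ℕ) (a : L2) (ha : Rm2 n h a) (T U Y : ℕ)
    (hT : T = (if t then 3 else 4) * h * h) (hU : U = (if t then 4 else 3) * h * (n / 4 - 2 * h))
    (hY : Y = 3 * h * (n / 4 - 2 * h)) :
    (mk2 t n h a).cPr 2 = T * (T - 1) + 2 * T * (U + Y) + 2 * (U * Y) := by
  have h1 := ha.hn
  refine CntP.cPr_two (mk2 t n h a) ?_ ?_ ?_ ?_ T U Y ?_ ?_ ?_
  · change h + h ≤ n / 4
    omega
  · change (if t then 3 else 4) ≤ 4
    split_ifs <;> omega
  · change 3 ≤ 4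
    omega
  · change (if t then 4 else 3) ≤ 4
    split_ifs <;> omega
  · rw [hT]
    change _ = h * (h * (if t then 3 else 4))
    ring
  · rw [hY]
    change _ = h * ((n / 4 - (h + h)) * 3)
    rw [two_mul]
    ring
  · rw [hU]
    change _ = h * ((n / 4 - (h + h)) * (if t then 4 else 3))
    rw [two_mul]
    ring

theorem cPr1 (n h : ℕ) (a : L1) (ha : Rm1 n h a) (T : ℕ) (hT : T = 4 * h * (n / 4 - h)) :
    (mk1 n h a).cPr 1 = T * (T - 1) := by
  classical
  have hn := ha.hn
  have hTP : (mk1 n h a).TP = range h ×ˢ Ico h (h + (n / 4 - h)) ×ˢ range 4 := by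
    have h1 := CntP.TP_eq (mk1 n h a) (show h + (n / 4 - h) ≤ n / 4 by omega) (show 4 ≤ 4 by omega)
      (show 3 ≤ 4 by omega) (show 3 ≤ 4 by omega)
    rw [h1]
    change (range h ×ˢ Ico h (h + (n / 4 - h)) ×ˢ range 4) ∪
      ((range h ×ˢ Ico (h + (n / 4 - h)) (n / 4) ×ˢ range 3) ∪
        (Ico h (h + (n / 4 - h)) ×ˢ Ico (h + (n / 4 - h)) (n / 4) ×ˢ range 3)) = _
    have h2 : Ico (h + (n / 4 - h)) (n / 4) = ∅ := Ico_eq_empty_of_le (by omega)
    rw [h2]
    simp
  have h1 : (mk1 n h a).TP.offDiag.filter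
      (fun r => (mk1 n h a).adm 1 {r.1.1, r.1.2.1, r.2.1, r.2.2.1}) =
      (mk1 n h a).TP.offDiag := by
    refine filter_true_of_mem fun r hr => ?_
    rw [mem_offDiag, hTP] at hr
    rw [CntP.adm1]
    refine ⟨r.1.1, mem_insert_self _ _, ?_⟩
    exact mem_range.1 (mem_product.1 hr.1).1
  unfold Dg.cPr
  rw [h1, offDiag_card, hTP, card_product, card_product, card_range, Nat.card_Ico, card_range,
    Nat.mul_sub, Nat.mul_one, hT]
  have e : h * ((h + (n / 4 - h) - h) * 4) = 4 * h * (n / 4 - h) := by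
    rw [Nat.add_sub_cancel_left]
    ring
  rw [e]

/-- Inclusion and exclusion. -/
theorem CntP.incl {α : Type} (S : Finset α) (p q : α → Prop) [DecidablePred p] [DecidablePred q] :
    (S.filter fun e => p e ∧ q e).card + (S.filter fun e => ¬ p e).card +
      (S.filter fun e => ¬ q e).card = S.card + (S.filter fun e => ¬ p e ∧ ¬ q e).card := by
  classical
  have h1 := card_filter_add_card_filter_not (s := S) (fun e => p e ∧ q e)
  have h2 := card_union_add_card_inter (S.filter fun e => ¬ p e) (S.filter fun e => ¬ q e)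
  have h3 : (S.filter fun e => ¬ p e) ∪ (S.filter fun e => ¬ q e) =
      S.filter fun e => ¬ (p e ∧ q e) := by
    ext e
    simp only [mem_union, mem_filter]
    tauto
  have h4 : (S.filter fun e => ¬ p e) ∩ (S.filter fun e => ¬ q e) =
      S.filter fun e => ¬ p e ∧ ¬ q e := by
    ext e
    simp only [mem_inter, mem_filter]
    tauto
  rw [h3, h4] at h2
  omega

theorem CntP.bl_lt (n h x : ℕ) (h1 : h ≤ n / 4) : bl n x < h ↔ x < 4 * h := by
  unfold bl
  split_ifs <;> omega

theorem CntP.ad_two (D : Dg) (h : D.h0 + D.h1 ≤ D.n / 4) :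
    (D.ad 2).card + Nat.multichoose (D.n - 4 * D.h0) 4 + Nat.multichoose (D.n - 4 * D.h1) 4 =
      Nat.multichoose D.n 4 + Nat.multichoose (D.n - 4 * (D.h0 + D.h1)) 4 := by
  classical
  have h1 := CntP.incl (mons D.n) (fun e => ∃ x ∈ e, bl D.n x < D.h0)
    (fun e => ∃ x ∈ e, D.h0 ≤ bl D.n x ∧ bl D.n x < D.h0 + D.h1)
  have a1 : (mons D.n).filter (fun e => (∃ x ∈ e, bl D.n x < D.h0) ∧
      ∃ x ∈ e, D.h0 ≤ bl D.n x ∧ bl D.n x < D.h0 + D.h1) = D.ad 2 := by
    unfold Dg.ad
    refine filter_congr fun e _ => ?_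
    rw [CntP.adm2]
    unfold lb
    simp only [mem_image, Multiset.mem_toFinset, exists_exists_and_eq_and]
  have a2 : ((mons D.n).filter fun e => ¬ ∃ x ∈ e, bl D.n x < D.h0).card =
      Nat.multichoose (D.n - 4 * D.h0) 4 := by
    have h2 := CntP.card_sub D.n (Ico (4 * D.h0) D.n) (fun x hx => mem_range.2 (mem_Ico.1 hx).2)
    rw [Nat.card_Ico] at h2
    rw [← h2]
    congr 1
    refine filter_congr fun e he => ?_
    rw [Tr.mem_mons] at he
    simp only [not_exists, not_and, mem_Ico]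
    refine forall_congr' fun x => forall_congr' fun hx => ?_
    rw [CntP.bl_lt D.n D.h0 x (by omega)]
    have := he.2 x hx
    omega
  have a3 : ((mons D.n).filter fun e => ¬ ∃ x ∈ e, D.h0 ≤ bl D.n x ∧
      bl D.n x < D.h0 + D.h1).card = Nat.multichoose (D.n - 4 * D.h1) 4 := by
    have h2 := CntP.card_sub D.n (range (4 * D.h0) ∪ Ico (4 * (D.h0 + D.h1)) D.n) (fun x hx => by
      rw [mem_union, mem_range, mem_Ico] at hx
      rw [mem_range]
      omega)
    rw [card_union_of_disjoint (by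
      rw [disjoint_left]
      intro x hx hx'
      rw [mem_range] at hx
      rw [mem_Ico] at hx'
      omega), Nat.card_Ico, card_range] at h2
    have h3 : 4 * D.h0 + (D.n - 4 * (D.h0 + D.h1)) = D.n - 4 * D.h1 := by omega
    rw [h3] at h2
    rw [← h2]
    congr 1
    refine filter_congr fun e he => ?_
    rw [Tr.mem_mons] at he
    simp only [not_exists, not_and, mem_union, mem_range, mem_Ico]
    refine forall_congr' fun x => forall_congr' fun hx => ?_
    have g1 := CntP.bl_lt D.n D.h0 x (by omega)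
    have g2 := CntP.bl_lt D.n (D.h0 + D.h1) x h
    have := he.2 x hx
    rw [g2, ← not_lt, g1]
    omega
  have a4 : ((mons D.n).filter fun e => (¬ ∃ x ∈ e, bl D.n x < D.h0) ∧
      ¬ ∃ x ∈ e, D.h0 ≤ bl D.n x ∧ bl D.n x < D.h0 + D.h1).card =
      Nat.multichoose (D.n - 4 * (D.h0 + D.h1)) 4 := by
    have h2 := CntP.card_sub D.n (Ico (4 * (D.h0 + D.h1)) D.n)
      (fun x hx => mem_range.2 (mem_Ico.1 hx).2)
    rw [Nat.card_Ico] at h2
    rw [← h2]
    congr 1
    refine filter_congr fun e he => ?_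
    rw [Tr.mem_mons] at he
    simp only [not_exists, not_and, mem_Ico]
    constructor
    · rintro ⟨h3, h4⟩ x hx
      have g1 := CntP.bl_lt D.n D.h0 x (by omega)
      have g2 := CntP.bl_lt D.n (D.h0 + D.h1) x h
      have g3 := h3 x hx
      have g4 := h4 x hx (by omega)
      rw [g2] at g4
      exact ⟨by omega, he.2 x hx⟩
    · intro h3
      refine ⟨fun x hx => ?_, fun x hx _ => ?_⟩
      · rw [CntP.bl_lt D.n D.h0 x (by omega)]
        have := h3 x hx
        omega
      · rw [CntP.bl_lt D.n (D.h0 + D.h1) x h]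
        have := h3 x hx
        omega
  have a5 : (mons D.n).card = Nat.multichoose D.n 4 := by
    have h2 := CntP.card_sub D.n (range D.n) subset_rfl
    rw [card_range] at h2
    rw [← h2]
    congr 1
    symm
    refine filter_true_of_mem fun e he a ha => ?_
    rw [Tr.mem_mons] at he
    exact mem_range.2 (he.2 a ha)
  rw [a1, a2, a3, a4, a5] at h1
  exact h1

theorem ad2 (t : Bool) (n h : ℕ) (a : L2) (ha : Rm2 n h a) :
    ((mk2 t n h a).ad 2).card + 2 * Nat.multichoose (n - 4 * h) 4 =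
      Nat.multichoose n 4 + Nat.multichoose (n - 8 * h) 4 := by
  have hn := ha.hn
  have h1 := CntP.ad_two (mk2 t n h a) (show h + h ≤ n / 4 by omega)
  have h2 : ((mk2 t n h a).ad 2).card + Nat.multichoose (n - 4 * h) 4 +
      Nat.multichoose (n - 4 * h) 4 = Nat.multichoose n 4 +
      Nat.multichoose (n - 4 * (h + h)) 4 := h1
  rw [show 4 * (h + h) = 8 * h by ring] at h2
  omega

theorem ad1 (n h : ℕ) (a : L1) (ha : Rm1 n h a) :
    ((mk1 n h a).ad 1).card + Nat.multichoose (n - 4 * h) 4 = Nat.multichoose n 4 := by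
  classical
  have hn := ha.hn
  have h1 := card_filter_add_card_filter_not (s := mons n)
    (fun e => (mk1 n h a).adm 1 (lb n e))
  have a2 : ((mons n).filter fun e => ¬ (mk1 n h a).adm 1 (lb n e)).card =
      Nat.multichoose (n - 4 * h) 4 := by
    have h2 := CntP.card_sub n (Ico (4 * h) n) (fun x hx => mem_range.2 (mem_Ico.1 hx).2)
    rw [Nat.card_Ico] at h2
    rw [← h2]
    congr 1
    refine filter_congr fun e he => ?_
    rw [Tr.mem_mons] at he
    rw [CntP.adm1]
    unfold lb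
    simp only [mem_image, Multiset.mem_toFinset, exists_exists_and_eq_and, not_exists, not_and,
      mem_Ico]
    refine forall_congr' fun x => forall_congr' fun hx => ?_
    have g1 : bl n x < (mk1 n h a).h0 ↔ x < 4 * h := CntP.bl_lt n h x (by omega)
    rw [g1]
    have := he.2 x hx
    omega
  have a5 : (mons n).card = Nat.multichoose n 4 := by
    have h2 := CntP.card_sub n (range n) subset_rfl
    rw [card_range] at h2
    rw [← h2]
    congr 1
    symm
    refine filter_true_of_mem fun e he a ha => ?_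
    rw [Tr.mem_mons] at he
    exact mem_range.2 (he.2 a ha)
  rw [a2, a5] at h1
  exact h1

end Pool.Agent.KZ.AL
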