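import Pool.Agent.KZ.AL.ConvA

/-!
# KZ4, ALPHA: forms and symmetric tensors

`F e = (∏ s, (e s)!) * f e`; the objects of the configuration `full2`, `full1` get the vectors of the
design (plain points, members of the specials in the order of the leaves, free items).
-/

set_option autoImplicit false
set_option linter.unusedSectionVars false

namespace Pool.Agent.KZ.AL

open Finset Pool.Agent.H51.TB Pool.Agent.H54.V7 Pool.Agent.V7.ST
open Pool.Agent.V7 (Ex blk mem_Ex)

/-! ### The points of the specials -/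

/-- The points of `m` specials with `w` leaves. -/
def cel (c0 k l0 w s m : ℕ) : Finset (ℕ × ℕ × ℕ) :=
  (range m ×ˢ range w).image fun z => (c0 + z.1 % k, l0 + w * (z.1 / k) + z.2, s)

/-- The same with the leaves first. -/
def cel' (c0 k l0 w s m : ℕ) : Finset (ℕ × ℕ × ℕ) :=
  (cel c0 k l0 w s m).image fun τ => (τ.2.1, τ.1, τ.2.2)

theorem mul_add_inj {w a a' j j' : ℕ} (hj : j < w) (hj' : j' < w) (h : w * a + j = w * a' + j') :
    a = a' ∧ j = j' := by
  have h1 : a = a' := by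
    have e1 : (w * a + j) / w = a := by
      rw [Nat.mul_add_div (by omega), Nat.div_eq_of_lt hj, Nat.add_zero]
    have e2 : (w * a' + j') / w = a' := by
      rw [Nat.mul_add_div (by omega), Nat.div_eq_of_lt hj', Nat.add_zero]
    rw [← e1, ← e2, h]
  subst h1
  exact ⟨rfl, by omega⟩

theorem card_cel (c0 k l0 w s m : ℕ) : (cel c0 k l0 w s m).card = m * w := by
  unfold cel
  rw [card_image_of_injOn, card_product, card_range, card_range]
  rintro ⟨t, j⟩ h ⟨t', j'⟩ h' heq
  have hj : j < w := mem_range.1 (mem_product.1 (mem_coe.1 h)).2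
  have hj' : j' < w := mem_range.1 (mem_product.1 (mem_coe.1 h')).2
  have h1 : c0 + t % k = c0 + t' % k := congrArg Prod.fst heq
  have h2 : l0 + w * (t / k) + j = l0 + w * (t' / k) + j' :=
    congrArg (fun z : ℕ × ℕ × ℕ => z.2.1) heq
  obtain ⟨h3, h4⟩ := mul_add_inj (a := t / k) (a' := t' / k) hj hj' (by omega)
  have h5 : t % k = t' % k := by omega
  have h6 := Nat.div_add_mod t k
  rw [h3, h5, Nat.div_add_mod] at h6
  rw [h6, h4]

theorem card_cel' (c0 k l0 w s m : ℕ) : (cel' c0 k l0 w s m).card = m * w := by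
  unfold cel'
  rw [card_image_of_injective, card_cel]
  rintro ⟨x, y, z⟩ ⟨x', y', z'⟩ h
  have h1 : y = y' := congrArg Prod.fst h
  have h2 : x = x' := congrArg (fun z : ℕ × ℕ × ℕ => z.2.1) h
  have h3 : z = z' := congrArg (fun z : ℕ × ℕ × ℕ => z.2.2) h
  rw [h1, h2, h3]

theorem mem_cel {c0 k l0 w s m : ℕ} {τ : ℕ × ℕ × ℕ} : τ ∈ cel c0 k l0 w s m ↔
    ∃ t < m, ∃ j < w, (c0 + t % k, l0 + w * (t / k) + j, s) = τ := by
  unfold cel
  rw [mem_image]
  constructor
  · rintro ⟨⟨t, j⟩, h, h'⟩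
    rw [mem_product, mem_range, mem_range] at h
    exact ⟨t, h.1, j, h.2, h'⟩
  · rintro ⟨t, ht, j, hj, h⟩
    exact ⟨(t, j), mem_product.2 ⟨mem_range.2 ht, mem_range.2 hj⟩, h⟩

theorem mem_cel' {c0 k l0 w s m : ℕ} {τ : ℕ × ℕ × ℕ} : τ ∈ cel' c0 k l0 w s m ↔
    ∃ t < m, ∃ j < w, (l0 + w * (t / k) + j, c0 + t % k, s) = τ := by
  unfold cel'
  rw [mem_image]
  constructor
  · rintro ⟨τ', h, rfl⟩
    obtain ⟨t, ht, j, hj, rfl⟩ := mem_cel.1 h
    exact ⟨t, ht, j, hj, rfl⟩
  · rintro ⟨t, ht, j, hj, rfl⟩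
    exact ⟨_, mem_cel.2 ⟨t, ht, j, hj, rfl⟩, rfl⟩

theorem cel_snd {c0 k l0 w s m : ℕ} {τ : ℕ × ℕ × ℕ} (h : τ ∈ cel c0 k l0 w s m) : τ.2.2 = s := by
  obtain ⟨t, -, j, -, rfl⟩ := mem_cel.1 h
  rfl

theorem cel_snd' {c0 k l0 w s m : ℕ} {τ : ℕ × ℕ × ℕ} (h : τ ∈ cel' c0 k l0 w s m) :
    τ.2.2 = s := by
  obtain ⟨t, -, j, -, rfl⟩ := mem_cel'.1 h
  rfl

theorem disj_of_snd {S T : Finset (ℕ × ℕ × ℕ)} {a b : ℕ} (hab : a ≠ b)
    (hS : ∀ τ ∈ S, τ.2.2 = a) (hT : ∀ τ ∈ T, τ.2.2 = b) : Disjoint S T := by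
  rw [disjoint_left]
  intro τ h h'
  exact hab ((hS τ h).symm.trans (hT τ h'))

/-- The points of the edges between two groups of blocks. -/
def grd (a0 a1 b0 b1 N : ℕ) : Finset (ℕ × ℕ × ℕ) := Ico a0 a1 ×ˢ Ico b0 b1 ×ˢ range N

theorem mem_grd {a0 a1 b0 b1 N : ℕ} {τ : ℕ × ℕ × ℕ} : τ ∈ grd a0 a1 b0 b1 N ↔
    (a0 ≤ τ.1 ∧ τ.1 < a1) ∧ (b0 ≤ τ.2.1 ∧ τ.2.1 < b1) ∧ τ.2.2 < N := by
  unfold grd
  rw [mem_product, mem_product, mem_Ico, mem_Ico, mem_range]

theorem card_grd (a0 a1 b0 b1 N : ℕ) : (grd a0 a1 b0 b1 N).card = (a1 - a0) * ((b1 - b0) * N) := by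
  unfold grd
  rw [card_product, card_product, Nat.card_Ico, Nat.card_Ico, card_range]

/-- The points of the specials are points of the edges. -/
theorem cel_sub {c0 k l0 w s m a0 a1 b0 b1 N L : ℕ} (hk : 0 < k) (h0 : a0 ≤ c0)
    (h1 : c0 + k ≤ a1) (h2 : b0 ≤ l0) (h3 : l0 + w * L ≤ b1) (hm : m ≤ k * L) (hs : s < N) :
    cel c0 k l0 w s m ⊆ grd a0 a1 b0 b1 N := by
  intro τ hτ
  obtain ⟨t, ht, j, hj, rfl⟩ := mem_cel.1 hτ
  rw [mem_grd]
  have e1 := Nat.mod_lt t hk
  have e2 : t / k < L := (Nat.div_lt_iff_lt_mul hk).2 (by rw [Nat.mul_comm]; omega)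
  have e3 : w * (t / k + 1) ≤ w * L := Nat.mul_le_mul_left w e2
  rw [Nat.mul_add, Nat.mul_one] at e3
  refine ⟨⟨?_, ?_⟩, ⟨?_, ?_⟩, hs⟩
  · show a0 ≤ c0 + t % k
    omega
  · show c0 + t % k < a1
    omega
  · show b0 ≤ l0 + w * (t / k) + j
    omega
  · show l0 + w * (t / k) + j < b1
    omega

theorem cel_sub' {c0 k l0 w s m a0 a1 b0 b1 N L : ℕ} (hk : 0 < k) (h0 : b0 ≤ c0)
    (h1 : c0 + k ≤ b1) (h2 : a0 ≤ l0) (h3 : l0 + w * L ≤ a1) (hm : m ≤ k * L) (hs : s < N) :
    cel' c0 k l0 w s m ⊆ grd a0 a1 b0 b1 N := by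
  intro τ hτ
  obtain ⟨t, ht, j, hj, rfl⟩ := mem_cel'.1 hτ
  rw [mem_grd]
  have e1 := Nat.mod_lt t hk
  have e2 : t / k < L := (Nat.div_lt_iff_lt_mul hk).2 (by rw [Nat.mul_comm]; omega)
  have e3 : w * (t / k + 1) ≤ w * L := Nat.mul_le_mul_left w e2
  rw [Nat.mul_add, Nat.mul_one] at e3
  refine ⟨⟨?_, ?_⟩, ⟨?_, ?_⟩, hs⟩
  · show a0 ≤ l0 + w * (t / k) + j
    omega
  · show l0 + w * (t / k) + j < a1
    omega
  · show b0 ≤ c0 + t % k
    omega
  · show c0 + t % k < b1
    omega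

/-! ### Sums of the points of a special -/

section

variable {D : Dg} {p : Pos ℂ} (hp : D.Good p)
include hp

theorem van (τ : ℕ × ℕ × ℕ) (x : ℕ) (h1 : bl D.n x ≠ τ.1) (h2 : bl D.n x ≠ τ.2.1) :
    p.1 τ x = 0 := by
  by_contra h
  rcases hp.v τ x h with h3 | h3
  · exact h1 h3
  · exact h2 h3

theorem van2 (τ : ℕ × ℕ × ℕ) (x : ℕ) (h1 : bl D.n x ≠ τ.1) (h2 : bl D.n x ≠ τ.2.1) :
    p.2 τ x = 0 := by
  by_contra h
  rcases hp.u τ x h with h3 | h3
  · exact h1 h3
  · exact h2 h3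

theorem sum2 {C l s : ℕ} (hS : (C, ({l, l + 1} : Finset ℕ), s) ∈ D.Sp) (hC : C < l) (x : ℕ)
    (h1 : bl D.n x ≠ l) (h2 : bl D.n x ≠ l + 1) : p.1 (C, l, s) x + p.1 (C, l + 1, s) x = 0 := by
  by_cases h3 : bl D.n x = C
  · have h4 := hp.s _ hS x h3
    unfold gv pn at h4
    rw [sum_pair (by omega)] at h4
    simp only [min_eq_left (show C ≤ l by omega), max_eq_right (show C ≤ l by omega),
      min_eq_left (show C ≤ l + 1 by omega), max_eq_right (show C ≤ l + 1 by omega)] at h4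
    exact h4
  · rw [van hp _ x h3 h1, van hp _ x h3 h2, add_zero]

theorem sum3 {C l s : ℕ} (hS : (C, ({l, l + 1, l + 2} : Finset ℕ), s) ∈ D.Sp) (hC : C < l) (x : ℕ)
    (h0 : bl D.n x ≠ l) (h1 : bl D.n x ≠ l + 1) (h2 : bl D.n x ≠ l + 2) :
    p.1 (C, l, s) x + p.1 (C, l + 1, s) x + p.1 (C, l + 2, s) x = 0 := by
  by_cases h3 : bl D.n x = C
  · have h4 := hp.s _ hS x h3
    unfold gv pn at h4
    rw [sum_insert (by simp), sum_pair (by omega)] at h4
    simp only [min_eq_left (show C ≤ l by omega), max_eq_right (show C ≤ l by omega),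
      min_eq_left (show C ≤ l + 1 by omega), max_eq_right (show C ≤ l + 1 by omega),
      min_eq_left (show C ≤ l + 2 by omega), max_eq_right (show C ≤ l + 2 by omega)] at h4
    rw [← add_assoc] at h4
    exact h4
  · rw [van hp _ x h3 h0, van hp _ x h3 h1, van hp _ x h3 h2, add_zero, add_zero]

theorem sum3' {C l s : ℕ} (hS : (C, ({l, l + 1, l + 2} : Finset ℕ), s) ∈ D.Sp) (hC : l + 2 < C)
    (x : ℕ) (h0 : bl D.n x ≠ l) (h1 : bl D.n x ≠ l + 1) (h2 : bl D.n x ≠ l + 2) :
    p.1 (l, C, s) x + p.1 (l + 1, C, s) x + p.1 (l + 2, C, s) x = 0 := by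
  by_cases h3 : bl D.n x = C
  · have h4 := hp.s _ hS x h3
    unfold gv pn at h4
    rw [sum_insert (by simp), sum_pair (by omega)] at h4
    simp only [min_eq_right (show l ≤ C by omega), max_eq_left (show l ≤ C by omega),
      min_eq_right (show l + 1 ≤ C by omega), max_eq_left (show l + 1 ≤ C by omega),
      min_eq_right (show l + 2 ≤ C by omega), max_eq_left (show l + 2 ≤ C by omega)] at h4
    rw [← add_assoc] at h4
    exact h4
  · rw [van hp _ x h0 h3, van hp _ x h1 h3, van hp _ x h2 h3, add_zero, add_zero]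

end

/-! ### Blocks and columns -/

theorem bl_zero {n h : ℕ} (hh : 0 < h) (hn : h ≤ n / 4) {s : Fin n}
    (hs : blk (4 * h) n s = 0) : bl n s.1 < h := by
  have h1 : s.1 / (4 * h) = 0 := hs
  rw [Nat.div_eq_zero_iff] at h1
  unfold bl
  rw [if_pos (by omega)]
  omega

theorem bl_one {n h : ℕ} (hh : 0 < h) (hn : 2 * h ≤ n / 4) {s : Fin n}
    (hs : blk (4 * h) n s = 1) : h ≤ bl n s.1 ∧ bl n s.1 < 2 * h := by
  have h1 : s.1 / (4 * h) = 1 := hs
  have h2 := Nat.div_add_mod s.1 (4 * h)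
  have h3 := Nat.mod_lt s.1 (show 0 < 4 * h by omega)
  rw [h1] at h2
  unfold bl
  rw [if_pos (by omega)]
  omega

theorem map_fst_const {α P : Type} (s : Finset α) (k : Kd) (g : α → P) :
    (s.val.map fun t => (k, g t)).map Prod.fst = Multiset.replicate s.card k := by
  rw [Multiset.map_map]
  exact Multiset.map_const' _ _

theorem tn_ad (D : Dg) (n h lv : ℕ) (hn : D.n = n) (hc : ∀ s : Fin n, ∀ i < lv,
      blk (4 * h) n s = i → D.col (bl n s.1) = i)
    (f : {a // a ∈ Ex (blk (4 * h) n) 4 lv} → ℂ) (e : Multiset ℕ) (he : e ∉ D.ad lv) :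
    tn (Ex (blk (4 * h) n) 4 lv) f e = 0 := by
  subst hn
  unfold tn
  split_ifs with h1 h2
  · exfalso
    apply he
    rw [mem_Ex] at h2
    obtain ⟨h3, h4⟩ := h2
    have h5 : e.card = 4 := by
      rw [← Multiset.sum_count_eq_card (s := range D.n) fun a ha => mem_range.2 (h1 a ha),
        sum_range]
      exact h3
    refine mem_filter.2 ⟨mem_image.2 ⟨⟨e, h5⟩, mem_sym_iff.2 fun a ha => mem_range.2 (h1 a ha),
      rfl⟩, fun i hi => ?_⟩
    obtain ⟨s, hs, hs'⟩ := h4 i hi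
    have h6 : s.1 ∈ e := Multiset.count_ne_zero.1 hs'
    exact ⟨bl D.n s.1, mem_image.2 ⟨s.1, Multiset.mem_toFinset.2 h6, rfl⟩, hc s i hi hs⟩
  · rw [mul_zero]
  · rfl

/-! ### The level `2` -/

/-- The objects of the level `2` with their positions. -/
noncomputable def O2 (t : Bool) (n h : ℕ) (a : L2) (p : Pos ℂ) :
    Multiset (Kd × (Fin n × Fin 3 → ℂ)) :=
  ((grd 0 h h (2 * h) (if t then 3 else 4) \ (cel 0 4 h 2 0 a.p ∪ cel 4 14 h 3 1 a.q ∪
      cel' h 12 0 3 2 a.r)).val.map fun τ => (Kd.ord 3 ∅, po fun _ => p.1 τ)) +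
  ((grd h (2 * h) (2 * h) (n / 4) (if t then 4 else 3) \ cel h 8 (2 * h) 2 0 a.pu).val.map
      fun τ => (Kd.ord 3 {0}, po fun _ => p.1 τ)) +
  ((grd 0 h (2 * h) (n / 4) 3 \ (cel 0 4 (2 * h) 2 0 a.py ∪ cel 4 14 (2 * h) 3 1 a.qy)).val.map
      fun τ => (Kd.ord 3 {1}, po fun _ => p.1 τ)) +
  ((range a.p).val.map fun t => (Kd.pr 0 ∅, po fun x => p.1 (0 + t % 4, h + 2 * (t / 4) + x.1, 0))) +
  ((range a.q).val.map fun t =>
    (Kd.tr 0 ∅, po fun x => p.1 (4 + t % 14, h + 3 * (t / 14) + x.1, 1))) +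
  ((range a.r).val.map fun t =>
    (Kd.tr 1 ∅, po fun x => p.1 (0 + 3 * (t / 12) + x.1, h + t % 12, 2))) +
  ((range a.pu).val.map fun t =>
    (Kd.pr 1 {0}, po fun x => p.1 (h + t % 8, 2 * h + 2 * (t / 8) + x.1, 0))) +
  ((range a.py).val.map fun t =>
    (Kd.pr 0 {1}, po fun x => p.1 (0 + t % 4, 2 * h + 2 * (t / 4) + x.1, 0))) +
  ((range a.qy).val.map fun t =>
    (Kd.tr 0 {1}, po fun x => p.1 (4 + t % 14, 2 * h + 3 * (t / 14) + x.1, 1))) +
  ((range a.d).val.map fun t => (Kd.ord 2 ∅, po fun _ => p.2 (0 + t % 2, h + t / 2, 0))) +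
  ((range a.w).val.map fun t => (Kd.ord 2 {0}, po fun _ => p.2 (h + t % 4, 2 * h + t / 4, 0))) +
  ((range a.z).val.map fun t => (Kd.ord 2 {1}, po fun _ => p.2 (0 + t % 2, 2 * h + t / 2, 0)))

theorem O2_map (t : Bool) (n h : ℕ) (a : L2) (ha : Rm2 n h a) (p : Pos ℂ) :
    (O2 t n h a p).map Prod.fst = (full2 t n h a).ms := by
  have hh := ha.hh
  have hn := ha.hn
  have hN1 : 2 < (if t then 3 else 4) := by split_ifs <;> norm_num
  have hN2 : 2 < (if t then 4 else 3) := by split_ifs <;> norm_num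
  have c1 : (grd 0 h h (2 * h) (if t then 3 else 4) \ (cel 0 4 h 2 0 a.p ∪ cel 4 14 h 3 1 a.q ∪
      cel' h 12 0 3 2 a.r)).card =
      (if t then 3 else 4) * h * h - (2 * a.p + 3 * a.q + 3 * a.r) := by
    rw [card_sdiff_of_subset, card_grd, card_union_of_disjoint, card_union_of_disjoint, card_cel,
      card_cel, card_cel']
    · have e1 : 2 * h - h = h := by omega
      rw [e1, Nat.sub_zero]
      have e2 : h * (h * if t then 3 else 4) = (if t then 3 else 4) * h * h := by ring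
      rw [e2]
      congr 1
      ring
    · exact disj_of_snd (by norm_num) (fun τ h => cel_snd h) fun τ h => cel_snd h
    · rw [disjoint_union_left]
      exact ⟨disj_of_snd (by norm_num) (fun τ h => cel_snd h) fun τ h => cel_snd' h,
        disj_of_snd (by norm_num) (fun τ h => cel_snd h) fun τ h => cel_snd' h⟩
    · refine union_subset (union_subset ?_ ?_) ?_
      · exact cel_sub (L := h / 2) (by norm_num) (by omega) (by omega) le_rfl (by omega) ha.p
          (by omega)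
      · exact cel_sub (L := h / 3) (by norm_num) (by omega) (by omega) le_rfl (by omega) ha.q
          (by omega)
      · exact cel_sub' (L := h / 3) (by norm_num) le_rfl (by omega) (by omega) (by omega) ha.r
          (by omega)
  have c2 : (grd h (2 * h) (2 * h) (n / 4) (if t then 4 else 3) \
      cel h 8 (2 * h) 2 0 a.pu).card = (if t then 4 else 3) * h * (n / 4 - 2 * h) - 2 * a.pu := by
    rw [card_sdiff_of_subset, card_grd, card_cel]
    · have e1 : 2 * h - h = h := by omega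
      rw [e1]
      have e2 : h * ((n / 4 - 2 * h) * if t then 4 else 3) =
        (if t then 4 else 3) * h * (n / 4 - 2 * h) := by ring
      rw [e2]
      congr 1
      ring
    · exact cel_sub (L := (n / 4 - 2 * h) / 2) (by norm_num) (by omega) (by omega) le_rfl (by omega)
        ha.pu (by omega)
  have c3 : (grd 0 h (2 * h) (n / 4) 3 \
      (cel 0 4 (2 * h) 2 0 a.py ∪ cel 4 14 (2 * h) 3 1 a.qy)).card =
      3 * h * (n / 4 - 2 * h) - (2 * a.py + 3 * a.qy) := by
    rw [card_sdiff_of_subset, card_grd, card_union_of_disjoint, card_cel, card_cel]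
    · rw [Nat.sub_zero]
      have e2 : h * ((n / 4 - 2 * h) * 3) = 3 * h * (n / 4 - 2 * h) := by ring
      rw [e2]
      congr 1
      ring
    · exact disj_of_snd (by norm_num) (fun τ h => cel_snd h) fun τ h => cel_snd h
    · refine union_subset ?_ ?_
      · exact cel_sub (L := (n / 4 - 2 * h) / 2) (by norm_num) (by omega) (by omega) le_rfl
          (by omega) ha.py (by omega)
      · exact cel_sub (L := (n / 4 - 2 * h) / 3) (by norm_num) (by omega) (by omega) le_rfl
          (by omega) ha.qy (by omega)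
  unfold O2
  simp only [Multiset.map_add, map_fst_const, c1, c2, c3, card_range]
  unfold L2.ms full2
  simp only [Multiset.replicate_zero, add_zero]
  abel

theorem col2 (t : Bool) (n h : ℕ) (a : L2) (B : ℕ) :
    ((mk2 t n h a).col B = 0 ∧ B < h) ∨ ((mk2 t n h a).col B = 1 ∧ h ≤ B ∧ B < 2 * h) ∨
      ((mk2 t n h a).col B = 2 ∧ 2 * h ≤ B ∧ B < n / 4) ∨
      ((mk2 t n h a).col B = 3 ∧ 2 * h ≤ B ∧ n / 4 ≤ B) := by
  have e : (mk2 t n h a).col B = if B < h then 0 else if B < h + h then 1 else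
    if B < n / 4 then 2 else 3 := rfl
  rw [e]
  split_ifs <;> omega

theorem TP2 (t : Bool) (n h : ℕ) (a : L2) {τ : ℕ × ℕ × ℕ} (hτ : τ ∈ (mk2 t n h a).TP) :
    τ ∈ grd 0 h h (2 * h) (if t then 3 else 4) ∨
      τ ∈ grd h (2 * h) (2 * h) (n / 4) (if t then 4 else 3) ∨
      τ ∈ grd 0 h (2 * h) (n / 4) 3 := by
  unfold Dg.TP at hτ
  rw [mem_filter] at hτ
  obtain ⟨-, h1, h2⟩ := hτ
  rcases col2 t n h a τ.1 with h3 | h3 | h3 | h3 <;>
    rcases col2 t n h a τ.2.1 with h4 | h4 | h4 | h4 <;> rw [h3.1, h4.1] at h2 <;>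
    simp only [Dg.nn] at h2
  · simp at h2
  · refine Or.inl (mem_grd.2 ⟨⟨by omega, by omega⟩, ⟨by omega, by omega⟩, ?_⟩)
    simp at h2
    exact h2
  · refine Or.inr (Or.inr (mem_grd.2 ⟨⟨by omega, by omega⟩, ⟨by omega, by omega⟩, ?_⟩))
    simp at h2
    exact h2
  · simp at h2
  · simp at h2
  · simp at h2
  · refine Or.inr (Or.inl (mem_grd.2 ⟨⟨by omega, by omega⟩, ⟨by omega, by omega⟩, ?_⟩))
    simp at h2
    exact h2
  all_goals simp at h2

theorem conv2 (t : Bool) (n h : ℕ) (a : L2) (ha : Rm2 n h a) (p : Pos ℂ)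
    (hp : (mk2 t n h a).Good p) :
    H2 (4 * h) n (full2 t n h a) ≤ Module.finrank ℂ ((mk2 t n h a).sol 2 p) := by
  have hh := ha.hh
  have hn := ha.hn
  have hh0 : 0 < h := by omega
  have := finite_sol (mk2 t n h a) 2 p
  unfold H2
  rw [← O2_map t n h a ha p]
  refine gM_le_of (blk (4 * h) n) 2 _ _ fun f hf => ?_
  have hA : ∀ b ∈ Ex (blk (4 * h) n) 4 2, ∑ s, b s = 4 := fun b hb => (mem_Ex.1 hb).1
  have b0 : ∀ s : Fin n, blk (4 * h) n s = 0 → bl n s.1 < h := fun s hs =>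
    bl_zero hh0 (by omega) hs
  have b1 : ∀ s : Fin n, blk (4 * h) n s = 1 → h ≤ bl n s.1 ∧ bl n s.1 < 2 * h := fun s hs =>
    bl_one hh0 (by omega) hs
  have hm : ∀ o, o ∈ O2 t n h a p → SatK (blk (4 * h) n) o.1 o.2 f := hf
  unfold O2 at hm
  simp only [Multiset.mem_add, Multiset.mem_map, or_imp, forall_and, forall_exists_index, and_imp,
    forall_apply_eq_imp_iff₂, mem_val, mem_range, mem_sdiff] at hm
  obtain ⟨⟨⟨⟨⟨⟨⟨⟨⟨⟨⟨m1, m2⟩, m3⟩, m4⟩, m5⟩, m6⟩, m7⟩, m8⟩, m9⟩, m10⟩, m11⟩, m12⟩ := hm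
  refine ⟨fun e he => ?_, fun τ hτ x hx y hy => ?_, fun δ hδ x hx => ?_⟩
  · refine tn_ad (mk2 t n h a) n h 2 rfl (fun s i hi hs => ?_) f e he
    have hi' : i = 0 ∨ i = 1 := by omega
    rcases hi' with rfl | rfl
    · exact if_pos (b0 s hs)
    · have h1 := b1 s hs
      refine (if_neg ?_).trans (if_pos ?_)
      · show ¬ bl n s.1 < h
        omega
      · show bl n s.1 < h + h
        omega
  · refine fT_tn _ hA f (p.1 τ) ?_ x y hx hy
    rcases TP2 t n h a hτ with h1 | h1 | h1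
    · have h1' := mem_grd.1 h1
      by_cases h2 : τ ∈ cel 0 4 h 2 0 a.p ∪ cel 4 14 h 3 1 a.q ∪ cel' h 12 0 3 2 a.r
      · rw [mem_union, mem_union] at h2
        rcases h2 with (h2 | h2) | h2
        · obtain ⟨z, hz, j, hj, rfl⟩ := mem_cel.1 h2
          refine sat_pr (blk (4 * h) n) (m4 z hz) (fun s hs => absurd hs (notMem_empty _))
            (fun s hs => ?_) ⟨j, by omega⟩ (fun h3 => ?_)
          · have h3 := b0 s hs
            have h4 := Nat.mod_lt z (show 0 < 4 by norm_num)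
            exact sum2 hp (C := 0 + z % 4) (l := h + 2 * (z / 4)) (s := 0)
              (mem_union_left _ (mem_union_left _ (mem_union_left _ (mem_union_left _
                (mem_union_left _ (mem_image.2 ⟨z, mem_range.2 hz, rfl⟩)))))) (by omega) s.1
              (by show bl n s.1 ≠ _; omega) (by show bl n s.1 ≠ _; omega)
          · have := congrArg Fin.val h3
            simp at this
            omega
        · obtain ⟨z, hz, j, hj, rfl⟩ := mem_cel.1 h2
          refine sat_tr (blk (4 * h) n) (m5 z hz) (fun s hs => absurd hs (notMem_empty _))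
            (fun s hs => ?_) ⟨j, by omega⟩
          have h3 := b0 s hs
          have h4 := Nat.mod_lt z (show 0 < 14 by norm_num)
          exact sum3 hp (C := 4 + z % 14) (l := h + 3 * (z / 14)) (s := 1)
            (mem_union_left _ (mem_union_left _ (mem_union_left _ (mem_union_left _
              (mem_union_right _ (mem_image.2 ⟨z, mem_range.2 hz, rfl⟩)))))) (by omega) s.1
            (by show bl n s.1 ≠ _; omega) (by show bl n s.1 ≠ _; omega)
            (by show bl n s.1 ≠ _; omega)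
        · obtain ⟨z, hz, j, hj, rfl⟩ := mem_cel'.1 h2
          refine sat_tr (blk (4 * h) n) (m6 z hz) (fun s hs => absurd hs (notMem_empty _))
            (fun s hs => ?_) ⟨j, by omega⟩
          have h3 := b1 s hs
          have h4 := Nat.mod_lt z (show 0 < 12 by norm_num)
          have h5 : z / 12 < h / 3 := (Nat.div_lt_iff_lt_mul (by norm_num)).2
            (by have := ha.r; omega)
          exact sum3' hp (C := h + z % 12) (l := 0 + 3 * (z / 12)) (s := 2)
            (mem_union_left _ (mem_union_left _ (mem_union_left _ (mem_union_right _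
              (mem_image.2 ⟨z, mem_range.2 hz, rfl⟩))))) (by omega) s.1
            (by show bl n s.1 ≠ _; omega) (by show bl n s.1 ≠ _; omega)
            (by show bl n s.1 ≠ _; omega)
      · exact sat_ord (blk (4 * h) n) (m1 _ τ h1 h2 rfl) fun s hs => absurd hs (notMem_empty _)
    · have h1' := mem_grd.1 h1
      by_cases h2 : τ ∈ cel h 8 (2 * h) 2 0 a.pu
      · obtain ⟨z, hz, j, hj, rfl⟩ := mem_cel.1 h2
        have h4 := Nat.mod_lt z (show 0 < 8 by norm_num)
        refine sat_pr (blk (4 * h) n) (m7 z hz) (fun s hs x' => ?_)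
          (fun s hs => ?_) ⟨j, by omega⟩ (fun h3 => ?_)
        · have h3 := b0 s (mem_singleton.1 hs)
          refine van hp _ _ ?_ ?_
          · show bl n s.1 ≠ h + z % 8
            omega
          · show bl n s.1 ≠ 2 * h + 2 * (z / 8) + x'.1
            omega
        · have h3 := b1 s hs
          exact sum2 hp (C := h + z % 8) (l := 2 * h + 2 * (z / 8)) (s := 0)
            (mem_union_left _ (mem_union_left _ (mem_union_right _
              (mem_image.2 ⟨z, mem_range.2 hz, rfl⟩)))) (by omega) s.1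
            (by show bl n s.1 ≠ _; omega) (by show bl n s.1 ≠ _; omega)
        · have := congrArg Fin.val h3
          simp at this
          omega
      · refine sat_ord (blk (4 * h) n) (m2 _ τ h1 h2 rfl) fun s hs => ?_
        have h3 := b0 s (mem_singleton.1 hs)
        refine van hp _ _ ?_ ?_
        · show bl n s.1 ≠ τ.1
          omega
        · show bl n s.1 ≠ τ.2.1
          omega
    · have h1' := mem_grd.1 h1
      by_cases h2 : τ ∈ cel 0 4 (2 * h) 2 0 a.py ∪ cel 4 14 (2 * h) 3 1 a.qy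
      · rw [mem_union] at h2
        rcases h2 with h2 | h2
        · obtain ⟨z, hz, j, hj, rfl⟩ := mem_cel.1 h2
          have h4 := Nat.mod_lt z (show 0 < 4 by norm_num)
          refine sat_pr (blk (4 * h) n) (m8 z hz) (fun s hs x' => ?_)
            (fun s hs => ?_) ⟨j, by omega⟩ (fun h3 => ?_)
          · have h3 := b1 s (mem_singleton.1 hs)
            refine van hp _ _ ?_ ?_
            · show bl n s.1 ≠ 0 + z % 4
              omega
            · show bl n s.1 ≠ 2 * h + 2 * (z / 4) + x'.1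
              omega
          · have h3 := b0 s hs
            exact sum2 hp (C := 0 + z % 4) (l := 2 * h + 2 * (z / 4)) (s := 0)
              (mem_union_left _ (mem_union_right _
                (mem_image.2 ⟨z, mem_range.2 hz, rfl⟩))) (by omega) s.1
              (by show bl n s.1 ≠ _; omega) (by show bl n s.1 ≠ _; omega)
          · have := congrArg Fin.val h3
            simp at this
            omega
        · obtain ⟨z, hz, j, hj, rfl⟩ := mem_cel.1 h2
          have h4 := Nat.mod_lt z (show 0 < 14 by norm_num)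
          refine sat_tr (blk (4 * h) n) (m9 z hz) (fun s hs x' => ?_)
            (fun s hs => ?_) ⟨j, by omega⟩
          · have h3 := b1 s (mem_singleton.1 hs)
            refine van hp _ _ ?_ ?_
            · show bl n s.1 ≠ 4 + z % 14
              omega
            · show bl n s.1 ≠ 2 * h + 3 * (z / 14) + x'.1
              omega
          · have h3 := b0 s hs
            exact sum3 hp (C := 4 + z % 14) (l := 2 * h + 3 * (z / 14)) (s := 1)
              (mem_union_right _ (mem_image.2 ⟨z, mem_range.2 hz, rfl⟩)) (by omega) s.1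
              (by show bl n s.1 ≠ _; omega) (by show bl n s.1 ≠ _; omega)
              (by show bl n s.1 ≠ _; omega)
      · refine sat_ord (blk (4 * h) n) (m3 _ τ h1 h2 rfl) fun s hs => ?_
        have h3 := b1 s (mem_singleton.1 hs)
        refine van hp _ _ ?_ ?_
        · show bl n s.1 ≠ τ.1
          omega
        · show bl n s.1 ≠ τ.2.1
          omega
  · refine fD_tn _ hA f (p.2 δ) ?_ x hx
    have h1 : δ ∈ frI 0 2 h a.d ∪ frI 0 2 (2 * h) a.z ∪ frI h 4 (2 * h) a.w := hδ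
    rw [mem_union, mem_union] at h1
    rcases h1 with (h1 | h1) | h1
    · obtain ⟨z, hz, rfl⟩ := mem_image.1 h1
      exact sat_ord (blk (4 * h) n) (m10 z (mem_range.1 hz)) fun s hs =>
        absurd hs (notMem_empty _)
    · obtain ⟨z, hz, rfl⟩ := mem_image.1 h1
      have h4 := Nat.mod_lt z (show 0 < 2 by norm_num)
      refine sat_ord (blk (4 * h) n) (m12 z (mem_range.1 hz)) fun s hs => ?_
      have h3 := b1 s (mem_singleton.1 hs)
      refine van2 hp _ _ ?_ ?_
      · show bl n s.1 ≠ 0 + z % 2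
        omega
      · show bl n s.1 ≠ 2 * h + z / 2
        omega
    · obtain ⟨z, hz, rfl⟩ := mem_image.1 h1
      have h4 := Nat.mod_lt z (show 0 < 4 by norm_num)
      refine sat_ord (blk (4 * h) n) (m11 z (mem_range.1 hz)) fun s hs => ?_
      have h3 := b0 s (mem_singleton.1 hs)
      refine van2 hp _ _ ?_ ?_
      · show bl n s.1 ≠ h + z % 4
        omega
      · show bl n s.1 ≠ 2 * h + z / 4
        omega

/-! ### The level `1` -/

/-- The objects of the level `1` with their positions. -/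
noncomputable def O1 (n h : ℕ) (a : L1) (p : Pos ℂ) : Multiset (Kd × (Fin n × Fin 3 → ℂ)) :=
  ((grd 0 h h (n / 4) 4 \ (cel 0 4 h 2 0 a.p ∪ cel 4 14 h 3 1 a.q)).val.map
      fun τ => (Kd.ord 3 ∅, po fun _ => p.1 τ)) +
  ((range a.p).val.map fun t => (Kd.pr 0 ∅, po fun x => p.1 (0 + t % 4, h + 2 * (t / 4) + x.1, 0))) +
  ((range a.q).val.map fun t =>
    (Kd.tr 0 ∅, po fun x => p.1 (4 + t % 14, h + 3 * (t / 14) + x.1, 1))) +
  ((range a.d).val.map fun t => (Kd.ord 2 ∅, po fun _ => p.2 (0 + t % 2, h + t / 2, 0))) +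
  ((range a.w).val.map fun t =>
    (Kd.ord 2 {0}, po fun _ => p.2 (h + t / 4, h + t / 4 + 2 + t % 4, 0)))

theorem O1_map (n h : ℕ) (a : L1) (ha : Rm1 n h a) (p : Pos ℂ) :
    (O1 n h a p).map Prod.fst = (full1 n h a).ms := by
  have hh := ha.hh
  have hn := ha.hn
  have c3 : (grd 0 h h (n / 4) 4 \ (cel 0 4 h 2 0 a.p ∪ cel 4 14 h 3 1 a.q)).card =
      4 * h * (n / 4 - h) - (2 * a.p + 3 * a.q) := by
    rw [card_sdiff_of_subset, card_grd, card_union_of_disjoint, card_cel, card_cel]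
    · rw [Nat.sub_zero]
      have e2 : h * ((n / 4 - h) * 4) = 4 * h * (n / 4 - h) := by ring
      rw [e2]
      congr 1
      ring
    · exact disj_of_snd (by norm_num) (fun τ h => cel_snd h) fun τ h => cel_snd h
    · refine union_subset ?_ ?_
      · exact cel_sub (L := (n / 4 - h) / 2) (by norm_num) (by omega) (by omega) le_rfl
          (by omega) ha.p (by omega)
      · exact cel_sub (L := (n / 4 - h) / 3) (by norm_num) (by omega) (by omega) le_rfl
          (by omega) ha.q (by omega)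
  unfold O1
  simp only [Multiset.map_add, map_fst_const, c3, card_range]
  unfold L1.ms full1
  simp only [Multiset.replicate_zero, add_zero]

theorem col1 (n h : ℕ) (a : L1) (hn : h ≤ n / 4) (B : ℕ) :
    ((mk1 n h a).col B = 0 ∧ B < h) ∨ ((mk1 n h a).col B = 1 ∧ h ≤ B ∧ B < n / 4) ∨
      ((mk1 n h a).col B = 3 ∧ n / 4 ≤ B) := by
  have e : (mk1 n h a).col B = if B < h then 0 else if B < h + (n / 4 - h) then 1 else
    if B < n / 4 then 2 else 3 := rfl
  rw [e]
  split_ifs <;> omega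

theorem TP1 (n h : ℕ) (a : L1) (hn : h ≤ n / 4) {τ : ℕ × ℕ × ℕ} (hτ : τ ∈ (mk1 n h a).TP) :
    τ ∈ grd 0 h h (n / 4) 4 := by
  unfold Dg.TP at hτ
  rw [mem_filter] at hτ
  obtain ⟨-, h1, h2⟩ := hτ
  rcases col1 n h a hn τ.1 with h3 | h3 | h3 <;>
    rcases col1 n h a hn τ.2.1 with h4 | h4 | h4 <;> rw [h3.1, h4.1] at h2 <;>
    simp only [Dg.nn] at h2
  · simp at h2
  · refine mem_grd.2 ⟨⟨by omega, by omega⟩, ⟨by omega, by omega⟩, ?_⟩
    simp at h2
    exact h2
  all_goals simp at h2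

theorem conv1 (n h : ℕ) (a : L1) (ha : Rm1 n h a) (p : Pos ℂ) (hp : (mk1 n h a).Good p) :
    H1 (4 * h) n (full1 n h a) ≤ Module.finrank ℂ ((mk1 n h a).sol 1 p) := by
  have hh := ha.hh
  have hn := ha.hn
  have hh0 : 0 < h := by omega
  have := finite_sol (mk1 n h a) 1 p
  unfold H1
  rw [← O1_map n h a ha p]
  refine gM_le_of (blk (4 * h) n) 1 _ _ fun f hf => ?_
  have hA : ∀ b ∈ Ex (blk (4 * h) n) 4 1, ∑ s, b s = 4 := fun b hb => (mem_Ex.1 hb).1
  have b0 : ∀ s : Fin n, blk (4 * h) n s = 0 → bl n s.1 < h := fun s hs =>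
    bl_zero hh0 (by omega) hs
  have hm : ∀ o, o ∈ O1 n h a p → SatK (blk (4 * h) n) o.1 o.2 f := hf
  unfold O1 at hm
  simp only [Multiset.mem_add, Multiset.mem_map, or_imp, forall_and, forall_exists_index, and_imp,
    forall_apply_eq_imp_iff₂, mem_val, mem_range, mem_sdiff] at hm
  obtain ⟨⟨⟨⟨m1, m4⟩, m5⟩, m10⟩, m11⟩ := hm
  refine ⟨fun e he => ?_, fun τ hτ x hx y hy => ?_, fun δ hδ x hx => ?_⟩
  · refine tn_ad (mk1 n h a) n h 1 rfl (fun s i hi hs => ?_) f e he
    have hi' : i = 0 := by omega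
    subst hi'
    exact if_pos (b0 s hs)
  · refine fT_tn _ hA f (p.1 τ) ?_ x y hx hy
    have h1 := TP1 n h a (by omega) hτ
    by_cases h2 : τ ∈ cel 0 4 h 2 0 a.p ∪ cel 4 14 h 3 1 a.q
    · rw [mem_union] at h2
      rcases h2 with h2 | h2
      · obtain ⟨z, hz, j, hj, rfl⟩ := mem_cel.1 h2
        refine sat_pr (blk (4 * h) n) (m4 z hz) (fun s hs => absurd hs (notMem_empty _))
          (fun s hs => ?_) ⟨j, by omega⟩ (fun h3 => ?_)
        · have h3 := b0 s hs
          have h4 := Nat.mod_lt z (show 0 < 4 by norm_num)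
          exact sum2 hp (C := 0 + z % 4) (l := h + 2 * (z / 4)) (s := 0)
            (mem_union_left _ (mem_image.2 ⟨z, mem_range.2 hz, rfl⟩)) (by omega) s.1
            (by show bl n s.1 ≠ _; omega) (by show bl n s.1 ≠ _; omega)
        · have := congrArg Fin.val h3
          simp at this
          omega
      · obtain ⟨z, hz, j, hj, rfl⟩ := mem_cel.1 h2
        refine sat_tr (blk (4 * h) n) (m5 z hz) (fun s hs => absurd hs (notMem_empty _))
          (fun s hs => ?_) ⟨j, by omega⟩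
        have h3 := b0 s hs
        have h4 := Nat.mod_lt z (show 0 < 14 by norm_num)
        exact sum3 hp (C := 4 + z % 14) (l := h + 3 * (z / 14)) (s := 1)
          (mem_union_right _ (mem_image.2 ⟨z, mem_range.2 hz, rfl⟩)) (by omega) s.1
          (by show bl n s.1 ≠ _; omega) (by show bl n s.1 ≠ _; omega)
          (by show bl n s.1 ≠ _; omega)
    · exact sat_ord (blk (4 * h) n) (m1 _ τ h1 h2 rfl) fun s hs => absurd hs (notMem_empty _)
  · refine fD_tn _ hA f (p.2 δ) ?_ x hx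
    have h1 : δ ∈ frI 0 2 h a.d ∪ (range a.w).image fun t =>
      (h + t / 4, h + t / 4 + 2 + t % 4, 0) := hδ
    rw [mem_union] at h1
    rcases h1 with h1 | h1
    · obtain ⟨z, hz, rfl⟩ := mem_image.1 h1
      exact sat_ord (blk (4 * h) n) (m10 z (mem_range.1 hz)) fun s hs =>
        absurd hs (notMem_empty _)
    · obtain ⟨z, hz, rfl⟩ := mem_image.1 h1
      refine sat_ord (blk (4 * h) n) (m11 z (mem_range.1 hz)) fun s hs => ?_
      have h3 := b0 s (mem_singleton.1 hs)
      refine van2 hp _ _ ?_ ?_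
      · show bl n s.1 ≠ h + z / 4
        omega
      · show bl n s.1 ≠ h + z / 4 + 2 + z % 4
        omega

end Pool.Agent.KZ.AL
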