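import Pool.Agent.KZ.AL.Mk
import Pool.Agent.H54.V7.Eul

/-!
# KZ4, ALPHA: forms and symmetric tensors (general part)

The form `f` (coefficients of the monomials) gives the symmetric tensor `F e = (∏ s, (e s)!) * f e`.
-/

set_option autoImplicit false
set_option linter.unusedSectionVars false

namespace Pool.Agent.KZ.AL

open Finset Pool.Agent.H51.TB Pool.Agent.H54.V7 Pool.Agent.V7.ST
open Pool.Agent.H18.Ex (tcr)
open Pool.Agent.V7 (msk Ex blk mem_Ex)

section

variable {n : ℕ} (A : Finset (Fin n → ℕ))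

/-- The exponent of a multiset of variables. -/
def cn (n : ℕ) (e : Multiset ℕ) : Fin n → ℕ := fun s => e.count s.1

/-- The product of the factorials. -/
def fc {n : ℕ} (b : Fin n → ℕ) : ℂ := ∏ s, ((b s).factorial : ℂ)

theorem fc_ne {n : ℕ} (b : Fin n → ℕ) : fc b ≠ 0 :=
  prod_ne_zero_iff.2 fun _ _ => Nat.cast_ne_zero.2 (Nat.factorial_ne_zero _)

theorem fc_add {n : ℕ} (b : Fin n → ℕ) (l : Fin n) :
    fc (b + Pi.single l 1) = ((b l + 1 : ℕ) : ℂ) * fc b := by
  unfold fc
  rw [← mul_prod_erase univ _ (mem_univ l), ← mul_prod_erase univ (fun s => ((b s).factorial : ℂ))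
    (mem_univ l), Pi.add_apply, Pi.single_eq_same, Nat.factorial_succ, Nat.cast_mul, mul_assoc]
  congr 2
  refine prod_congr rfl fun i hi => ?_
  rw [Pi.add_apply, Pi.single_eq_of_ne (ne_of_mem_erase hi), Nat.add_zero]

open Classical in
/-- The symmetric tensor of a form. -/
noncomputable def tn (f : {a // a ∈ A} → ℂ) (e : Multiset ℕ) : ℂ :=
  if (∀ s ∈ e, s < n) then fc (cn n e) * (if h : cn n e ∈ A then f ⟨cn n e, h⟩ else 0) else 0

/-- The symmetric tensor of a form as a linear map. -/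
noncomputable def tnL : ({a // a ∈ A} → ℂ) →ₗ[ℂ] (Multiset ℕ → ℂ) where
  toFun := tn A
  map_add' f g := by
    funext e
    show tn A (f + g) e = tn A f e + tn A g e
    unfold tn
    split_ifs
    · rw [Pi.add_apply, mul_add]
    · rw [mul_zero, add_zero]
    · rw [add_zero]
  map_smul' c f := by
    funext e
    show tn A (c • f) e = c * tn A f e
    unfold tn
    split_ifs
    · rw [Pi.smul_apply, smul_eq_mul]
      ring
    · rw [mul_zero, mul_zero]
    · rw [mul_zero]

theorem tnL_inj : Function.Injective (tnL A) := by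
  rw [← LinearMap.ker_eq_bot, LinearMap.ker_eq_bot']
  intro f hf
  funext a
  let e : Multiset ℕ := ∑ s : Fin n, a.1 s • ({s.1} : Multiset ℕ)
  have h1 : ∀ s ∈ e, s < n := by
    intro s hs
    rw [Multiset.mem_sum] at hs
    obtain ⟨i, -, hi⟩ := hs
    have h2 := Multiset.mem_of_mem_nsmul hi
    rw [Multiset.mem_singleton] at h2
    rw [h2]
    exact i.2
  have h2 : cn n e = a.1 := by
    funext s
    show Multiset.count s.1 (∑ i : Fin n, a.1 i • ({i.1} : Multiset ℕ)) = a.1 s
    rw [Multiset.count_sum', sum_eq_single s]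
    · rw [Multiset.count_nsmul, Multiset.count_singleton_self, mul_one]
    · intro i _ hi
      rw [Multiset.count_nsmul, Multiset.count_singleton, if_neg, mul_zero]
      intro h
      exact hi (Fin.ext h.symm)
    · intro h
      exact absurd (mem_univ s) h
  have h3 : tn A f e = 0 := congrFun hf e
  unfold tn at h3
  have h4 : cn n e ∈ A := by
    rw [h2]
    exact a.2
  rw [if_pos h1, dif_pos h4] at h3
  have h5 := (mul_eq_zero.1 h3).resolve_left (fc_ne _)
  have h6 : (⟨cn n e, h4⟩ : {a // a ∈ A}) = a := Subtype.ext h2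
  rw [h6] at h5
  exact h5

theorem tcr_self_deg {ι : Type} [Fintype ι] [DecidableEq ι] (q : ι → ℂ) (e b : ι → ℕ)
    (h : ∑ i, e i = ∑ i, b i) : tcr q e b = if e = b then 1 else 0 := by
  split_ifs with h1
  · subst h1
    unfold tcr
    refine prod_eq_one fun i _ => ?_
    rw [Nat.choose_self, Nat.sub_self, pow_zero, Nat.cast_one, one_mul]
  · refine tcr_eq_zero _ _ _ fun h2 => h1 (funext fun i => ?_)
    have h3 := (sum_eq_sum_iff_of_le fun i _ => h2 i).1 h.symm
    exact (h3 i (mem_univ i)).symm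

/-- The derivatives of a form. -/
noncomputable def Dd (f : {a // a ∈ A} → ℂ) (q : Fin n → ℂ) (b : Fin n → ℕ) : ℂ :=
  fc b * TC (fun e : {a // a ∈ A} => e.1) f q b

theorem Dd_step (hA : ∀ a ∈ A, ∑ s, a s = 4) (f : {a // a ∈ A} → ℂ) (q : Fin n → ℂ)
    (b : Fin n → ℕ) : ∑ a, q a * Dd A f q (b + Pi.single a 1) =
      ((4 : ℕ) - ((∑ i, b i : ℕ) : ℂ)) * Dd A f q b := by
  unfold Dd
  have h := euler_TC (fun e : {a // a ∈ A} => e.1) 4 (fun e => hA e.1 e.2) f q b
  calc ∑ a, q a * (fc (b + Pi.single a 1) * TC (fun e : {a // a ∈ A} => e.1) f q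
        (b + Pi.single a 1)) = fc b * ∑ k, ((b k + 1 : ℕ) : ℂ) * q k *
          TC (fun e : {a // a ∈ A} => e.1) f q (b + Pi.single k 1) := by
        rw [mul_sum]
        refine sum_congr rfl fun a _ => ?_
        rw [fc_add]
        ring
    _ = _ := by
        rw [h]
        ring

theorem tn_eq (hA : ∀ a ∈ A, ∑ s, a s = 4) (f : {a // a ∈ A} → ℂ) (q : Fin n → ℂ)
    (e : Multiset ℕ) (h : ∀ s ∈ e, s < n) (b : Fin n → ℕ) (hb : cn n e = b) (h4 : ∑ s, b s = 4) :
    tn A f e = Dd A f q b := by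
  classical
  subst hb
  unfold tn Dd TC
  rw [if_pos h]
  congr 1
  have h1 : ∀ x : {a // a ∈ A}, f x * tcr q x.1 (cn n e) = if x.1 = cn n e then f x else 0 := by
    intro x
    rw [tcr_self_deg q x.1 (cn n e) ((hA x.1 x.2).trans h4.symm)]
    split_ifs
    · rw [mul_one]
    · rw [mul_zero]
  rw [sum_congr rfl fun x _ => h1 x]
  by_cases hm : cn n e ∈ A
  · rw [dif_pos hm, sum_eq_single_of_mem (⟨cn n e, hm⟩ : {a // a ∈ A}) (mem_univ _), if_pos rfl]
    intro x _ hx
    rw [if_neg]
    intro h2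
    exact hx (Subtype.ext h2)
  · rw [dif_neg hm]
    refine (sum_eq_zero fun x _ => ?_).symm
    rw [if_neg]
    intro h2
    exact hm (h2 ▸ x.2)

theorem cn_four (a b x y : Fin n) : cn n ({a.1, b.1, x.1, y.1} : Multiset ℕ) =
    Pi.single x 1 + Pi.single y 1 + Pi.single a 1 + Pi.single b 1 := by
  funext s
  have key : ∀ t : Fin n, (if s.1 = t.1 then 1 else 0) = (Pi.single t 1 : Fin n → ℕ) s := by
    intro t
    rw [Pi.single_apply]
    exact if_congr Fin.ext_iff.symm rfl rfl
  show Multiset.count s.1 ({a.1, b.1, x.1, y.1} : Multiset ℕ) = _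
  simp only [Multiset.insert_eq_cons, Multiset.count_cons, Multiset.count_singleton, key,
    Pi.add_apply]
  omega

theorem lt_four {a b x y : ℕ} (ha : a < n) (hb : b < n) (hx : x < n) (hy : y < n) :
    ∀ s ∈ ({a, b, x, y} : Multiset ℕ), s < n := by
  intro s hs
  simp only [Multiset.insert_eq_cons, Multiset.mem_cons, Multiset.mem_singleton] at hs
  rcases hs with rfl | rfl | rfl | rfl
  exacts [ha, hb, hx, hy]

theorem sum_single_add {n : ℕ} (b : Fin n → ℕ) (l : Fin n) :
    ∑ i, (b + Pi.single l 1 : Fin n → ℕ) i = ∑ i, b i + 1 := by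
  simp [sum_add_distrib]

/-- The conditions of a triple point. -/
theorem fT_tn (hA : ∀ a ∈ A, ∑ s, a s = 4) (f : {a // a ∈ A} → ℂ) (v : ℕ → ℂ)
    (hf : Fat (fun e : {a // a ∈ A} => e.1) 3 (fun s : Fin n => v s.1) f) (x y : ℕ) (hx : x < n)
    (hy : y < n) : fT n v x y (tn A f) = 0 := by
  set q : Fin n → ℂ := fun s => v s.1 with hq
  set X : Fin n := ⟨x, hx⟩
  set Y : Fin n := ⟨y, hy⟩
  unfold fT
  rw [sum_range]
  have hXY : ∑ i, (Pi.single X 1 + Pi.single Y 1 : Fin n → ℕ) i = 2 := by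
    simp [sum_add_distrib]
  have h1 : ∀ a : Fin n, ∑ b ∈ range n, v a.1 * v b * tn A f {a.1, b, x, y} =
      q a * Dd A f q (Pi.single X 1 + Pi.single Y 1 + Pi.single a 1) := by
    intro a
    rw [sum_range]
    have h2 : ∀ b : Fin n, v a.1 * v b.1 * tn A f {a.1, b.1, x, y} =
        q a * (q b * Dd A f q (Pi.single X 1 + Pi.single Y 1 + Pi.single a 1 + Pi.single b 1)) := by
      intro b
      rw [tn_eq A hA f q {a.1, b.1, x, y} (lt_four a.2 b.2 hx hy) _ (cn_four a b X Y)
        (by rw [sum_single_add, sum_single_add, hXY])]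
      ring
    rw [sum_congr rfl fun b _ => h2 b, ← mul_sum, Dd_step A hA f q]
    rw [sum_single_add, hXY]
    norm_num
  rw [sum_congr rfl fun a _ => h1 a, Dd_step A hA f q]
  have h3 : Dd A f q (Pi.single X 1 + Pi.single Y 1) = 0 := by
    unfold Dd TC
    rw [hf _ (by rw [hXY]; norm_num), mul_zero]
  rw [h3, mul_zero]

/-- The conditions of a double point. -/
theorem fD_tn (hA : ∀ a ∈ A, ∑ s, a s = 4) (f : {a // a ∈ A} → ℂ) (v : ℕ → ℂ)
    (hf : Fat (fun e : {a // a ∈ A} => e.1) 2 (fun s : Fin n => v s.1) f) (x : ℕ) (hx : x < n) :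
    fD n v x (tn A f) = 0 := by
  set q : Fin n → ℂ := fun s => v s.1 with hq
  set X : Fin n := ⟨x, hx⟩
  unfold fD
  rw [sum_range]
  have hX : ∑ i, (Pi.single X 1 : Fin n → ℕ) i = 1 := by simp
  have h1 : ∀ a : Fin n, ∑ b ∈ range n, ∑ c ∈ range n, v a.1 * v b * v c *
      tn A f {a.1, b, c, x} = q a * (2 * Dd A f q (Pi.single X 1 + Pi.single a 1)) := by
    intro a
    rw [sum_range]
    have h2 : ∀ b : Fin n, ∑ c ∈ range n, v a.1 * v b.1 * v c * tn A f {a.1, b.1, c, x} =
        q a * (q b * Dd A f q (Pi.single X 1 + Pi.single a 1 + Pi.single b 1)) := by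
      intro b
      rw [sum_range]
      have h3 : ∀ c : Fin n, v a.1 * v b.1 * v c.1 * tn A f {a.1, b.1, c.1, x} =
          q a * (q b * (q c * Dd A f q (Pi.single X 1 + Pi.single a 1 + Pi.single b 1 +
            Pi.single c 1))) := by
        intro c
        have h5 : cn n ({a.1, b.1, c.1, X.1} : Multiset ℕ) =
            Pi.single X 1 + Pi.single a 1 + Pi.single b 1 + Pi.single c 1 := by
          rw [cn_four]
          funext s
          simp only [Pi.add_apply]
          omega
        rw [tn_eq A hA f q {a.1, b.1, c.1, x} (lt_four a.2 b.2 c.2 hx) _ h5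
          (by rw [sum_single_add, sum_single_add, sum_single_add, hX])]
        ring
      rw [sum_congr rfl fun c _ => h3 c, ← mul_sum, ← mul_sum, Dd_step A hA f q]
      rw [sum_single_add, sum_single_add, hX]
      norm_num
    rw [sum_congr rfl fun b _ => h2 b, ← mul_sum, Dd_step A hA f q]
    rw [sum_single_add, hX]
    norm_num
  rw [sum_congr rfl fun a _ => h1 a]
  have h4 : ∀ a : Fin n, q a * (2 * Dd A f q (Pi.single X 1 + Pi.single a 1)) =
      2 * (q a * Dd A f q (Pi.single X 1 + Pi.single a 1)) := fun a => by ring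
  rw [sum_congr rfl fun a _ => h4 a, ← mul_sum, Dd_step A hA f q]
  have h3 : Dd A f q (Pi.single X 1) = 0 := by
    unfold Dd TC
    rw [hf _ (by rw [hX]; norm_num), mul_zero]
  rw [h3, mul_zero, mul_zero]

end

/-! ### Configurations with positions -/

section

variable {n : ℕ} (β : Fin n → ℕ) (j : ℕ)

/-- Objects with positions. -/
theorem gM_le_of (O : Multiset (Kd × (Fin n × Fin 3 → ℂ))) (W : Submodule ℂ (Multiset ℕ → ℂ))
    [Module.Finite ℂ W]
    (h : ∀ f : {a // a ∈ Ex β 4 j} → ℂ, (∀ o ∈ O, SatK β o.1 o.2 f) → tn (Ex β 4 j) f ∈ W) :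
    gM (LS β j) (O.map Prod.fst) ≤ Module.finrank ℂ W := by
  induction O using Quotient.inductionOn with
  | h l =>
    let m : Fin l.length → Kd := fun i => (l.get i).1
    let P : Fin l.length → Fin n × Fin 3 → ℂ := fun i => (l.get i).2
    have h1 : (univ : Finset (Fin l.length)).val.map m = Multiset.map Prod.fst (l : Multiset (Kd × (Fin n × Fin 3 → ℂ))) := by
      rw [Fin.univ_val_map, Multiset.map_coe]
      congr 1
      refine List.ext_getElem ?_ ?_
      · rw [List.length_ofFn, List.length_map]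
      · intro i h1 h2
        rw [List.getElem_ofFn, List.getElem_map]
        rfl
    have h2 : gM (LS β j) (Multiset.map Prod.fst (l : Multiset (Kd × (Fin n × Fin 3 → ℂ)))) ≤
        Module.finrank ℂ ((LS β j).V m P) := by
      rw [← h1, ← gd_eq_gM]
      exact gd_le (LS β j) m P
    refine h2.trans ?_
    refine LinearMap.finrank_le_finrank_of_injective
      (f := ((tnL (Ex β 4 j)) ∘ₗ ((LS β j).V m P).subtype).codRestrict W fun f => ?_) ?_
    · refine h f.1 fun o ho => ?_
      have h3 := (mem_LSA β (Ex β 4 j) m P f.1).1 f.2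
      obtain ⟨i, hi⟩ := List.get_of_mem ho
      have h4 := h3 i
      have h5 : m i = o.1 := congrArg Prod.fst hi
      have h6 : P i = o.2 := congrArg Prod.snd hi
      rw [h5, h6] at h4
      exact h4
    · intro f g hfg
      have h3 := congrArg Subtype.val hfg
      exact Subtype.ext (tnL_inj _ h3)

/-- The position of an object given by three vectors. -/
def po (v : Fin 3 → ℕ → ℂ) : Fin n × Fin 3 → ℂ := fun z => v z.2 z.1.1

theorem sat_ord {A : Finset (Fin n → ℕ)} {μ : ℕ} {I : Finset ℕ} {v : ℕ → ℂ}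
    {f : {a // a ∈ A} → ℂ} (h : SatK β (.ord μ I) (po fun _ => v) f)
    (hI : ∀ s : Fin n, β s ∈ I → v s.1 = 0) :
    Fat (fun e : {a // a ∈ A} => e.1) μ (fun s : Fin n => v s.1) f := by
  have h1 := h 0
  have h2 : pt β (.ord μ I) 0 (po fun _ => v) = fun s : Fin n => v s.1 := by
    funext s
    simp only [pt, msk]
    split_ifs with h3
    · exact (hI s h3).symm
    · rfl
  rw [h2] at h1
  exact h1

theorem sat_pr {A : Finset (Fin n → ℕ)} {i : ℕ} {I : Finset ℕ} {v : Fin 3 → ℕ → ℂ}
    {f : {a // a ∈ A} → ℂ} (h : SatK β (.pr i I) (po v) f)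
    (hI : ∀ s : Fin n, β s ∈ I → ∀ x, v x s.1 = 0)
    (hi : ∀ s : Fin n, β s = i → v 0 s.1 + v 1 s.1 = 0) (x : Fin 3) (hx : x ≠ 2) :
    Fat (fun e : {a // a ∈ A} => e.1) 3 (fun s : Fin n => v x s.1) f := by
  have h1 := h x
  have h2 : pt β (.pr i I) x (po v) = fun s : Fin n => v x s.1 := by
    funext s
    have hx' : x = 0 ∨ x = 1 := by
      fin_cases x
      · exact Or.inl rfl
      · exact Or.inr rfl
      · exact absurd rfl hx
    simp only [pt, msk]
    by_cases h3 : β s ∈ I
    · rw [if_pos h3]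
      exact (hI s h3 x).symm
    · rw [if_neg h3]
      rcases hx' with rfl | rfl
      · rw [if_pos rfl]
        rfl
      · rw [if_neg (by decide)]
        split_ifs with h4
        · have h5 := hi s h4
          show - v 0 s.1 = v 1 s.1
          linear_combination -h5
        · rfl
  have h3 : mu (.pr i I) x = 3 := if_neg hx
  rw [h2, h3] at h1
  exact h1

theorem sat_tr {A : Finset (Fin n → ℕ)} {i : ℕ} {I : Finset ℕ} {v : Fin 3 → ℕ → ℂ}
    {f : {a // a ∈ A} → ℂ} (h : SatK β (.tr i I) (po v) f)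
    (hI : ∀ s : Fin n, β s ∈ I → ∀ x, v x s.1 = 0)
    (hi : ∀ s : Fin n, β s = i → v 0 s.1 + v 1 s.1 + v 2 s.1 = 0) (x : Fin 3) :
    Fat (fun e : {a // a ∈ A} => e.1) 3 (fun s : Fin n => v x s.1) f := by
  have h1 := h x
  have h2 : pt β (.tr i I) x (po v) = fun s : Fin n => v x s.1 := by
    funext s
    simp only [pt, msk]
    by_cases h3 : β s ∈ I
    · rw [if_pos h3]
      exact (hI s h3 x).symm
    · rw [if_neg h3]
      split_ifs with h5 h4
      · subst h5
        have h6 := hi s h4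
        show - (v 0 s.1 + v 1 s.1) = v 2 s.1
        linear_combination -h6
      · subst h5
        rfl
      · rfl
  rw [h2] at h1
  exact h1

end

/-- The spaces of solutions have finite dimension. -/
theorem finite_sol (D : Dg) (lv : ℕ) (p : Pos ℂ) : Module.Finite ℂ (D.sol lv p) := by
  let r : (D.sol lv p) →ₗ[ℂ] ({e // e ∈ D.ad lv} → ℂ) :=
    { toFun := fun F e => F.1 e.1
      map_add' := fun _ _ => rfl
      map_smul' := fun _ _ => rfl }
  refine Module.Finite.of_injective r ?_
  intro F G h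
  apply Subtype.ext
  funext e
  by_cases he : e ∈ D.ad lv
  · exact congrFun h ⟨e, he⟩
  · rw [F.2.1 e he, G.2.1 e he]

end Pool.Agent.KZ.AL
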