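import Mathlib

/-!
# KZ4, ALPHA: definitions

Variables are natural numbers `s < n`, divided into blocks of four variables; each of the last `n % 4`
variables is a block.  Quartic forms are symmetric tensors: functions on the multisets of four
variables.  The colours of the blocks are `0` (the first `h0` blocks), `1` (the next `h1` blocks), `2`
(the other blocks of size four) and `3` (blocks of size one).

A design: every pair of blocks of the colours `(0, 1)`, `(0, 2)`, `(1, 2)` carries `n01`, `n02`, `n12`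
triple points (T-points) `(A, B, s)`, `A < B` the blocks, `s` the number.  A special `(C, L, s)`:
centre `C`, leaves `L` (two or three blocks): the sum of the components in the centre of the points
`s` of the edges between `C` and the leaves is `0`.  Free items `(A, B, m)`: double points on `A ∪ B`.

All sets of rows, columns, pairs, losses are graded by the set `J` of blocks (label).
-/

set_option autoImplicit false

namespace Pool.Agent.KZ.AL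

open Finset

/-- The block of a variable. -/
def bl (n s : ℕ) : ℕ := if s < 4 * (n / 4) then s / 4 else s - 3 * (n / 4)

/-- A design. -/
structure Dg where
  n : ℕ
  h0 : ℕ
  h1 : ℕ
  n01 : ℕ
  n02 : ℕ
  n12 : ℕ
  Sp : Finset (ℕ × Finset ℕ × ℕ)
  Fr : Finset (ℕ × ℕ × ℕ)

/-- The point number `s` of the edge between `C` and `B`. -/
def pn (C B s : ℕ) : ℕ × ℕ × ℕ := (min C B, max C B, s)

/-- Positions: the vectors of the T-points and of the free items. -/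
abbrev Pos (K : Type) : Type := (ℕ × ℕ × ℕ → ℕ → K) × (ℕ × ℕ × ℕ → ℕ → K)

/-- Rows: T-rows `(τ, x, y)`, free rows `(δ, x)`, gained rows `(S, x)`. -/
abbrev Rw : Type :=
  ((ℕ × ℕ × ℕ) × ℕ × ℕ) ⊕ (((ℕ × ℕ × ℕ) × ℕ) ⊕ ((ℕ × Finset ℕ × ℕ) × ℕ))

/-- The row of a triple point: `F ↦ F(v, v, x, y)`. -/
def sT {K : Type} [CommRing K] (n : ℕ) (v : ℕ → K) (x y : ℕ) (e : Multiset ℕ) : K :=
  ∑ a ∈ range n, ∑ b ∈ range n, if ({a, b, x, y} : Multiset ℕ) = e then v a * v b else 0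

/-- The row of a double point: `F ↦ F(u, u, u, x)`. -/
def sD {K : Type} [CommRing K] (n : ℕ) (u : ℕ → K) (x : ℕ) (e : Multiset ℕ) : K :=
  ∑ a ∈ range n, ∑ b ∈ range n, ∑ c ∈ range n,
    if ({a, b, c, x} : Multiset ℕ) = e then u a * u b * u c else 0

/-- `F(v, v, x, y)`. -/
def fT {K : Type} [CommRing K] (n : ℕ) (v : ℕ → K) (x y : ℕ) (F : Multiset ℕ → K) : K :=
  ∑ a ∈ range n, ∑ b ∈ range n, v a * v b * F {a, b, x, y}

/-- `F(u, u, u, x)`. -/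
def fD {K : Type} [CommRing K] (n : ℕ) (u : ℕ → K) (x : ℕ) (F : Multiset ℕ → K) : K :=
  ∑ a ∈ range n, ∑ b ∈ range n, ∑ c ∈ range n, u a * u b * u c * F {a, b, c, x}

theorem fT_add {K : Type} [CommRing K] (n : ℕ) (v : ℕ → K) (x y : ℕ) (F G : Multiset ℕ → K) :
    fT n v x y (F + G) = fT n v x y F + fT n v x y G := by
  simp only [fT, Pi.add_apply, mul_add, sum_add_distrib]

theorem fT_smul {K : Type} [CommRing K] (n : ℕ) (v : ℕ → K) (x y : ℕ) (c : K)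
    (F : Multiset ℕ → K) : fT n v x y (c • F) = c * fT n v x y F := by
  simp only [fT, Pi.smul_apply, smul_eq_mul, mul_sum]
  exact sum_congr rfl fun a _ => sum_congr rfl fun b _ => by ring

theorem fD_add {K : Type} [CommRing K] (n : ℕ) (u : ℕ → K) (x : ℕ) (F G : Multiset ℕ → K) :
    fD n u x (F + G) = fD n u x F + fD n u x G := by
  simp only [fD, Pi.add_apply, mul_add, sum_add_distrib]

theorem fD_smul {K : Type} [CommRing K] (n : ℕ) (u : ℕ → K) (x : ℕ) (c : K)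
    (F : Multiset ℕ → K) : fD n u x (c • F) = c * fD n u x F := by
  simp only [fD, Pi.smul_apply, smul_eq_mul, mul_sum]
  exact sum_congr rfl fun a _ => sum_congr rfl fun b _ => sum_congr rfl fun d _ => by ring

/-- The multisets of four variables. -/
def mons (n : ℕ) : Finset (Multiset ℕ) := ((range n).sym 4).image fun e : Sym ℕ 4 => (e : Multiset ℕ)

/-- The blocks of a multiset of variables. -/
def lb (n : ℕ) (e : Multiset ℕ) : Finset ℕ := e.toFinset.image (bl n)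

/-- The sum of the points of a special. -/
def gv {K : Type} [CommRing K] (p : Pos K) (S : ℕ × Finset ℕ × ℕ) (x : ℕ) : K :=
  ∑ B ∈ S.2.1, p.1 (pn S.1 B S.2.2) x

namespace Dg

variable (D : Dg)

/-- The number of blocks. -/
def nb : ℕ := D.n / 4 + D.n % 4

/-- The colour of a block. -/
def col (B : ℕ) : ℕ :=
  if B < D.h0 then 0 else if B < D.h0 + D.h1 then 1 else if B < D.n / 4 then 2 else 3

/-- The number of points of an edge with the colours `a`, `b`. -/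
def nn (a b : ℕ) : ℕ :=
  if a = 0 ∧ b = 1 then D.n01 else if a = 0 ∧ b = 2 then D.n02 else if a = 1 ∧ b = 2 then D.n12
    else 0

/-- The T-points. -/
def TP : Finset (ℕ × ℕ × ℕ) := (range D.nb ×ˢ range D.nb ×ˢ range 4).filter fun τ =>
  τ.1 < τ.2.1 ∧ τ.2.2 < D.nn (D.col τ.1) (D.col τ.2.1)

/-- The T-rows with the label `J`. -/
def RT (J : Finset ℕ) : Finset ((ℕ × ℕ × ℕ) × ℕ × ℕ) :=
  (D.TP ×ˢ range D.n ×ˢ range D.n).filter fun r =>
    r.2.1 ≤ r.2.2 ∧ ({r.1.1, r.1.2.1, bl D.n r.2.1, bl D.n r.2.2} : Finset ℕ) = J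

/-- The free rows with the label `J`. -/
def RF (J : Finset ℕ) : Finset ((ℕ × ℕ × ℕ) × ℕ) :=
  (D.Fr ×ˢ range D.n).filter fun r => ({r.1.1, r.1.2.1, bl D.n r.2} : Finset ℕ) = J

/-- The gained rows with the label `J`. -/
def RG (J : Finset ℕ) : Finset ((ℕ × Finset ℕ × ℕ) × ℕ) :=
  (D.Sp ×ˢ range D.n).filter fun r =>
    r.1.2.1.card = 2 ∧ bl D.n r.2 ≠ r.1.1 ∧ insert (bl D.n r.2) r.1.2.1 = J

/-- The rows with the label `J`. -/
def rows (J : Finset ℕ) : Finset Rw := (D.RT J).disjSum ((D.RF J).disjSum (D.RG J))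

/-- The columns with the label `J`. -/
def cols (J : Finset ℕ) : Finset (Multiset ℕ) := (mons D.n).filter fun e => lb D.n e = J

/-- The ordered pairs of different T-points with the label `J`. -/
def prs (J : Finset ℕ) : Finset ((ℕ × ℕ × ℕ) × (ℕ × ℕ × ℕ)) :=
  D.TP.offDiag.filter fun r => ({r.1.1, r.1.2.1, r.2.1, r.2.2.1} : Finset ℕ) = J

/-- The losses with the label `J`. -/
def los (J : Finset ℕ) : Finset ((ℕ × Finset ℕ × ℕ) × ℕ) :=
  (D.Sp ×ˢ range D.n).filter fun r =>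
    (r.1.2.1.card = 2 ∧ bl D.n r.2 ≠ r.1.1 ∧ insert r.1.1 (insert (bl D.n r.2) r.1.2.1) = J) ∨
      (r.1.2.1.card = 3 ∧ r.2 = 0 ∧ insert r.1.1 r.1.2.1 = J)

/-- The rows of a position. -/
def val {K : Type} [CommRing K] (p : Pos K) : Rw → Multiset ℕ → K
  | .inl r => sT D.n (p.1 r.1) r.2.1 r.2.2
  | .inr (.inl r) => sD D.n (p.2 r.1) r.2
  | .inr (.inr r) => sD D.n (gv p r.1) r.2

/-- The matrix of the label `J`. -/
def mat {K : Type} [CommRing K] (p : Pos K) (J : Finset ℕ) :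
    Matrix {r // r ∈ D.rows J} {e // e ∈ D.cols J} K := Matrix.of fun r e => D.val p r.1 e.1

/-- Admissible positions. -/
structure Good {K : Type} [CommRing K] (p : Pos K) : Prop where
  v : ∀ τ x, p.1 τ x ≠ 0 → bl D.n x = τ.1 ∨ bl D.n x = τ.2.1
  u : ∀ δ x, p.2 δ x ≠ 0 → bl D.n x = δ.1 ∨ bl D.n x = δ.2.1
  s : ∀ S ∈ D.Sp, ∀ x, bl D.n x = S.1 → gv p S x = 0

/-- The claim for the label `J`. -/
def Loc (p : Pos ℂ) (J : Finset ℕ) : Prop :=
  2 * (D.rows J).card ≤ 2 * (D.mat p J).rank + (D.prs J).card + 2 * (D.los J).card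

/-- The set `J` of blocks meets the colours `< lv`. -/
def adm (lv : ℕ) (J : Finset ℕ) : Prop := ∀ i < lv, ∃ B ∈ J, D.col B = i

instance (lv : ℕ) (J : Finset ℕ) : Decidable (D.adm lv J) := by
  unfold adm
  infer_instance

/-- The labels of the level `lv`. -/
def jj (lv : ℕ) : Finset (Finset ℕ) := (range D.nb).powerset.filter (D.adm lv)

/-- The columns of the level `lv`. -/
def ad (lv : ℕ) : Finset (Multiset ℕ) := (mons D.n).filter fun e => D.adm lv (lb D.n e)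

/-- The numbers of all T-rows, free rows, gained rows, ordered pairs, losses of the level `lv`. -/
def cRT (lv : ℕ) : ℕ := ((D.TP ×ˢ range D.n ×ˢ range D.n).filter fun r =>
  r.2.1 ≤ r.2.2 ∧ D.adm lv {r.1.1, r.1.2.1, bl D.n r.2.1, bl D.n r.2.2}).card

def cRF (lv : ℕ) : ℕ := ((D.Fr ×ˢ range D.n).filter fun r =>
  D.adm lv {r.1.1, r.1.2.1, bl D.n r.2}).card

def cRG (lv : ℕ) : ℕ := ((D.Sp ×ˢ range D.n).filter fun r =>
  r.1.2.1.card = 2 ∧ bl D.n r.2 ≠ r.1.1 ∧ D.adm lv (insert (bl D.n r.2) r.1.2.1)).card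

def cPr (lv : ℕ) : ℕ := (D.TP.offDiag.filter fun r =>
  D.adm lv {r.1.1, r.1.2.1, r.2.1, r.2.2.1}).card

def cLo (lv : ℕ) : ℕ := ((D.Sp ×ˢ range D.n).filter fun r =>
  (r.1.2.1.card = 2 ∧ bl D.n r.2 ≠ r.1.1 ∧
      D.adm lv (insert r.1.1 (insert (bl D.n r.2) r.1.2.1))) ∨
    (r.1.2.1.card = 3 ∧ r.2 = 0 ∧ D.adm lv (insert r.1.1 r.1.2.1))).card

/-- The forms of the level `lv` which satisfy the conditions of all T-points and free items. -/
def sol (lv : ℕ) (p : Pos ℂ) : Submodule ℂ (Multiset ℕ → ℂ) where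
  carrier := {F | (∀ e, e ∉ D.ad lv → F e = 0) ∧
    (∀ τ ∈ D.TP, ∀ x < D.n, ∀ y < D.n, fT D.n (p.1 τ) x y F = 0) ∧
    ∀ δ ∈ D.Fr, ∀ x < D.n, fD D.n (p.2 δ) x F = 0}
  add_mem' := by
    rintro F G ⟨h1, h2, h3⟩ ⟨g1, g2, g3⟩
    refine ⟨fun e he => ?_, fun τ hτ x hx y hy => ?_, fun δ hδ x hx => ?_⟩
    · rw [Pi.add_apply, h1 e he, g1 e he, add_zero]
    · rw [fT_add, h2 τ hτ x hx y hy, g2 τ hτ x hx y hy, add_zero]
    · rw [fD_add, h3 δ hδ x hx, g3 δ hδ x hx, add_zero]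
  zero_mem' := by
    refine ⟨fun e he => rfl, fun τ hτ x hx y hy => ?_, fun δ hδ x hx => ?_⟩
    · simp [fT]
    · simp [fD]
  smul_mem' := by
    rintro c F ⟨h1, h2, h3⟩
    refine ⟨fun e he => ?_, fun τ hτ x hx y hy => ?_, fun δ hδ x hx => ?_⟩
    · rw [Pi.smul_apply, h1 e he, smul_zero]
    · rw [fT_smul, h2 τ hτ x hx y hy, mul_zero]
    · rw [fD_smul, h3 δ hδ x hx, mul_zero]

/-- The claim for a small design, with an integer position. -/
def OK : Prop := ∃ p : Pos ℤ, D.Good p ∧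
  2 * (D.rows (range D.nb)).card ≤
    2 * ((D.mat p (range D.nb)).map (Int.cast : ℤ → ℂ)).rank + (D.prs (range D.nb)).card +
      2 * (D.los (range D.nb)).card

/-! ### Well formed designs and standard designs -/

structure WF : Prop where
  h : D.h0 + D.h1 ≤ D.n / 4
  n01 : D.n01 ≤ 4
  n02 : D.n02 ≤ 4
  n12 : D.n12 ≤ 4
  c1 : ∀ S ∈ D.Sp, S.1 ∉ S.2.1
  c2 : ∀ S ∈ D.Sp, S.2.1.card = 2 ∨ S.2.1.card = 3
  c3 : ∀ S ∈ D.Sp, ∀ B ∈ S.2.1, pn S.1 B S.2.2 ∈ D.TP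
  c4 : ∀ S ∈ D.Sp, ∀ S' ∈ D.Sp, ∀ B ∈ S.2.1, ∀ B' ∈ S'.2.1,
    pn S.1 B S.2.2 = pn S'.1 B' S'.2.2 → S = S'
  c5 : ∀ S ∈ D.Sp, ∀ S' ∈ D.Sp, S.1 = S'.1 → S.2.1 = S'.2.1 → S = S'
  c6 : ∀ δ ∈ D.Fr, δ.1 < δ.2.1 ∧ δ.2.1 < D.nb
  c7 : ∀ S ∈ D.Sp, ∀ A B, A < B → S.2.1 = {A, B} → (A, B, S.1) ∉ D.Fr

/-- Standard designs: `t = false`: (4, 3, 3) points per edge, `t = true`: (3, 3, 4). -/
structure Std : Prop where
  N : ∃ t : Bool, D.n01 = (if t then 3 else 4) ∧ D.n02 = 3 ∧ D.n12 = if t then 4 else 3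
  h : D.h0 + D.h1 ≤ D.n / 4
  sp : ∀ S ∈ D.Sp,
    (∃ C l, C < 4 ∧ C < D.h0 ∧ l % 2 = 0 ∧ l + 1 < D.h1 ∧
      S = (C, {D.h0 + l, D.h0 + l + 1}, 0)) ∨
    (∃ C l, 4 ≤ C ∧ C < D.h0 ∧ l % 3 = 0 ∧ l + 2 < D.h1 ∧
      S = (C, {D.h0 + l, D.h0 + l + 1, D.h0 + l + 2}, 1)) ∨
    (∃ C l, C < D.h1 ∧ l % 3 = 0 ∧ l + 2 < D.h0 ∧ S = (D.h0 + C, {l, l + 1, l + 2}, 2)) ∨
    (∃ C l, C < D.h1 ∧ l % 2 = 0 ∧ D.h0 + D.h1 + l + 1 < D.n / 4 ∧
      S = (D.h0 + C, {D.h0 + D.h1 + l, D.h0 + D.h1 + l + 1}, 0)) ∨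
    (∃ C l, C < D.h0 ∧ l % 2 = 0 ∧ D.h0 + D.h1 + l + 1 < D.n / 4 ∧
      S = (C, {D.h0 + D.h1 + l, D.h0 + D.h1 + l + 1}, 0)) ∨
    (∃ C l, C < D.h0 ∧ l % 3 = 0 ∧ D.h0 + D.h1 + l + 2 < D.n / 4 ∧
      S = (C, {D.h0 + D.h1 + l, D.h0 + D.h1 + l + 1, D.h0 + D.h1 + l + 2}, 1))
  fr : ∀ δ ∈ D.Fr, δ.2.2 = 0 ∧ δ.1 < δ.2.1 ∧ δ.2.1 < D.n / 4 ∧
    (D.col δ.1 < D.col δ.2.1 ∨ (D.col δ.1 = 1 ∧ D.col δ.2.1 = 1 ∧ δ.1 + 2 ≤ δ.2.1))

end Dg

end Pool.Agent.KZ.AL
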