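import Mathlib

/-!
# KZ4, ALPHA: ranks at general positions

Finitely many matrices with polynomial entries which have large rank at some positions (one position for
each matrix) have large rank at one common position.
-/

set_option autoImplicit false

namespace Pool.Agent.KZ

open Finset MvPolynomial

section

variable {K : Type*} [Field K]

/-- Linearly independent rows. -/
theorem exists_rows {m n : Type*} [Fintype n] [Finite m] (A : Matrix m n K) (r : ℕ)
    (h : r ≤ A.rank) : ∃ f : Fin r → m, LinearIndependent K fun i => A (f i) := by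
  obtain ⟨v, hv1, -, hv3⟩ := Submodule.exists_fun_fin_finrank_span_eq K (Set.range A.row)
  have h1 : r ≤ Module.finrank K (Submodule.span K (Set.range A.row)) := by
    rw [← Matrix.rank_eq_finrank_span_row]
    exact h
  choose f hf using hv1
  refine ⟨fun i => f (Fin.castLE h1 i), ?_⟩
  have h2 : (fun i => A (f (Fin.castLE h1 i))) = v ∘ Fin.castLE h1 := by
    funext i
    exact hf (Fin.castLE h1 i)
  rw [h2]
  exact hv3.comp _ (Fin.castLE_injective h1)

/-- A non-zero minor. -/
theorem exists_minor {m n : Type*} [Fintype n] [Finite m] (A : Matrix m n K) (r : ℕ)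
    (h : r ≤ A.rank) : ∃ (f : Fin r → m) (g : Fin r → n), (A.submatrix f g).det ≠ 0 := by
  obtain ⟨f, hf⟩ := exists_rows A r h
  have h1 : r ≤ (A.submatrix f id).transpose.rank := by
    rw [Matrix.rank_transpose]
    have h2 : LinearIndependent K (A.submatrix f id).row := hf
    rw [h2.rank_matrix, Fintype.card_fin]
  obtain ⟨g, hg⟩ := exists_rows _ r h1
  refine ⟨f, g, ?_⟩
  have h3 : LinearIndependent K (A.submatrix f g).transpose.row := hg
  rw [Matrix.linearIndependent_rows_iff_isUnit, Matrix.isUnit_iff_isUnit_det,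
    Matrix.det_transpose] at h3
  exact h3.ne_zero

theorem rank_of_minor {m n : Type*} [Fintype n] (A : Matrix m n K) (r : ℕ)
    (f : Fin r → m) (g : Fin r → n) (h : (A.submatrix f g).det ≠ 0) : r ≤ A.rank := by
  have h1 : IsUnit (A.submatrix f g) := by
    rw [Matrix.isUnit_iff_isUnit_det]
    exact isUnit_iff_ne_zero.2 h
  have h2 := Matrix.rank_submatrix_le A f g
  rw [Matrix.rank_of_isUnit _ h1, Fintype.card_fin] at h2
  exact h2

/-- Semicontinuity of the rank of a matrix with polynomial entries. -/
theorem gen_rank {σ : Type*} {m n : Type*} [Fintype n] [Finite m]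
    (M : Matrix m n (MvPolynomial σ K)) (r : ℕ) (p₀ : σ → K)
    (h : r ≤ (M.map fun a => eval p₀ a).rank) :
    ∃ G : MvPolynomial σ K, eval p₀ G ≠ 0 ∧
      ∀ p : σ → K, eval p G ≠ 0 → r ≤ (M.map fun a => eval p a).rank := by
  obtain ⟨f, g, hfg⟩ := exists_minor _ r h
  have key : ∀ p : σ → K, eval p (M.submatrix f g).det =
      ((M.map fun a => eval p a).submatrix f g).det := by
    intro p
    rw [RingHom.map_det]
    rfl
  refine ⟨(M.submatrix f g).det, ?_, fun p hp => ?_⟩
  · rw [key]
    exact hfg
  · rw [key] at hp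
    exact rank_of_minor _ r f g hp

/-- Finitely many matrices: a polynomial such that all ranks are large where it is not zero. -/
theorem gen_ranks [Infinite K] {σ κ : Type*} [Fintype κ] {m n : κ → Type*} [∀ i, Fintype (n i)]
    [∀ i, Finite (m i)] (M : ∀ i, Matrix (m i) (n i) (MvPolynomial σ K)) (r : κ → ℕ)
    (h : ∀ i, ∃ p : σ → K, r i ≤ ((M i).map fun a => eval p a).rank) :
    ∃ G : MvPolynomial σ K, G ≠ 0 ∧
      ∀ p : σ → K, eval p G ≠ 0 → ∀ i, r i ≤ ((M i).map fun a => eval p a).rank := by
  choose p₀ hp₀ using h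
  choose G hG1 hG2 using fun i => gen_rank (M i) (r i) (p₀ i) (hp₀ i)
  refine ⟨∏ i, G i, ?_, fun p hp i => hG2 i p ?_⟩
  · refine prod_ne_zero_iff.2 fun i _ hi => hG1 i ?_
    rw [hi, map_zero]
  · rw [map_prod] at hp
    exact prod_ne_zero_iff.1 hp i (mem_univ i)

/-- A non-zero polynomial over an infinite field is not zero at some position. -/
theorem exists_eval_ne [Infinite K] {σ : Type*} (G : MvPolynomial σ K) (hG : G ≠ 0) :
    ∃ p : σ → K, eval p G ≠ 0 := by
  by_contra h
  push Not at h
  exact hG (MvPolynomial.funext fun p => by rw [h p, map_zero])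

/-- One common position. -/
theorem gen_common [Infinite K] {σ κ : Type*} [Fintype κ] {m n : κ → Type*} [∀ i, Fintype (n i)]
    [∀ i, Finite (m i)] (M : ∀ i, Matrix (m i) (n i) (MvPolynomial σ K)) (r : κ → ℕ)
    (h : ∀ i, ∃ p : σ → K, r i ≤ ((M i).map fun a => eval p a).rank) :
    ∃ p : σ → K, ∀ i, r i ≤ ((M i).map fun a => eval p a).rank := by
  obtain ⟨G, hG, h1⟩ := gen_ranks M r h
  obtain ⟨p, hp⟩ := exists_eval_ne G hG
  exact ⟨p, h1 p hp⟩

end

end Pool.Agent.KZ
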