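import Pool.Agent.KZ.AL.Defs
import Pool.Agent.KZ.AL.Gen

/-!
# KZ4, ALPHA: one position for all labels
-/

set_option autoImplicit false

namespace Pool.Agent.KZ.AL

open Finset

section

variable {R S : Type} [CommRing R] [CommRing S] (φ : R →+* S)

theorem map_sT (n : ℕ) (v : ℕ → R) (x y : ℕ) (e : Multiset ℕ) :
    φ (sT n v x y e) = sT n (fun a => φ (v a)) x y e := by
  unfold sT
  rw [map_sum]
  refine sum_congr rfl fun a _ => ?_
  rw [map_sum]
  refine sum_congr rfl fun b _ => ?_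
  split_ifs
  · exact map_mul φ _ _
  · exact map_zero φ

theorem map_sD (n : ℕ) (v : ℕ → R) (x : ℕ) (e : Multiset ℕ) :
    φ (sD n v x e) = sD n (fun a => φ (v a)) x e := by
  unfold sD
  rw [map_sum]
  refine sum_congr rfl fun a _ => ?_
  rw [map_sum]
  refine sum_congr rfl fun b _ => ?_
  rw [map_sum]
  refine sum_congr rfl fun c _ => ?_
  split_ifs
  · rw [map_mul, map_mul]
  · exact map_zero φ

/-- The position with mapped coordinates. -/
def mpos (p : Pos R) : Pos S := (fun τ x => φ (p.1 τ x), fun δ x => φ (p.2 δ x))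

theorem map_gv (p : Pos R) (X : ℕ × Finset ℕ × ℕ) (x : ℕ) :
    φ (gv p X x) = gv (mpos φ p) X x := by
  unfold gv
  exact map_sum φ _ _

theorem map_val (D : Dg) (p : Pos R) (r : Rw) (e : Multiset ℕ) :
    φ (D.val p r e) = D.val (mpos φ p) r e := by
  rcases r with r | r | r
  · exact map_sT φ _ _ _ _ _
  · exact map_sD φ _ _ _ _
  · have h1 : (fun a => φ (gv p r.1 a)) = gv (mpos φ p) r.1 := funext fun a => map_gv φ p r.1 a
    show φ (sD D.n (gv p r.1) r.2 e) = sD D.n (gv (mpos φ p) r.1) r.2 e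
    rw [map_sD, h1]

theorem map_mat (D : Dg) (p : Pos R) (J : Finset ℕ) :
    (D.mat p J).map (fun a => φ a) = D.mat (mpos φ p) J := by
  ext r e
  exact map_val φ D p r.1 e.1

end

/-- Linear combinations of admissible positions. -/
theorem good_sum (D : Dg) {ι : Type} (s : Finset ι) (c : ι → ℂ) (p : ι → Pos ℂ)
    (hp : ∀ i ∈ s, D.Good (p i)) :
    D.Good ((fun τ x => ∑ i ∈ s, c i * (p i).1 τ x, fun δ x => ∑ i ∈ s, c i * (p i).2 δ x) :
      Pos ℂ) where
  v := by
    intro τ x h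
    obtain ⟨i, hi, hi'⟩ := exists_ne_zero_of_sum_ne_zero h
    exact (hp i hi).v τ x (right_ne_zero_of_mul hi')
  u := by
    intro τ x h
    obtain ⟨i, hi, hi'⟩ := exists_ne_zero_of_sum_ne_zero h
    exact (hp i hi).u τ x (right_ne_zero_of_mul hi')
  s := by
    intro S hS x hx
    show ∑ B ∈ S.2.1, ∑ i ∈ s, c i * (p i).1 (pn S.1 B S.2.2) x = 0
    rw [sum_comm]
    refine sum_eq_zero fun i hi => ?_
    have h1 : ∑ B ∈ S.2.1, (p i).1 (pn S.1 B S.2.2) x = 0 := (hp i hi).s S hS x hx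
    rw [← mul_sum, h1, mul_zero]

/-- One position for all labels.  (The ranks at a general linear combination of the positions are at
least the ranks at the positions.) -/
theorem gen (D : Dg) (JJ : Finset (Finset ℕ))
    (h : ∀ J ∈ JJ, ∃ p : Pos ℂ, D.Good p ∧ D.Loc p J) :
    ∃ p : Pos ℂ, D.Good p ∧ ∀ J ∈ JJ, D.Loc p J := by
  classical
  choose q hq1 hq2 using fun J : {J // J ∈ JJ} => h J.1 J.2
  let P : Pos (MvPolynomial {J // J ∈ JJ} ℂ) :=
    (fun τ x => ∑ J : {J // J ∈ JJ}, MvPolynomial.X J * MvPolynomial.C ((q J).1 τ x),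
      fun δ x => ∑ J : {J // J ∈ JJ}, MvPolynomial.X J * MvPolynomial.C ((q J).2 δ x))
  have hP : ∀ t : {J // J ∈ JJ} → ℂ, mpos (MvPolynomial.eval t) P =
      (fun τ x => ∑ J ∈ univ, t J * (q J).1 τ x, fun δ x => ∑ J ∈ univ, t J * (q J).2 δ x) := by
    intro t
    refine Prod.ext ?_ ?_
    · funext τ x
      show MvPolynomial.eval t (∑ J : {J // J ∈ JJ}, MvPolynomial.X J *
        MvPolynomial.C ((q J).1 τ x)) = _
      rw [map_sum]
      refine sum_congr rfl fun J _ => ?_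
      rw [map_mul, MvPolynomial.eval_X, MvPolynomial.eval_C]
    · funext δ x
      show MvPolynomial.eval t (∑ J : {J // J ∈ JJ}, MvPolynomial.X J *
        MvPolynomial.C ((q J).2 δ x)) = _
      rw [map_sum]
      refine sum_congr rfl fun J _ => ?_
      rw [map_mul, MvPolynomial.eval_X, MvPolynomial.eval_C]
  have hP1 : ∀ J : {J // J ∈ JJ}, mpos (MvPolynomial.eval (Pi.single J 1)) P = q J := by
    intro J
    rw [hP]
    refine Prod.ext ?_ ?_
    · funext τ x
      show ∑ J' ∈ univ, (Pi.single J 1 : {J // J ∈ JJ} → ℂ) J' * (q J').1 τ x = (q J).1 τ x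
      rw [sum_eq_single_of_mem J (mem_univ J), Pi.single_eq_same, one_mul]
      intro J' _ hne
      rw [Pi.single_eq_of_ne hne, zero_mul]
    · funext τ x
      show ∑ J' ∈ univ, (Pi.single J 1 : {J // J ∈ JJ} → ℂ) J' * (q J').2 τ x = (q J).2 τ x
      rw [sum_eq_single_of_mem J (mem_univ J), Pi.single_eq_same, one_mul]
      intro J' _ hne
      rw [Pi.single_eq_of_ne hne, zero_mul]
  obtain ⟨t, ht⟩ := gen_common (K := ℂ) (σ := {J // J ∈ JJ}) (κ := {J // J ∈ JJ})
    (m := fun J => {r // r ∈ D.rows J.1}) (n := fun J => {e // e ∈ D.cols J.1})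
    (fun J => D.mat P J.1) (fun J => (D.mat (q J) J.1).rank) fun J => ⟨Pi.single J 1, by
      rw [map_mat (MvPolynomial.eval (Pi.single J 1)) D P J.1, hP1]⟩
  refine ⟨mpos (MvPolynomial.eval t) P, ?_, fun J hJ => ?_⟩
  · rw [hP]
    exact good_sum D univ t q fun J _ => hq1 J
  · have h1 := ht ⟨J, hJ⟩
    have h2 := map_mat (MvPolynomial.eval t) D P J
    have h3 : D.Loc (q ⟨J, hJ⟩) J := hq2 ⟨J, hJ⟩
    unfold Dg.Loc at h3 ⊢
    beta_reduce at h1
    rw [h2] at h1
    have h4 : 2 * (D.mat (q ⟨J, hJ⟩) J).rank ≤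
        2 * (D.mat (mpos (MvPolynomial.eval t) P) J).rank := Nat.mul_le_mul_left 2 h1
    omega

end Pool.Agent.KZ.AL
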