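import Pool.Agent.KZ.AL.Mk

/-!
# KZ4, ALPHA: the designs are standard
-/

set_option autoImplicit false

namespace Pool.Agent.KZ.AL

open Finset

theorem mem_spP {c0 k l0 m : ℕ} {S : ℕ × Finset ℕ × ℕ} (h : S ∈ spP c0 k l0 m) :
    ∃ t < m, S = (c0 + t % k, {l0 + 2 * (t / k), l0 + 2 * (t / k) + 1}, 0) := by
  unfold spP at h
  rw [mem_image] at h
  obtain ⟨t, ht, h⟩ := h
  exact ⟨t, mem_range.1 ht, h.symm⟩

theorem mem_spQ {c0 k l0 s m : ℕ} {S : ℕ × Finset ℕ × ℕ} (h : S ∈ spQ c0 k l0 s m) :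
    ∃ t < m, S = (c0 + t % k,
      {l0 + 3 * (t / k), l0 + 3 * (t / k) + 1, l0 + 3 * (t / k) + 2}, s) := by
  unfold spQ at h
  rw [mem_image] at h
  obtain ⟨t, ht, h⟩ := h
  exact ⟨t, mem_range.1 ht, h.symm⟩

theorem mem_frI {c0 k l0 m : ℕ} {δ : ℕ × ℕ × ℕ} (h : δ ∈ frI c0 k l0 m) :
    ∃ t < m, δ = (c0 + t % k, l0 + t / k, 0) := by
  unfold frI at h
  rw [mem_image] at h
  obtain ⟨t, ht, h⟩ := h
  exact ⟨t, mem_range.1 ht, h.symm⟩

theorem std_mk2 (t : Bool) (n h : ℕ) (a : L2) (ha : Rm2 n h a) : (mk2 t n h a).Std := by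
  obtain ⟨hh, hn, hp, hq, hr, hpu, hpy, hqy, hd, hz, hw⟩ := ha
  refine ⟨⟨t, rfl, rfl, rfl⟩, ?_, ?_, ?_⟩
  · show h + h ≤ n / 4
    omega
  · intro S hS
    have hS' : S ∈ spP 0 4 h a.p ∪ spQ 4 14 h 1 a.q ∪ spQ h 12 0 2 a.r ∪ spP h 8 (2 * h) a.pu ∪
      spP 0 4 (2 * h) a.py ∪ spQ 4 14 (2 * h) 1 a.qy := hS
    simp only [mem_union] at hS'
    rcases hS' with ((((hS' | hS') | hS') | hS') | hS') | hS'
    · obtain ⟨i, hi, rfl⟩ := mem_spP hS'
      refine Or.inl ⟨0 + i % 4, 2 * (i / 4), by omega, ?_, by omega, ?_, rfl⟩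
      · show 0 + i % 4 < h
        omega
      · show 2 * (i / 4) + 1 < h
        omega
    · obtain ⟨i, hi, rfl⟩ := mem_spQ hS'
      refine Or.inr (Or.inl ⟨4 + i % 14, 3 * (i / 14), by omega, ?_, by omega, ?_, rfl⟩)
      · show 4 + i % 14 < h
        omega
      · show 3 * (i / 14) + 2 < h
        omega
    · obtain ⟨i, hi, rfl⟩ := mem_spQ hS'
      refine Or.inr (Or.inr (Or.inl ⟨i % 12, 0 + 3 * (i / 12), ?_, by omega, ?_, rfl⟩))
      · show i % 12 < h
        omega
      · show 0 + 3 * (i / 12) + 2 < h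
        omega
    · obtain ⟨i, hi, rfl⟩ := mem_spP hS'
      refine Or.inr (Or.inr (Or.inr (Or.inl ⟨i % 8, 2 * (i / 8), ?_, by omega, ?_, ?_⟩)))
      · show i % 8 < h
        omega
      · show h + h + 2 * (i / 8) + 1 < n / 4
        omega
      · show (h + i % 8, ({2 * h + 2 * (i / 8), 2 * h + 2 * (i / 8) + 1} : Finset ℕ), 0) =
          (h + i % 8, {h + h + 2 * (i / 8), h + h + 2 * (i / 8) + 1}, 0)
        rw [two_mul h]
    · obtain ⟨i, hi, rfl⟩ := mem_spP hS'
      refine Or.inr (Or.inr (Or.inr (Or.inr (Or.inl ⟨0 + i % 4, 2 * (i / 4), ?_, by omega, ?_,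
        ?_⟩))))
      · show 0 + i % 4 < h
        omega
      · show h + h + 2 * (i / 4) + 1 < n / 4
        omega
      · show (0 + i % 4, ({2 * h + 2 * (i / 4), 2 * h + 2 * (i / 4) + 1} : Finset ℕ), 0) =
          (0 + i % 4, {h + h + 2 * (i / 4), h + h + 2 * (i / 4) + 1}, 0)
        rw [two_mul h]
    · obtain ⟨i, hi, rfl⟩ := mem_spQ hS'
      refine Or.inr (Or.inr (Or.inr (Or.inr (Or.inr ⟨4 + i % 14, 3 * (i / 14), ?_, by omega, ?_,
        ?_⟩))))
      · show 4 + i % 14 < h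
        omega
      · show h + h + 3 * (i / 14) + 2 < n / 4
        omega
      · show (4 + i % 14, ({2 * h + 3 * (i / 14), 2 * h + 3 * (i / 14) + 1,
            2 * h + 3 * (i / 14) + 2} : Finset ℕ), 1) =
          (4 + i % 14, {h + h + 3 * (i / 14), h + h + 3 * (i / 14) + 1,
            h + h + 3 * (i / 14) + 2}, 1)
        rw [two_mul h]
  · intro δ hδ
    have hδ' : δ ∈ frI 0 2 h a.d ∪ frI 0 2 (2 * h) a.z ∪ frI h 4 (2 * h) a.w := hδ
    simp only [mem_union] at hδ'
    have key : ∀ B, (mk2 t n h a).col B =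
        if B < h then 0 else if B < h + h then 1 else if B < n / 4 then 2 else 3 := fun _ => rfl
    rw [key, key]
    rcases hδ' with (hδ' | hδ') | hδ'
    · obtain ⟨i, hi, rfl⟩ := mem_frI hδ'
      refine ⟨rfl, ?_, ?_, Or.inl ?_⟩
      · show 0 + i % 2 < h + i / 2
        omega
      · show h + i / 2 < n / 4
        omega
      · dsimp only
        rw [if_pos (by omega), if_neg (by omega), if_pos (by omega)]
        omega
    · obtain ⟨i, hi, rfl⟩ := mem_frI hδ'
      refine ⟨rfl, ?_, ?_, Or.inl ?_⟩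
      · show 0 + i % 2 < 2 * h + i / 2
        omega
      · show 2 * h + i / 2 < n / 4
        omega
      · dsimp only
        rw [if_pos (by omega), if_neg (by omega), if_neg (by omega), if_pos (by omega)]
        omega
    · obtain ⟨i, hi, rfl⟩ := mem_frI hδ'
      refine ⟨rfl, ?_, ?_, Or.inl ?_⟩
      · show h + i % 4 < 2 * h + i / 4
        omega
      · show 2 * h + i / 4 < n / 4
        omega
      · dsimp only
        rw [if_neg (by omega), if_pos (by omega), if_neg (by omega), if_neg (by omega),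
          if_pos (by omega)]
        omega

theorem std_mk1 (n h : ℕ) (a : L1) (ha : Rm1 n h a) : (mk1 n h a).Std := by
  obtain ⟨hh, hn, hp, hq, hd, hw⟩ := ha
  refine ⟨⟨false, rfl, rfl, rfl⟩, ?_, ?_, ?_⟩
  · show h + (n / 4 - h) ≤ n / 4
    omega
  · intro S hS
    have hS' : S ∈ spP 0 4 h a.p ∪ spQ 4 14 h 1 a.q := hS
    simp only [mem_union] at hS'
    rcases hS' with hS' | hS'
    · obtain ⟨i, hi, rfl⟩ := mem_spP hS'
      refine Or.inl ⟨0 + i % 4, 2 * (i / 4), by omega, ?_, by omega, ?_, rfl⟩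
      · show 0 + i % 4 < h
        omega
      · show 2 * (i / 4) + 1 < n / 4 - h
        omega
    · obtain ⟨i, hi, rfl⟩ := mem_spQ hS'
      refine Or.inr (Or.inl ⟨4 + i % 14, 3 * (i / 14), by omega, ?_, by omega, ?_, rfl⟩)
      · show 4 + i % 14 < h
        omega
      · show 3 * (i / 14) + 2 < n / 4 - h
        omega
  · intro δ hδ
    have hδ' : δ ∈ frI 0 2 h a.d ∪ (range a.w).image fun t => (h + t / 4, h + t / 4 + 2 + t % 4, 0) :=
      hδ
    rw [mem_union] at hδ'
    have key : ∀ B, (mk1 n h a).col B =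
        if B < h then 0 else if B < h + (n / 4 - h) then 1 else if B < n / 4 then 2 else 3 :=
      fun _ => rfl
    rw [key, key]
    rcases hδ' with hδ' | hδ'
    · obtain ⟨i, hi, rfl⟩ := mem_frI hδ'
      refine ⟨rfl, ?_, ?_, Or.inl ?_⟩
      · show 0 + i % 2 < h + i / 2
        omega
      · show h + i / 2 < n / 4
        omega
      · dsimp only
        rw [if_pos (by omega), if_neg (by omega), if_pos (by omega)]
        omega
    · rw [mem_image] at hδ'
      obtain ⟨i, hi, rfl⟩ := hδ'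
      rw [mem_range] at hi
      refine ⟨rfl, ?_, ?_, Or.inr ⟨?_, ?_, ?_⟩⟩
      · show h + i / 4 < h + i / 4 + 2 + i % 4
        omega
      · show h + i / 4 + 2 + i % 4 < n / 4
        omega
      · dsimp only
        rw [if_neg (by omega), if_pos (by omega)]
      · dsimp only
        rw [if_neg (by omega), if_pos (by omega)]
      · show h + i / 4 + 2 ≤ h + i / 4 + 2 + i % 4
        omega

end Pool.Agent.KZ.AL
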