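import Pool.Agent.KZ.AL.OkC
import Pool.Agent.KZ.AL.Ck.T433_2200_0
import Pool.Agent.KZ.AL.Ck.T433_2200_A
import Pool.Agent.KZ.AL.Ck.T433_2200_B
import Pool.Agent.KZ.AL.Ck.T433_2200_AB
import Pool.Agent.KZ.AL.Ck.T433_1300_0
import Pool.Agent.KZ.AL.Ck.T433_1300_P12
import Pool.Agent.KZ.AL.Ck.T433_1300_P23
import Pool.Agent.KZ.AL.Ck.T433_1300_Q
import Pool.Agent.KZ.AL.Ck.T433_3100_0
import Pool.Agent.KZ.AL.Ck.T433_3100_R
import Pool.Agent.KZ.AL.Ck.T433_1120_0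
import Pool.Agent.KZ.AL.Ck.T433_1120_A
import Pool.Agent.KZ.AL.Ck.T433_1120_B
import Pool.Agent.KZ.AL.Ck.T433_1120_AB
import Pool.Agent.KZ.AL.Ck.T433_1210_0
import Pool.Agent.KZ.AL.Ck.T433_1210_P
import Pool.Agent.KZ.AL.Ck.T433_2110_0
import Pool.Agent.KZ.AL.Ck.T433_1111_0
import Pool.Agent.KZ.AL.Ck.T433_2101_0
import Pool.Agent.KZ.AL.Ck.T433_1201_0
import Pool.Agent.KZ.AL.Ck.T433_1201_P
import Pool.Agent.KZ.AL.Ck.T433_1102_0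
import Pool.Agent.KZ.AL.Ck.T433_1110_0
import Pool.Agent.KZ.AL.Ck.T433_1200_0
import Pool.Agent.KZ.AL.Ck.T433_1200_P
import Pool.Agent.KZ.AL.Ck.T433_2100_0
import Pool.Agent.KZ.AL.Ck.T433_1101_0
import Pool.Agent.KZ.AL.Ck.T433_1100_0
import Pool.Agent.KZ.AL.Ck.T334_2200_0
import Pool.Agent.KZ.AL.Ck.T334_2200_A
import Pool.Agent.KZ.AL.Ck.T334_2200_B
import Pool.Agent.KZ.AL.Ck.T334_2200_AB
import Pool.Agent.KZ.AL.Ck.T334_1300_0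
import Pool.Agent.KZ.AL.Ck.T334_1300_P12
import Pool.Agent.KZ.AL.Ck.T334_1300_P23
import Pool.Agent.KZ.AL.Ck.T334_1300_Q
import Pool.Agent.KZ.AL.Ck.T334_3100_0
import Pool.Agent.KZ.AL.Ck.T334_3100_R
import Pool.Agent.KZ.AL.Ck.T334_1120_0
import Pool.Agent.KZ.AL.Ck.T334_1120_A
import Pool.Agent.KZ.AL.Ck.T334_1120_B
import Pool.Agent.KZ.AL.Ck.T334_1120_AB
import Pool.Agent.KZ.AL.Ck.T334_1210_0
import Pool.Agent.KZ.AL.Ck.T334_1210_P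
import Pool.Agent.KZ.AL.Ck.T334_2110_0
import Pool.Agent.KZ.AL.Ck.T334_1111_0
import Pool.Agent.KZ.AL.Ck.T334_2101_0
import Pool.Agent.KZ.AL.Ck.T334_1201_0
import Pool.Agent.KZ.AL.Ck.T334_1201_P
import Pool.Agent.KZ.AL.Ck.T334_1102_0
import Pool.Agent.KZ.AL.Ck.T334_1110_0
import Pool.Agent.KZ.AL.Ck.T334_1200_0
import Pool.Agent.KZ.AL.Ck.T334_1200_P
import Pool.Agent.KZ.AL.Ck.T334_2100_0
import Pool.Agent.KZ.AL.Ck.T334_1101_0
import Pool.Agent.KZ.AL.Ck.T334_1100_0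

/-!
# KZ4, ALPHA: the finite checks

`ok_abzq_flags`: `a`, `b`, `z` blocks of the colours 0, 1, 2, `q` single variables.
-/

set_option autoImplicit false

namespace Pool.Agent.KZ.AL

open Finset

theorem ok_2200_0 (t : Bool) : (sm t 16 2 2 ∅ ∅).OK := by
  cases t
  · exact Ck.T433_2200_0.ok
  · exact Ck.T334_2200_0.ok

theorem ok_2200_A (t : Bool) : (sm t 16 2 2 {(0, {2, 3}, 0)} ∅).OK := by
  cases t
  · exact Ck.T433_2200_A.ok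
  · exact Ck.T334_2200_A.ok

theorem ok_2200_B (t : Bool) : (sm t 16 2 2 {(1, {2, 3}, 0)} ∅).OK := by
  cases t
  · exact Ck.T433_2200_B.ok
  · exact Ck.T334_2200_B.ok

theorem ok_2200_AB (t : Bool) : (sm t 16 2 2 {(0, {2, 3}, 0), (1, {2, 3}, 0)} ∅).OK := by
  cases t
  · exact Ck.T433_2200_AB.ok
  · exact Ck.T334_2200_AB.ok

theorem ok_1300_0 (t : Bool) : (sm t 16 1 3 ∅ ∅).OK := by
  cases t
  · exact Ck.T433_1300_0.ok
  · exact Ck.T334_1300_0.ok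

theorem ok_1300_P12 (t : Bool) : (sm t 16 1 3 {(0, {1, 2}, 0)} ∅).OK := by
  cases t
  · exact Ck.T433_1300_P12.ok
  · exact Ck.T334_1300_P12.ok

theorem ok_1300_P23 (t : Bool) : (sm t 16 1 3 {(0, {2, 3}, 0)} ∅).OK := by
  cases t
  · exact Ck.T433_1300_P23.ok
  · exact Ck.T334_1300_P23.ok

theorem ok_1300_Q (t : Bool) : (sm t 16 1 3 {(0, {1, 2, 3}, 1)} ∅).OK := by
  cases t
  · exact Ck.T433_1300_Q.ok
  · exact Ck.T334_1300_Q.ok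

theorem ok_3100_0 (t : Bool) : (sm t 16 3 1 ∅ ∅).OK := by
  cases t
  · exact Ck.T433_3100_0.ok
  · exact Ck.T334_3100_0.ok

theorem ok_3100_R (t : Bool) : (sm t 16 3 1 {(3, {0, 1, 2}, 2)} ∅).OK := by
  cases t
  · exact Ck.T433_3100_R.ok
  · exact Ck.T334_3100_R.ok

theorem ok_1120_0 (t : Bool) : (sm t 16 1 1 ∅ ∅).OK := by
  cases t
  · exact Ck.T433_1120_0.ok
  · exact Ck.T334_1120_0.ok

theorem ok_1120_A (t : Bool) : (sm t 16 1 1 {(0, {2, 3}, 0)} ∅).OK := by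
  cases t
  · exact Ck.T433_1120_A.ok
  · exact Ck.T334_1120_A.ok

theorem ok_1120_B (t : Bool) : (sm t 16 1 1 {(1, {2, 3}, 0)} ∅).OK := by
  cases t
  · exact Ck.T433_1120_B.ok
  · exact Ck.T334_1120_B.ok

theorem ok_1120_AB (t : Bool) : (sm t 16 1 1 {(0, {2, 3}, 0), (1, {2, 3}, 0)} ∅).OK := by
  cases t
  · exact Ck.T433_1120_AB.ok
  · exact Ck.T334_1120_AB.ok

theorem ok_1210_0 (t : Bool) : (sm t 16 1 2 ∅ ∅).OK := by
  cases t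
  · exact Ck.T433_1210_0.ok
  · exact Ck.T334_1210_0.ok

theorem ok_1210_P (t : Bool) : (sm t 16 1 2 {(0, {1, 2}, 0)} ∅).OK := by
  cases t
  · exact Ck.T433_1210_P.ok
  · exact Ck.T334_1210_P.ok

theorem ok_2110_0 (t : Bool) : (sm t 16 2 1 ∅ ∅).OK := by
  cases t
  · exact Ck.T433_2110_0.ok
  · exact Ck.T334_2110_0.ok

theorem ok_1111_0 (t : Bool) : (sm t 13 1 1 ∅ ∅).OK := by
  cases t
  · exact Ck.T433_1111_0.ok
  · exact Ck.T334_1111_0.ok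

theorem ok_2101_0 (t : Bool) : (sm t 13 2 1 ∅ ∅).OK := by
  cases t
  · exact Ck.T433_2101_0.ok
  · exact Ck.T334_2101_0.ok

theorem ok_1201_0 (t : Bool) : (sm t 13 1 2 ∅ ∅).OK := by
  cases t
  · exact Ck.T433_1201_0.ok
  · exact Ck.T334_1201_0.ok

theorem ok_1201_P (t : Bool) : (sm t 13 1 2 {(0, {1, 2}, 0)} ∅).OK := by
  cases t
  · exact Ck.T433_1201_P.ok
  · exact Ck.T334_1201_P.ok

theorem ok_1102_0 (t : Bool) : (sm t 10 1 1 ∅ ∅).OK := by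
  cases t
  · exact Ck.T433_1102_0.ok
  · exact Ck.T334_1102_0.ok

theorem ok_1110_0 (t : Bool) : (sm t 12 1 1 ∅ {(0, 1, 0), (0, 2, 0), (1, 2, 0)}).OK := by
  cases t
  · exact Ck.T433_1110_0.ok
  · exact Ck.T334_1110_0.ok

theorem ok_1200_0 (t : Bool) : (sm t 12 1 2 ∅ {(0, 1, 0), (0, 2, 0), (1, 2, 0), (1, 2, 1), (1, 2, 2), (1, 2, 3)}).OK := by
  cases t
  · exact Ck.T433_1200_0.ok
  · exact Ck.T334_1200_0.ok

theorem ok_1200_P (t : Bool) : (sm t 12 1 2 {(0, {1, 2}, 0)} {(0, 1, 0), (0, 2, 0), (1, 2, 0), (1, 2, 1), (1, 2, 2), (1, 2, 3)}).OK := by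
  cases t
  · exact Ck.T433_1200_P.ok
  · exact Ck.T334_1200_P.ok

theorem ok_2100_0 (t : Bool) : (sm t 12 2 1 ∅ {(0, 2, 0), (1, 2, 0)}).OK := by
  cases t
  · exact Ck.T433_2100_0.ok
  · exact Ck.T334_2100_0.ok

theorem ok_1101_0 (t : Bool) : (sm t 9 1 1 ∅ {(0, 1, 0)}).OK := by
  cases t
  · exact Ck.T433_1101_0.ok
  · exact Ck.T334_1101_0.ok

theorem ok_1100_0 (t : Bool) : (sm t 8 1 1 ∅ {(0, 1, 0)}).OK := by
  cases t
  · exact Ck.T433_1100_0.ok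
  · exact Ck.T334_1100_0.ok

end Pool.Agent.KZ.AL
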