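import Pool.Agent.KZ.AL.Defs

/-!
# KZ4, ALPHA: standard designs are well formed
-/

set_option autoImplicit false

namespace Pool.Agent.KZ.AL

open Finset

namespace Dg

variable {D : Dg}

theorem col_zero {B : ℕ} (h : B < D.h0) : D.col B = 0 := if_pos h

theorem col_one {B : ℕ} (h : D.h0 ≤ B) (h' : B < D.h0 + D.h1) : D.col B = 1 := by
  unfold col
  rw [if_neg (by omega), if_pos h']

theorem col_two {B : ℕ} (h : D.h0 + D.h1 ≤ B) (h' : B < D.n / 4) : D.col B = 2 := by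
  unfold col
  rw [if_neg (by omega), if_neg (by omega), if_pos h']

theorem col_three {B : ℕ} (h : D.h0 + D.h1 ≤ B) (h' : D.n / 4 ≤ B) : D.col B = 3 := by
  unfold col
  rw [if_neg (by omega), if_neg (by omega), if_neg (by omega)]

theorem col_cases (B : ℕ) : (D.col B = 0 ∧ B < D.h0) ∨
    (D.col B = 1 ∧ D.h0 ≤ B ∧ B < D.h0 + D.h1) ∨
    (D.col B = 2 ∧ D.h0 + D.h1 ≤ B ∧ B < D.n / 4) ∨
    (D.col B = 3 ∧ D.h0 + D.h1 ≤ B ∧ D.n / 4 ≤ B) := by
  unfold col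
  split_ifs <;> omega

theorem nn01 : D.nn 0 1 = D.n01 := rfl

theorem nn02 : D.nn 0 2 = D.n02 := rfl

theorem nn12 : D.nn 1 2 = D.n12 := rfl

theorem mem_TP (A B s : ℕ) : (A, B, s) ∈ D.TP ↔
    B < D.nb ∧ s < 4 ∧ A < B ∧ s < D.nn (D.col A) (D.col B) := by
  unfold TP
  rw [mem_filter, mem_product, mem_product, mem_range, mem_range, mem_range]
  constructor
  · rintro ⟨⟨h1, h2, h3⟩, h4, h5⟩
    exact ⟨h2, h3, h4, h5⟩
  · rintro ⟨h1, h2, h3, h4⟩
    exact ⟨⟨by dsimp only; omega, h1, h2⟩, h3, h4⟩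

end Dg

theorem pn_lt {C B : ℕ} (s : ℕ) (h : C < B) : pn C B s = (C, B, s) := by
  unfold pn
  rw [min_eq_left h.le, max_eq_right h.le]

theorem pn_gt {C B : ℕ} (s : ℕ) (h : B < C) : pn C B s = (B, C, s) := by
  unfold pn
  rw [min_eq_right h.le, max_eq_left h.le]

/-- The special of a point. -/
def recS (D : Dg) (τ : ℕ × ℕ × ℕ) : ℕ × Finset ℕ × ℕ :=
  if τ.2.2 = 2 then (τ.2.1, {3 * (τ.1 / 3), 3 * (τ.1 / 3) + 1, 3 * (τ.1 / 3) + 2}, 2)
  else if τ.2.1 < D.h0 + D.h1 then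
    (if τ.2.2 = 0 then (τ.1, {D.h0 + 2 * ((τ.2.1 - D.h0) / 2),
        D.h0 + 2 * ((τ.2.1 - D.h0) / 2) + 1}, 0)
      else (τ.1, {D.h0 + 3 * ((τ.2.1 - D.h0) / 3), D.h0 + 3 * ((τ.2.1 - D.h0) / 3) + 1,
        D.h0 + 3 * ((τ.2.1 - D.h0) / 3) + 2}, 1))
  else (if τ.2.2 = 0 then (τ.1, {D.h0 + D.h1 + 2 * ((τ.2.1 - D.h0 - D.h1) / 2),
        D.h0 + D.h1 + 2 * ((τ.2.1 - D.h0 - D.h1) / 2) + 1}, 0)
      else (τ.1, {D.h0 + D.h1 + 3 * ((τ.2.1 - D.h0 - D.h1) / 3),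
        D.h0 + D.h1 + 3 * ((τ.2.1 - D.h0 - D.h1) / 3) + 1,
        D.h0 + D.h1 + 3 * ((τ.2.1 - D.h0 - D.h1) / 3) + 2}, 1))

theorem rec_eq (D : Dg) (hD : D.Std) (S : ℕ × Finset ℕ × ℕ) (hS : S ∈ D.Sp) (B : ℕ)
    (hB : B ∈ S.2.1) : recS D (pn S.1 B S.2.2) = S := by
  rcases hD.sp S hS with ⟨C, l, h1, h2, h3, h4, rfl⟩ | ⟨C, l, h1, h2, h3, h4, rfl⟩ |
    ⟨C, l, h2, h3, h4, rfl⟩ | ⟨C, l, h2, h3, h4, rfl⟩ | ⟨C, l, h2, h3, h4, rfl⟩ |
    ⟨C, l, h2, h3, h4, rfl⟩ <;> simp only [mem_insert, mem_singleton] at hB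
  · rw [pn_lt _ (by omega : C < B)]
    unfold recS
    dsimp only
    rw [if_neg (by norm_num), if_pos (by omega), if_pos rfl,
      show D.h0 + 2 * ((B - D.h0) / 2) = D.h0 + l by omega]
  · rw [pn_lt _ (by omega : C < B)]
    unfold recS
    dsimp only
    rw [if_neg (by norm_num), if_pos (by omega), if_neg (by norm_num),
      show D.h0 + 3 * ((B - D.h0) / 3) = D.h0 + l by omega]
  · rw [pn_gt _ (by omega : B < D.h0 + C)]
    unfold recS
    dsimp only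
    rw [if_pos rfl, show 3 * (B / 3) = l by omega]
  · rw [pn_lt _ (by omega : D.h0 + C < B)]
    unfold recS
    dsimp only
    rw [if_neg (by norm_num), if_neg (by omega), if_pos rfl,
      show D.h0 + D.h1 + 2 * ((B - D.h0 - D.h1) / 2) = D.h0 + D.h1 + l by omega]
  · rw [pn_lt _ (by omega : C < B)]
    unfold recS
    dsimp only
    rw [if_neg (by norm_num), if_neg (by omega), if_pos rfl,
      show D.h0 + D.h1 + 2 * ((B - D.h0 - D.h1) / 2) = D.h0 + D.h1 + l by omega]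
  · rw [pn_lt _ (by omega : C < B)]
    unfold recS
    dsimp only
    rw [if_neg (by norm_num), if_neg (by omega), if_neg (by norm_num),
      show D.h0 + D.h1 + 3 * ((B - D.h0 - D.h1) / 3) = D.h0 + D.h1 + l by omega]

theorem card_two (a : ℕ) : ({a, a + 1} : Finset ℕ).card = 2 := card_pair (by omega)

theorem card_three (a : ℕ) : ({a, a + 1, a + 2} : Finset ℕ).card = 3 :=
  card_eq_three.2 ⟨a, a + 1, a + 2, by omega, by omega, by omega, rfl⟩

theorem sp_snd (D : Dg) (hD : D.Std) (S : ℕ × Finset ℕ × ℕ) (hS : S ∈ D.Sp) (B : ℕ)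
    (hB : B ∈ S.2.1) : S.2.2 = if S.2.1.card = 2 then 0 else if B < D.h0 then 2 else 1 := by
  rcases hD.sp S hS with ⟨C, l, h1, h2, h3, h4, rfl⟩ | ⟨C, l, h1, h2, h3, h4, rfl⟩ |
    ⟨C, l, h2, h3, h4, rfl⟩ | ⟨C, l, h2, h3, h4, rfl⟩ | ⟨C, l, h2, h3, h4, rfl⟩ |
    ⟨C, l, h2, h3, h4, rfl⟩ <;> simp only [mem_insert, mem_singleton] at hB <;> dsimp only
  · rw [card_two, if_pos rfl]
  · rw [card_three, if_neg (by norm_num), if_neg (by omega)]
  · rw [card_three, if_neg (by norm_num), if_pos (by omega)]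
  · rw [card_two, if_pos rfl]
  · rw [card_two, if_pos rfl]
  · rw [card_three, if_neg (by norm_num), if_neg (by omega)]

theorem wf_of_std (D : Dg) (hD : D.Std) : D.WF := by
  have hh := hD.h
  obtain ⟨t, hN1, hN2, hN3⟩ := hD.N
  have hN1' : 3 ≤ D.n01 ∧ D.n01 ≤ 4 := by rw [hN1]; cases t <;> simp
  have hN3' : 3 ≤ D.n12 ∧ D.n12 ≤ 4 := by rw [hN3]; cases t <;> simp
  have hnb : D.nb = D.n / 4 + D.n % 4 := rfl
  have hcard : ∀ S ∈ D.Sp, S.2.1.card = 2 ∨ S.2.1.card = 3 := by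
    intro S hS
    rcases hD.sp S hS with ⟨C, l, h1, h2, h3, h4, rfl⟩ | ⟨C, l, h1, h2, h3, h4, rfl⟩ |
      ⟨C, l, h2, h3, h4, rfl⟩ | ⟨C, l, h2, h3, h4, rfl⟩ | ⟨C, l, h2, h3, h4, rfl⟩ |
      ⟨C, l, h2, h3, h4, rfl⟩ <;> dsimp only
    · exact Or.inl (card_two _)
    · exact Or.inr (card_three _)
    · exact Or.inr (card_three _)
    · exact Or.inl (card_two _)
    · exact Or.inl (card_two _)
    · exact Or.inr (card_three _)
  refine ⟨hh, hN1'.2, by omega, hN3'.2, ?_, hcard, ?_, ?_, ?_, ?_, ?_⟩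
  · intro S hS hB
    rcases hD.sp S hS with ⟨C, l, h1, h2, h3, h4, rfl⟩ | ⟨C, l, h1, h2, h3, h4, rfl⟩ |
      ⟨C, l, h2, h3, h4, rfl⟩ | ⟨C, l, h2, h3, h4, rfl⟩ | ⟨C, l, h2, h3, h4, rfl⟩ |
      ⟨C, l, h2, h3, h4, rfl⟩ <;> simp only [mem_insert, mem_singleton] at hB <;> omega
  · intro S hS B hB
    rcases hD.sp S hS with ⟨C, l, h1, h2, h3, h4, rfl⟩ | ⟨C, l, h1, h2, h3, h4, rfl⟩ |
      ⟨C, l, h2, h3, h4, rfl⟩ | ⟨C, l, h2, h3, h4, rfl⟩ | ⟨C, l, h2, h3, h4, rfl⟩ |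
      ⟨C, l, h2, h3, h4, rfl⟩ <;> simp only [mem_insert, mem_singleton] at hB
    · rw [pn_lt _ (by omega : C < B), Dg.mem_TP, Dg.col_zero (by omega : C < D.h0),
        Dg.col_one (by omega) (by omega : B < D.h0 + D.h1), Dg.nn01]
      dsimp only
      omega
    · rw [pn_lt _ (by omega : C < B), Dg.mem_TP, Dg.col_zero (by omega : C < D.h0),
        Dg.col_one (by omega) (by omega : B < D.h0 + D.h1), Dg.nn01]
      dsimp only
      omega
    · rw [pn_gt _ (by omega : B < D.h0 + C), Dg.mem_TP, Dg.col_zero (by omega : B < D.h0),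
        Dg.col_one (by omega) (by omega : D.h0 + C < D.h0 + D.h1), Dg.nn01]
      dsimp only
      omega
    · rw [pn_lt _ (by omega : D.h0 + C < B), Dg.mem_TP,
        Dg.col_one (by omega) (by omega : D.h0 + C < D.h0 + D.h1),
        Dg.col_two (by omega) (by omega : B < D.n / 4), Dg.nn12]
      dsimp only
      omega
    · rw [pn_lt _ (by omega : C < B), Dg.mem_TP, Dg.col_zero (by omega : C < D.h0),
        Dg.col_two (by omega) (by omega : B < D.n / 4), Dg.nn02]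
      dsimp only
      omega
    · rw [pn_lt _ (by omega : C < B), Dg.mem_TP, Dg.col_zero (by omega : C < D.h0),
        Dg.col_two (by omega) (by omega : B < D.n / 4), Dg.nn02]
      dsimp only
      omega
  · intro S hS S' hS' B hB B' hB' h
    rw [← rec_eq D hD S hS B hB, ← rec_eq D hD S' hS' B' hB', h]
  · intro S hS S' hS' h1 h2
    have h3 : S.2.1.Nonempty := by
      rw [← card_pos]
      rcases hcard S hS with h | h <;> omega
    obtain ⟨B, hB⟩ := h3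
    have h4 := sp_snd D hD S hS B hB
    have h5 := sp_snd D hD S' hS' B (h2 ▸ hB)
    rw [← h2] at h5
    exact Prod.ext h1 (Prod.ext h2 (h4.trans h5.symm))
  · intro δ hδ
    obtain ⟨-, h1, h2, -⟩ := hD.fr δ hδ
    exact ⟨h1, by omega⟩
  · intro S hS A B hAB hL hFr
    obtain ⟨-, -, -, h5⟩ := hD.fr _ hFr
    dsimp only at h5
    have key : ∃ l, A = l ∧ B = l + 1 ∧ D.col l = D.col (l + 1) := by
      have hA : A ∈ S.2.1 := by rw [hL]; exact mem_insert_self _ _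
      have hB : B ∈ S.2.1 := by rw [hL]; exact mem_insert_of_mem (mem_singleton_self _)
      have hc : S.2.1.card = 2 := by rw [hL]; exact card_pair hAB.ne
      rcases hD.sp S hS with ⟨C, l, h1, h2, h3, h4, rfl⟩ | ⟨C, l, h1, h2, h3, h4, rfl⟩ |
        ⟨C, l, h2, h3, h4, rfl⟩ | ⟨C, l, h2, h3, h4, rfl⟩ | ⟨C, l, h2, h3, h4, rfl⟩ |
        ⟨C, l, h2, h3, h4, rfl⟩ <;> simp only [mem_insert, mem_singleton] at hA hB
      · refine ⟨D.h0 + l, by omega, by omega, ?_⟩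
        rw [Dg.col_one (by omega) (by omega), Dg.col_one (by omega) (by omega)]
      · rw [card_three] at hc
        omega
      · rw [card_three] at hc
        omega
      · refine ⟨D.h0 + D.h1 + l, by omega, by omega, ?_⟩
        rw [Dg.col_two (by omega) (by omega), Dg.col_two (by omega) (by omega)]
      · refine ⟨D.h0 + D.h1 + l, by omega, by omega, ?_⟩
        rw [Dg.col_two (by omega) (by omega), Dg.col_two (by omega) (by omega)]
      · rw [card_three] at hc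
        omega
    obtain ⟨l, rfl, rfl, h6⟩ := key
    omega

end Pool.Agent.KZ.AL
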