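import Pool.Agent.KZ.AL.Trans
import Pool.Agent.KZ.AL.Ok
import Pool.Agent.KZ.AL.Wf

/-!
# KZ4, ALPHA: all labels of a standard design
-/

set_option autoImplicit false

namespace Pool.Agent.KZ.AL

open Finset

theorem Dg.col_mono (D : Dg) {b b' : ℕ} (h : b < b') : D.col b ≤ D.col b' := by
  have r0 := D.col_cases b
  have r1 := D.col_cases b'
  omega

theorem Dg.col_le (D : Dg) (b : ℕ) : D.col b ≤ 3 := by
  have r0 := D.col_cases b
  omega

/-! ### Labels without rows -/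

theorem loc_of_empty (D : Dg) (J : Finset ℕ) (h : D.rows J = ∅) :
    ∃ p : Pos ℂ, D.Good p ∧ D.Loc p J := by
  refine ⟨0, ⟨fun τ x h => absurd rfl h, fun τ x h => absurd rfl h, fun S _ x _ => ?_⟩, ?_⟩
  · unfold gv
    exact sum_eq_zero fun B _ => rfl
  · unfold Dg.Loc
    have h1 : (D.rows J).card = 0 := by rw [h, card_empty]
    omega

theorem card_le_four (a b c d : ℕ) : ({a, b, c, d} : Finset ℕ).card ≤ 4 :=
  (card_insert_le _ _).trans (Nat.succ_le_succ ((card_insert_le _ _).trans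
    (Nat.succ_le_succ ((card_insert_le _ _).trans (Nat.succ_le_succ (card_singleton d).le)))))

theorem card_le_three (a b c : ℕ) : ({a, b, c} : Finset ℕ).card ≤ 3 :=
  (card_insert_le _ _).trans (Nat.succ_le_succ ((card_insert_le _ _).trans
    (Nat.succ_le_succ (card_singleton c).le)))

theorem rows_card (D : Dg) (J : Finset ℕ) (h : (D.rows J).Nonempty) : J.card ≤ 4 := by
  obtain ⟨r, hr⟩ := h
  unfold Dg.rows at hr
  rw [mem_disjSum] at hr
  rcases hr with ⟨r, hr, -⟩ | ⟨r, hr, -⟩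
  · unfold Dg.RT at hr
    rw [mem_filter] at hr
    rw [← hr.2.2]
    exact card_le_four _ _ _ _
  · rw [mem_disjSum] at hr
    rcases hr with ⟨r, hr, -⟩ | ⟨r, hr, -⟩
    · unfold Dg.RF at hr
      rw [mem_filter] at hr
      rw [← hr.2]
      exact (card_le_three _ _ _).trans (by norm_num)
    · unfold Dg.RG at hr
      rw [mem_filter] at hr
      rw [← hr.2.2.2]
      refine (card_insert_le _ _).trans ?_
      rw [hr.2.1]
      norm_num

/-! ### Sorted labels -/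

theorem ex_min (J : Finset ℕ) (k : ℕ) (h : J.card = k + 1) :
    ∃ b J', J = insert b J' ∧ J'.card = k ∧ ∀ x ∈ J', b < x := by
  have hne : J.Nonempty := card_pos.1 (by omega)
  refine ⟨J.min' hne, J.erase (J.min' hne), (insert_erase (J.min'_mem hne)).symm, ?_, ?_⟩
  · rw [card_erase_of_mem (J.min'_mem hne), h, Nat.add_sub_cancel]
  · intro x hx
    exact J.min'_lt_of_mem_erase_min' hne hx

theorem ex_two (J : Finset ℕ) (h : J.card = 2) : ∃ b0 b1, b0 < b1 ∧ J = {b0, b1} := by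
  obtain ⟨b0, J', rfl, h1, h2⟩ := ex_min J 1 h
  obtain ⟨b1, rfl⟩ := card_eq_one.1 h1
  exact ⟨b0, b1, h2 _ (mem_singleton_self _), rfl⟩

theorem ex_three (J : Finset ℕ) (h : J.card = 3) :
    ∃ b0 b1 b2, b0 < b1 ∧ b1 < b2 ∧ J = {b0, b1, b2} := by
  obtain ⟨b0, J', rfl, h1, h2⟩ := ex_min J 2 h
  obtain ⟨b1, b2, h3, rfl⟩ := ex_two J' h1
  exact ⟨b0, b1, b2, h2 _ (mem_insert_self _ _), h3, rfl⟩

theorem ex_four (J : Finset ℕ) (h : J.card = 4) :
    ∃ b0 b1 b2 b3, b0 < b1 ∧ b1 < b2 ∧ b2 < b3 ∧ J = {b0, b1, b2, b3} := by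
  obtain ⟨b0, J', rfl, h1, h2⟩ := ex_min J 3 h
  obtain ⟨b1, b2, b3, h3, h4, rfl⟩ := ex_three J' h1
  exact ⟨b0, b1, b2, b3, h2 _ (mem_insert_self _ _), h3, h4, rfl⟩

/-! ### Specials in a label -/

theorem sp_in (D : Dg) (hD : D.Std) (J : Finset ℕ) (S : ℕ × Finset ℕ × ℕ) (hS : S ∈ D.Sp)
    (hJ : insert S.1 S.2.1 ⊆ J) :
    (∃ C l, C < 4 ∧ C < D.h0 ∧ D.h0 ≤ l ∧ (l - D.h0) % 2 = 0 ∧ l + 1 < D.h0 + D.h1 ∧ C ∈ J ∧
      l ∈ J ∧ l + 1 ∈ J ∧ S = (C, {l, l + 1}, 0)) ∨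
    (∃ C l, 4 ≤ C ∧ C < D.h0 ∧ D.h0 ≤ l ∧ l + 2 < D.h0 + D.h1 ∧ C ∈ J ∧
      l ∈ J ∧ l + 1 ∈ J ∧ l + 2 ∈ J ∧ S = (C, {l, l + 1, l + 2}, 1)) ∨
    (∃ C l, D.h0 ≤ C ∧ C < D.h0 + D.h1 ∧ l + 2 < D.h0 ∧ C ∈ J ∧
      l ∈ J ∧ l + 1 ∈ J ∧ l + 2 ∈ J ∧ S = (C, {l, l + 1, l + 2}, 2)) ∨
    (∃ C l, D.h0 ≤ C ∧ C < D.h0 + D.h1 ∧ D.h0 + D.h1 ≤ l ∧ l + 1 < D.n / 4 ∧ C ∈ J ∧
      l ∈ J ∧ l + 1 ∈ J ∧ S = (C, {l, l + 1}, 0)) ∨
    (∃ C l, C < D.h0 ∧ D.h0 + D.h1 ≤ l ∧ l + 1 < D.n / 4 ∧ C ∈ J ∧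
      l ∈ J ∧ l + 1 ∈ J ∧ S = (C, {l, l + 1}, 0)) ∨
    (∃ C l, C < D.h0 ∧ D.h0 + D.h1 ≤ l ∧ l + 2 < D.n / 4 ∧ C ∈ J ∧
      l ∈ J ∧ l + 1 ∈ J ∧ l + 2 ∈ J ∧ S = (C, {l, l + 1, l + 2}, 1)) := by
  rcases hD.sp S hS with ⟨C, l, h1, h2, h3, h4, rfl⟩ | ⟨C, l, h1, h2, h3, h4, rfl⟩ |
    ⟨C, l, h2, h3, h4, rfl⟩ | ⟨C, l, h2, h3, h4, rfl⟩ | ⟨C, l, h2, h3, h4, rfl⟩ |
    ⟨C, l, h2, h3, h4, rfl⟩ <;>
    simp only [insert_subset_iff, singleton_subset_iff] at hJ
  · exact Or.inl ⟨C, D.h0 + l, h1, h2, by omega, by omega, by omega, hJ.1, hJ.2.1, hJ.2.2, rfl⟩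
  · exact Or.inr (Or.inl ⟨C, D.h0 + l, h1, h2, by omega, by omega, hJ.1, hJ.2.1, hJ.2.2.1,
      hJ.2.2.2, rfl⟩)
  · exact Or.inr (Or.inr (Or.inl ⟨D.h0 + C, l, by omega, by omega, by omega, hJ.1, hJ.2.1,
      hJ.2.2.1, hJ.2.2.2, rfl⟩))
  · exact Or.inr (Or.inr (Or.inr (Or.inl ⟨D.h0 + C, D.h0 + D.h1 + l, by omega, by omega, by omega,
      by omega, hJ.1, hJ.2.1, hJ.2.2, rfl⟩)))
  · exact Or.inr (Or.inr (Or.inr (Or.inr (Or.inl ⟨C, D.h0 + D.h1 + l, by omega, by omega,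
      by omega, hJ.1, hJ.2.1, hJ.2.2, rfl⟩))))
  · exact Or.inr (Or.inr (Or.inr (Or.inr (Or.inr ⟨C, D.h0 + D.h1 + l, by omega, by omega,
      by omega, hJ.1, hJ.2.1, hJ.2.2.1, hJ.2.2.2, rfl⟩))))

/-! ### Transfer for sorted labels -/

/-- The enumeration of the blocks. -/
def th (b0 b1 b2 b3 i : ℕ) : ℕ := if i = 0 then b0 else if i = 1 then b1 else if i = 2 then b2 else b3

theorem tr4 (D : Dg) (hD : D.Std) (t : Bool)
    (hN : D.n01 = (if t then 3 else 4) ∧ D.n02 = 3 ∧ D.n12 = if t then 4 else 3)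
    (b0 b1 b2 b3 : ℕ) (h01 : b0 < b1) (h12 : b1 < b2) (h23 : b2 < b3) (hb : b3 < D.nb)
    (n' h0' h1' : ℕ) (Sp' : Finset (ℕ × Finset ℕ × ℕ)) (hOK : (sm t n' h0' h1' Sp' ∅).OK)
    (hn : n' / 4 + n' % 4 = 4) (hh : h0' + h1' ≤ n' / 4)
    (c0 : (if 0 < h0' then 0 else if 0 < h0' + h1' then 1 else if 0 < n' / 4 then 2 else 3) =
      D.col b0) (c1 : (if 1 < h0' then 0 else if 1 < h0' + h1' then 1 else if 1 < n' / 4 then 2 else 3) =
      D.col b1)
    (c2 : (if 2 < h0' then 0 else if 2 < h0' + h1' then 1 else if 2 < n' / 4 then 2 else 3) =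
      D.col b2) (c3 : (if 3 < h0' then 0 else if 3 < h0' + h1' then 1 else if 3 < n' / 4 then 2 else 3) =
      D.col b3)
    (hSk : ∀ S ∈ Sp', S.1 < 4 ∧ ∀ B ∈ S.2.1, B < 4)
    (hSp : ∀ S ∈ D.Sp, insert S.1 S.2.1 ⊆ {b0, b1, b2, b3} →
      ∃ S' ∈ Sp', S = (th b0 b1 b2 b3 S'.1, S'.2.1.image (th b0 b1 b2 b3), S'.2.2))
    (hSp' : ∀ S ∈ Sp', (th b0 b1 b2 b3 S.1, S.2.1.image (th b0 b1 b2 b3), S.2.2) ∈ D.Sp) :
    ∃ p : Pos ℂ, D.Good p ∧ D.Loc p {b0, b1, b2, b3} := by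
  refine trans D (wf_of_std D hD) _ ?_ (sm t n' h0' h1' Sp' ∅) hh hOK 4 (th b0 b1 b2 b3) hn ?_ ?_ ?_
    hN.1.symm hN.2.1.symm hN.2.2.symm hSk hSp hSp' (fun h => absurd h (by norm_num))
    (fun h => absurd h (by norm_num))
  · intro x hx
    simp only [mem_insert, mem_singleton] at hx
    rw [mem_range]
    omega
  · intro B
    simp only [mem_insert, mem_singleton]
    constructor
    · rintro (rfl | rfl | rfl | rfl)
      · exact ⟨0, by norm_num, rfl⟩
      · exact ⟨1, by norm_num, rfl⟩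
      · exact ⟨2, by norm_num, rfl⟩
      · exact ⟨3, by norm_num, rfl⟩
    · rintro ⟨i, -, rfl⟩
      unfold th
      split_ifs <;> simp
  · intro i j hij hj
    unfold th
    split_ifs <;> omega
  · intro i hi
    interval_cases i
    · exact c0
    · exact c1
    · exact c2
    · exact c3

theorem tr3 (D : Dg) (hD : D.Std) (t : Bool)
    (hN : D.n01 = (if t then 3 else 4) ∧ D.n02 = 3 ∧ D.n12 = if t then 4 else 3)
    (b0 b1 b2 : ℕ) (h01 : b0 < b1) (h12 : b1 < b2) (hb : b2 < D.nb)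
    (n' h0' h1' : ℕ) (Sp' : Finset (ℕ × Finset ℕ × ℕ)) (Fr' : Finset (ℕ × ℕ × ℕ))
    (hOK : (sm t n' h0' h1' Sp' Fr').OK)
    (hn : n' / 4 + n' % 4 = 3) (hh : h0' + h1' ≤ n' / 4)
    (c0 : (if 0 < h0' then 0 else if 0 < h0' + h1' then 1 else if 0 < n' / 4 then 2 else 3) =
      D.col b0) (c1 : (if 1 < h0' then 0 else if 1 < h0' + h1' then 1 else if 1 < n' / 4 then 2 else 3) =
      D.col b1)
    (c2 : (if 2 < h0' then 0 else if 2 < h0' + h1' then 1 else if 2 < n' / 4 then 2 else 3) =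
      D.col b2)
    (hSk : ∀ S ∈ Sp', S.1 < 3 ∧ ∀ B ∈ S.2.1, B < 3)
    (hSp : ∀ S ∈ D.Sp, insert S.1 S.2.1 ⊆ {b0, b1, b2} →
      ∃ S' ∈ Sp', S = (th b0 b1 b2 b2 S'.1, S'.2.1.image (th b0 b1 b2 b2), S'.2.2))
    (hSp' : ∀ S ∈ Sp', (th b0 b1 b2 b2 S.1, S.2.1.image (th b0 b1 b2 b2), S.2.2) ∈ D.Sp)
    (hF01 : ∀ m, (b0, b1, m) ∈ D.Fr → (0, 1, m) ∈ Fr')
    (hF02 : ∀ m, (b0, b2, m) ∈ D.Fr → (0, 2, m) ∈ Fr')
    (hF12 : ∀ m, (b1, b2, m) ∈ D.Fr → (1, 2, m) ∈ Fr')
    (hG01 : ∀ S ∈ D.Sp, S.2.1 = {b0, b1} → (0, 1, S.1) ∈ Fr')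
    (hG02 : ∀ S ∈ D.Sp, S.2.1 = {b0, b2} → (0, 2, S.1) ∈ Fr')
    (hG12 : ∀ S ∈ D.Sp, S.1 ≠ b0 → S.2.1 = {b1, b2} → (1, 2, S.1) ∈ Fr') :
    ∃ p : Pos ℂ, D.Good p ∧ D.Loc p {b0, b1, b2} := by
  refine trans D (wf_of_std D hD) _ ?_ (sm t n' h0' h1' Sp' Fr') hh hOK 3 (th b0 b1 b2 b2) hn ?_ ?_ ?_
    hN.1.symm hN.2.1.symm hN.2.2.symm hSk hSp hSp' ?_ ?_
  · intro x hx
    simp only [mem_insert, mem_singleton] at hx
    rw [mem_range]
    omega
  · intro B
    simp only [mem_insert, mem_singleton]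
    constructor
    · rintro (rfl | rfl | rfl)
      · exact ⟨0, by norm_num, rfl⟩
      · exact ⟨1, by norm_num, rfl⟩
      · exact ⟨2, by norm_num, rfl⟩
    · rintro ⟨i, -, rfl⟩
      unfold th
      split_ifs <;> simp
  · intro i j hij hj
    unfold th
    split_ifs <;> omega
  · intro i hi
    interval_cases i
    · exact c0
    · exact c1
    · exact c2
  · intro _ i j m hij hj h
    have h' : (i = 0 ∧ j = 1) ∨ (i = 0 ∧ j = 2) ∨ (i = 1 ∧ j = 2) := by omega
    rcases h' with ⟨rfl, rfl⟩ | ⟨rfl, rfl⟩ | ⟨rfl, rfl⟩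
    · exact hF01 m h
    · exact hF02 m h
    · exact hF12 m h
  · intro _ S hS _ hC i j hij hj h
    have h' : (i = 0 ∧ j = 1) ∨ (i = 0 ∧ j = 2) ∨ (i = 1 ∧ j = 2) := by omega
    rcases h' with ⟨rfl, rfl⟩ | ⟨rfl, rfl⟩ | ⟨rfl, rfl⟩
    · exact hG01 S hS h
    · exact hG02 S hS h
    · refine hG12 S hS (fun h1 => hC ?_) h
      rw [h1]
      exact mem_insert_self _ _

theorem tr2 (D : Dg) (hD : D.Std) (t : Bool)
    (hN : D.n01 = (if t then 3 else 4) ∧ D.n02 = 3 ∧ D.n12 = if t then 4 else 3)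
    (b0 b1 : ℕ) (h01 : b0 < b1) (hb : b1 < D.nb) (c0 : D.col b0 = 0) (c1 : D.col b1 = 1) :
    ∃ p : Pos ℂ, D.Good p ∧ D.Loc p {b0, b1} := by
  have r0 := D.col_cases b0
  have r1 := D.col_cases b1
  refine trans D (wf_of_std D hD) _ ?_ (sm t 8 1 1 ∅ {(0, 1, 0)})
    (by show 1 + 1 ≤ 8 / 4; norm_num) (ok_1100_0 t) 2
    (th b0 b1 b1 b1) (by show 8 / 4 + 8 % 4 = 2; norm_num) ?_ ?_ ?_ hN.1.symm hN.2.1.symm hN.2.2.symm
    (fun S hS => absurd hS (notMem_empty _)) ?_ (fun S hS => absurd hS (notMem_empty _)) ?_ ?_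
  · intro x hx
    simp only [mem_insert, mem_singleton] at hx
    rw [mem_range]
    omega
  · intro B
    simp only [mem_insert, mem_singleton]
    constructor
    · rintro (rfl | rfl)
      · exact ⟨0, by norm_num, rfl⟩
      · exact ⟨1, by norm_num, rfl⟩
    · rintro ⟨i, -, rfl⟩
      unfold th
      split_ifs <;> simp
  · intro i j hij hj
    unfold th
    split_ifs <;> omega
  · intro i hi
    interval_cases i
    · exact c0.symm
    · exact c1.symm
  · intro S hS hJ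
    exfalso
    rcases sp_in D hD _ S hS hJ with ⟨C, l, h⟩ | ⟨C, l, h⟩ | ⟨C, l, h⟩ | ⟨C, l, h⟩ | ⟨C, l, h⟩ |
      ⟨C, l, h⟩ <;> simp only [mem_insert, mem_singleton] at h <;> omega
  · intro _ i j m hij hj h
    have hi : i = 0 := by omega
    have hj' : j = 1 := by omega
    subst hi
    subst hj'
    have h1 := (hD.fr _ h).1
    dsimp only at h1
    rw [h1]
    exact mem_singleton_self _
  · intro _ S hS hc hC i j hij hj h
    exfalso
    have hi : i = 0 := by omega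
    have hj' : j = 1 := by omega
    subst hi
    subst hj'
    have hA : b0 ∈ S.2.1 := by rw [h]; exact mem_insert_self _ _
    have hB : b1 ∈ S.2.1 := by rw [h]; exact mem_insert_of_mem (mem_singleton_self _)
    rcases hD.sp S hS with ⟨C, l, h1, h2, h3, h4, rfl⟩ | ⟨C, l, h1, h2, h3, h4, rfl⟩ |
      ⟨C, l, h2, h3, h4, rfl⟩ | ⟨C, l, h2, h3, h4, rfl⟩ | ⟨C, l, h2, h3, h4, rfl⟩ |
      ⟨C, l, h2, h3, h4, rfl⟩ <;> simp only [mem_insert, mem_singleton] at hA hB <;> omega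

/-- Specials with two leaves. -/
theorem leafP (D : Dg) (hD : D.Std) (S : ℕ × Finset ℕ × ℕ) (hS : S ∈ D.Sp) (x y : ℕ) (hxy : x < y)
    (h : S.2.1 = {x, y}) : (D.h0 ≤ x ∧ y < D.h0 + D.h1 ∧ S.1 < 4 ∧ y = x + 1 ∧ (x - D.h0) % 2 = 0) ∨
      (D.h0 + D.h1 ≤ x ∧ y < D.n / 4 ∧ y = x + 1) := by
  have hx : x ∈ S.2.1 := by rw [h]; exact mem_insert_self _ _
  have hy : y ∈ S.2.1 := by rw [h]; exact mem_insert_of_mem (mem_singleton_self _)
  rcases hD.sp S hS with ⟨C, l, h1, h2, h3, h4, rfl⟩ | ⟨C, l, h1, h2, h3, h4, rfl⟩ |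
    ⟨C, l, h2, h3, h4, rfl⟩ | ⟨C, l, h2, h3, h4, rfl⟩ | ⟨C, l, h2, h3, h4, rfl⟩ |
    ⟨C, l, h2, h3, h4, rfl⟩ <;> dsimp only at h hx hy ⊢ <;>
    simp only [mem_insert, mem_singleton] at hx hy
  · left
    omega
  · exfalso
    have hc := congrArg card h
    rw [card_three, card_pair hxy.ne] at hc
    omega
  · exfalso
    have hc := congrArg card h
    rw [card_three, card_pair hxy.ne] at hc
    omega
  · right
    omega
  · right
    omega
  · exfalso
    have hc := congrArg card h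
    rw [card_three, card_pair hxy.ne] at hc
    omega

/-- Specials with three leaves of the colour 1. -/
theorem leafQ (D : Dg) (hD : D.Std) (S : ℕ × Finset ℕ × ℕ) (hS : S ∈ D.Sp) (x y z : ℕ) (hxy : x < y)
    (hyz : y < z) (h : S.2.1 = {x, y, z}) (hx1 : D.h0 ≤ x) (hx2 : x < D.h0 + D.h1) : 4 ≤ S.1 := by
  have hx : x ∈ S.2.1 := by rw [h]; exact mem_insert_self _ _
  have hy : y ∈ S.2.1 := by rw [h]; exact mem_insert_of_mem (mem_insert_self _ _)
  have hz : z ∈ S.2.1 := by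
    rw [h]
    exact mem_insert_of_mem (mem_insert_of_mem (mem_singleton_self _))
  rcases hD.sp S hS with ⟨C, l, h1, h2, h3, h4, rfl⟩ | ⟨C, l, h1, h2, h3, h4, rfl⟩ |
    ⟨C, l, h2, h3, h4, rfl⟩ | ⟨C, l, h2, h3, h4, rfl⟩ | ⟨C, l, h2, h3, h4, rfl⟩ |
    ⟨C, l, h2, h3, h4, rfl⟩ <;> dsimp only at hx hy hz ⊢ <;>
    simp only [mem_insert, mem_singleton] at hx hy hz <;> omega

theorem p2200 (D : Dg) (hD : D.Std) (t : Bool)
    (hN : D.n01 = (if t then 3 else 4) ∧ D.n02 = 3 ∧ D.n12 = if t then 4 else 3)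
    (b0 b1 b2 b3 : ℕ) (h01 : b0 < b1) (h12 : b1 < b2) (h23 : b2 < b3) (hb : b3 < D.nb)
    (c0 : D.col b0 = 0) (c1 : D.col b1 = 0) (c2 : D.col b2 = 1) (c3 : D.col b3 = 1) :
    ∃ p : Pos ℂ, D.Good p ∧ D.Loc p {b0, b1, b2, b3} := by
  have r0 := D.col_cases b0
  have r1 := D.col_cases b1
  have r2 := D.col_cases b2
  have r3 := D.col_cases b3
  have inside : ∀ S ∈ D.Sp, insert S.1 S.2.1 ⊆ {b0, b1, b2, b3} →
      S = (b0, ({b2, b3} : Finset ℕ), 0) ∨
      S = (b1, ({b2, b3} : Finset ℕ), 0) := by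
    intro S hS hJ
    rcases sp_in D hD _ S hS hJ with ⟨C, l, h1, h2, h3, h4, h5, m1, m2, m3, rfl⟩ |
      ⟨C, l, h1, h2, h3, h4, m1, m2, m3, m4, rfl⟩ | ⟨C, l, h1, h2, h3, m1, m2, m3, m4, rfl⟩ |
      ⟨C, l, h1, h2, h3, h4, m1, m2, m3, rfl⟩ | ⟨C, l, h1, h2, h3, m1, m2, m3, rfl⟩ |
      ⟨C, l, h1, h2, h3, m1, m2, m3, m4, rfl⟩ <;> simp only [mem_insert, mem_singleton] at m1 m2 m3
    · rcases (by omega : (C = b0 ∧ l = b2 ∧ l + 1 = b3) ∨ (C = b1 ∧ l = b2 ∧ l + 1 = b3)) with ⟨e0, e1, e2⟩ | ⟨e0, e1, e2⟩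
      · left; rw [e0, e2, e1]
      · right; rw [e0, e2, e1]
    · exfalso
      simp only [mem_insert, mem_singleton] at m4
      omega
    · exfalso
      simp only [mem_insert, mem_singleton] at m4
      omega
    · exfalso
      omega
    · exfalso
      omega
    · exfalso
      simp only [mem_insert, mem_singleton] at m4
      omega
  by_cases hA : (b0, ({b2, b3} : Finset ℕ), 0) ∈ D.Sp
  · by_cases hB : (b1, ({b2, b3} : Finset ℕ), 0) ∈ D.Sp
    · refine tr4 D hD t hN b0 b1 b2 b3 h01 h12 h23 hb 16 2 2 _ (ok_2200_AB t) (by norm_num)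
        (by norm_num) (by rw [c0]; norm_num) (by rw [c1]; norm_num) (by rw [c2]; norm_num) (by rw [c3]; norm_num) (by decide) ?_ ?_
      · intro S hS hJ
        rcases inside S hS hJ with rfl | rfl
        · exact ⟨(0, {2, 3}, 0), by decide, by simp [th]⟩
        · exact ⟨(1, {2, 3}, 0), by decide, by simp [th]⟩
      · intro S hS
        simp only [mem_insert, mem_singleton] at hS
        rcases hS with rfl | rfl
        · simpa [th] using hA
        · simpa [th] using hB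
    · refine tr4 D hD t hN b0 b1 b2 b3 h01 h12 h23 hb 16 2 2 _ (ok_2200_A t) (by norm_num)
        (by norm_num) (by rw [c0]; norm_num) (by rw [c1]; norm_num) (by rw [c2]; norm_num) (by rw [c3]; norm_num) (by decide) ?_ ?_
      · intro S hS hJ
        rcases inside S hS hJ with rfl | rfl
        · exact ⟨(0, {2, 3}, 0), by decide, by simp [th]⟩
        · exact absurd hS hB
      · intro S hS
        rw [mem_singleton] at hS
        subst hS
        simpa [th] using hA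
  · by_cases hB : (b1, ({b2, b3} : Finset ℕ), 0) ∈ D.Sp
    · refine tr4 D hD t hN b0 b1 b2 b3 h01 h12 h23 hb 16 2 2 _ (ok_2200_B t) (by norm_num)
        (by norm_num) (by rw [c0]; norm_num) (by rw [c1]; norm_num) (by rw [c2]; norm_num) (by rw [c3]; norm_num) (by decide) ?_ ?_
      · intro S hS hJ
        rcases inside S hS hJ with rfl | rfl
        · exact absurd hS hA
        · exact ⟨(1, {2, 3}, 0), by decide, by simp [th]⟩
      · intro S hS
        rw [mem_singleton] at hS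
        subst hS
        simpa [th] using hB
    · refine tr4 D hD t hN b0 b1 b2 b3 h01 h12 h23 hb 16 2 2 _ (ok_2200_0 t) (by norm_num)
        (by norm_num) (by rw [c0]; norm_num) (by rw [c1]; norm_num) (by rw [c2]; norm_num) (by rw [c3]; norm_num) (by decide) ?_ ?_
      · intro S hS hJ
        rcases inside S hS hJ with rfl | rfl
        · exact absurd hS hA
        · exact absurd hS hB
      · intro S hS
        exact absurd hS (notMem_empty _)

theorem p1300 (D : Dg) (hD : D.Std) (t : Bool)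
    (hN : D.n01 = (if t then 3 else 4) ∧ D.n02 = 3 ∧ D.n12 = if t then 4 else 3)
    (b0 b1 b2 b3 : ℕ) (h01 : b0 < b1) (h12 : b1 < b2) (h23 : b2 < b3) (hb : b3 < D.nb)
    (c0 : D.col b0 = 0) (c1 : D.col b1 = 1) (c2 : D.col b2 = 1) (c3 : D.col b3 = 1) :
    ∃ p : Pos ℂ, D.Good p ∧ D.Loc p {b0, b1, b2, b3} := by
  have r0 := D.col_cases b0
  have r1 := D.col_cases b1
  have r2 := D.col_cases b2
  have r3 := D.col_cases b3
  have inside : ∀ S ∈ D.Sp, insert S.1 S.2.1 ⊆ {b0, b1, b2, b3} →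
      S = (b0, ({b1, b2} : Finset ℕ), 0) ∨
      S = (b0, ({b2, b3} : Finset ℕ), 0) ∨
      S = (b0, ({b1, b2, b3} : Finset ℕ), 1) := by
    intro S hS hJ
    rcases sp_in D hD _ S hS hJ with ⟨C, l, h1, h2, h3, h4, h5, m1, m2, m3, rfl⟩ |
      ⟨C, l, h1, h2, h3, h4, m1, m2, m3, m4, rfl⟩ | ⟨C, l, h1, h2, h3, m1, m2, m3, m4, rfl⟩ |
      ⟨C, l, h1, h2, h3, h4, m1, m2, m3, rfl⟩ | ⟨C, l, h1, h2, h3, m1, m2, m3, rfl⟩ |
      ⟨C, l, h1, h2, h3, m1, m2, m3, m4, rfl⟩ <;> simp only [mem_insert, mem_singleton] at m1 m2 m3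
    · rcases (by omega : (C = b0 ∧ l = b1 ∧ l + 1 = b2) ∨ (C = b0 ∧ l = b2 ∧ l + 1 = b3)) with ⟨e0, e1, e2⟩ | ⟨e0, e1, e2⟩
      · left; rw [e0, e2, e1]
      · right; left; rw [e0, e2, e1]
    · simp only [mem_insert, mem_singleton] at m4
      rcases (by omega : (C = b0 ∧ l = b1 ∧ l + 1 = b2 ∧ l + 2 = b3)) with ⟨e0, e1, e2, e3⟩
      · right; right; rw [e0, e3, e2, e1]
    · exfalso
      simp only [mem_insert, mem_singleton] at m4
      omega
    · exfalso
      omega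
    · exfalso
      omega
    · exfalso
      simp only [mem_insert, mem_singleton] at m4
      omega
  by_cases hP : (b0, ({b1, b2} : Finset ℕ), 0) ∈ D.Sp
  · by_cases hR : (b0, ({b2, b3} : Finset ℕ), 0) ∈ D.Sp
    · by_cases hQ : (b0, ({b1, b2, b3} : Finset ℕ), 1) ∈ D.Sp
      · exfalso
        have q1 := leafP D hD _ hP b1 b2 h12 rfl
        have q2 := leafP D hD _ hR b2 b3 h23 rfl
        dsimp only at q1 q2
        omega
      · exfalso
        have q1 := leafP D hD _ hP b1 b2 h12 rfl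
        have q2 := leafP D hD _ hR b2 b3 h23 rfl
        dsimp only at q1 q2
        omega
    · by_cases hQ : (b0, ({b1, b2, b3} : Finset ℕ), 1) ∈ D.Sp
      · exfalso
        have q1 := leafP D hD _ hP b1 b2 h12 rfl
        have q2 := leafQ D hD _ hQ b1 b2 b3 h12 h23 rfl (by omega) (by omega)
        dsimp only at q1 q2
        omega
      · refine tr4 D hD t hN b0 b1 b2 b3 h01 h12 h23 hb 16 1 3 _ (ok_1300_P12 t) (by norm_num)
          (by norm_num) (by rw [c0]; norm_num) (by rw [c1]; norm_num) (by rw [c2]; norm_num) (by rw [c3]; norm_num) (by decide) ?_ ?_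
        · intro S hS hJ
          rcases inside S hS hJ with rfl | rfl | rfl
          · exact ⟨(0, {1, 2}, 0), by decide, by simp [th]⟩
          · exact absurd hS hR
          · exact absurd hS hQ
        · intro S hS
          rw [mem_singleton] at hS
          subst hS
          simpa [th] using hP
  · by_cases hR : (b0, ({b2, b3} : Finset ℕ), 0) ∈ D.Sp
    · by_cases hQ : (b0, ({b1, b2, b3} : Finset ℕ), 1) ∈ D.Sp
      · exfalso
        have q1 := leafP D hD _ hR b2 b3 h23 rfl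
        have q2 := leafQ D hD _ hQ b1 b2 b3 h12 h23 rfl (by omega) (by omega)
        dsimp only at q1 q2
        omega
      · refine tr4 D hD t hN b0 b1 b2 b3 h01 h12 h23 hb 16 1 3 _ (ok_1300_P23 t) (by norm_num)
          (by norm_num) (by rw [c0]; norm_num) (by rw [c1]; norm_num) (by rw [c2]; norm_num) (by rw [c3]; norm_num) (by decide) ?_ ?_
        · intro S hS hJ
          rcases inside S hS hJ with rfl | rfl | rfl
          · exact absurd hS hP
          · exact ⟨(0, {2, 3}, 0), by decide, by simp [th]⟩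
          · exact absurd hS hQ
        · intro S hS
          rw [mem_singleton] at hS
          subst hS
          simpa [th] using hR
    · by_cases hQ : (b0, ({b1, b2, b3} : Finset ℕ), 1) ∈ D.Sp
      · refine tr4 D hD t hN b0 b1 b2 b3 h01 h12 h23 hb 16 1 3 _ (ok_1300_Q t) (by norm_num)
          (by norm_num) (by rw [c0]; norm_num) (by rw [c1]; norm_num) (by rw [c2]; norm_num) (by rw [c3]; norm_num) (by decide) ?_ ?_
        · intro S hS hJ
          rcases inside S hS hJ with rfl | rfl | rfl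
          · exact absurd hS hP
          · exact absurd hS hR
          · exact ⟨(0, {1, 2, 3}, 1), by decide, by simp [th]⟩
        · intro S hS
          rw [mem_singleton] at hS
          subst hS
          simpa [th] using hQ
      · refine tr4 D hD t hN b0 b1 b2 b3 h01 h12 h23 hb 16 1 3 _ (ok_1300_0 t) (by norm_num)
          (by norm_num) (by rw [c0]; norm_num) (by rw [c1]; norm_num) (by rw [c2]; norm_num) (by rw [c3]; norm_num) (by decide) ?_ ?_
        · intro S hS hJ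
          rcases inside S hS hJ with rfl | rfl | rfl
          · exact absurd hS hP
          · exact absurd hS hR
          · exact absurd hS hQ
        · intro S hS
          exact absurd hS (notMem_empty _)

theorem p3100 (D : Dg) (hD : D.Std) (t : Bool)
    (hN : D.n01 = (if t then 3 else 4) ∧ D.n02 = 3 ∧ D.n12 = if t then 4 else 3)
    (b0 b1 b2 b3 : ℕ) (h01 : b0 < b1) (h12 : b1 < b2) (h23 : b2 < b3) (hb : b3 < D.nb)
    (c0 : D.col b0 = 0) (c1 : D.col b1 = 0) (c2 : D.col b2 = 0) (c3 : D.col b3 = 1) :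
    ∃ p : Pos ℂ, D.Good p ∧ D.Loc p {b0, b1, b2, b3} := by
  have r0 := D.col_cases b0
  have r1 := D.col_cases b1
  have r2 := D.col_cases b2
  have r3 := D.col_cases b3
  have inside : ∀ S ∈ D.Sp, insert S.1 S.2.1 ⊆ {b0, b1, b2, b3} →
      S = (b3, ({b0, b1, b2} : Finset ℕ), 2) := by
    intro S hS hJ
    rcases sp_in D hD _ S hS hJ with ⟨C, l, h1, h2, h3, h4, h5, m1, m2, m3, rfl⟩ |
      ⟨C, l, h1, h2, h3, h4, m1, m2, m3, m4, rfl⟩ | ⟨C, l, h1, h2, h3, m1, m2, m3, m4, rfl⟩ |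
      ⟨C, l, h1, h2, h3, h4, m1, m2, m3, rfl⟩ | ⟨C, l, h1, h2, h3, m1, m2, m3, rfl⟩ |
      ⟨C, l, h1, h2, h3, m1, m2, m3, m4, rfl⟩ <;> simp only [mem_insert, mem_singleton] at m1 m2 m3
    · exfalso
      omega
    · exfalso
      simp only [mem_insert, mem_singleton] at m4
      omega
    · simp only [mem_insert, mem_singleton] at m4
      rcases (by omega : (C = b3 ∧ l = b0 ∧ l + 1 = b1 ∧ l + 2 = b2)) with ⟨e0, e1, e2, e3⟩
      · rw [e0, e3, e2, e1]
    · exfalso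
      omega
    · exfalso
      omega
    · exfalso
      simp only [mem_insert, mem_singleton] at m4
      omega
  by_cases hR : (b3, ({b0, b1, b2} : Finset ℕ), 2) ∈ D.Sp
  · refine tr4 D hD t hN b0 b1 b2 b3 h01 h12 h23 hb 16 3 1 _ (ok_3100_R t) (by norm_num)
      (by norm_num) (by rw [c0]; norm_num) (by rw [c1]; norm_num) (by rw [c2]; norm_num) (by rw [c3]; norm_num) (by decide) ?_ ?_
    · intro S hS hJ
      rcases inside S hS hJ with rfl
      · exact ⟨(3, {0, 1, 2}, 2), by decide, by simp [th]⟩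
    · intro S hS
      rw [mem_singleton] at hS
      subst hS
      simpa [th] using hR
  · refine tr4 D hD t hN b0 b1 b2 b3 h01 h12 h23 hb 16 3 1 _ (ok_3100_0 t) (by norm_num)
      (by norm_num) (by rw [c0]; norm_num) (by rw [c1]; norm_num) (by rw [c2]; norm_num) (by rw [c3]; norm_num) (by decide) ?_ ?_
    · intro S hS hJ
      rcases inside S hS hJ with rfl
      · exact absurd hS hR
    · intro S hS
      exact absurd hS (notMem_empty _)

theorem p1120 (D : Dg) (hD : D.Std) (t : Bool)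
    (hN : D.n01 = (if t then 3 else 4) ∧ D.n02 = 3 ∧ D.n12 = if t then 4 else 3)
    (b0 b1 b2 b3 : ℕ) (h01 : b0 < b1) (h12 : b1 < b2) (h23 : b2 < b3) (hb : b3 < D.nb)
    (c0 : D.col b0 = 0) (c1 : D.col b1 = 1) (c2 : D.col b2 = 2) (c3 : D.col b3 = 2) :
    ∃ p : Pos ℂ, D.Good p ∧ D.Loc p {b0, b1, b2, b3} := by
  have r0 := D.col_cases b0
  have r1 := D.col_cases b1
  have r2 := D.col_cases b2
  have r3 := D.col_cases b3
  have inside : ∀ S ∈ D.Sp, insert S.1 S.2.1 ⊆ {b0, b1, b2, b3} →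
      S = (b0, ({b2, b3} : Finset ℕ), 0) ∨
      S = (b1, ({b2, b3} : Finset ℕ), 0) := by
    intro S hS hJ
    rcases sp_in D hD _ S hS hJ with ⟨C, l, h1, h2, h3, h4, h5, m1, m2, m3, rfl⟩ |
      ⟨C, l, h1, h2, h3, h4, m1, m2, m3, m4, rfl⟩ | ⟨C, l, h1, h2, h3, m1, m2, m3, m4, rfl⟩ |
      ⟨C, l, h1, h2, h3, h4, m1, m2, m3, rfl⟩ | ⟨C, l, h1, h2, h3, m1, m2, m3, rfl⟩ |
      ⟨C, l, h1, h2, h3, m1, m2, m3, m4, rfl⟩ <;> simp only [mem_insert, mem_singleton] at m1 m2 m3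
    · exfalso
      omega
    · exfalso
      simp only [mem_insert, mem_singleton] at m4
      omega
    · exfalso
      simp only [mem_insert, mem_singleton] at m4
      omega
    · rcases (by omega : (C = b1 ∧ l = b2 ∧ l + 1 = b3)) with ⟨e0, e1, e2⟩
      · right; rw [e0, e2, e1]
    · rcases (by omega : (C = b0 ∧ l = b2 ∧ l + 1 = b3)) with ⟨e0, e1, e2⟩
      · left; rw [e0, e2, e1]
    · exfalso
      simp only [mem_insert, mem_singleton] at m4
      omega
  by_cases hA : (b0, ({b2, b3} : Finset ℕ), 0) ∈ D.Sp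
  · by_cases hB : (b1, ({b2, b3} : Finset ℕ), 0) ∈ D.Sp
    · refine tr4 D hD t hN b0 b1 b2 b3 h01 h12 h23 hb 16 1 1 _ (ok_1120_AB t) (by norm_num)
        (by norm_num) (by rw [c0]; norm_num) (by rw [c1]; norm_num) (by rw [c2]; norm_num) (by rw [c3]; norm_num) (by decide) ?_ ?_
      · intro S hS hJ
        rcases inside S hS hJ with rfl | rfl
        · exact ⟨(0, {2, 3}, 0), by decide, by simp [th]⟩
        · exact ⟨(1, {2, 3}, 0), by decide, by simp [th]⟩
      · intro S hS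
        simp only [mem_insert, mem_singleton] at hS
        rcases hS with rfl | rfl
        · simpa [th] using hA
        · simpa [th] using hB
    · refine tr4 D hD t hN b0 b1 b2 b3 h01 h12 h23 hb 16 1 1 _ (ok_1120_A t) (by norm_num)
        (by norm_num) (by rw [c0]; norm_num) (by rw [c1]; norm_num) (by rw [c2]; norm_num) (by rw [c3]; norm_num) (by decide) ?_ ?_
      · intro S hS hJ
        rcases inside S hS hJ with rfl | rfl
        · exact ⟨(0, {2, 3}, 0), by decide, by simp [th]⟩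
        · exact absurd hS hB
      · intro S hS
        rw [mem_singleton] at hS
        subst hS
        simpa [th] using hA
  · by_cases hB : (b1, ({b2, b3} : Finset ℕ), 0) ∈ D.Sp
    · refine tr4 D hD t hN b0 b1 b2 b3 h01 h12 h23 hb 16 1 1 _ (ok_1120_B t) (by norm_num)
        (by norm_num) (by rw [c0]; norm_num) (by rw [c1]; norm_num) (by rw [c2]; norm_num) (by rw [c3]; norm_num) (by decide) ?_ ?_
      · intro S hS hJ
        rcases inside S hS hJ with rfl | rfl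
        · exact absurd hS hA
        · exact ⟨(1, {2, 3}, 0), by decide, by simp [th]⟩
      · intro S hS
        rw [mem_singleton] at hS
        subst hS
        simpa [th] using hB
    · refine tr4 D hD t hN b0 b1 b2 b3 h01 h12 h23 hb 16 1 1 _ (ok_1120_0 t) (by norm_num)
        (by norm_num) (by rw [c0]; norm_num) (by rw [c1]; norm_num) (by rw [c2]; norm_num) (by rw [c3]; norm_num) (by decide) ?_ ?_
      · intro S hS hJ
        rcases inside S hS hJ with rfl | rfl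
        · exact absurd hS hA
        · exact absurd hS hB
      · intro S hS
        exact absurd hS (notMem_empty _)

theorem p1210 (D : Dg) (hD : D.Std) (t : Bool)
    (hN : D.n01 = (if t then 3 else 4) ∧ D.n02 = 3 ∧ D.n12 = if t then 4 else 3)
    (b0 b1 b2 b3 : ℕ) (h01 : b0 < b1) (h12 : b1 < b2) (h23 : b2 < b3) (hb : b3 < D.nb)
    (c0 : D.col b0 = 0) (c1 : D.col b1 = 1) (c2 : D.col b2 = 1) (c3 : D.col b3 = 2) :
    ∃ p : Pos ℂ, D.Good p ∧ D.Loc p {b0, b1, b2, b3} := by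
  have r0 := D.col_cases b0
  have r1 := D.col_cases b1
  have r2 := D.col_cases b2
  have r3 := D.col_cases b3
  have inside : ∀ S ∈ D.Sp, insert S.1 S.2.1 ⊆ {b0, b1, b2, b3} →
      S = (b0, ({b1, b2} : Finset ℕ), 0) := by
    intro S hS hJ
    rcases sp_in D hD _ S hS hJ with ⟨C, l, h1, h2, h3, h4, h5, m1, m2, m3, rfl⟩ |
      ⟨C, l, h1, h2, h3, h4, m1, m2, m3, m4, rfl⟩ | ⟨C, l, h1, h2, h3, m1, m2, m3, m4, rfl⟩ |
      ⟨C, l, h1, h2, h3, h4, m1, m2, m3, rfl⟩ | ⟨C, l, h1, h2, h3, m1, m2, m3, rfl⟩ |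
      ⟨C, l, h1, h2, h3, m1, m2, m3, m4, rfl⟩ <;> simp only [mem_insert, mem_singleton] at m1 m2 m3
    · rcases (by omega : (C = b0 ∧ l = b1 ∧ l + 1 = b2)) with ⟨e0, e1, e2⟩
      · rw [e0, e2, e1]
    · exfalso
      simp only [mem_insert, mem_singleton] at m4
      omega
    · exfalso
      simp only [mem_insert, mem_singleton] at m4
      omega
    · exfalso
      omega
    · exfalso
      omega
    · exfalso
      simp only [mem_insert, mem_singleton] at m4
      omega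
  by_cases hP : (b0, ({b1, b2} : Finset ℕ), 0) ∈ D.Sp
  · refine tr4 D hD t hN b0 b1 b2 b3 h01 h12 h23 hb 16 1 2 _ (ok_1210_P t) (by norm_num)
      (by norm_num) (by rw [c0]; norm_num) (by rw [c1]; norm_num) (by rw [c2]; norm_num) (by rw [c3]; norm_num) (by decide) ?_ ?_
    · intro S hS hJ
      rcases inside S hS hJ with rfl
      · exact ⟨(0, {1, 2}, 0), by decide, by simp [th]⟩
    · intro S hS
      rw [mem_singleton] at hS
      subst hS
      simpa [th] using hP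
  · refine tr4 D hD t hN b0 b1 b2 b3 h01 h12 h23 hb 16 1 2 _ (ok_1210_0 t) (by norm_num)
      (by norm_num) (by rw [c0]; norm_num) (by rw [c1]; norm_num) (by rw [c2]; norm_num) (by rw [c3]; norm_num) (by decide) ?_ ?_
    · intro S hS hJ
      rcases inside S hS hJ with rfl
      · exact absurd hS hP
    · intro S hS
      exact absurd hS (notMem_empty _)

theorem p2110 (D : Dg) (hD : D.Std) (t : Bool)
    (hN : D.n01 = (if t then 3 else 4) ∧ D.n02 = 3 ∧ D.n12 = if t then 4 else 3)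
    (b0 b1 b2 b3 : ℕ) (h01 : b0 < b1) (h12 : b1 < b2) (h23 : b2 < b3) (hb : b3 < D.nb)
    (c0 : D.col b0 = 0) (c1 : D.col b1 = 0) (c2 : D.col b2 = 1) (c3 : D.col b3 = 2) :
    ∃ p : Pos ℂ, D.Good p ∧ D.Loc p {b0, b1, b2, b3} := by
  have r0 := D.col_cases b0
  have r1 := D.col_cases b1
  have r2 := D.col_cases b2
  have r3 := D.col_cases b3
  have inside : ∀ S ∈ D.Sp, insert S.1 S.2.1 ⊆ {b0, b1, b2, b3} →
      False := by
    intro S hS hJ
    rcases sp_in D hD _ S hS hJ with ⟨C, l, h1, h2, h3, h4, h5, m1, m2, m3, rfl⟩ |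
      ⟨C, l, h1, h2, h3, h4, m1, m2, m3, m4, rfl⟩ | ⟨C, l, h1, h2, h3, m1, m2, m3, m4, rfl⟩ |
      ⟨C, l, h1, h2, h3, h4, m1, m2, m3, rfl⟩ | ⟨C, l, h1, h2, h3, m1, m2, m3, rfl⟩ |
      ⟨C, l, h1, h2, h3, m1, m2, m3, m4, rfl⟩ <;> simp only [mem_insert, mem_singleton] at m1 m2 m3
    · exfalso
      omega
    · exfalso
      simp only [mem_insert, mem_singleton] at m4
      omega
    · exfalso
      simp only [mem_insert, mem_singleton] at m4
      omega
    · exfalso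
      omega
    · exfalso
      omega
    · exfalso
      simp only [mem_insert, mem_singleton] at m4
      omega
  refine tr4 D hD t hN b0 b1 b2 b3 h01 h12 h23 hb 16 2 1 _ (ok_2110_0 t) (by norm_num)
    (by norm_num) (by rw [c0]; norm_num) (by rw [c1]; norm_num) (by rw [c2]; norm_num) (by rw [c3]; norm_num) (by decide) ?_ ?_
  · intro S hS hJ
    exact (inside S hS hJ).elim
  · intro S hS
    exact absurd hS (notMem_empty _)

theorem p1111 (D : Dg) (hD : D.Std) (t : Bool)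
    (hN : D.n01 = (if t then 3 else 4) ∧ D.n02 = 3 ∧ D.n12 = if t then 4 else 3)
    (b0 b1 b2 b3 : ℕ) (h01 : b0 < b1) (h12 : b1 < b2) (h23 : b2 < b3) (hb : b3 < D.nb)
    (c0 : D.col b0 = 0) (c1 : D.col b1 = 1) (c2 : D.col b2 = 2) (c3 : D.col b3 = 3) :
    ∃ p : Pos ℂ, D.Good p ∧ D.Loc p {b0, b1, b2, b3} := by
  have r0 := D.col_cases b0
  have r1 := D.col_cases b1
  have r2 := D.col_cases b2
  have r3 := D.col_cases b3
  have inside : ∀ S ∈ D.Sp, insert S.1 S.2.1 ⊆ {b0, b1, b2, b3} →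
      False := by
    intro S hS hJ
    rcases sp_in D hD _ S hS hJ with ⟨C, l, h1, h2, h3, h4, h5, m1, m2, m3, rfl⟩ |
      ⟨C, l, h1, h2, h3, h4, m1, m2, m3, m4, rfl⟩ | ⟨C, l, h1, h2, h3, m1, m2, m3, m4, rfl⟩ |
      ⟨C, l, h1, h2, h3, h4, m1, m2, m3, rfl⟩ | ⟨C, l, h1, h2, h3, m1, m2, m3, rfl⟩ |
      ⟨C, l, h1, h2, h3, m1, m2, m3, m4, rfl⟩ <;> simp only [mem_insert, mem_singleton] at m1 m2 m3
    · exfalso
      omega
    · exfalso
      simp only [mem_insert, mem_singleton] at m4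
      omega
    · exfalso
      simp only [mem_insert, mem_singleton] at m4
      omega
    · exfalso
      omega
    · exfalso
      omega
    · exfalso
      simp only [mem_insert, mem_singleton] at m4
      omega
  refine tr4 D hD t hN b0 b1 b2 b3 h01 h12 h23 hb 13 1 1 _ (ok_1111_0 t) (by norm_num)
    (by norm_num) (by rw [c0]; norm_num) (by rw [c1]; norm_num) (by rw [c2]; norm_num) (by rw [c3]; norm_num) (by decide) ?_ ?_
  · intro S hS hJ
    exact (inside S hS hJ).elim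
  · intro S hS
    exact absurd hS (notMem_empty _)

theorem p2101 (D : Dg) (hD : D.Std) (t : Bool)
    (hN : D.n01 = (if t then 3 else 4) ∧ D.n02 = 3 ∧ D.n12 = if t then 4 else 3)
    (b0 b1 b2 b3 : ℕ) (h01 : b0 < b1) (h12 : b1 < b2) (h23 : b2 < b3) (hb : b3 < D.nb)
    (c0 : D.col b0 = 0) (c1 : D.col b1 = 0) (c2 : D.col b2 = 1) (c3 : D.col b3 = 3) :
    ∃ p : Pos ℂ, D.Good p ∧ D.Loc p {b0, b1, b2, b3} := by
  have r0 := D.col_cases b0
  have r1 := D.col_cases b1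
  have r2 := D.col_cases b2
  have r3 := D.col_cases b3
  have inside : ∀ S ∈ D.Sp, insert S.1 S.2.1 ⊆ {b0, b1, b2, b3} →
      False := by
    intro S hS hJ
    rcases sp_in D hD _ S hS hJ with ⟨C, l, h1, h2, h3, h4, h5, m1, m2, m3, rfl⟩ |
      ⟨C, l, h1, h2, h3, h4, m1, m2, m3, m4, rfl⟩ | ⟨C, l, h1, h2, h3, m1, m2, m3, m4, rfl⟩ |
      ⟨C, l, h1, h2, h3, h4, m1, m2, m3, rfl⟩ | ⟨C, l, h1, h2, h3, m1, m2, m3, rfl⟩ |
      ⟨C, l, h1, h2, h3, m1, m2, m3, m4, rfl⟩ <;> simp only [mem_insert, mem_singleton] at m1 m2 m3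
    · exfalso
      omega
    · exfalso
      simp only [mem_insert, mem_singleton] at m4
      omega
    · exfalso
      simp only [mem_insert, mem_singleton] at m4
      omega
    · exfalso
      omega
    · exfalso
      omega
    · exfalso
      simp only [mem_insert, mem_singleton] at m4
      omega
  refine tr4 D hD t hN b0 b1 b2 b3 h01 h12 h23 hb 13 2 1 _ (ok_2101_0 t) (by norm_num)
    (by norm_num) (by rw [c0]; norm_num) (by rw [c1]; norm_num) (by rw [c2]; norm_num) (by rw [c3]; norm_num) (by decide) ?_ ?_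
  · intro S hS hJ
    exact (inside S hS hJ).elim
  · intro S hS
    exact absurd hS (notMem_empty _)

theorem p1201 (D : Dg) (hD : D.Std) (t : Bool)
    (hN : D.n01 = (if t then 3 else 4) ∧ D.n02 = 3 ∧ D.n12 = if t then 4 else 3)
    (b0 b1 b2 b3 : ℕ) (h01 : b0 < b1) (h12 : b1 < b2) (h23 : b2 < b3) (hb : b3 < D.nb)
    (c0 : D.col b0 = 0) (c1 : D.col b1 = 1) (c2 : D.col b2 = 1) (c3 : D.col b3 = 3) :
    ∃ p : Pos ℂ, D.Good p ∧ D.Loc p {b0, b1, b2, b3} := by
  have r0 := D.col_cases b0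
  have r1 := D.col_cases b1
  have r2 := D.col_cases b2
  have r3 := D.col_cases b3
  have inside : ∀ S ∈ D.Sp, insert S.1 S.2.1 ⊆ {b0, b1, b2, b3} →
      S = (b0, ({b1, b2} : Finset ℕ), 0) := by
    intro S hS hJ
    rcases sp_in D hD _ S hS hJ with ⟨C, l, h1, h2, h3, h4, h5, m1, m2, m3, rfl⟩ |
      ⟨C, l, h1, h2, h3, h4, m1, m2, m3, m4, rfl⟩ | ⟨C, l, h1, h2, h3, m1, m2, m3, m4, rfl⟩ |
      ⟨C, l, h1, h2, h3, h4, m1, m2, m3, rfl⟩ | ⟨C, l, h1, h2, h3, m1, m2, m3, rfl⟩ |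
      ⟨C, l, h1, h2, h3, m1, m2, m3, m4, rfl⟩ <;> simp only [mem_insert, mem_singleton] at m1 m2 m3
    · rcases (by omega : (C = b0 ∧ l = b1 ∧ l + 1 = b2)) with ⟨e0, e1, e2⟩
      · rw [e0, e2, e1]
    · exfalso
      simp only [mem_insert, mem_singleton] at m4
      omega
    · exfalso
      simp only [mem_insert, mem_singleton] at m4
      omega
    · exfalso
      omega
    · exfalso
      omega
    · exfalso
      simp only [mem_insert, mem_singleton] at m4
      omega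
  by_cases hP : (b0, ({b1, b2} : Finset ℕ), 0) ∈ D.Sp
  · refine tr4 D hD t hN b0 b1 b2 b3 h01 h12 h23 hb 13 1 2 _ (ok_1201_P t) (by norm_num)
      (by norm_num) (by rw [c0]; norm_num) (by rw [c1]; norm_num) (by rw [c2]; norm_num) (by rw [c3]; norm_num) (by decide) ?_ ?_
    · intro S hS hJ
      rcases inside S hS hJ with rfl
      · exact ⟨(0, {1, 2}, 0), by decide, by simp [th]⟩
    · intro S hS
      rw [mem_singleton] at hS
      subst hS
      simpa [th] using hP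
  · refine tr4 D hD t hN b0 b1 b2 b3 h01 h12 h23 hb 13 1 2 _ (ok_1201_0 t) (by norm_num)
      (by norm_num) (by rw [c0]; norm_num) (by rw [c1]; norm_num) (by rw [c2]; norm_num) (by rw [c3]; norm_num) (by decide) ?_ ?_
    · intro S hS hJ
      rcases inside S hS hJ with rfl
      · exact absurd hS hP
    · intro S hS
      exact absurd hS (notMem_empty _)

theorem p1102 (D : Dg) (hD : D.Std) (t : Bool)
    (hN : D.n01 = (if t then 3 else 4) ∧ D.n02 = 3 ∧ D.n12 = if t then 4 else 3)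
    (b0 b1 b2 b3 : ℕ) (h01 : b0 < b1) (h12 : b1 < b2) (h23 : b2 < b3) (hb : b3 < D.nb)
    (c0 : D.col b0 = 0) (c1 : D.col b1 = 1) (c2 : D.col b2 = 3) (c3 : D.col b3 = 3) :
    ∃ p : Pos ℂ, D.Good p ∧ D.Loc p {b0, b1, b2, b3} := by
  have r0 := D.col_cases b0
  have r1 := D.col_cases b1
  have r2 := D.col_cases b2
  have r3 := D.col_cases b3
  have inside : ∀ S ∈ D.Sp, insert S.1 S.2.1 ⊆ {b0, b1, b2, b3} →
      False := by
    intro S hS hJ
    rcases sp_in D hD _ S hS hJ with ⟨C, l, h1, h2, h3, h4, h5, m1, m2, m3, rfl⟩ |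
      ⟨C, l, h1, h2, h3, h4, m1, m2, m3, m4, rfl⟩ | ⟨C, l, h1, h2, h3, m1, m2, m3, m4, rfl⟩ |
      ⟨C, l, h1, h2, h3, h4, m1, m2, m3, rfl⟩ | ⟨C, l, h1, h2, h3, m1, m2, m3, rfl⟩ |
      ⟨C, l, h1, h2, h3, m1, m2, m3, m4, rfl⟩ <;> simp only [mem_insert, mem_singleton] at m1 m2 m3
    · exfalso
      omega
    · exfalso
      simp only [mem_insert, mem_singleton] at m4
      omega
    · exfalso
      simp only [mem_insert, mem_singleton] at m4
      omega
    · exfalso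
      omega
    · exfalso
      omega
    · exfalso
      simp only [mem_insert, mem_singleton] at m4
      omega
  refine tr4 D hD t hN b0 b1 b2 b3 h01 h12 h23 hb 10 1 1 _ (ok_1102_0 t) (by norm_num)
    (by norm_num) (by rw [c0]; norm_num) (by rw [c1]; norm_num) (by rw [c2]; norm_num) (by rw [c3]; norm_num) (by decide) ?_ ?_
  · intro S hS hJ
    exact (inside S hS hJ).elim
  · intro S hS
    exact absurd hS (notMem_empty _)

theorem p1110 (D : Dg) (hD : D.Std) (t : Bool)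
    (hN : D.n01 = (if t then 3 else 4) ∧ D.n02 = 3 ∧ D.n12 = if t then 4 else 3)
    (b0 b1 b2 : ℕ) (h01 : b0 < b1) (h12 : b1 < b2) (hb : b2 < D.nb)
    (c0 : D.col b0 = 0) (c1 : D.col b1 = 1) (c2 : D.col b2 = 2) :
    ∃ p : Pos ℂ, D.Good p ∧ D.Loc p {b0, b1, b2} := by
  have r0 := D.col_cases b0
  have r1 := D.col_cases b1
  have r2 := D.col_cases b2
  have inside : ∀ S ∈ D.Sp, insert S.1 S.2.1 ⊆ {b0, b1, b2} →
      False := by
    intro S hS hJ
    rcases sp_in D hD _ S hS hJ with ⟨C, l, h1, h2, h3, h4, h5, m1, m2, m3, rfl⟩ |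
      ⟨C, l, h1, h2, h3, h4, m1, m2, m3, m4, rfl⟩ | ⟨C, l, h1, h2, h3, m1, m2, m3, m4, rfl⟩ |
      ⟨C, l, h1, h2, h3, h4, m1, m2, m3, rfl⟩ | ⟨C, l, h1, h2, h3, m1, m2, m3, rfl⟩ |
      ⟨C, l, h1, h2, h3, m1, m2, m3, m4, rfl⟩ <;> simp only [mem_insert, mem_singleton] at m1 m2 m3
    · exfalso
      omega
    · exfalso
      simp only [mem_insert, mem_singleton] at m4
      omega
    · exfalso
      simp only [mem_insert, mem_singleton] at m4
      omega
    · exfalso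
      omega
    · exfalso
      omega
    · exfalso
      simp only [mem_insert, mem_singleton] at m4
      omega
  refine tr3 D hD t hN b0 b1 b2 h01 h12 hb 12 1 1 _ _ (ok_1110_0 t) (by norm_num)
    (by norm_num) (by rw [c0]; norm_num) (by rw [c1]; norm_num) (by rw [c2]; norm_num) (by decide) ?_ ?_ ?_ ?_ ?_ ?_ ?_ ?_
  · intro S hS hJ
    exact (inside S hS hJ).elim
  · intro S hS
    exact absurd hS (notMem_empty _)
  · intro m hm
    have h1 := (hD.fr _ hm).1
    dsimp only at h1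
    rw [h1]
    decide
  · intro m hm
    have h1 := (hD.fr _ hm).1
    dsimp only at h1
    rw [h1]
    decide
  · intro m hm
    have h1 := (hD.fr _ hm).1
    dsimp only at h1
    rw [h1]
    decide
  · intro S hS h
    exfalso
    rcases leafP D hD S hS b0 b1 h01 h with h1 | h1 <;> omega
  · intro S hS h
    exfalso
    rcases leafP D hD S hS b0 b2 (h01.trans h12) h with h1 | h1 <;> omega
  · intro S hS hC h
    exfalso
    rcases leafP D hD S hS b1 b2 h12 h with h1 | h1 <;> omega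

theorem p1200 (D : Dg) (hD : D.Std) (t : Bool)
    (hN : D.n01 = (if t then 3 else 4) ∧ D.n02 = 3 ∧ D.n12 = if t then 4 else 3)
    (b0 b1 b2 : ℕ) (h01 : b0 < b1) (h12 : b1 < b2) (hb : b2 < D.nb)
    (c0 : D.col b0 = 0) (c1 : D.col b1 = 1) (c2 : D.col b2 = 1) :
    ∃ p : Pos ℂ, D.Good p ∧ D.Loc p {b0, b1, b2} := by
  have r0 := D.col_cases b0
  have r1 := D.col_cases b1
  have r2 := D.col_cases b2
  have inside : ∀ S ∈ D.Sp, insert S.1 S.2.1 ⊆ {b0, b1, b2} →
      S = (b0, ({b1, b2} : Finset ℕ), 0) := by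
    intro S hS hJ
    rcases sp_in D hD _ S hS hJ with ⟨C, l, h1, h2, h3, h4, h5, m1, m2, m3, rfl⟩ |
      ⟨C, l, h1, h2, h3, h4, m1, m2, m3, m4, rfl⟩ | ⟨C, l, h1, h2, h3, m1, m2, m3, m4, rfl⟩ |
      ⟨C, l, h1, h2, h3, h4, m1, m2, m3, rfl⟩ | ⟨C, l, h1, h2, h3, m1, m2, m3, rfl⟩ |
      ⟨C, l, h1, h2, h3, m1, m2, m3, m4, rfl⟩ <;> simp only [mem_insert, mem_singleton] at m1 m2 m3
    · rcases (by omega : (C = b0 ∧ l = b1 ∧ l + 1 = b2)) with ⟨e0, e1, e2⟩
      rw [e0, e2, e1]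
    · exfalso
      simp only [mem_insert, mem_singleton] at m4
      omega
    · exfalso
      simp only [mem_insert, mem_singleton] at m4
      omega
    · exfalso
      omega
    · exfalso
      omega
    · exfalso
      simp only [mem_insert, mem_singleton] at m4
      omega
  by_cases hP : (b0, ({b1, b2} : Finset ℕ), 0) ∈ D.Sp
  · refine tr3 D hD t hN b0 b1 b2 h01 h12 hb 12 1 2 _ _ (ok_1200_P t) (by norm_num)
      (by norm_num) (by rw [c0]; norm_num) (by rw [c1]; norm_num) (by rw [c2]; norm_num) (by decide) ?_ ?_ ?_ ?_ ?_ ?_ ?_ ?_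
    · intro S hS hJ
      have h1 := inside S hS hJ
      subst h1
      exact ⟨(0, {1, 2}, 0), by decide, by simp [th]⟩
    · intro S hS
      rw [mem_singleton] at hS
      subst hS
      simpa [th] using hP
    · intro m hm
      have h1 := (hD.fr _ hm).1
      dsimp only at h1
      rw [h1]
      decide
    · intro m hm
      have h1 := (hD.fr _ hm).1
      dsimp only at h1
      rw [h1]
      decide
    · intro m hm
      have h1 := (hD.fr _ hm).1
      dsimp only at h1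
      rw [h1]
      decide
    · intro S hS h
      exfalso
      rcases leafP D hD S hS b0 b1 h01 h with h1 | h1 <;> omega
    · intro S hS h
      exfalso
      rcases leafP D hD S hS b0 b2 (h01.trans h12) h with h1 | h1 <;> omega
    · intro S hS hC h
      rcases leafP D hD S hS b1 b2 h12 h with h1 | h1
      · have h2 : S.1 = 0 ∨ S.1 = 1 ∨ S.1 = 2 ∨ S.1 = 3 := by omega
        rcases h2 with h2 | h2 | h2 | h2 <;> rw [h2] <;> decide
      · exfalso
        omega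
  · refine tr3 D hD t hN b0 b1 b2 h01 h12 hb 12 1 2 _ _ (ok_1200_0 t) (by norm_num)
      (by norm_num) (by rw [c0]; norm_num) (by rw [c1]; norm_num) (by rw [c2]; norm_num) (by decide) ?_ ?_ ?_ ?_ ?_ ?_ ?_ ?_
    · intro S hS hJ
      have h1 := inside S hS hJ
      subst h1
      exact absurd hS hP
    · intro S hS
      exact absurd hS (notMem_empty _)
    · intro m hm
      have h1 := (hD.fr _ hm).1
      dsimp only at h1
      rw [h1]
      decide
    · intro m hm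
      have h1 := (hD.fr _ hm).1
      dsimp only at h1
      rw [h1]
      decide
    · intro m hm
      have h1 := (hD.fr _ hm).1
      dsimp only at h1
      rw [h1]
      decide
    · intro S hS h
      exfalso
      rcases leafP D hD S hS b0 b1 h01 h with h1 | h1 <;> omega
    · intro S hS h
      exfalso
      rcases leafP D hD S hS b0 b2 (h01.trans h12) h with h1 | h1 <;> omega
    · intro S hS hC h
      rcases leafP D hD S hS b1 b2 h12 h with h1 | h1
      · have h2 : S.1 = 0 ∨ S.1 = 1 ∨ S.1 = 2 ∨ S.1 = 3 := by omega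
        rcases h2 with h2 | h2 | h2 | h2 <;> rw [h2] <;> decide
      · exfalso
        omega

theorem p2100 (D : Dg) (hD : D.Std) (t : Bool)
    (hN : D.n01 = (if t then 3 else 4) ∧ D.n02 = 3 ∧ D.n12 = if t then 4 else 3)
    (b0 b1 b2 : ℕ) (h01 : b0 < b1) (h12 : b1 < b2) (hb : b2 < D.nb)
    (c0 : D.col b0 = 0) (c1 : D.col b1 = 0) (c2 : D.col b2 = 1) :
    ∃ p : Pos ℂ, D.Good p ∧ D.Loc p {b0, b1, b2} := by
  have r0 := D.col_cases b0
  have r1 := D.col_cases b1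
  have r2 := D.col_cases b2
  have inside : ∀ S ∈ D.Sp, insert S.1 S.2.1 ⊆ {b0, b1, b2} →
      False := by
    intro S hS hJ
    rcases sp_in D hD _ S hS hJ with ⟨C, l, h1, h2, h3, h4, h5, m1, m2, m3, rfl⟩ |
      ⟨C, l, h1, h2, h3, h4, m1, m2, m3, m4, rfl⟩ | ⟨C, l, h1, h2, h3, m1, m2, m3, m4, rfl⟩ |
      ⟨C, l, h1, h2, h3, h4, m1, m2, m3, rfl⟩ | ⟨C, l, h1, h2, h3, m1, m2, m3, rfl⟩ |
      ⟨C, l, h1, h2, h3, m1, m2, m3, m4, rfl⟩ <;> simp only [mem_insert, mem_singleton] at m1 m2 m3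
    · exfalso
      omega
    · exfalso
      simp only [mem_insert, mem_singleton] at m4
      omega
    · exfalso
      simp only [mem_insert, mem_singleton] at m4
      omega
    · exfalso
      omega
    · exfalso
      omega
    · exfalso
      simp only [mem_insert, mem_singleton] at m4
      omega
  refine tr3 D hD t hN b0 b1 b2 h01 h12 hb 12 2 1 _ _ (ok_2100_0 t) (by norm_num)
    (by norm_num) (by rw [c0]; norm_num) (by rw [c1]; norm_num) (by rw [c2]; norm_num) (by decide) ?_ ?_ ?_ ?_ ?_ ?_ ?_ ?_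
  · intro S hS hJ
    exact (inside S hS hJ).elim
  · intro S hS
    exact absurd hS (notMem_empty _)
  · intro m hm
    exfalso
    obtain ⟨-, h1, h2, h3⟩ := hD.fr _ hm
    dsimp only at h1 h2 h3
    omega
  · intro m hm
    have h1 := (hD.fr _ hm).1
    dsimp only at h1
    rw [h1]
    decide
  · intro m hm
    have h1 := (hD.fr _ hm).1
    dsimp only at h1
    rw [h1]
    decide
  · intro S hS h
    exfalso
    rcases leafP D hD S hS b0 b1 h01 h with h1 | h1 <;> omega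
  · intro S hS h
    exfalso
    rcases leafP D hD S hS b0 b2 (h01.trans h12) h with h1 | h1 <;> omega
  · intro S hS hC h
    exfalso
    rcases leafP D hD S hS b1 b2 h12 h with h1 | h1 <;> omega

theorem p1101 (D : Dg) (hD : D.Std) (t : Bool)
    (hN : D.n01 = (if t then 3 else 4) ∧ D.n02 = 3 ∧ D.n12 = if t then 4 else 3)
    (b0 b1 b2 : ℕ) (h01 : b0 < b1) (h12 : b1 < b2) (hb : b2 < D.nb)
    (c0 : D.col b0 = 0) (c1 : D.col b1 = 1) (c2 : D.col b2 = 3) :
    ∃ p : Pos ℂ, D.Good p ∧ D.Loc p {b0, b1, b2} := by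
  have r0 := D.col_cases b0
  have r1 := D.col_cases b1
  have r2 := D.col_cases b2
  have inside : ∀ S ∈ D.Sp, insert S.1 S.2.1 ⊆ {b0, b1, b2} →
      False := by
    intro S hS hJ
    rcases sp_in D hD _ S hS hJ with ⟨C, l, h1, h2, h3, h4, h5, m1, m2, m3, rfl⟩ |
      ⟨C, l, h1, h2, h3, h4, m1, m2, m3, m4, rfl⟩ | ⟨C, l, h1, h2, h3, m1, m2, m3, m4, rfl⟩ |
      ⟨C, l, h1, h2, h3, h4, m1, m2, m3, rfl⟩ | ⟨C, l, h1, h2, h3, m1, m2, m3, rfl⟩ |
      ⟨C, l, h1, h2, h3, m1, m2, m3, m4, rfl⟩ <;> simp only [mem_insert, mem_singleton] at m1 m2 m3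
    · exfalso
      omega
    · exfalso
      simp only [mem_insert, mem_singleton] at m4
      omega
    · exfalso
      simp only [mem_insert, mem_singleton] at m4
      omega
    · exfalso
      omega
    · exfalso
      omega
    · exfalso
      simp only [mem_insert, mem_singleton] at m4
      omega
  refine tr3 D hD t hN b0 b1 b2 h01 h12 hb 9 1 1 _ _ (ok_1101_0 t) (by norm_num)
    (by norm_num) (by rw [c0]; norm_num) (by rw [c1]; norm_num) (by rw [c2]; norm_num) (by decide) ?_ ?_ ?_ ?_ ?_ ?_ ?_ ?_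
  · intro S hS hJ
    exact (inside S hS hJ).elim
  · intro S hS
    exact absurd hS (notMem_empty _)
  · intro m hm
    have h1 := (hD.fr _ hm).1
    dsimp only at h1
    rw [h1]
    decide
  · intro m hm
    exfalso
    obtain ⟨-, h1, h2, h3⟩ := hD.fr _ hm
    dsimp only at h1 h2 h3
    omega
  · intro m hm
    exfalso
    obtain ⟨-, h1, h2, h3⟩ := hD.fr _ hm
    dsimp only at h1 h2 h3
    omega
  · intro S hS h
    exfalso
    rcases leafP D hD S hS b0 b1 h01 h with h1 | h1 <;> omega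
  · intro S hS h
    exfalso
    rcases leafP D hD S hS b0 b2 (h01.trans h12) h with h1 | h1 <;> omega
  · intro S hS hC h
    exfalso
    rcases leafP D hD S hS b1 b2 h12 h with h1 | h1 <;> omega

theorem typ (D : Dg) (hD : D.Std) (J : Finset ℕ) (hJ : J ⊆ range D.nb)
    (h0 : ∃ B ∈ J, D.col B = 0) (h1 : ∃ B ∈ J, D.col B = 1) :
    ∃ p : Pos ℂ, D.Good p ∧ D.Loc p J := by
  obtain ⟨t, hN⟩ := hD.N
  rcases (D.rows J).eq_empty_or_nonempty with h | h
  · exact loc_of_empty D J h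
  have hc := rows_card D J h
  obtain ⟨B0, hB0, e0⟩ := h0
  obtain ⟨B1, hB1, e1⟩ := h1
  have h2 : 1 < J.card := one_lt_card.2 ⟨B0, hB0, B1, hB1, fun h => by rw [h, e1] at e0; omega⟩
  have r0 := D.col_cases B0
  have r1 := D.col_cases B1
  have hcard : J.card = 2 ∨ J.card = 3 ∨ J.card = 4 := by omega
  rcases hcard with h3 | h3 | h3
  · obtain ⟨b0, b1, h01, rfl⟩ := ex_two J h3
    have hb : b1 < D.nb := mem_range.1 (hJ (by simp))
    simp only [mem_insert, mem_singleton] at hB0 hB1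
    have q0 := D.col_cases b0
    have q1 := D.col_cases b1
    have c0 : D.col b0 = 0 := by
      rcases hB0 with rfl | rfl
      · exact e0
      · omega
    have c1 : D.col b1 = 1 := by
      rcases hB1 with rfl | rfl
      · omega
      · exact e1
    exact tr2 D hD t hN b0 b1 h01 hb c0 c1
  · obtain ⟨b0, b1, b2, h01, h12, rfl⟩ := ex_three J h3
    have hb : b2 < D.nb := mem_range.1 (hJ (by simp))
    simp only [mem_insert, mem_singleton] at hB0 hB1
    have q0 := D.col_cases b0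
    have q1 := D.col_cases b1
    have q2 := D.col_cases b2
    have c0 : D.col b0 = 0 := by
      rcases hB0 with rfl | rfl | rfl
      · exact e0
      · omega
      · omega
    have c1 : D.col b1 = 1 ∨ D.col b2 = 1 := by
      rcases hB1 with rfl | rfl | rfl
      · omega
      · exact Or.inl e1
      · exact Or.inr e1
    have key : (D.col b1 = 0 ∧ D.col b2 = 1) ∨ (D.col b1 = 1 ∧ D.col b2 = 1) ∨
        (D.col b1 = 1 ∧ D.col b2 = 2) ∨ (D.col b1 = 1 ∧ D.col b2 = 3) := by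
      have m1 : D.col b1 ≤ D.col b2 := D.col_mono h12
      have m3 : D.col b2 ≤ 3 := D.col_le b2
      clear q0 q1 q2 r0 r1 hB0 hB1 c0 e0 e1
      generalize D.col b1 = x1 at *
      generalize D.col b2 = x2 at *
      interval_cases x2 <;> interval_cases x1 <;>
        first
        | (exfalso; revert c1; decide)
        | decide
    rcases key with ⟨k1, k2⟩ | ⟨k1, k2⟩ | ⟨k1, k2⟩ | ⟨k1, k2⟩
    · exact p2100 D hD t hN b0 b1 b2 h01 h12 hb c0 k1 k2
    · exact p1200 D hD t hN b0 b1 b2 h01 h12 hb c0 k1 k2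
    · exact p1110 D hD t hN b0 b1 b2 h01 h12 hb c0 k1 k2
    · exact p1101 D hD t hN b0 b1 b2 h01 h12 hb c0 k1 k2
  · obtain ⟨b0, b1, b2, b3, h01, h12, h23, rfl⟩ := ex_four J h3
    have hb : b3 < D.nb := mem_range.1 (hJ (by simp))
    simp only [mem_insert, mem_singleton] at hB0 hB1
    have q0 := D.col_cases b0
    have q1 := D.col_cases b1
    have q2 := D.col_cases b2
    have q3 := D.col_cases b3
    have c0 : D.col b0 = 0 := by
      rcases hB0 with rfl | rfl | rfl | rfl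
      · exact e0
      · omega
      · omega
      · omega
    have c1 : D.col b1 = 1 ∨ D.col b2 = 1 ∨ D.col b3 = 1 := by
      rcases hB1 with rfl | rfl | rfl | rfl
      · omega
      · exact Or.inl e1
      · exact Or.inr (Or.inl e1)
      · exact Or.inr (Or.inr e1)
    have key : (D.col b1 = 0 ∧ D.col b2 = 0 ∧ D.col b3 = 1) ∨
        (D.col b1 = 0 ∧ D.col b2 = 1 ∧ D.col b3 = 1) ∨
        (D.col b1 = 0 ∧ D.col b2 = 1 ∧ D.col b3 = 2) ∨
        (D.col b1 = 0 ∧ D.col b2 = 1 ∧ D.col b3 = 3) ∨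
        (D.col b1 = 1 ∧ D.col b2 = 1 ∧ D.col b3 = 1) ∨
        (D.col b1 = 1 ∧ D.col b2 = 1 ∧ D.col b3 = 2) ∨
        (D.col b1 = 1 ∧ D.col b2 = 1 ∧ D.col b3 = 3) ∨
        (D.col b1 = 1 ∧ D.col b2 = 2 ∧ D.col b3 = 2) ∨
        (D.col b1 = 1 ∧ D.col b2 = 2 ∧ D.col b3 = 3) ∨
        (D.col b1 = 1 ∧ D.col b2 = 3 ∧ D.col b3 = 3) := by
      have m1 : D.col b1 ≤ D.col b2 := D.col_mono h12
      have m2 : D.col b2 ≤ D.col b3 := D.col_mono h23
      have m3 : D.col b3 ≤ 3 := D.col_le b3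
      clear q0 q1 q2 q3 r0 r1 hB0 hB1 c0 e0 e1
      generalize D.col b1 = x1 at *
      generalize D.col b2 = x2 at *
      generalize D.col b3 = x3 at *
      interval_cases x3 <;> interval_cases x2 <;> interval_cases x1 <;>
        first
        | (exfalso; revert c1; decide)
        | decide
    rcases key with ⟨k1, k2, k3⟩ | ⟨k1, k2, k3⟩ | ⟨k1, k2, k3⟩ | ⟨k1, k2, k3⟩ | ⟨k1, k2, k3⟩ |
      ⟨k1, k2, k3⟩ | ⟨k1, k2, k3⟩ | ⟨k1, k2, k3⟩ | ⟨k1, k2, k3⟩ | ⟨k1, k2, k3⟩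
    · exact p3100 D hD t hN b0 b1 b2 b3 h01 h12 h23 hb c0 k1 k2 k3
    · exact p2200 D hD t hN b0 b1 b2 b3 h01 h12 h23 hb c0 k1 k2 k3
    · exact p2110 D hD t hN b0 b1 b2 b3 h01 h12 h23 hb c0 k1 k2 k3
    · exact p2101 D hD t hN b0 b1 b2 b3 h01 h12 h23 hb c0 k1 k2 k3
    · exact p1300 D hD t hN b0 b1 b2 b3 h01 h12 h23 hb c0 k1 k2 k3
    · exact p1210 D hD t hN b0 b1 b2 b3 h01 h12 h23 hb c0 k1 k2 k3
    · exact p1201 D hD t hN b0 b1 b2 b3 h01 h12 h23 hb c0 k1 k2 k3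
    · exact p1120 D hD t hN b0 b1 b2 b3 h01 h12 h23 hb c0 k1 k2 k3
    · exact p1111 D hD t hN b0 b1 b2 b3 h01 h12 h23 hb c0 k1 k2 k3
    · exact p1102 D hD t hN b0 b1 b2 b3 h01 h12 h23 hb c0 k1 k2 k3

/-- On the level 1 a label with rows contains a block of the colour 1. -/
theorem rows_col (D : Dg) (hD : D.Std) (hh : D.h0 + D.h1 = D.n / 4) (J : Finset ℕ)
    (h0 : ∃ B ∈ J, D.col B = 0) (h : (D.rows J).Nonempty) : ∃ B ∈ J, D.col B = 1 := by
  obtain ⟨r, hr⟩ := h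
  unfold Dg.rows at hr
  rw [mem_disjSum] at hr
  rcases hr with ⟨⟨⟨A, B, s⟩, x, y⟩, hr, -⟩ | ⟨r, hr, -⟩
  · unfold Dg.RT at hr
    rw [mem_filter, mem_product] at hr
    obtain ⟨⟨h1, -⟩, -, h2⟩ := hr
    rw [Dg.mem_TP] at h1
    have rA := D.col_cases A
    have rB := D.col_cases B
    have h3 : D.col A = 0 ∧ D.col B = 1 := by
      have h4 := h1.2.2.2
      unfold Dg.nn at h4
      split_ifs at h4 with h5 h6 h7
      · exact h5
      · omega
      · omega
      · omega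
    refine ⟨B, ?_, h3.2⟩
    rw [← h2]
    exact mem_insert_of_mem (mem_insert_self _ _)
  · rw [mem_disjSum] at hr
    rcases hr with ⟨⟨⟨A, B, m⟩, x⟩, hr, -⟩ | ⟨⟨⟨C, L, s⟩, x⟩, hr, -⟩
    · unfold Dg.RF at hr
      rw [mem_filter, mem_product] at hr
      obtain ⟨⟨h1, -⟩, h2⟩ := hr
      obtain ⟨-, h4, h5, h6⟩ := hD.fr _ h1
      dsimp only at h4 h5 h6
      have rA := D.col_cases A
      have rB := D.col_cases B
      refine ⟨B, ?_, by omega⟩
      rw [← h2]
      exact mem_insert_of_mem (mem_insert_self _ _)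
    · unfold Dg.RG at hr
      rw [mem_filter, mem_product] at hr
      obtain ⟨⟨h1, -⟩, h2, -, h3⟩ := hr
      dsimp only at h1 h2 h3
      obtain ⟨u, v, huv, rfl⟩ := ex_two L h2
      have ru := D.col_cases u
      refine ⟨u, ?_, ?_⟩
      · rw [← h3]
        exact mem_insert_of_mem (mem_insert_self _ _)
      · rcases leafP D hD _ h1 u v huv rfl with h4 | h4 <;> omega

theorem loc_all (D : Dg) (hD : D.Std) (lv : ℕ) (hlv : lv = 2 ∨ (lv = 1 ∧ D.h0 + D.h1 = D.n / 4))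
    (J : Finset ℕ) (hJ : J ∈ D.jj lv) : ∃ p : Pos ℂ, D.Good p ∧ D.Loc p J := by
  unfold Dg.jj at hJ
  rw [mem_filter, mem_powerset] at hJ
  obtain ⟨hJ1, hJ2⟩ := hJ
  have h0 : ∃ B ∈ J, D.col B = 0 := hJ2 0 (by omega)
  rcases hlv with hlv | ⟨hlv, hh⟩
  · exact typ D hD J hJ1 h0 (hJ2 1 (by omega))
  · rcases (D.rows J).eq_empty_or_nonempty with h | h
    · exact loc_of_empty D J h
    · exact typ D hD J hJ1 h0 (rows_col D hD hh J h0 h)

end Pool.Agent.KZ.AL
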