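import Pool.Agent.KZ.AL.Full
import Pool.Agent.KZ.AL.GenP
import Pool.Agent.KZ.AL.Typ
import Pool.Agent.KZ.AL.Cnt
import Pool.Agent.KZ.AL.Conv
import Pool.Agent.KZ.AL.Std

/-!
# KZ4, ALPHA: the full configurations are exact
-/

set_option autoImplicit false

namespace Pool.Agent.KZ.AL

open Finset

private theorem De.two_choose (T : ℕ) : 2 * ((T.choose 2 : ℕ) : ℤ) = ((T * (T - 1) : ℕ) : ℤ) := by
  have h1 : T.choose 2 * 2 = T * (T - 1) := by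
    rw [Nat.choose_two_right]
    exact Nat.div_mul_cancel (Nat.even_mul_pred_self T).two_dvd
  have h2 : ((T.choose 2 * 2 : ℕ) : ℤ) = ((T * (T - 1) : ℕ) : ℤ) := by rw [h1]
  rw [← h2]
  push_cast
  ring

private theorem De.mc_mono {a b : ℕ} (h : a ≤ b) (k : ℕ) :
    Nat.multichoose a k ≤ Nat.multichoose b k := by
  rw [Nat.multichoose_eq, Nat.multichoose_eq]
  exact Nat.choose_le_choose k (by omega)

theorem des2 (t : Bool) (n h : ℕ) (a : L2) (ha : Rm2 n h a) :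
    (H2 (4 * h) n (full2 t n h a) : ℤ) ≤ v2 (4 * h) n (full2 t n h a) := by
  have hS : (mk2 t n h a).Std := std_mk2 t n h a ha
  obtain ⟨p, hp, hp'⟩ := gen (mk2 t n h a) ((mk2 t n h a).jj 2)
    fun J hJ => loc_all _ hS 2 (Or.inl rfl) J hJ
  have e0 := conv2 t n h a ha p hp
  have e1 := full (mk2 t n h a) (wf_of_std _ hS) 2 p hp hp'
  obtain ⟨T, hT⟩ : ∃ T, T = (if t then 3 else 4) * h * h := ⟨_, rfl⟩
  obtain ⟨U, hU⟩ : ∃ U, U = (if t then 4 else 3) * h * (n / 4 - 2 * h) := ⟨_, rfl⟩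
  obtain ⟨Y, hY⟩ : ∃ Y, Y = 3 * h * (n / 4 - 2 * h) := ⟨_, rfl⟩
  have e2 := ad2 t n h a ha
  have hUY : (if t then 7 else 6) * h * (n / 4 - 2 * h) = U + Y := by
    rw [hU, hY]
    split_ifs <;> ring
  rw [cRT2 t n h a ha, cRF2 t n h a ha, cRG2 t n h a ha, cLo2 t n h a ha,
    cPr2 t n h a ha T U Y hT hU hY, hUY, ← hT] at e1
  obtain ⟨hh, hn, bp, bq, br, bpu, bpy, bqy, bd, bz, bw⟩ := ha
  -- the numbers of all points
  have hTT : (full2 t n h a).T = T := by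
    show (if t then 3 else 4) * h * h - (2 * a.p + 3 * a.q + 3 * a.r) + 2 * a.p + 3 * a.q +
      3 * a.r = T
    rw [← hT]
    have h1 : 3 * h * h ≤ T := by
      rw [hT, Nat.mul_assoc, Nat.mul_assoc]
      refine Nat.mul_le_mul_right _ ?_
      split_ifs <;> omega
    have h2 : 30 * h ≤ 3 * h * h := Nat.mul_le_mul_right _ (by omega)
    omega
  have hUU : (full2 t n h a).U = U := by
    show (if t then 4 else 3) * h * (n / 4 - 2 * h) - 2 * a.pu + 2 * a.pu = U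
    rw [← hU]
    have h1 : 3 * h * (n / 4 - 2 * h) ≤ U := by
      rw [hU]
      refine Nat.mul_le_mul_right _ (Nat.mul_le_mul_right _ ?_)
      split_ifs <;> omega
    have h2 : 8 * (n / 4 - 2 * h) ≤ 3 * h * (n / 4 - 2 * h) := Nat.mul_le_mul_right _ (by omega)
    omega
  have hYY : (full2 t n h a).Y = Y := by
    show 3 * h * (n / 4 - 2 * h) - (2 * a.py + 3 * a.qy) + 2 * a.py + 3 * a.qy = Y
    rw [← hY]
    have h2 : 18 * (n / 4 - 2 * h) ≤ 3 * h * (n / 4 - 2 * h) := Nat.mul_le_mul_right _ (by omega)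
    rw [← hY] at h2
    omega
  have hv : v2 (4 * h) n (full2 t n h a) = (mc n 4 - 2 * mc (n - 4 * h) 4 +
      mc (n - 2 * (4 * h)) 4) - T * mc n 2 - (U + Y) * dl (4 * h) n - 0 + a.p * ((n : ℤ) -
        (4 * h : ℕ)) + a.q + a.r + (a.pu + a.py) * (4 * h : ℕ) - a.d * n
      - (a.w + a.z) * (4 * h : ℕ) + (T.choose 2 : ℤ) + T * (U + Y + 0) + U * Y := by
    unfold v2
    rw [hTT, hUU, hYY]
    show (mc n 4 - 2 * mc (n - 4 * h) 4 + mc (n - 2 * (4 * h)) 4) - T * mc n 2 -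
      (U + Y) * dl (4 * h) n - ((0 : ℕ) : ℤ) * ((4 * h : ℕ) : ℤ) ^ 2 + a.p * ((n : ℤ) -
        (4 * h : ℕ)) + a.q + a.r + (a.pu + a.py) * (4 * h : ℕ) - a.d * n
      - (a.w + a.z) * (4 * h : ℕ) + (T.choose 2 : ℤ) + T * (U + Y + ((0 : ℕ) : ℤ)) + U * Y = _
    rw [Nat.cast_zero, zero_mul]
  rw [hv]
  have h8 : 2 * (4 * h) = 8 * h := by ring
  rw [h8]
  have hc := De.two_choose T
  obtain ⟨A1, hA1⟩ : ∃ A1, Nat.multichoose n 2 = Nat.multichoose (n - 4 * h) 2 + A1 :=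
    ⟨Nat.multichoose n 2 - Nat.multichoose (n - 4 * h) 2, by
      have := De.mc_mono (Nat.sub_le n (4 * h)) 2
      omega⟩
  have hA1' : Nat.multichoose n 2 - Nat.multichoose (n - 4 * h) 2 = A1 := by omega
  obtain ⟨A2, hA2⟩ : ∃ A2, n = A2 + 4 := ⟨n - 4, by omega⟩
  have hA2' : n - 4 = A2 := by omega
  obtain ⟨A3, hA3⟩ : ∃ A3, 4 * h = A3 + 4 := ⟨4 * h - 4, by omega⟩
  have hA3' : 4 * h - 4 = A3 := by omega
  rw [hA1', hA2', hA3'] at e1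
  have hdl : dl (4 * h) n = A1 := by
    unfold dl
    show ((Nat.multichoose n 2 : ℕ) : ℤ) - ((Nat.multichoose (n - 4 * h) 2 : ℕ) : ℤ) = A1
    rw [hA1]
    push_cast
    ring
  have hn' : (n : ℤ) = A2 + 4 := by exact_mod_cast hA2
  have hh' : ((4 * h : ℕ) : ℤ) = A3 + 4 := by exact_mod_cast hA3
  have e0' : (H2 (4 * h) n (full2 t n h a) : ℤ) ≤
      (Module.finrank ℂ ((mk2 t n h a).sol 2 p) : ℤ) := by exact_mod_cast e0
  refine e0'.trans ?_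
  obtain ⟨F, hF⟩ : ∃ F, F = Module.finrank ℂ ((mk2 t n h a).sol 2 p) := ⟨_, rfl⟩
  obtain ⟨C, hC⟩ : ∃ C, C = ((mk2 t n h a).ad 2).card := ⟨_, rfl⟩
  obtain ⟨P, hP⟩ : ∃ P, P = T * (T - 1) := ⟨_, rfl⟩
  rw [← hP] at hc e1
  rw [← hF, ← hC] at e1
  rw [← hC] at e2
  rw [← hF, hdl]
  zify at e1 e2
  rw [hh', hn']
  rw [hn'] at e1
  have hh2 : (4 : ℤ) * (h : ℤ) = A3 + 4 := by exact_mod_cast hA3
  rw [hh2] at e1
  nlinarith [e1, e2, hc]

theorem des1 (n h : ℕ) (a : L1) (ha : Rm1 n h a) :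
    (H1 (4 * h) n (full1 n h a) : ℤ) ≤ v1 (4 * h) n (full1 n h a) := by
  have hS : (mk1 n h a).Std := std_mk1 n h a ha
  have hhn := ha.hn
  obtain ⟨p, hp, hp'⟩ := gen (mk1 n h a) ((mk1 n h a).jj 1)
    fun J hJ => loc_all _ hS 1 (Or.inr ⟨rfl, by
      show h + (n / 4 - h) = n / 4
      omega⟩) J hJ
  have e0 := conv1 n h a ha p hp
  have e1 := full (mk1 n h a) (wf_of_std _ hS) 1 p hp hp'
  obtain ⟨T, hT⟩ : ∃ T, T = 4 * h * (n / 4 - h) := ⟨_, rfl⟩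
  have e2 := ad1 n h a ha
  rw [cRT1 n h a ha, cRF1 n h a ha, cRG1 n h a ha, cLo1 n h a ha,
    cPr1 n h a ha T hT, ← hT] at e1
  obtain ⟨hh, hn, bp, bq, bd, bw⟩ := ha
  have hTT : (full1 n h a).T = T := by
    show 4 * h * (n / 4 - h) - (2 * a.p + 3 * a.q) + 2 * a.p + 3 * a.q = T
    rw [← hT]
    have h2 : 18 * (n / 4 - h) ≤ 4 * h * (n / 4 - h) := Nat.mul_le_mul_right _ (by omega)
    rw [← hT] at h2
    omega
  have hv : v1 (4 * h) n (full1 n h a) = (mc n 4 - mc (n - 4 * h) 4) - T * mc n 2 -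
      0 + a.p * ((n : ℤ) - (4 * h : ℕ)) + a.q - a.d * n
      - a.w * (4 * h : ℕ) - 0 + (T.choose 2 : ℤ) + 0 := by
    unfold v1
    rw [hTT]
    show (mc n 4 - mc (n - 4 * h) 4) - T * mc n 2 -
      ((0 : ℕ) : ℤ) * dl (4 * h) n + a.p * ((n : ℤ) - (4 * h : ℕ)) + a.q - a.d * n
      - a.w * (4 * h : ℕ) - ((0 : ℕ) : ℤ) + (T.choose 2 : ℤ) + T * ((0 : ℕ) : ℤ) = _
    rw [Nat.cast_zero, zero_mul, mul_zero]
  rw [hv]
  have hc := De.two_choose T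
  obtain ⟨A2, hA2⟩ : ∃ A2, n = A2 + 4 := ⟨n - 4, by omega⟩
  have hA2' : n - 4 = A2 := by omega
  obtain ⟨A3, hA3⟩ : ∃ A3, 4 * h = A3 + 4 := ⟨4 * h - 4, by omega⟩
  have hA3' : 4 * h - 4 = A3 := by omega
  rw [hA2', hA3'] at e1
  have hn' : (n : ℤ) = A2 + 4 := by exact_mod_cast hA2
  have hh' : ((4 * h : ℕ) : ℤ) = A3 + 4 := by exact_mod_cast hA3
  have e0' : (H1 (4 * h) n (full1 n h a) : ℤ) ≤
      (Module.finrank ℂ ((mk1 n h a).sol 1 p) : ℤ) := by exact_mod_cast e0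
  refine e0'.trans ?_
  obtain ⟨F, hF⟩ : ∃ F, F = Module.finrank ℂ ((mk1 n h a).sol 1 p) := ⟨_, rfl⟩
  obtain ⟨C, hC⟩ : ∃ C, C = ((mk1 n h a).ad 1).card := ⟨_, rfl⟩
  obtain ⟨P, hP⟩ : ∃ P, P = T * (T - 1) := ⟨_, rfl⟩
  rw [← hP] at hc e1
  rw [← hF, ← hC] at e1
  rw [← hC] at e2
  rw [← hF]
  zify at e1 e2
  rw [hh', hn']
  rw [hn'] at e1
  have hh2 : (4 : ℤ) * (h : ℤ) = A3 + 4 := by exact_mod_cast hA3
  rw [hh2] at e1
  nlinarith [e1, e2, hc]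

end Pool.Agent.KZ.AL
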