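import Pool.Agent.KZ.AL.DropG
import Pool.Agent.V7.ST.Bb

/-!
# KZ4, ALPHA, module DROP: plain triple points can be dropped

Special position: every triple point is `λ e_ρ + e_χ` for a pair of variables `ρ`, `χ`, the pairs of
different points are different.  The objects which share a coordinate (`pr`, `tr`) and the plain points
are distributed in four zones (rectangles of pairs).
-/

set_option autoImplicit false
set_option linter.unusedSectionVars false

namespace Pool.Agent.KZ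

open Finset MvPolynomial Pool.Agent.H51.TB Pool.Agent.H54.V7 Pool.Agent.V7.ST
open Pool.Agent.H18.Ex (tcr)
open Pool.Agent.V7 (msk Ex blk mem_Ex bb)

/-! ### Positions -/

section

variable {ν : Type} [Fintype ν] [DecidableEq ν] (β : ν → ℕ)

/-- The position of an object with the common variable `ρ` and the variables `χ x`. -/
def Drop.pos (ρ : ν) (χ : Fin 3 → ν) : ν × Fin 3 → ℂ := fun y =>
  (if y.1 = ρ then 1 else 0) + if y.1 = χ y.2 then 1 else 0

/-- The pair of blocks fits to the kind. -/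
def Drop.Fits (k : Kd) (ρ : ν) (χ : Fin 3 → ν) : Prop :=
  match k with
  | .ord _ I => β ρ ∉ I ∧ β (χ 0) ∉ I
  | .pr i I => β ρ = i ∧ β ρ ∉ I ∧ ∀ x, β (χ x) ≠ i ∧ β (χ x) ∉ I
  | .tr i I => β ρ = i ∧ β ρ ∉ I ∧ ∀ x, β (χ x) ≠ i ∧ β (χ x) ∉ I

theorem Drop.pt_pos (k : Kd) (ρ : ν) (χ : Fin 3 → ν) (h : Drop.Fits β k ρ χ) (x : Fin 3)
    (hx : mu k x = 3) : ∃ l : ℂ, l ≠ 0 ∧ ∀ s, pt β k x (Drop.pos ρ χ) s =
      l * (if s = ρ then 1 else 0) + if s = χ x then 1 else 0 := by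
  rcases k with ⟨μ, I⟩ | ⟨i, I⟩ | ⟨i, I⟩
  · obtain ⟨h1, h2⟩ := h
    have hx0 : x = 0 := by
      by_contra h
      simp only [mu] at hx
      rw [if_neg h] at hx
      exact absurd hx (by norm_num)
    subst hx0
    refine ⟨1, one_ne_zero, fun s => ?_⟩
    simp only [pt, msk, Drop.pos]
    by_cases hs : β s ∈ I
    · have e1 : ¬ s = ρ := by
        rintro rfl
        exact h1 hs
      have e2 : ¬ s = χ 0 := by
        rintro rfl
        exact h2 hs
      rw [if_pos hs, if_neg e1, if_neg e2]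
      ring
    · rw [if_neg hs]
      ring
  · obtain ⟨h1, h2, h3⟩ := h
    have hx2 : x ≠ 2 := by
      intro h
      simp only [mu] at hx
      rw [if_pos h] at hx
      exact absurd hx (by norm_num)
    have hxx : x = 0 ∨ x = 1 := by
      fin_cases x
      · exact Or.inl rfl
      · exact Or.inr rfl
      · exact absurd rfl hx2
    rcases hxx with hx0 | hx1
    · subst hx0
      refine ⟨1, one_ne_zero, fun s => ?_⟩
      simp only [pt, msk, Drop.pos]
      by_cases hs : β s ∈ I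
      · have e1 : ¬ s = ρ := by
          rintro rfl
          exact h2 hs
        have e2 : ¬ s = χ 0 := by
          rintro rfl
          exact (h3 0).2 hs
        rw [if_pos hs, if_neg e1, if_neg e2]
        ring
      · rw [if_neg hs, if_pos trivial]
        ring
    · subst hx1
      refine ⟨-1, by norm_num, fun s => ?_⟩
      simp only [pt, msk, Drop.pos]
      by_cases hs : β s ∈ I
      · have e1 : ¬ s = ρ := by
          rintro rfl
          exact h2 hs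
        have e2 : ¬ s = χ 1 := by
          rintro rfl
          exact (h3 1).2 hs
        rw [if_pos hs, if_neg e1, if_neg e2]
        ring
      · rw [if_neg hs, if_neg (by decide : ¬ ((1 : Fin 3) = 0))]
        by_cases hsi : β s = i
        · have e1 : ¬ s = χ 0 := by
            rintro rfl
            exact (h3 0).1 hsi
          have e2 : ¬ s = χ 1 := by
            rintro rfl
            exact (h3 1).1 hsi
          rw [if_pos hsi, if_neg e1, if_neg e2]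
          ring
        · have e1 : ¬ s = ρ := by
            rintro rfl
            exact hsi h1
          rw [if_neg hsi, if_neg e1]
          ring
  · obtain ⟨h1, h2, h3⟩ := h
    by_cases hx2 : x = 2
    · subst hx2
      refine ⟨-2, by norm_num, fun s => ?_⟩
      simp only [pt, msk, Drop.pos]
      by_cases hs : β s ∈ I
      · have e1 : ¬ s = ρ := by
          rintro rfl
          exact h2 hs
        have e2 : ¬ s = χ 2 := by
          rintro rfl
          exact (h3 2).2 hs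
        rw [if_pos hs, if_neg e1, if_neg e2]
        ring
      · rw [if_neg hs, if_pos trivial]
        by_cases hsi : β s = i
        · have e0 : ¬ s = χ 0 := by
            rintro rfl
            exact (h3 0).1 hsi
          have e1 : ¬ s = χ 1 := by
            rintro rfl
            exact (h3 1).1 hsi
          have e2 : ¬ s = χ 2 := by
            rintro rfl
            exact (h3 2).1 hsi
          rw [if_pos hsi, if_neg e0, if_neg e1, if_neg e2]
          ring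
        · have e1 : ¬ s = ρ := by
            rintro rfl
            exact hsi h1
          rw [if_neg hsi, if_neg e1]
          ring
    · refine ⟨1, one_ne_zero, fun s => ?_⟩
      simp only [pt, msk, Drop.pos]
      by_cases hs : β s ∈ I
      · have e1 : ¬ s = ρ := by
          rintro rfl
          exact h2 hs
        have e2 : ¬ s = χ x := by
          rintro rfl
          exact (h3 x).2 hs
        rw [if_pos hs, if_neg e1, if_neg e2]
        ring
      · rw [if_neg hs, if_neg hx2]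
        ring

end

/-! ### Zones -/

/-- A zone: `N` objects of the kinds `kO i`, `P` objects of the kind `kP`, the rows and the
columns. -/
structure Zone (n : ℕ) where
  N : ℕ
  P : ℕ
  kO : Fin N → Kd
  kP : Kd
  R : ℕ
  K : ℕ
  ρ : ℕ → Fin n
  χ : ℕ → Fin n

/-- The row of an object. -/
def Zone.ro {n : ℕ} (Z : Zone n) : Fin Z.N ⊕ Fin Z.P → ℕ
  | Sum.inl i => i.1 % Z.R
  | Sum.inr j => j.1 % Z.R

/-- The columns of an object. -/
def Zone.co {n : ℕ} (Z : Zone n) : Fin Z.N ⊕ Fin Z.P → Fin 3 → ℕ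
  | Sum.inl i, x => 3 * (i.1 / Z.R) + x.1
  | Sum.inr j, _ => 3 * (Z.N / Z.R + 1) + j.1 / Z.R

/-- The kind of an object. -/
def Zone.kd {n : ℕ} (Z : Zone n) : Fin Z.N ⊕ Fin Z.P → Kd := Sum.elim Z.kO fun _ => Z.kP

/-- The position of an object. -/
noncomputable def Zone.ps {n : ℕ} (Z : Zone n) (a : Fin Z.N ⊕ Fin Z.P) : Fin n × Fin 3 → ℂ :=
  Drop.pos (Z.ρ (Z.ro a)) fun x => Z.χ (Z.co a x)

/-- The triple points of a zone. -/
abbrev Zone.Pt {n : ℕ} (Z : Zone n) : Type :=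
  (Σ a : Fin Z.N ⊕ Fin Z.P, {x : Fin 3 // mu (Z.kd a) x = 3})

/-- Conditions for a zone. -/
structure Zone.Ok {n : ℕ} (Z : Zone n) (β : Fin n → ℕ) : Prop where
  R : 0 < Z.R
  sz : 3 * Z.N + 3 * Z.R + Z.P ≤ Z.R * Z.K
  fO : ∀ (i : Fin Z.N) (a : ℕ) (b : Fin 3 → ℕ), a < Z.R → (∀ x, b x < Z.K) → Drop.Fits β (Z.kO i) (Z.ρ a) fun x => Z.χ (b x)
  fP : ∀ (a : ℕ) (b : Fin 3 → ℕ), a < Z.R → (∀ x, b x < Z.K) → Drop.Fits β Z.kP (Z.ρ a) fun x => Z.χ (b x)
  P : ∃ μ I, Z.kP = .ord μ I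
  ne : ∀ a b, a < Z.R → b < Z.K → Z.ρ a ≠ Z.χ b

theorem Zone.ro_lt {n : ℕ} {Z : Zone n} {β : Fin n → ℕ} (h : Z.Ok β) (a : Fin Z.N ⊕ Fin Z.P) :
    Z.ro a < Z.R := by
  rcases a with i | j
  · exact Nat.mod_lt _ h.R
  · exact Nat.mod_lt _ h.R

theorem Zone.co_lt {n : ℕ} {Z : Zone n} {β : Fin n → ℕ} (h : Z.Ok β) (a : Fin Z.N ⊕ Fin Z.P)
    (x : Fin 3) : Z.co a x < Z.K := by
  have hR := h.R
  have h1 : 3 * (Z.N / Z.R + 1) * Z.R ≤ 3 * Z.N + 3 * Z.R := by
    have := Nat.div_mul_le_self Z.N Z.R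
    nlinarith
  have h2 := h.sz
  rcases a with i | j
  · show 3 * (i.1 / Z.R) + x.1 < Z.K
    have h3 : i.1 / Z.R ≤ Z.N / Z.R := Nat.div_le_div_right i.2.le
    have h4 : 3 * (Z.N / Z.R + 1) ≤ Z.K := by
      by_contra hcon
      push Not at hcon
      have h5 : Z.R * Z.K < Z.R * (3 * (Z.N / Z.R + 1)) := Nat.mul_lt_mul_of_pos_left hcon hR
      have h6 : Z.R * (3 * (Z.N / Z.R + 1)) = 3 * (Z.N / Z.R + 1) * Z.R := Nat.mul_comm _ _
      omega
    have := x.2
    omega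
  · show 3 * (Z.N / Z.R + 1) + j.1 / Z.R < Z.K
    by_contra hcon
    push Not at hcon
    have h3 : Z.R * Z.K ≤ Z.R * (3 * (Z.N / Z.R + 1) + j.1 / Z.R) := Nat.mul_le_mul_left _ hcon
    have h4 : Z.R * (3 * (Z.N / Z.R + 1) + j.1 / Z.R) =
        3 * (Z.N / Z.R + 1) * Z.R + j.1 / Z.R * Z.R := by ring
    have h5 := Nat.div_mul_le_self j.1 Z.R
    have := j.2
    omega

/-- Different triple points of a zone have different pairs. -/
theorem Zone.inj {n : ℕ} {Z : Zone n} {β : Fin n → ℕ} (h : Z.Ok β) (a b : Z.Pt)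
    (h1 : Z.ro a.1 = Z.ro b.1) (h2 : Z.co a.1 a.2.1 = Z.co b.1 b.2.1) : a = b := by
  have hR := h.R
  have key : ∀ k : Kd, (∃ μ I, k = .ord μ I) → ∀ x : {x : Fin 3 // mu k x = 3}, x.1 = 0 := by
    rintro _ ⟨μ, I, rfl⟩ x
    have h4 := x.2
    by_contra h6
    simp only [mu] at h4
    rw [if_neg h6] at h4
    exact absurd h4 (by norm_num)
  have hP : ∀ (j : Fin Z.P) (x : {x : Fin 3 // mu (Z.kd (Sum.inr j)) x = 3}), x.1 = 0 :=
    fun j x => key _ h.P x
  obtain ⟨a, x⟩ := a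
  obtain ⟨b, y⟩ := b
  have hx := x.1.2
  have hy := y.1.2
  rcases a with i | j <;> rcases b with i' | j'
  · have h3 : i.1 % Z.R = i'.1 % Z.R := h1
    have h4 : 3 * (i.1 / Z.R) + x.1.1 = 3 * (i'.1 / Z.R) + y.1.1 := h2
    have h5 : i.1 / Z.R = i'.1 / Z.R := by omega
    have h6 := Nat.div_add_mod i.1 Z.R
    have h7 := Nat.div_add_mod i'.1 Z.R
    rw [h5, h3, h7] at h6
    have h8 : i = i' := Fin.ext h6.symm
    subst h8
    have h9 : x = y := Subtype.ext (Fin.ext (by omega))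
    rw [h9]
  · exfalso
    have h4 : 3 * (i.1 / Z.R) + x.1.1 = 3 * (Z.N / Z.R + 1) + j'.1 / Z.R := h2
    have h5 : i.1 / Z.R ≤ Z.N / Z.R := Nat.div_le_div_right i.2.le
    generalize j'.1 / Z.R = g at h4
    omega
  · exfalso
    have h4 : 3 * (Z.N / Z.R + 1) + j.1 / Z.R = 3 * (i'.1 / Z.R) + y.1.1 := h2
    have h5 : i'.1 / Z.R ≤ Z.N / Z.R := Nat.div_le_div_right i'.2.le
    generalize j.1 / Z.R = g at h4
    omega
  · have h3 : j.1 % Z.R = j'.1 % Z.R := h1
    have h4 : 3 * (Z.N / Z.R + 1) + j.1 / Z.R = 3 * (Z.N / Z.R + 1) + j'.1 / Z.R := h2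
    have h5 : j.1 / Z.R = j'.1 / Z.R := by omega
    have h6 := Nat.div_add_mod j.1 Z.R
    have h7 := Nat.div_add_mod j'.1 Z.R
    rw [h5, h3, h7] at h6
    have h8 : j = j' := Fin.ext h6.symm
    subst h8
    have h9 : x = y := Subtype.ext ((hP j x).trans (hP j y).symm)
    rw [h9]

/-- The number of the triple points of the zone. -/
noncomputable def Zone.cnt {n : ℕ} (Z : Zone n) : ℕ := Fintype.card Z.Pt

/-- The general statement for zones. -/
theorem gd_zones {n : ℕ} (β : Fin n → ℕ) {j : ℕ} {ζ : Type} [Fintype ζ] [DecidableEq ζ]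
    (Z : ζ → Zone n)
    {κ' : Type} [Fintype κ'] (m' : κ' → Kd) (I : Finset ℕ) (hI : I ⊆ range j)
    (sel : ζ → Prop) [DecidablePred sel] (hok : ∀ z, sel z → (Z z).Ok β)
    (hdis : ∀ z z', sel z → sel z' → z ≠ z' → ∀ a b a' b', a < (Z z).R → b < (Z z).K →
      a' < (Z z').R → b' < (Z z').K → ¬ ((Z z).ρ a = (Z z').ρ a' ∧ (Z z).χ b = (Z z').χ b'))
    (hdis' : ∀ z z', sel z → sel z' → ∀ a b a' b', a < (Z z).R → b < (Z z).K →
      a' < (Z z').R → b' < (Z z').K → ¬ ((Z z).ρ a = (Z z').χ b' ∧ (Z z).χ b = (Z z').ρ a'))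
    (hinj : ∀ z, sel z → ∀ a b a' b', a < (Z z).R → b < (Z z).K → a' < (Z z).R → b' < (Z z).K →
      (Z z).ρ a = (Z z).ρ a' → (Z z).χ b = (Z z).χ b' → a = a' ∧ b = b')
    (hme : ∀ z, sel z → ∀ i ∈ I, ∀ a b, a < (Z z).R → b < (Z z).K →
      β ((Z z).ρ a) = i ∨ β ((Z z).χ b) = i) :
    (LS β j).gd (Sum.elim (fun x : (Σ z, Fin (Z z).N ⊕ Fin (Z z).P) => (Z x.1).kd x.2) m') +
      ∑ z ∈ univ.filter sel, (Z z).cnt ≤
      (LS β j).gd (ad (Sum.elim (fun x : (Σ z, Fin (Z z).N ⊕ Fin (Z z).P) => (Z x.1).kd x.2) m')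
        (.ord 3 I)) + (mset (fun i => univ.filter fun s => β s = i) univ I 2).card := by
  classical
  have hQ : ∑ z ∈ univ.filter sel, (Z z).cnt =
      Fintype.card (Σ z : {z // sel z}, (Z z.1).Pt) := by
    rw [Fintype.card_sigma]
    exact sum_subtype (p := sel) (univ.filter sel) (fun z => by simp) fun z => (Z z).cnt
  rw [hQ]
  refine gd_drop β (Sum.elim (fun x : (Σ z, Fin (Z z).N ⊕ Fin (Z z).P) => (Z x.1).kd x.2) m') I hI
    (fun a : (Σ z : {z // sel z}, (Z z.1).Pt) => (Sum.inl ⟨a.1.1, a.2.1⟩, a.2.2.1))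
    (fun a => a.2.2.2) (fun a => (Z a.1.1).ρ ((Z a.1.1).ro a.2.1))
    (fun a => (Z a.1.1).χ ((Z a.1.1).co a.2.1 a.2.2.1))
    (fun a => (hok a.1.1 a.1.2).ne _ _ (Zone.ro_lt (hok a.1.1 a.1.2) _)
      (Zone.co_lt (hok a.1.1 a.1.2) _ _))
    (fun a i hi => hme a.1.1 a.1.2 i hi _ _ (Zone.ro_lt (hok a.1.1 a.1.2) _)
      (Zone.co_lt (hok a.1.1 a.1.2) _ _))
    (Sum.elim (fun x => (Z x.1).ps x.2) 0) ?_ ?_
  · intro a a' haa
    have hfit : Drop.Fits β ((Z a.1.1).kd a.2.1) ((Z a.1.1).ρ ((Z a.1.1).ro a.2.1))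
        fun x => (Z a.1.1).χ ((Z a.1.1).co a.2.1 x) := by
      rcases a.2.1 with i | i
      · exact (hok a.1.1 a.1.2).fO _ _ _ (Zone.ro_lt (hok a.1.1 a.1.2) _)
          fun x => Zone.co_lt (hok a.1.1 a.1.2) _ x
      · exact (hok a.1.1 a.1.2).fP _ _ (Zone.ro_lt (hok a.1.1 a.1.2) _)
          fun x => Zone.co_lt (hok a.1.1 a.1.2) _ x
    obtain ⟨l, hl, hp⟩ := Drop.pt_pos β _ _ _ hfit a.2.2.1 a.2.2.2
    show pt β ((Z a.1.1).kd a.2.1) a.2.2.1 ((Z a.1.1).ps a.2.1) _ *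
      pt β ((Z a.1.1).kd a.2.1) a.2.2.1 ((Z a.1.1).ps a.2.1) _ = 0
    unfold Zone.ps
    rw [hp, hp]
    have ha := hok a.1.1 a.1.2
    have ha' := hok a'.1.1 a'.1.2
    have hne := ha'.ne _ _ (Zone.ro_lt ha' a'.2.1) (Zone.co_lt ha' a'.2.1 a'.2.2.1)
    by_contra hcon
    obtain ⟨hc1, hc2⟩ := mul_ne_zero_iff.1 hcon
    have hd1 : (Z a'.1.1).ρ ((Z a'.1.1).ro a'.2.1) = (Z a.1.1).ρ ((Z a.1.1).ro a.2.1) ∨
        (Z a'.1.1).ρ ((Z a'.1.1).ro a'.2.1) = (Z a.1.1).χ ((Z a.1.1).co a.2.1 a.2.2.1) := by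
      by_contra h
      push Not at h
      rw [if_neg h.1, if_neg h.2, mul_zero, add_zero] at hc1
      exact hc1 rfl
    have hd2 : (Z a'.1.1).χ ((Z a'.1.1).co a'.2.1 a'.2.2.1) = (Z a.1.1).ρ ((Z a.1.1).ro a.2.1) ∨
        (Z a'.1.1).χ ((Z a'.1.1).co a'.2.1 a'.2.2.1) =
          (Z a.1.1).χ ((Z a.1.1).co a.2.1 a.2.2.1) := by
      by_contra h
      push Not at h
      rw [if_neg h.1, if_neg h.2, mul_zero, add_zero] at hc2
      exact hc2 rfl
    rcases hd1 with hd1 | hd1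
    · rcases hd2 with hd2 | hd2
      · exact hne (hd1.trans hd2.symm)
      · by_cases hz : a'.1 = a.1
        · obtain ⟨z, b⟩ := a
          obtain ⟨z', b'⟩ := a'
          have hz' : z' = z := hz
          subst hz'
          obtain ⟨h3, h4⟩ := hinj z'.1 z'.2 _ _ _ _ (Zone.ro_lt ha' b'.1)
            (Zone.co_lt ha' b'.1 b'.2.1) (Zone.ro_lt ha b.1) (Zone.co_lt ha b.1 b.2.1) hd1 hd2
          exact haa (by rw [Zone.inj ha b' b h3 h4])
        · exact hdis a'.1.1 a.1.1 a'.1.2 a.1.2 (fun h => hz (Subtype.ext h)) _ _ _ _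
            (Zone.ro_lt ha' a'.2.1) (Zone.co_lt ha' a'.2.1 a'.2.2.1) (Zone.ro_lt ha a.2.1)
            (Zone.co_lt ha a.2.1 a.2.2.1) ⟨hd1, hd2⟩
    · rcases hd2 with hd2 | hd2
      · exact hdis' a'.1.1 a.1.1 a'.1.2 a.1.2 _ _ _ _
          (Zone.ro_lt ha' a'.2.1) (Zone.co_lt ha' a'.2.1 a'.2.2.1) (Zone.ro_lt ha a.2.1)
          (Zone.co_lt ha a.2.1 a.2.2.1) ⟨hd1, hd2⟩
      · exact hne (hd1.trans hd2.symm)
  · intro a
    have hfit : Drop.Fits β ((Z a.1.1).kd a.2.1) ((Z a.1.1).ρ ((Z a.1.1).ro a.2.1))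
        fun x => (Z a.1.1).χ ((Z a.1.1).co a.2.1 x) := by
      rcases a.2.1 with i | i
      · exact (hok a.1.1 a.1.2).fO _ _ _ (Zone.ro_lt (hok a.1.1 a.1.2) _)
          fun x => Zone.co_lt (hok a.1.1 a.1.2) _ x
      · exact (hok a.1.1 a.1.2).fP _ _ (Zone.ro_lt (hok a.1.1 a.1.2) _)
          fun x => Zone.co_lt (hok a.1.1 a.1.2) _ x
    obtain ⟨l, hl, hp⟩ := Drop.pt_pos β _ _ _ hfit a.2.2.1 a.2.2.2
    show pt β ((Z a.1.1).kd a.2.1) a.2.2.1 ((Z a.1.1).ps a.2.1) _ *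
      pt β ((Z a.1.1).kd a.2.1) a.2.2.1 ((Z a.1.1).ps a.2.1) _ ≠ 0
    unfold Zone.ps
    rw [hp, hp]
    have ha := hok a.1.1 a.1.2
    have hne := ha.ne _ _ (Zone.ro_lt ha a.2.1) (Zone.co_lt ha a.2.1 a.2.2.1)
    rw [if_pos rfl, if_neg hne, if_neg hne.symm, if_pos rfl]
    simpa using hl

end Pool.Agent.KZ
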