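import Pool.Agent.KZ.Defs
import Pool.Agent.H54.V7.Size

/-!
# KZ4, ALPHA, module DROP: one plain triple point less, general form

The conditions `F(p^2 x y) = 0` of a triple point `p` on a space of quartics which has triple points
`q` satisfy the relations `F(p^2 q^2) = 0`.  So the number of independent conditions of `p` is at most
the number of quadratic monomials (which meet the blocks of `p`) minus the number of points `q` with
linearly independent squares.
-/

set_option autoImplicit false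
set_option linter.unusedSectionVars false

namespace Pool.Agent.KZ

open Finset MvPolynomial Pool.Agent.H51.TB Pool.Agent.H54.V7 Pool.Agent.V7.ST
open Pool.Agent.H18.Ex (tcr)
open Pool.Agent.V7 (msk Ex blk mem_Ex)

/-- Symmetry of the polar form of a quartic monomial. -/
theorem Drop.sym_one {ν : Type} [Fintype ν] [DecidableEq ν] {R : Type} [CommRing R]
    (p q : ν → R) (e : ν → ℕ) (he : ∑ s, e s = 4) :
    ∑ b ∈ piAntidiag (univ : Finset ν) 2, tcr q b 0 * tcr p e b =
      ∑ b ∈ piAntidiag (univ : Finset ν) 2, tcr p b 0 * tcr q e b := by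
  classical
  have key : ∀ p q : ν → R, ∑ b ∈ piAntidiag (univ : Finset ν) 2, tcr q b 0 * tcr p e b =
      ∑ b ∈ (piAntidiag (univ : Finset ν) 2).filter (fun b => ∀ i, b i ≤ e i),
        tcr q b 0 * tcr p e b := by
    intro p q
    rw [sum_filter]
    refine sum_congr rfl fun b _ => ?_
    split_ifs with h
    · rfl
    · rw [tcr_eq_zero _ _ _ h, mul_zero]
  rw [key p q, key q p]
  have hm : ∀ b ∈ (piAntidiag (univ : Finset ν) 2).filter (fun b => ∀ i, b i ≤ e i),
      (fun i => e i - b i) ∈ (piAntidiag (univ : Finset ν) 2).filter (fun b => ∀ i, b i ≤ e i) := by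
    intro b hb
    rw [mem_filter, mem_piAntidiag] at hb ⊢
    refine ⟨⟨?_, fun i _ => mem_univ i⟩, fun i => Nat.sub_le _ _⟩
    have h1 : ∑ i, (e i - b i) + ∑ i, b i = ∑ i, e i := by
      rw [← sum_add_distrib]
      exact sum_congr rfl fun i _ => by have := hb.2 i; omega
    have h2 : ∑ i, b i = 2 := hb.1.1
    have h3 : ∑ i, (e i - b i) = 2 := by omega
    exact h3
  refine sum_nbij' (fun b i => e i - b i) (fun b i => e i - b i) hm hm ?_ ?_ ?_
  · intro b hb
    rw [mem_filter] at hb
    funext i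
    have := hb.2 i
    show e i - (e i - b i) = b i
    omega
  · intro b hb
    rw [mem_filter] at hb
    funext i
    have := hb.2 i
    show e i - (e i - b i) = b i
    omega
  · intro b hb
    rw [mem_filter] at hb
    unfold tcr
    rw [← prod_mul_distrib, ← prod_mul_distrib]
    refine prod_congr rfl fun i _ => ?_
    have h1 := hb.2 i
    have h2 : e i - (e i - b i) = b i := by omega
    show _ = ((e i - b i).choose 0 : R) * p i ^ (e i - b i - 0) *
      ((e i).choose (e i - b i) * q i ^ (e i - (e i - b i)))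
    rw [h2, Nat.choose_symm h1, Pi.zero_apply, Nat.choose_zero_right, Nat.choose_zero_right,
      Nat.sub_zero, Nat.sub_zero]
    ring

/-- Symmetry of the polar form of a quartic form. -/
theorem Drop.sym {ν : Type} [Fintype ν] [DecidableEq ν] {E : Type} [Fintype E] (ex : E → ν → ℕ)
    (he : ∀ e, ∑ s, ex e s = 4) (f : E → ℂ) (p q : ν → ℂ) :
    ∑ b ∈ piAntidiag (univ : Finset ν) 2, tcr q b 0 * TC ex f p b =
      ∑ b ∈ piAntidiag (univ : Finset ν) 2, tcr p b 0 * TC ex f q b := by
  unfold TC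
  simp only [mul_sum]
  rw [sum_comm, sum_comm (s := piAntidiag (univ : Finset ν) 2)]
  refine sum_congr rfl fun e _ => ?_
  have h1 := Drop.sym_one p q (ex e) (he e)
  calc ∑ b ∈ piAntidiag (univ : Finset ν) 2, tcr q b 0 * (f e * tcr p (ex e) b) =
      f e * ∑ b ∈ piAntidiag (univ : Finset ν) 2, tcr q b 0 * tcr p (ex e) b := by
        rw [mul_sum]
        exact sum_congr rfl fun b _ => by ring
    _ = f e * ∑ b ∈ piAntidiag (univ : Finset ν) 2, tcr p b 0 * tcr q (ex e) b := by rw [h1]
    _ = _ := by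
        rw [mul_sum]
        exact sum_congr rfl fun b _ => by ring

/-- A count: linear conditions with independent relations. -/
theorem Drop.lin {E B Q : Type} [Fintype E] [Fintype B] [DecidableEq B] [Fintype Q]
    (V V' : Submodule ℂ (E → ℂ)) (Φ : (E → ℂ) →ₗ[ℂ] (B → ℂ))
    (h : ∀ f ∈ V, Φ f = 0 → f ∈ V') (w : Q → B → ℂ) (hw : LinearIndependent ℂ w)
    (hk : ∀ f ∈ V, ∀ a, ∑ b, w a b * Φ f b = 0) :
    Module.finrank ℂ V + Fintype.card Q ≤ Module.finrank ℂ V' + Fintype.card B := by
  classical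
  let Ψ : V →ₗ[ℂ] (B → ℂ) := Φ ∘ₗ V.subtype
  have h1 := LinearMap.finrank_range_add_finrank_ker Ψ
  have h2 : Module.finrank ℂ (LinearMap.ker Ψ) ≤ Module.finrank ℂ V' := by
    refine LinearMap.finrank_le_finrank_of_injective
      (f := (V.subtype ∘ₗ (LinearMap.ker Ψ).subtype).codRestrict V' fun x =>
        h x.1.1 x.1.2 (LinearMap.mem_ker.mp x.2)) ?_
    intro x y hxy
    have h3 := congrArg Subtype.val hxy
    exact Subtype.ext (Subtype.ext h3)
  have h3 : LinearMap.range Ψ ≤ LinearMap.ker (Matrix.of w).mulVecLin := by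
    rintro _ ⟨x, rfl⟩
    rw [LinearMap.mem_ker]
    funext a
    exact hk x.1 x.2 a
  have h4 := Submodule.finrank_mono h3
  have h5 := LinearMap.finrank_range_add_finrank_ker (Matrix.of w).mulVecLin
  rw [Module.finrank_fintype_fun_eq_card] at h5
  have h6 : Module.finrank ℂ (LinearMap.range (Matrix.of w).mulVecLin) = Fintype.card Q :=
    LinearIndependent.rank_matrix (M := Matrix.of w) hw
  omega

section

variable {ν : Type} [Fintype ν] [DecidableEq ν] (β : ν → ℕ)

/-- The coordinates of a generic point as polynomials. -/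
theorem Drop.eval_pt (k : Kd) (x : Fin 3) (q : ν × Fin 3 → ℂ) (s : ν) :
    eval q (pt β k x (fun s => (X s : MvPolynomial (ν × Fin 3) ℂ)) s) = pt β k x q s := by
  rcases k with ⟨μ, I⟩ | ⟨i, I⟩ | ⟨i, I⟩
  · simp only [pt, msk]
    split_ifs
    · rw [map_zero]
    · rw [eval_X]
  · simp only [pt, msk]
    split_ifs
    · rw [map_zero]
    · rw [eval_X]
    · rw [map_neg, eval_X]
    · rw [eval_X]
  · simp only [pt, msk]
    split_ifs
    · rw [map_zero]
    · rw [map_neg, map_add, eval_X, eval_X]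
    · rw [eval_X]
    · rw [eval_X]

theorem Drop.eval_tcr0 (k : Kd) (x : Fin 3) (q : ν × Fin 3 → ℂ) (b : ν → ℕ) :
    eval q (tcr (pt β k x fun s => (X s : MvPolynomial (ν × Fin 3) ℂ)) b 0) =
      tcr (pt β k x q) b 0 :=
  eval_tcr_pt β k x q b 0

/-- A coordinate of a square. -/
theorem Drop.tcr_pair {R : Type} [CommRing R] (p : ν → R) (r s : ν) (h : r ≠ s) :
    tcr p (Pi.single r 1 + Pi.single s 1) 0 = p r * p s := by
  unfold tcr
  rw [← mul_prod_erase univ _ (mem_univ r), ← mul_prod_erase (univ.erase r) _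
    (mem_erase.2 ⟨h.symm, mem_univ s⟩)]
  rw [prod_eq_one]
  · simp only [Pi.add_apply, Pi.single_eq_same, Pi.single_eq_of_ne h, Pi.single_eq_of_ne h.symm,
      Pi.zero_apply, Nat.choose_zero_right, Nat.cast_one, one_mul, Nat.sub_zero, add_zero, zero_add,
      pow_one, mul_one]
  · intro i hi
    rw [mem_erase, mem_erase] at hi
    simp only [Pi.add_apply, Pi.single_eq_of_ne hi.1, Pi.single_eq_of_ne hi.2.1,
      Pi.zero_apply, Nat.choose_zero_right, Nat.cast_one, one_mul, Nat.sub_zero, add_zero,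
      pow_zero]

/-- One plain triple point less: general form.  `Q` are triple points of the configuration, the
square of `a : Q` has the coordinate `x_(r a) x_(s a)`, and at the position `p₀` no other square of
`Q` has it. -/
theorem gd_drop {j : ℕ} {κ : Type} [Fintype κ] (m : κ → Kd) (I : Finset ℕ) (hI : I ⊆ range j)
    {Q : Type} [Fintype Q] (q : Q → κ × Fin 3) (hq : ∀ a, mu (m (q a).1) (q a).2 = 3)
    (r s : Q → ν) (hrs : ∀ a, r a ≠ s a) (hrI : ∀ a, ∀ i ∈ I, β (r a) = i ∨ β (s a) = i)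
    (p₀ : κ → ν × Fin 3 → ℂ)
    (h0 : ∀ a a', a ≠ a' → pt β (m (q a).1) (q a).2 (p₀ (q a).1) (r a') *
      pt β (m (q a).1) (q a).2 (p₀ (q a).1) (s a') = 0)
    (h1 : ∀ a, pt β (m (q a).1) (q a).2 (p₀ (q a).1) (r a) *
      pt β (m (q a).1) (q a).2 (p₀ (q a).1) (s a) ≠ 0) :
    (LS β j).gd m + Fintype.card Q ≤ (LS β j).gd (ad m (.ord 3 I)) +
      (mset (fun i => univ.filter fun s => β s = i) univ I 2).card := by
  classical
  set bl : ℕ → Finset ν := fun i => univ.filter fun s => β s = i with hbl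
  set B := mset bl univ I 2 with hB
  let w : (κ → ν × Fin 3 → ℂ) → Q → {b // b ∈ B} → ℂ := fun P a b =>
    tcr (pt β (m (q a).1) (q a).2 (P (q a).1)) b.1 0
  have hcol : ∀ a, (Pi.single (r a) 1 + Pi.single (s a) 1 : ν → ℕ) ∈ B := by
    intro a
    rw [hB, mem_mset]
    refine ⟨⟨?_, fun x _ => mem_univ x⟩, fun i hi hx => ?_⟩
    · simp [sum_add_distrib]
    · rcases hrI a i hi with h | h
      · have := hx (r a) (by rw [hbl]; exact mem_filter.2 ⟨mem_univ _, h⟩)
        simp at this
      · have := hx (s a) (by rw [hbl]; exact mem_filter.2 ⟨mem_univ _, h⟩)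
        simp at this
  -- the squares are independent at general positions
  have hind : Gn κ (ν × Fin 3) fun P => LinearIndependent ℂ (w P) := by
    let M : Matrix Q Q (MvPolynomial (κ × (ν × Fin 3)) ℂ) := Matrix.of fun a a' =>
      rename (fun x => ((q a).1, x))
        (tcr (pt β (m (q a).1) (q a).2 fun s => (X s : MvPolynomial (ν × Fin 3) ℂ))
          (Pi.single (r a') 1 + Pi.single (s a') 1) 0)
    have hM : ∀ P : κ → ν × Fin 3 → ℂ, eval (fun x => P x.1 x.2) M.det =
        (Matrix.of fun a a' => w P a ⟨_, hcol a'⟩).det := by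
      intro P
      rw [RingHom.map_det]
      congr 1
      ext a a'
      rw [RingHom.mapMatrix_apply, Matrix.map_apply]
      simp only [M, Matrix.of_apply]
      rw [eval_rename]
      exact Drop.eval_tcr0 β _ _ _ _
    refine ⟨M.det, ?_, fun P hP => ?_⟩
    · intro hz
      have h2 := hM p₀
      rw [hz, map_zero] at h2
      have h3 : (Matrix.of fun a a' => w p₀ a ⟨_, hcol a'⟩) = Matrix.diagonal fun a =>
          pt β (m (q a).1) (q a).2 (p₀ (q a).1) (r a) *
            pt β (m (q a).1) (q a).2 (p₀ (q a).1) (s a) := by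
        ext a a'
        rw [Matrix.of_apply, Matrix.diagonal_apply]
        show tcr _ (Pi.single (r a') 1 + Pi.single (s a') 1) 0 = _
        rw [Drop.tcr_pair _ _ _ (hrs a')]
        split_ifs with h
        · rw [h]
        · exact h0 a a' h
      rw [h3, Matrix.det_diagonal] at h2
      exact (prod_ne_zero_iff.2 fun a _ => h1 a) h2.symm
    · rw [hM] at hP
      have h2 : LinearIndependent ℂ (Matrix.of fun a a' => w P a ⟨_, hcol a'⟩).row := by
        rw [Matrix.linearIndependent_rows_iff_isUnit, Matrix.isUnit_iff_isUnit_det]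
        exact isUnit_iff_ne_zero.2 hP
      have h3 : (Matrix.of fun a a' => w P a ⟨_, hcol a'⟩).row =
          (LinearMap.funLeft ℂ ℂ fun a' : Q => (⟨_, hcol a'⟩ : {b // b ∈ B})) ∘ w P := rfl
      rw [h3] at h2
      exact LinearIndependent.of_comp _ h2
  obtain ⟨P, hP1, hP2⟩ := ((gn_gd (LS β j) (ad m (.ord 3 I))).and (hind.comap
    (fun i : κ => (Sum.inl i : κ ⊕ Unit)) Sum.inl_injective)).exists
  have e : P = Sum.elim (fun i => P (Sum.inl i)) fun _ : Unit => P (Sum.inr ()) := by
    funext x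
    rcases x with i | i <;> rfl
  set P₀ : κ → ν × Fin 3 → ℂ := fun i => P (Sum.inl i) with hP₀
  set p : ν → ℂ := pt β (.ord 3 I) 0 (P (Sum.inr ())) with hp
  have hex : ∀ e : {a // a ∈ Ex β 4 j}, ∑ s, e.1 s = 4 := fun e => (mem_Ex.1 e.2).1
  have hmiss : ∀ i ∈ I, ∀ e : {a // a ∈ Ex β 4 j}, ¬ ∀ x ∈ bl i, e.1 x = 0 := by
    intro i hi e h
    obtain ⟨s, hs, hs'⟩ := (mem_Ex.1 e.2).2 i (mem_range.1 (hI hi))
    exact hs' (h s (by rw [hbl]; exact mem_filter.2 ⟨mem_univ _, hs⟩))
  have hpz : ∀ i ∈ I, ∀ x ∈ bl i, p x = 0 := by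
    intro i hi x hx
    rw [hbl] at hx
    have hx' : β x = i := (mem_filter.1 hx).2
    rw [hp]
    simp only [pt, msk]
    rw [if_pos (by rw [hx']; exact hi)]
  let Φ : ({a // a ∈ Ex β 4 j} → ℂ) →ₗ[ℂ] ({b // b ∈ B} → ℂ) :=
    { toFun := fun f b => TC (fun e : {a // a ∈ Ex β 4 j} => e.1) f p b.1
      map_add' := fun f g => by
        funext b
        unfold TC
        simp only [Pi.add_apply, add_mul, sum_add_distrib]
      map_smul' := fun c f => by
        funext b
        unfold TC
        simp only [Pi.smul_apply, smul_eq_mul, RingHom.id_apply, mul_sum, mul_assoc] }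
  have h2 := Drop.lin ((LS β j).V m P₀) ((LS β j).V (ad m (.ord 3 I)) P) Φ (by
    intro f hf hf0
    rw [e]
    show f ∈ (LS β j).V (Sum.elim m fun _ => .ord 3 I) _
    rw [V_elim, Submodule.mem_inf]
    refine ⟨hf, ?_⟩
    rw [mem_LSA]
    intro _ x
    by_cases hx : x = 0
    · subst hx
      refine fat_of_mset _ 4 3 (by norm_num) (by norm_num) hex bl I hmiss _ hpz f fun b hb => ?_
      exact congrFun hf0 ⟨b, hb⟩
    · have h3 : mu (.ord 3 I) x = 0 := by
        simp only [mu]
        rw [if_neg hx]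
      rw [h3]
      intro b hb
      exact absurd hb (Nat.not_lt_zero _)) (w P₀) hP2 (by
    intro f hf a
    have h3 := (mem_LSA β (Ex β 4 j) m P₀ f).1 hf (q a).1 (q a).2
    rw [hq a] at h3
    have h4 := Drop.sym (fun e : {a // a ∈ Ex β 4 j} => e.1) hex f p
      (pt β (m (q a).1) (q a).2 (P₀ (q a).1))
    rw [sum_eq_zero (s := piAntidiag univ 2) (f := fun b => tcr p b 0 *
      TC (fun e : {a // a ∈ Ex β 4 j} => e.1) f (pt β (m (q a).1) (q a).2 (P₀ (q a).1)) b)] at h4
    · rw [← h4]
      show ∑ b : {b // b ∈ B}, tcr (pt β (m (q a).1) (q a).2 (P₀ (q a).1)) b.1 0 *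
        TC (fun e : {a // a ∈ Ex β 4 j} => e.1) f p b.1 = _
      rw [sum_coe_sort B fun b => tcr (pt β (m (q a).1) (q a).2 (P₀ (q a).1)) b 0 *
        TC (fun e : {a // a ∈ Ex β 4 j} => e.1) f p b]
      refine sum_subset (filter_subset _ _) fun b hb hbB => ?_
      have h5 : ∃ i ∈ I, ∀ x ∈ bl i, b x = 0 := by
        by_contra hcon
        push Not at hcon
        refine hbB (mem_filter.2 ⟨hb, fun i hi hx => ?_⟩)
        obtain ⟨x, hx1, hx2⟩ := hcon i hi
        exact hx2 (hx x hx1)
      obtain ⟨i, hi, h5⟩ := h5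
      rw [TC_miss _ (bl i) (hmiss i hi) f p (hpz i hi) b h5, mul_zero]
    · intro b hb
      rw [mem_piAntidiag] at hb
      have h5 : TC (fun e : {a // a ∈ Ex β 4 j} => e.1) f
          (pt β (m (q a).1) (q a).2 (P₀ (q a).1)) b = 0 := h3 b (by rw [hb.1]; norm_num)
      show _ * TC _ f _ b = 0
      rw [h5, mul_zero])
  rw [hP1, Fintype.card_coe] at h2
  have h3 := gd_le (LS β j) m P₀
  omega

end

end Pool.Agent.KZ
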