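import Pool.Agent.KZ.AL.Drop

/-!
# KZ4, ALPHA, module DROP: the levels `1` and `2`

Exactness is inherited by the configurations with fewer plain triple points.
-/

set_option autoImplicit false
set_option linter.unusedSectionVars false

namespace Pool.Agent.KZ

open Finset MvPolynomial Pool.Agent.H51.TB Pool.Agent.H54.V7 Pool.Agent.V7.ST
open Pool.Agent.H18.Ex (tcr)
open Pool.Agent.V7 (msk Ex blk mem_Ex bb)

/-! ### Multisets and numbers -/

theorem map_eq_sum {κ T : Type} [Fintype κ] (m : κ → T) :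
    (univ : Finset κ).val.map m = ∑ a, ({m a} : Multiset T) := by
  have h := Multiset.sum_map_singleton ((univ : Finset κ).val.map m)
  rw [Multiset.map_map] at h
  exact h.symm

/-- The number of triple points of an object. -/
def wtr (k : Kd) : ℕ := Fintype.card {x : Fin 3 // mu k x = 3}

theorem wtr_ord (I : Finset ℕ) : wtr (.ord 3 I) = 1 := rfl

theorem wtr_pr (i : ℕ) (I : Finset ℕ) : wtr (.pr i I) = 2 := rfl

theorem wtr_tr (i : ℕ) (I : Finset ℕ) : wtr (.tr i I) = 3 := rfl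

/-! ### Rectangular zones -/

/-- The variable number `x`. -/
def vr {n : ℕ} (hn : 0 < n) (x : ℕ) : Fin n := ⟨x % n, Nat.mod_lt _ hn⟩

theorem vr_val {n : ℕ} (hn : 0 < n) {x : ℕ} (h : x < n) : (vr hn x).1 = x := Nat.mod_eq_of_lt h

/-- A zone of pairs of variables in a rectangle. -/
def zn {n : ℕ} (hn : 0 < n) (p q P : ℕ) (A B C : Kd) (R K r₀ c₀ : ℕ) : Zone n where
  N := p + q
  P := P
  kO := fun i => if i.1 < p then A else B
  kP := C
  R := R
  K := K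
  ρ := fun x => vr hn (r₀ + x)
  χ := fun x => vr hn (c₀ + x)

section

variable {n : ℕ} (hn : 0 < n) (p q P : ℕ) (A B C : Kd) (R K r₀ c₀ : ℕ)

theorem zn_map : (univ : Finset (Fin (zn hn p q P A B C R K r₀ c₀).N ⊕
      Fin (zn hn p q P A B C R K r₀ c₀).P)).val.map (zn hn p q P A B C R K r₀ c₀).kd =
    Multiset.replicate p A + Multiset.replicate q B + Multiset.replicate P C := by
  unfold Zone.kd
  rw [map_elim]
  show (univ : Finset (Fin (p + q))).val.map (fun i : Fin (p + q) => if i.1 < p then A else B) +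
    (univ : Finset (Fin P)).val.map (fun _ => C) = _
  rw [Pool.Agent.V7.ST.map_const, Fintype.card_fin, map_eq_sum]
  have h1 : ∑ i : Fin (p + q), ({if i.1 < p then A else B} : Multiset Kd) =
      Multiset.replicate p A + Multiset.replicate q B := by
    rw [Fin.sum_univ_add]
    have h2 : ∀ i : Fin p, ({if (Fin.castAdd q i).1 < p then A else B} : Multiset Kd) = {A} := by
      intro i
      rw [if_pos (show (Fin.castAdd q i).1 < p from i.2)]
    have h3 : ∀ i : Fin q, ({if (Fin.natAdd p i).1 < p then A else B} : Multiset Kd) = {B} := by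
      intro i
      rw [if_neg (show ¬ (Fin.natAdd p i).1 < p from by simp)]
    rw [sum_congr rfl fun i _ => h2 i, sum_congr rfl fun i _ => h3 i]
    simp [Multiset.nsmul_singleton]
  rw [← h1]

theorem zn_cnt : (zn hn p q P A B C R K r₀ c₀).cnt = p * wtr A + q * wtr B + P * wtr C := by
  unfold Zone.cnt Zone.Pt
  rw [Fintype.card_sigma, Fintype.sum_sum_type]
  have h1 : ∑ i : Fin (p + q), wtr (if i.1 < p then A else B) = p * wtr A + q * wtr B := by
    rw [Fin.sum_univ_add]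
    have h2 : ∀ i : Fin p, wtr (if (Fin.castAdd q i).1 < p then A else B) = wtr A := by
      intro i
      rw [if_pos (show (Fin.castAdd q i).1 < p from i.2)]
    have h3 : ∀ i : Fin q, wtr (if (Fin.natAdd p i).1 < p then A else B) = wtr B := by
      intro i
      rw [if_neg (show ¬ (Fin.natAdd p i).1 < p from by simp)]
    rw [sum_congr rfl fun i _ => h2 i, sum_congr rfl fun i _ => h3 i]
    simp
  have h4 : ∑ _j : Fin P, wtr C = P * wtr C := by simp
  rw [← h1, ← h4]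
  rfl

theorem zn_ok {c : ℕ} (hR : 0 < R) (hsz : 3 * (p + q) + 3 * R + P ≤ R * K) (hr : r₀ + R ≤ n)
    (hc : c₀ + K ≤ n) (hd : r₀ + R ≤ c₀ ∨ c₀ + K ≤ r₀) (hC : ∃ μ I, C = .ord μ I)
    (hf : ∀ k : Kd, k = A ∨ k = B ∨ k = C → ∀ (ρ : Fin n) (χ : Fin 3 → Fin n),
      r₀ ≤ ρ.1 → ρ.1 < r₀ + R → (∀ x, c₀ ≤ (χ x).1 ∧ (χ x).1 < c₀ + K) →
      Drop.Fits (blk c n) k ρ χ) :
    (zn hn p q P A B C R K r₀ c₀).Ok (blk c n) where
  R := hR
  sz := hsz
  fO := by
    intro i a b ha hb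
    have ha' : a < R := ha
    have hb' : ∀ x, b x < K := hb
    show Drop.Fits (blk c n) (if i.1 < p then A else B) (vr hn (r₀ + a))
      fun x => vr hn (c₀ + b x)
    refine hf _ ?_ _ _ ?_ ?_ ?_
    · split_ifs
      · exact Or.inl rfl
      · exact Or.inr (Or.inl rfl)
    · rw [vr_val hn (by omega)]
      omega
    · rw [vr_val hn (by omega)]
      omega
    · intro x
      have := hb' x
      rw [vr_val hn (by omega)]
      omega
  fP := by
    intro a b ha hb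
    have ha' : a < R := ha
    have hb' : ∀ x, b x < K := hb
    show Drop.Fits (blk c n) C (vr hn (r₀ + a)) fun x => vr hn (c₀ + b x)
    refine hf _ (Or.inr (Or.inr rfl)) _ _ ?_ ?_ ?_
    · rw [vr_val hn (by omega)]
      omega
    · rw [vr_val hn (by omega)]
      omega
    · intro x
      have := hb' x
      rw [vr_val hn (by omega)]
      omega
  P := hC
  ne := by
    intro a b ha hb h
    have ha' : a < R := ha
    have hb' : b < K := hb
    have h1 : (vr hn (r₀ + a)).1 = (vr hn (c₀ + b)).1 := congrArg Fin.val h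
    rw [vr_val hn (by omega), vr_val hn (by omega)] at h1
    omega

end

/-- The statement for rectangles. -/
theorem gd_rect {c n : ℕ} (hn : 0 < n) {j : ℕ} {ζ : Type} [Fintype ζ] [DecidableEq ζ]
    (p q P : ζ → ℕ) (A B C : ζ → Kd) (R K r₀ c₀ : ζ → ℕ)
    (s : Multiset Kd) (I : Finset ℕ) (hI : I ⊆ range j)
    (sel : ζ → Prop) [DecidablePred sel] (hR : ∀ z, sel z → 0 < R z)
    (hsz : ∀ z, sel z → 3 * (p z + q z) + 3 * R z + P z ≤ R z * K z)
    (hr : ∀ z, sel z → r₀ z + R z ≤ n) (hc : ∀ z, sel z → c₀ z + K z ≤ n)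
    (hd : ∀ z, sel z → r₀ z + R z ≤ c₀ z ∨ c₀ z + K z ≤ r₀ z)
    (hC : ∀ z, sel z → ∃ μ I, C z = .ord μ I)
    (hf : ∀ z, sel z → ∀ k : Kd, k = A z ∨ k = B z ∨ k = C z → ∀ (ρ : Fin n) (χ : Fin 3 → Fin n),
      r₀ z ≤ ρ.1 → ρ.1 < r₀ z + R z → (∀ x, c₀ z ≤ (χ x).1 ∧ (χ x).1 < c₀ z + K z) →
      Drop.Fits (blk c n) k ρ χ)
    (h1 : ∀ z z', sel z → sel z' → z ≠ z' → r₀ z + R z ≤ r₀ z' ∨ r₀ z' + R z' ≤ r₀ z ∨
      c₀ z + K z ≤ c₀ z' ∨ c₀ z' + K z' ≤ c₀ z)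
    (h2 : ∀ z z', sel z → sel z' → r₀ z + R z ≤ c₀ z' ∨ c₀ z' + K z' ≤ r₀ z ∨
      c₀ z + K z ≤ r₀ z' ∨ r₀ z' + R z' ≤ c₀ z)
    (hme : ∀ z, sel z → ∀ i ∈ I, (∀ x, r₀ z ≤ x → x < r₀ z + R z → x / c = i) ∨
      ∀ x, c₀ z ≤ x → x < c₀ z + K z → x / c = i) :
    gM (LS (blk c n) j) (∑ z, (Multiset.replicate (p z) (A z) + Multiset.replicate (q z) (B z) +
        Multiset.replicate (P z) (C z)) + s) +
      ∑ z ∈ univ.filter sel, (p z * wtr (A z) + q z * wtr (B z) + P z * wtr (C z)) ≤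
      gM (LS (blk c n) j) (.ord 3 I ::ₘ (∑ z, (Multiset.replicate (p z) (A z) +
        Multiset.replicate (q z) (B z) + Multiset.replicate (P z) (C z)) + s)) +
      (mset (bk c n) univ I 2).card := by
  classical
  obtain ⟨m', hm', -⟩ := exists_conf (LS (blk c n) j) s
  let Z : ζ → Zone n := fun z =>
    zn hn (p z) (q z) (P z) (A z) (B z) (C z) (R z) (K z) (r₀ z) (c₀ z)
  have hcnt : ∀ z, (Z z).cnt = p z * wtr (A z) + q z * wtr (B z) + P z * wtr (C z) :=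
    fun z => zn_cnt hn _ _ _ _ _ _ _ _ _ _
  have hmap : (univ : Finset ((Σ z, Fin (Z z).N ⊕ Fin (Z z).P) ⊕ Fin s.toList.length)).val.map
      (Sum.elim (fun x : (Σ z, Fin (Z z).N ⊕ Fin (Z z).P) => (Z x.1).kd x.2) m') =
      ∑ z, (Multiset.replicate (p z) (A z) + Multiset.replicate (q z) (B z) +
        Multiset.replicate (P z) (C z)) + s := by
    rw [map_elim, hm', map_eq_sum, Fintype.sum_sigma]
    refine congrArg (· + s) (sum_congr rfl fun z _ => ?_)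
    rw [← zn_map hn (p z) (q z) (P z) (A z) (B z) (C z) (R z) (K z) (r₀ z) (c₀ z), map_eq_sum]
  have h := gd_zones (blk c n) (j := j) Z m' I hI sel
    (fun z hz => zn_ok hn _ _ _ _ _ _ _ _ _ _ (hR z hz) (hsz z hz) (hr z hz) (hc z hz) (hd z hz)
      (hC z hz) (hf z hz)) ?_ ?_ ?_ ?_
  · rw [gd_eq_gM, gd_eq_gM, map_ad, hmap] at h
    simp only [hcnt] at h
    exact h
  · intro z z' hz hz' hne a b a' b' ha hb ha' hb' hab
    have e1 : a < R z := ha
    have e2 : b < K z := hb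
    have e3 : a' < R z' := ha'
    have e4 : b' < K z' := hb'
    have g1 := hr z hz
    have g2 := hc z hz
    have g3 := hr z' hz'
    have g4 := hc z' hz'
    have h3 : (vr hn (r₀ z + a)).1 = (vr hn (r₀ z' + a')).1 := congrArg Fin.val hab.1
    have h4 : (vr hn (c₀ z + b)).1 = (vr hn (c₀ z' + b')).1 := congrArg Fin.val hab.2
    rw [vr_val hn (by omega), vr_val hn (by omega)] at h3 h4
    have := h1 z z' hz hz' hne
    omega
  · intro z z' hz hz' a b a' b' ha hb ha' hb' hab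
    have e1 : a < R z := ha
    have e2 : b < K z := hb
    have e3 : a' < R z' := ha'
    have e4 : b' < K z' := hb'
    have g1 := hr z hz
    have g2 := hc z hz
    have g3 := hr z' hz'
    have g4 := hc z' hz'
    have h3 : (vr hn (r₀ z + a)).1 = (vr hn (c₀ z' + b')).1 := congrArg Fin.val hab.1
    have h4 : (vr hn (c₀ z + b)).1 = (vr hn (r₀ z' + a')).1 := congrArg Fin.val hab.2
    rw [vr_val hn (by omega), vr_val hn (by omega)] at h3 h4
    have := h2 z z' hz hz'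
    omega
  · intro z hz a b a' b' ha hb ha' hb' hab hab'
    have e1 : a < R z := ha
    have e2 : b < K z := hb
    have e3 : a' < R z := ha'
    have e4 : b' < K z := hb'
    have g1 := hr z hz
    have g2 := hc z hz
    have h3 : (vr hn (r₀ z + a)).1 = (vr hn (r₀ z + a')).1 := congrArg Fin.val hab
    have h4 : (vr hn (c₀ z + b)).1 = (vr hn (c₀ z + b')).1 := congrArg Fin.val hab'
    rw [vr_val hn (by omega), vr_val hn (by omega)] at h3 h4
    omega
  · intro z hz i hi a b ha hb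
    have e1 : a < R z := ha
    have e2 : b < K z := hb
    have g1 := hr z hz
    have g2 := hc z hz
    rcases hme z hz i hi with h3 | h3
    · refine Or.inl ?_
      show (vr hn (r₀ z + a)).1 / c = i
      rw [vr_val hn (by omega)]
      exact h3 _ (by omega) (by omega)
    · refine Or.inr ?_
      show (vr hn (c₀ z + b)).1 / c = i
      rw [vr_val hn (by omega)]
      exact h3 _ (by omega) (by omega)

/-! ### The level `2` -/

theorem key4 (P : Fin 4 → Prop) (h0 : P 0) (h1 : P 1) (h2 : P 2) (h3 : P 3) : ∀ z, P z := by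
  intro z
  fin_cases z
  exacts [h0, h1, h2, h3]

/-- The bounds for the zones of the level `2`. -/
structure Dr2 (c n : ℕ) (a : L2) : Prop where
  hc : 10 ≤ c
  hn : 2 * c < n
  A : 3 * (a.p + a.q) + 3 * c ≤ 9 * c
  B : 3 * a.r + 3 * (c - 9) + a.t ≤ (c - 9) * c
  U : 3 * a.pu + 3 * c + a.u ≤ c * (n - 2 * c)
  Y : 3 * (a.py + a.qy) + 3 * c + a.y ≤ c * (n - 2 * c)

theorem div0 {c x : ℕ} (h : x < c) : x / c = 0 := Nat.div_eq_of_lt h

theorem div1 {c x : ℕ} (h : c ≤ x) (h' : x < 2 * c) : x / c = 1 :=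
  Nat.div_eq_of_lt_le (by omega) (by omega)

theorem div2 {c x : ℕ} (hc : 0 < c) (h : 2 * c ≤ x) : 2 ≤ x / c := (Nat.le_div_iff_mul_le hc).2 h

theorem H2_gain {c n : ℕ} {a : L2} (h : Dr2 c n a) (I : Finset ℕ) (hI : I ⊆ range 2)
    (sel : Fin 4 → Prop) [DecidablePred sel]
    (h2 : sel 2 → ∀ i ∈ I, i = 1) (h3 : sel 3 → ∀ i ∈ I, i = 0) :
    H2 c n a + ((if sel 0 then a.p * 2 + a.q * 3 else 0) + (if sel 1 then a.r * 3 + a.t else 0) +
      (if sel 2 then a.U else 0) + if sel 3 then a.Y else 0) ≤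
      gM (LS (blk c n) 2) (Kd.ord 3 I ::ₘ a.ms) + bb c 2 I.card n := by
  have hc := h.hc
  have hn := h.hn
  have hn0 : 0 < n := by omega
  have hbI : ∀ i ∈ I, i = 0 ∨ i = 1 := by
    intro i hi
    have := mem_range.1 (hI hi)
    omega
  have hmain := gd_rect (c := c) (n := n) hn0 (j := 2) (ζ := Fin 4)
    ![a.p, a.r, a.pu, a.py] ![a.q, 0, 0, a.qy] ![0, a.t, a.u, a.y]
    ![Kd.pr 0 ∅, Kd.tr 1 ∅, Kd.pr 1 {0}, Kd.pr 0 {1}] ![Kd.tr 0 ∅, Kd.tr 1 ∅, Kd.pr 1 {0}, Kd.tr 0 {1}]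
    ![Kd.ord 3 ∅, Kd.ord 3 ∅, Kd.ord 3 {0}, Kd.ord 3 {1}]
    ![c, c - 9, c, c] ![9, c, n - 2 * c, n - 2 * c] ![0, c + 9, c, 0] ![c, 0, 2 * c, 2 * c]
    (Multiset.replicate a.x (Kd.ord 3 {0, 1}) +
    Multiset.replicate a.d (Kd.ord 2 ∅) + Multiset.replicate a.w (Kd.ord 2 {0}) +
    Multiset.replicate a.z (Kd.ord 2 {1})) I hI sel ?_ ?_ ?_ ?_ ?_ ?_ ?_ ?_ ?_ ?_
  · have e1 : ∑ z : Fin 4, (Multiset.replicate (![a.p, a.r, a.pu, a.py] z)
        (![Kd.pr 0 ∅, Kd.tr 1 ∅, Kd.pr 1 {0}, Kd.pr 0 {1}] z) +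
        Multiset.replicate (![a.q, 0, 0, a.qy] z)
          ((![Kd.tr 0 ∅, Kd.tr 1 ∅, Kd.pr 1 {0}, Kd.tr 0 {1}] : Fin 4 → Kd) z) +
        Multiset.replicate (![0, a.t, a.u, a.y] z)
          ((![Kd.ord 3 ∅, Kd.ord 3 ∅, Kd.ord 3 {0}, Kd.ord 3 {1}] : Fin 4 → Kd) z)) +
        (Multiset.replicate a.x (Kd.ord 3 {0, 1}) +
        Multiset.replicate a.d (Kd.ord 2 ∅) + Multiset.replicate a.w (Kd.ord 2 {0}) +
        Multiset.replicate a.z (Kd.ord 2 {1})) = a.ms := by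
      rw [Fin.sum_univ_four]
      show (Multiset.replicate a.p (Kd.pr 0 ∅) + Multiset.replicate a.q (Kd.tr 0 ∅) +
        Multiset.replicate 0 (Kd.ord 3 ∅)) + (Multiset.replicate a.r (Kd.tr 1 ∅) +
        Multiset.replicate 0 (Kd.tr 1 ∅) + Multiset.replicate a.t (Kd.ord 3 ∅)) +
        (Multiset.replicate a.pu (Kd.pr 1 {0}) + Multiset.replicate 0 (Kd.pr 1 {0}) +
        Multiset.replicate a.u (Kd.ord 3 {0})) + (Multiset.replicate a.py (Kd.pr 0 {1}) +
        Multiset.replicate a.qy (Kd.tr 0 {1}) + Multiset.replicate a.y (Kd.ord 3 {1})) + _ = _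
      unfold L2.ms
      simp only [Multiset.replicate_zero, add_zero]
      abel
    rw [e1] at hmain
    have e2 : ∑ z ∈ univ.filter sel, (![a.p, a.r, a.pu, a.py] z *
        wtr (![Kd.pr 0 ∅, Kd.tr 1 ∅, Kd.pr 1 {0}, Kd.pr 0 {1}] z) +
        ![a.q, 0, 0, a.qy] z *
          wtr ((![Kd.tr 0 ∅, Kd.tr 1 ∅, Kd.pr 1 {0}, Kd.tr 0 {1}] : Fin 4 → Kd) z) +
        ![0, a.t, a.u, a.y] z *
          wtr ((![Kd.ord 3 ∅, Kd.ord 3 ∅, Kd.ord 3 {0}, Kd.ord 3 {1}] : Fin 4 → Kd) z)) =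
        (if sel 0 then a.p * 2 + a.q * 3 else 0) + (if sel 1 then a.r * 3 + a.t else 0) +
        (if sel 2 then a.U else 0) + if sel 3 then a.Y else 0 := by
      rw [sum_filter, Fin.sum_univ_four]
      have f0 : a.p * 2 + a.q * 3 + 0 * 1 = a.p * 2 + a.q * 3 := by ring
      have f1 : a.r * 3 + 0 * 3 + a.t * 1 = a.r * 3 + a.t := by ring
      have f2 : a.pu * 2 + 0 * 2 + a.u * 1 = a.U := by unfold L2.U; ring
      have f3 : a.py * 2 + a.qy * 3 + a.y * 1 = a.Y := by unfold L2.Y; ring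
      rw [← f0, ← f1, ← f2, ← f3]
      rfl
    rw [e2, card_mset_bb (by omega) 2 I fun i hi => ?_] at hmain
    · exact hmain
    · have h4 : i + 1 ≤ 2 := by
        have := hbI i hi
        omega
      exact (Nat.mul_le_mul_right c h4).trans hn.le
  · refine key4 _ (fun _ => ?_) (fun _ => ?_) (fun _ => ?_) fun _ => ?_
    · show 0 < c
      omega
    · show 0 < c - 9
      omega
    · show 0 < c
      omega
    · show 0 < c
      omega
  · refine key4 _ (fun _ => ?_) (fun _ => ?_) (fun _ => ?_) fun _ => ?_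
    · show 3 * (a.p + a.q) + 3 * c + 0 ≤ c * 9
      have := h.A
      omega
    · show 3 * (a.r + 0) + 3 * (c - 9) + a.t ≤ (c - 9) * c
      exact h.B
    · show 3 * (a.pu + 0) + 3 * c + a.u ≤ c * (n - 2 * c)
      exact h.U
    · show 3 * (a.py + a.qy) + 3 * c + a.y ≤ c * (n - 2 * c)
      exact h.Y
  · refine key4 _ (fun _ => ?_) (fun _ => ?_) (fun _ => ?_) fun _ => ?_
    · show 0 + c ≤ n
      omega
    · show c + 9 + (c - 9) ≤ n
      omega
    · show c + c ≤ n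
      omega
    · show 0 + c ≤ n
      omega
  · refine key4 _ (fun _ => ?_) (fun _ => ?_) (fun _ => ?_) fun _ => ?_
    · show c + 9 ≤ n
      omega
    · show 0 + c ≤ n
      omega
    · show 2 * c + (n - 2 * c) ≤ n
      omega
    · show 2 * c + (n - 2 * c) ≤ n
      omega
  · refine key4 _ (fun _ => ?_) (fun _ => ?_) (fun _ => ?_) fun _ => ?_
    · show 0 + c ≤ c ∨ c + 9 ≤ 0
      omega
    · show c + 9 + (c - 9) ≤ 0 ∨ 0 + c ≤ c + 9
      omega
    · show c + c ≤ 2 * c ∨ 2 * c + (n - 2 * c) ≤ c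
      omega
    · show 0 + c ≤ 2 * c ∨ 2 * c + (n - 2 * c) ≤ 0
      omega
  · exact key4 _ (fun _ => ⟨3, ∅, rfl⟩) (fun _ => ⟨3, ∅, rfl⟩) (fun _ => ⟨3, {0}, rfl⟩)
      fun _ => ⟨3, {1}, rfl⟩
  · refine key4 _ (fun _ => ?_) (fun _ => ?_) (fun _ => ?_) fun _ => ?_
    · intro k hk ρ χ h4 h5 h6
      have g4 : 0 ≤ ρ.1 := h4
      have g5 : ρ.1 < 0 + c := h5
      have g6 : ∀ x, c ≤ (χ x).1 ∧ (χ x).1 < c + 9 := h6
      have e1 : blk c n ρ = 0 := div0 (by omega)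
      have e2 : ∀ x, blk c n (χ x) = 1 := fun x => div1 (g6 x).1 (by have := (g6 x).2; omega)
      have hk' : k = Kd.pr 0 ∅ ∨ k = Kd.tr 0 ∅ ∨ k = Kd.ord 3 ∅ := hk
      rcases hk' with rfl | rfl | rfl
      · exact ⟨e1, by simp, fun x => ⟨by rw [e2]; norm_num, by simp⟩⟩
      · exact ⟨e1, by simp, fun x => ⟨by rw [e2]; norm_num, by simp⟩⟩
      · exact ⟨by simp, by simp⟩
    · intro k hk ρ χ h4 h5 h6
      have g4 : c + 9 ≤ ρ.1 := h4
      have g5 : ρ.1 < c + 9 + (c - 9) := h5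
      have g6 : ∀ x, 0 ≤ (χ x).1 ∧ (χ x).1 < 0 + c := h6
      have e1 : blk c n ρ = 1 := div1 (by omega) (by omega)
      have e2 : ∀ x, blk c n (χ x) = 0 := fun x => div0 (by have := (g6 x).2; omega)
      have hk' : k = Kd.tr 1 ∅ ∨ k = Kd.tr 1 ∅ ∨ k = Kd.ord 3 ∅ := hk
      rcases hk' with rfl | rfl | rfl
      · exact ⟨e1, by simp, fun x => ⟨by rw [e2]; norm_num, by simp⟩⟩
      · exact ⟨e1, by simp, fun x => ⟨by rw [e2]; norm_num, by simp⟩⟩
      · exact ⟨by simp, by simp⟩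
    · intro k hk ρ χ h4 h5 h6
      have g4 : c ≤ ρ.1 := h4
      have g5 : ρ.1 < c + c := h5
      have g6 : ∀ x, 2 * c ≤ (χ x).1 ∧ (χ x).1 < 2 * c + (n - 2 * c) := h6
      have e1 : blk c n ρ = 1 := div1 (by omega) (by omega)
      have e2 : ∀ x, 2 ≤ blk c n (χ x) := fun x => div2 (by omega) (g6 x).1
      have hk' : k = Kd.pr 1 {0} ∨ k = Kd.pr 1 {0} ∨ k = Kd.ord 3 {0} := hk
      rcases hk' with rfl | rfl | rfl
      · refine ⟨e1, by rw [e1]; simp, fun x => ⟨?_, ?_⟩⟩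
        · have := e2 x
          omega
        · have := e2 x
          rw [mem_singleton]
          omega
      · refine ⟨e1, by rw [e1]; simp, fun x => ⟨?_, ?_⟩⟩
        · have := e2 x
          omega
        · have := e2 x
          rw [mem_singleton]
          omega
      · refine ⟨by rw [e1]; simp, ?_⟩
        have := e2 0
        rw [mem_singleton]
        omega
    · intro k hk ρ χ h4 h5 h6
      have g4 : 0 ≤ ρ.1 := h4
      have g5 : ρ.1 < 0 + c := h5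
      have g6 : ∀ x, 2 * c ≤ (χ x).1 ∧ (χ x).1 < 2 * c + (n - 2 * c) := h6
      have e1 : blk c n ρ = 0 := div0 (by omega)
      have e2 : ∀ x, 2 ≤ blk c n (χ x) := fun x => div2 (by omega) (g6 x).1
      have hk' : k = Kd.pr 0 {1} ∨ k = Kd.tr 0 {1} ∨ k = Kd.ord 3 {1} := hk
      rcases hk' with rfl | rfl | rfl
      · refine ⟨e1, by rw [e1]; simp, fun x => ⟨?_, ?_⟩⟩
        · have := e2 x
          omega
        · have := e2 x
          rw [mem_singleton]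
          omega
      · refine ⟨e1, by rw [e1]; simp, fun x => ⟨?_, ?_⟩⟩
        · have := e2 x
          omega
        · have := e2 x
          rw [mem_singleton]
          omega
      · refine ⟨by rw [e1]; simp, ?_⟩
        have := e2 0
        rw [mem_singleton]
        omega
  · refine key4 _ (key4 _ ?_ ?_ ?_ ?_) (key4 _ ?_ ?_ ?_ ?_) (key4 _ ?_ ?_ ?_ ?_)
      (key4 _ ?_ ?_ ?_ ?_)
    all_goals intro _ _ hne
    · exact absurd rfl hne
    · show 0 + c ≤ c + 9 ∨ c + 9 + (c - 9) ≤ 0 ∨ c + 9 ≤ 0 ∨ 0 + c ≤ c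
      omega
    · show 0 + c ≤ c ∨ c + c ≤ 0 ∨ c + 9 ≤ 2 * c ∨ 2 * c + (n - 2 * c) ≤ c
      omega
    · show 0 + c ≤ 0 ∨ 0 + c ≤ 0 ∨ c + 9 ≤ 2 * c ∨ 2 * c + (n - 2 * c) ≤ c
      omega
    · show c + 9 + (c - 9) ≤ 0 ∨ 0 + c ≤ c + 9 ∨ 0 + c ≤ c ∨ c + 9 ≤ 0
      omega
    · exact absurd rfl hne
    · show c + 9 + (c - 9) ≤ c ∨ c + c ≤ c + 9 ∨ 0 + c ≤ 2 * c ∨ 2 * c + (n - 2 * c) ≤ 0
      omega
    · show c + 9 + (c - 9) ≤ 0 ∨ 0 + c ≤ c + 9 ∨ 0 + c ≤ 2 * c ∨ 2 * c + (n - 2 * c) ≤ 0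
      omega
    · show c + c ≤ 0 ∨ 0 + c ≤ c ∨ 2 * c + (n - 2 * c) ≤ c ∨ c + 9 ≤ 2 * c
      omega
    · show c + c ≤ c + 9 ∨ c + 9 + (c - 9) ≤ c ∨ 2 * c + (n - 2 * c) ≤ 0 ∨ 0 + c ≤ 2 * c
      omega
    · exact absurd rfl hne
    · show c + c ≤ 0 ∨ 0 + c ≤ c ∨ 2 * c + (n - 2 * c) ≤ 2 * c ∨ 2 * c + (n - 2 * c) ≤ 2 * c
      omega
    · show 0 + c ≤ 0 ∨ 0 + c ≤ 0 ∨ 2 * c + (n - 2 * c) ≤ c ∨ c + 9 ≤ 2 * c
      omega
    · show 0 + c ≤ c + 9 ∨ c + 9 + (c - 9) ≤ 0 ∨ 2 * c + (n - 2 * c) ≤ 0 ∨ 0 + c ≤ 2 * c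
      omega
    · show 0 + c ≤ c ∨ c + c ≤ 0 ∨ 2 * c + (n - 2 * c) ≤ 2 * c ∨ 2 * c + (n - 2 * c) ≤ 2 * c
      omega
    · exact absurd rfl hne
  · refine key4 _ (key4 _ ?_ ?_ ?_ ?_) (key4 _ ?_ ?_ ?_ ?_) (key4 _ ?_ ?_ ?_ ?_)
      (key4 _ ?_ ?_ ?_ ?_)
    all_goals intro _ _
    · show 0 + c ≤ c ∨ c + 9 ≤ 0 ∨ c + 9 ≤ 0 ∨ 0 + c ≤ c
      omega
    · show 0 + c ≤ 0 ∨ 0 + c ≤ 0 ∨ c + 9 ≤ c + 9 ∨ c + 9 + (c - 9) ≤ c
      omega
    · show 0 + c ≤ 2 * c ∨ 2 * c + (n - 2 * c) ≤ 0 ∨ c + 9 ≤ c ∨ c + c ≤ c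
      omega
    · show 0 + c ≤ 2 * c ∨ 2 * c + (n - 2 * c) ≤ 0 ∨ c + 9 ≤ 0 ∨ 0 + c ≤ c
      omega
    · show c + 9 + (c - 9) ≤ c ∨ c + 9 ≤ c + 9 ∨ 0 + c ≤ 0 ∨ 0 + c ≤ 0
      omega
    · show c + 9 + (c - 9) ≤ 0 ∨ 0 + c ≤ c + 9 ∨ 0 + c ≤ c + 9 ∨ c + 9 + (c - 9) ≤ 0
      omega
    · show c + 9 + (c - 9) ≤ 2 * c ∨ 2 * c + (n - 2 * c) ≤ c + 9 ∨ 0 + c ≤ c ∨ c + c ≤ 0
      omega
    · show c + 9 + (c - 9) ≤ 2 * c ∨ 2 * c + (n - 2 * c) ≤ c + 9 ∨ 0 + c ≤ 0 ∨ 0 + c ≤ 0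
      omega
    · show c + c ≤ c ∨ c + 9 ≤ c ∨ 2 * c + (n - 2 * c) ≤ 0 ∨ 0 + c ≤ 2 * c
      omega
    · show c + c ≤ 0 ∨ 0 + c ≤ c ∨ 2 * c + (n - 2 * c) ≤ c + 9 ∨ c + 9 + (c - 9) ≤ 2 * c
      omega
    · show c + c ≤ 2 * c ∨ 2 * c + (n - 2 * c) ≤ c ∨ 2 * c + (n - 2 * c) ≤ c ∨ c + c ≤ 2 * c
      omega
    · show c + c ≤ 2 * c ∨ 2 * c + (n - 2 * c) ≤ c ∨ 2 * c + (n - 2 * c) ≤ 0 ∨ 0 + c ≤ 2 * c
      omega
    · show 0 + c ≤ c ∨ c + 9 ≤ 0 ∨ 2 * c + (n - 2 * c) ≤ 0 ∨ 0 + c ≤ 2 * c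
      omega
    · show 0 + c ≤ 0 ∨ 0 + c ≤ 0 ∨ 2 * c + (n - 2 * c) ≤ c + 9 ∨ c + 9 + (c - 9) ≤ 2 * c
      omega
    · show 0 + c ≤ 2 * c ∨ 2 * c + (n - 2 * c) ≤ 0 ∨ 2 * c + (n - 2 * c) ≤ c ∨ c + c ≤ 2 * c
      omega
    · show 0 + c ≤ 2 * c ∨ 2 * c + (n - 2 * c) ≤ 0 ∨ 2 * c + (n - 2 * c) ≤ 0 ∨ 0 + c ≤ 2 * c
      omega
  · refine key4 _ (fun _ => ?_) (fun _ => ?_) (fun hs => ?_) fun hs => ?_
    · intro i hi
      show (∀ x, 0 ≤ x → x < 0 + c → x / c = i) ∨ ∀ x, c ≤ x → x < c + 9 → x / c = i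
      rcases hbI i hi with rfl | rfl
      · exact Or.inl fun x _ hx => div0 (by omega)
      · exact Or.inr fun x hx hx' => div1 hx (by omega)
    · intro i hi
      show (∀ x, c + 9 ≤ x → x < c + 9 + (c - 9) → x / c = i) ∨ ∀ x, 0 ≤ x → x < 0 + c → x / c = i
      rcases hbI i hi with rfl | rfl
      · exact Or.inr fun x _ hx => div0 (by omega)
      · exact Or.inl fun x hx hx' => div1 (by omega) (by omega)
    · intro i hi
      show (∀ x, c ≤ x → x < c + c → x / c = i) ∨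
        ∀ x, 2 * c ≤ x → x < 2 * c + (n - 2 * c) → x / c = i
      rw [h2 hs i hi]
      exact Or.inl fun x hx hx' => div1 (by omega) (by omega)
    · intro i hi
      show (∀ x, 0 ≤ x → x < 0 + c → x / c = i) ∨
        ∀ x, 2 * c ≤ x → x < 2 * c + (n - 2 * c) → x / c = i
      rw [h3 hs i hi]
      exact Or.inl fun x _ hx => div0 (by omega)

theorem Dr2.mono {c n : ℕ} {a b : L2} (h : Dr2 c n b) (hp : a.p = b.p) (hq : a.q = b.q)
    (hr : a.r = b.r) (hpu : a.pu = b.pu) (hpy : a.py = b.py) (hqy : a.qy = b.qy)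
    (ht : a.t ≤ b.t) (hu : a.u ≤ b.u) (hy : a.y ≤ b.y) : Dr2 c n a where
  hc := h.hc
  hn := h.hn
  A := by rw [hp, hq]; exact h.A
  B := by rw [hr]; exact le_trans (by omega) h.B
  U := by rw [hpu]; exact le_trans (by omega) h.U
  Y := by rw [hpy, hqy]; exact le_trans (by omega) h.Y

theorem bb_one {c n : ℕ} (hc : 0 < c) (h : c ≤ n) : (bb c 2 1 n : ℤ) = dl c n := by
  have h1 := bb_succ_add (c := c) (j := 0) (n := n) hc 2 (by omega)
  have h2 : (bb c 2 1 n : ℤ) + mc (n - c) 2 = mc n 2 := by exact_mod_cast h1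
  unfold dl
  linarith

theorem choose_add_one (T : ℕ) : ((T + 1).choose 2 : ℤ) = T.choose 2 + T := by
  have h : (T + 1).choose 2 = T.choose 1 + T.choose 2 := Nat.choose_succ_succ T 1
  rw [h, Nat.choose_one_right]
  push_cast
  ring

/-- One plain triple point more. -/
def L2.at (a : L2) (i : ℕ) : L2 := { a with t := a.t + i }

/-- One plain triple point on `L_0` more. -/
def L2.au (a : L2) (i : ℕ) : L2 := { a with u := a.u + i }

/-- One plain triple point on `L_1` more. -/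
def L2.ay (a : L2) (i : ℕ) : L2 := { a with y := a.y + i }

theorem L2.at_ms (a : L2) : (a.at 1).ms = Kd.ord 3 ∅ ::ₘ a.ms := by
  unfold L2.at L2.ms
  simp only [Multiset.replicate_succ, Multiset.cons_add]

theorem L2.au_ms (a : L2) : (a.au 1).ms = Kd.ord 3 {0} ::ₘ a.ms := by
  unfold L2.au L2.ms
  simp only [Multiset.replicate_succ, Multiset.cons_add, Multiset.add_cons]

theorem L2.ay_ms (a : L2) : (a.ay 1).ms = Kd.ord 3 {1} ::ₘ a.ms := by
  unfold L2.ay L2.ms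
  simp only [Multiset.replicate_succ, Multiset.cons_add, Multiset.add_cons]

theorem v2_at (c n : ℕ) (a : L2) : v2 c n (a.at 1) = v2 c n a - mc n 2 + (a.T + a.U + a.Y + a.x) := by
  have h : (a.at 1).T = a.T + 1 := by
    unfold L2.at L2.T
    ring
  unfold v2
  rw [h, choose_add_one]
  unfold L2.at L2.U L2.Y
  push_cast
  ring

theorem v2_au (c n : ℕ) (a : L2) : v2 c n (a.au 1) = v2 c n a - dl c n + (a.T + a.Y) := by
  have h : (a.au 1).T = a.T := rfl
  unfold v2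
  rw [h]
  unfold L2.au L2.U L2.Y
  push_cast
  ring

theorem v2_ay (c n : ℕ) (a : L2) : v2 c n (a.ay 1) = v2 c n a - dl c n + (a.T + a.U) := by
  have h : (a.ay 1).T = a.T := rfl
  unfold v2
  rw [h]
  unfold L2.ay L2.U L2.Y
  push_cast
  ring

theorem H2_at {c n : ℕ} {a : L2} (h : Dr2 c n a) :
    (H2 c n a : ℤ) + (a.T + a.U + a.Y) ≤ H2 c n (a.at 1) + mc n 2 := by
  have h1 := H2_gain h ∅ (empty_subset _) (fun _ => True) (fun _ i hi => absurd hi (notMem_empty i))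
    (fun _ i hi => absurd hi (notMem_empty i))
  rw [← L2.at_ms] at h1
  have h2 : a.T = (a.p * 2 + a.q * 3) + (a.r * 3 + a.t) := by unfold L2.T; ring
  rw [h2]
  simp only [if_true, card_empty] at h1
  have h3 : H2 c n a + (a.p * 2 + a.q * 3 + (a.r * 3 + a.t) + a.U + a.Y) ≤
      H2 c n (a.at 1) + Nat.multichoose n 2 := h1
  have h4 : ((H2 c n a + (a.p * 2 + a.q * 3 + (a.r * 3 + a.t) + a.U + a.Y) : ℕ) : ℤ) ≤
      ((H2 c n (a.at 1) + Nat.multichoose n 2 : ℕ) : ℤ) := by exact_mod_cast h3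
  push_cast at h4 ⊢
  linarith

theorem H2_au {c n : ℕ} {a : L2} (h : Dr2 c n a) :
    (H2 c n a : ℤ) + (a.T + a.Y) ≤ H2 c n (a.au 1) + dl c n := by
  have hc := h.hc
  have hn := h.hn
  have h1 := H2_gain h {0} (by decide) (fun z => z ≠ 2) (fun h2 => absurd rfl h2)
    (fun _ i hi => mem_singleton.1 hi)
  rw [← L2.au_ms, card_singleton] at h1
  have h2 : a.T = (a.p * 2 + a.q * 3) + (a.r * 3 + a.t) := by unfold L2.T; ring
  rw [h2, ← bb_one (by omega : 0 < c) (by omega : c ≤ n)]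
  rw [if_pos (by decide), if_pos (by decide), if_neg (by decide), if_pos (by decide)] at h1
  have h3 : H2 c n a + (a.p * 2 + a.q * 3 + (a.r * 3 + a.t) + 0 + a.Y) ≤
      H2 c n (a.au 1) + bb c 2 1 n := h1
  have h4 : ((H2 c n a + (a.p * 2 + a.q * 3 + (a.r * 3 + a.t) + 0 + a.Y) : ℕ) : ℤ) ≤
      ((H2 c n (a.au 1) + bb c 2 1 n : ℕ) : ℤ) := by exact_mod_cast h3
  push_cast at h4 ⊢
  linarith

theorem H2_ay {c n : ℕ} {a : L2} (h : Dr2 c n a) :
    (H2 c n a : ℤ) + (a.T + a.U) ≤ H2 c n (a.ay 1) + dl c n := by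
  have hc := h.hc
  have hn := h.hn
  have h1 := H2_gain h {1} (by decide) (fun z => z ≠ 3) (fun _ i hi => mem_singleton.1 hi)
    (fun h2 => absurd rfl h2)
  rw [← L2.ay_ms, card_singleton] at h1
  have h2 : a.T = (a.p * 2 + a.q * 3) + (a.r * 3 + a.t) := by unfold L2.T; ring
  rw [h2, ← bb_one (by omega : 0 < c) (by omega : c ≤ n)]
  rw [if_pos (by decide), if_pos (by decide), if_pos (by decide), if_neg (by decide)] at h1
  have h3 : H2 c n a + (a.p * 2 + a.q * 3 + (a.r * 3 + a.t) + a.U + 0) ≤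
      H2 c n (a.ay 1) + bb c 2 1 n := h1
  have h4 : ((H2 c n a + (a.p * 2 + a.q * 3 + (a.r * 3 + a.t) + a.U + 0) : ℕ) : ℤ) ≤
      ((H2 c n (a.ay 1) + bb c 2 1 n : ℕ) : ℤ) := by exact_mod_cast h3
  push_cast at h4 ⊢
  linarith

theorem H2_down_t {c n : ℕ} (i : ℕ) : ∀ a : L2, a.x = 0 → Dr2 c n (a.at i) →
    (H2 c n (a.at i) : ℤ) ≤ v2 c n (a.at i) → (H2 c n a : ℤ) ≤ v2 c n a := by
  induction i with
  | zero => exact fun a _ _ h => h
  | succ i ih =>
    intro a hx hd h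
    have e : (a.at 1).at i = a.at (i + 1) := by
      unfold L2.at
      simp only [L2.mk.injEq, and_true]
      ring
    rw [← e] at h hd
    have h1 := ih (a.at 1) hx hd h
    have h2 : Dr2 c n a := hd.mono rfl rfl rfl rfl rfl rfl
      (show a.t ≤ a.t + 1 + i by omega) (show a.u ≤ a.u from le_rfl) (show a.y ≤ a.y from le_rfl)
    have h3 := H2_at h2
    rw [v2_at, hx] at h1
    push_cast at h1
    linarith

theorem H2_down_u {c n : ℕ} (i : ℕ) : ∀ a : L2, Dr2 c n (a.au i) →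
    (H2 c n (a.au i) : ℤ) ≤ v2 c n (a.au i) → (H2 c n a : ℤ) ≤ v2 c n a := by
  induction i with
  | zero => exact fun a _ h => h
  | succ i ih =>
    intro a hd h
    have e : (a.au 1).au i = a.au (i + 1) := by
      unfold L2.au
      simp only [L2.mk.injEq, and_true, true_and]
      ring
    rw [← e] at h hd
    have h1 := ih (a.au 1) hd h
    have h2 : Dr2 c n a := hd.mono rfl rfl rfl rfl rfl rfl
      (show a.t ≤ a.t from le_rfl) (show a.u ≤ a.u + 1 + i by omega) (show a.y ≤ a.y from le_rfl)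
    have h3 := H2_au h2
    rw [v2_au] at h1
    linarith

theorem H2_down_y {c n : ℕ} (i : ℕ) : ∀ a : L2, Dr2 c n (a.ay i) →
    (H2 c n (a.ay i) : ℤ) ≤ v2 c n (a.ay i) → (H2 c n a : ℤ) ≤ v2 c n a := by
  induction i with
  | zero => exact fun a _ h => h
  | succ i ih =>
    intro a hd h
    have e : (a.ay 1).ay i = a.ay (i + 1) := by
      unfold L2.ay
      simp only [L2.mk.injEq, and_true, true_and]
      ring
    rw [← e] at h hd
    have h1 := ih (a.ay 1) hd h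
    have h2 : Dr2 c n a := hd.mono rfl rfl rfl rfl rfl rfl
      (show a.t ≤ a.t from le_rfl) (show a.u ≤ a.u from le_rfl) (show a.y ≤ a.y + 1 + i by omega)
    have h3 := H2_ay h2
    rw [v2_ay] at h1
    linarith

/-- **DROP on the level `2`.**  Exactness is inherited by the configurations with fewer plain triple
points. -/
theorem H2_down {c n : ℕ} {a b : L2} (hd : Dr2 c n b) (hx : b.x = 0)
    (hab : a = { b with t := a.t, u := a.u, y := a.y }) (ht : a.t ≤ b.t) (hu : a.u ≤ b.u)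
    (hy : a.y ≤ b.y) (h : (H2 c n b : ℤ) ≤ v2 c n b) : (H2 c n a : ℤ) ≤ v2 c n a := by
  have hp : a.p = b.p := by rw [hab]
  have hq : a.q = b.q := by rw [hab]
  have hr : a.r = b.r := by rw [hab]
  have hpu : a.pu = b.pu := by rw [hab]
  have hpy : a.py = b.py := by rw [hab]
  have hqy : a.qy = b.qy := by rw [hab]
  have hax : a.x = 0 := by rw [hab]; exact hx
  have e : ((a.at (b.t - a.t)).au (b.u - a.u)).ay (b.y - a.y) = b := by
    have h1 : a.t + (b.t - a.t) = b.t := by omega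
    have h2 : a.u + (b.u - a.u) = b.u := by omega
    have h3 : a.y + (b.y - a.y) = b.y := by omega
    show ({ a with t := a.t + (b.t - a.t), u := a.u + (b.u - a.u), y := a.y + (b.y - a.y) } : L2) =
      b
    rw [h1, h2, h3, hab]
  rw [← e] at h hd
  refine H2_down_t (b.t - a.t) a hax ?_ (H2_down_u (b.u - a.u) _ ?_ (H2_down_y (b.y - a.y) _ hd h))
  · exact hd.mono rfl rfl rfl rfl rfl rfl (show a.t + (b.t - a.t) ≤ a.t + (b.t - a.t) from le_rfl)
      (show a.u ≤ a.u + (b.u - a.u) by omega) (show a.y ≤ a.y + (b.y - a.y) by omega)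
  · exact hd.mono rfl rfl rfl rfl rfl rfl (show a.t + (b.t - a.t) ≤ a.t + (b.t - a.t) from le_rfl)
      (show a.u + (b.u - a.u) ≤ a.u + (b.u - a.u) from le_rfl)
      (show a.y ≤ a.y + (b.y - a.y) by omega)

/-! ### The level `1` -/

/-- The bounds for the zone of the level `1`. -/
structure Dr1 (c n : ℕ) (a : L1) : Prop where
  hc : 0 < c
  hn : c < n
  A : 3 * (a.p + a.q) + 3 * c + a.t ≤ c * (n - c)

/-- One plain triple point more. -/
def L1.at (a : L1) (i : ℕ) : L1 := { a with t := a.t + i }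

theorem L1.at_ms (a : L1) : (a.at 1).ms = Kd.ord 3 ∅ ::ₘ a.ms := by
  unfold L1.at L1.ms
  simp only [Multiset.replicate_succ, Multiset.cons_add]

theorem v1_at (c n : ℕ) (a : L1) : v1 c n (a.at 1) = v1 c n a - mc n 2 + (a.T + a.u) := by
  have h : (a.at 1).T = a.T + 1 := by
    unfold L1.at L1.T
    ring
  unfold v1
  rw [h, choose_add_one]
  unfold L1.at
  push_cast
  ring

theorem H1_at {c n : ℕ} {a : L1} (h : Dr1 c n a) :
    (H1 c n a : ℤ) + a.T ≤ H1 c n (a.at 1) + mc n 2 := by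
  have hc := h.hc
  have hn := h.hn
  have hn0 : 0 < n := by omega
  have hmain := gd_rect (c := c) (n := n) hn0 (j := 1) (ζ := Unit) (fun _ => a.p) (fun _ => a.q)
    (fun _ => a.t) (fun _ => Kd.pr 0 ∅) (fun _ => Kd.tr 0 ∅) (fun _ => Kd.ord 3 ∅) (fun _ => c)
    (fun _ => n - c) (fun _ => 0) (fun _ => c) (Multiset.replicate a.u (Kd.ord 3 {0}) +
    Multiset.replicate a.d (Kd.ord 2 ∅) + Multiset.replicate a.w (Kd.ord 2 {0}) +
    Multiset.replicate a.s (Kd.ord 1 ∅)) ∅ (empty_subset _) (fun _ => True)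
    (fun _ _ => hc) (fun _ _ => h.A) (fun _ _ => by omega) (fun _ _ => by omega)
    (fun _ _ => by omega) (fun _ _ => ⟨3, ∅, rfl⟩) ?_ (fun _ _ _ _ h => absurd rfl h)
    (fun _ _ _ _ => by omega) fun _ _ i hi => absurd hi (notMem_empty i)
  · have e1 : ∑ _z : Unit, (Multiset.replicate a.p (Kd.pr 0 ∅) + Multiset.replicate a.q (Kd.tr 0 ∅) +
        Multiset.replicate a.t (Kd.ord 3 ∅)) + (Multiset.replicate a.u (Kd.ord 3 {0}) +
        Multiset.replicate a.d (Kd.ord 2 ∅) + Multiset.replicate a.w (Kd.ord 2 {0}) +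
        Multiset.replicate a.s (Kd.ord 1 ∅)) = a.ms := by
      rw [Fintype.sum_unique]
      unfold L1.ms
      abel
    have e2 : ∑ _z ∈ (univ : Finset Unit).filter (fun _ => True), (a.p * wtr (Kd.pr 0 ∅) +
        a.q * wtr (Kd.tr 0 ∅) + a.t * wtr (Kd.ord 3 ∅)) = a.T := by
      rw [filter_true_of_mem (fun _ _ => trivial), Fintype.sum_unique, wtr_pr, wtr_tr, wtr_ord]
      unfold L1.T
      ring
    rw [e1, e2, card_mset_bb hc 2 ∅ (fun i hi => absurd hi (notMem_empty i)), ← L1.at_ms] at hmain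
    have h3 : H1 c n a + a.T ≤ H1 c n (a.at 1) + Nat.multichoose n 2 := hmain
    exact_mod_cast h3
  · intro _ _ k hk ρ χ h4 h5 h6
    have e1 : blk c n ρ = 0 := div0 (by omega)
    have e2 : ∀ x, blk c n (χ x) ≠ 0 := by
      intro x
      have h7 : 1 ≤ (χ x).1 / c := (Nat.le_div_iff_mul_le hc).2 (by have := (h6 x).1; omega)
      show (χ x).1 / c ≠ 0
      omega
    rcases hk with rfl | rfl | rfl
    · exact ⟨e1, by simp, fun x => ⟨e2 x, by simp⟩⟩
    · exact ⟨e1, by simp, fun x => ⟨e2 x, by simp⟩⟩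
    · exact ⟨by simp, by simp⟩

/-- **DROP on the level `1`.**  Exactness is inherited by the configurations with fewer plain triple
points. -/
theorem H1_down {c n : ℕ} (i : ℕ) : ∀ a : L1, a.u = 0 → Dr1 c n (a.at i) →
    (H1 c n (a.at i) : ℤ) ≤ v1 c n (a.at i) → (H1 c n a : ℤ) ≤ v1 c n a := by
  induction i with
  | zero => exact fun a _ _ h => h
  | succ i ih =>
    intro a hx hd h
    have e : (a.at 1).at i = a.at (i + 1) := by
      unfold L1.at
      simp only [L1.mk.injEq, and_true]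
      ring
    rw [← e] at h hd
    have h1 := ih (a.at 1) hx hd h
    have h2 : Dr1 c n a := ⟨hd.hc, hd.hn, le_trans (by
      show 3 * (a.p + a.q) + 3 * c + a.t ≤ 3 * (a.p + a.q) + 3 * c + (a.t + 1 + i)
      omega) hd.A⟩
    have h3 := H1_at h2
    rw [v1_at, hx] at h1
    push_cast at h1
    linarith

end Pool.Agent.KZ
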