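import Pool.Agent.KZ.AL.Defs

/-!
# KZ4, ALPHA: extension of local positions
-/

set_option autoImplicit false

namespace Pool.Agent.KZ.AL

open Finset

theorem pn_mem (C B s : ℕ) (J : Finset ℕ) :
    ((pn C B s).1 ∈ J ∧ (pn C B s).2.1 ∈ J) ↔ (C ∈ J ∧ B ∈ J) := by
  unfold pn
  rcases le_total C B with h | h
  · rw [min_eq_left h, max_eq_right h]
  · rw [min_eq_right h, max_eq_left h]
    exact and_comm

theorem pn_or (C B s y : ℕ) (h : y = C ∨ y = B) : y = (pn C B s).1 ∨ y = (pn C B s).2.1 := by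
  unfold pn
  rcases le_total C B with h1 | h1
  · rw [min_eq_left h1, max_eq_right h1]
    exact h
  · rw [min_eq_right h1, max_eq_left h1]
    exact h.symm

theorem pn_inj {C B B' s s' : ℕ} (h : pn C B s = pn C B' s') : B = B' := by
  unfold pn at h
  rw [Prod.mk.injEq, Prod.mk.injEq] at h
  omega

/-- Vectors of the points in `J` (`w`), free items (`u`) and sums of the specials with centre outside
`J` (`g`) can be prescribed. -/
theorem ext {K : Type} [CommRing K] (D : Dg) (hD : D.WF) (J : Finset ℕ) (w u : ℕ × ℕ × ℕ → ℕ → K)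
    (g : ℕ × Finset ℕ × ℕ → ℕ → K)
    (hw : ∀ τ x, w τ x ≠ 0 → bl D.n x = τ.1 ∨ bl D.n x = τ.2.1)
    (hu : ∀ δ x, u δ x ≠ 0 → bl D.n x = δ.1 ∨ bl D.n x = δ.2.1)
    (hg : ∀ S ∈ D.Sp, ∀ x, g S x ≠ 0 → bl D.n x ∈ S.2.1)
    (hs : ∀ S ∈ D.Sp, insert S.1 S.2.1 ⊆ J → ∀ x, bl D.n x = S.1 → gv (w, u) S x = 0) :
    ∃ p : Pos K, D.Good p ∧ p.2 = u ∧ (∀ τ ∈ D.TP, τ.1 ∈ J → τ.2.1 ∈ J → p.1 τ = w τ) ∧
      ∀ S ∈ D.Sp, S.1 ∉ J → gv p S = g S := by
  classical
  have hf : ∀ S : ℕ × Finset ℕ × ℕ, ∃ B, (∃ B' ∈ S.2.1, B' ∉ J) → B ∈ S.2.1 ∧ B ∉ J := by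
    intro S
    by_cases h : ∃ B' ∈ S.2.1, B' ∉ J
    · obtain ⟨B, h1, h2⟩ := h
      exact ⟨B, fun _ => ⟨h1, h2⟩⟩
    · exact ⟨0, fun h' => absurd h' h⟩
  choose ff hff using hf
  let φ : (ℕ × Finset ℕ × ℕ) → ℕ → ℕ → K := fun S B x =>
    if bl D.n x = B then (if S.1 ∈ J then 0 else g S x)
    else if bl D.n x = S.1 then
      (if S.1 ∈ J ∧ B = ff S then - ∑ B' ∈ S.2.1.filter (· ∈ J), w (pn S.1 B' S.2.2) x else 0)
    else 0
  let p1 : ℕ × ℕ × ℕ → ℕ → K := fun τ x =>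
    if τ.1 ∈ J ∧ τ.2.1 ∈ J then w τ x
    else ∑ S ∈ D.Sp, ∑ B ∈ S.2.1, if τ = pn S.1 B S.2.2 then φ S B x else 0
  -- the value at a member of a special
  have hval : ∀ S ∈ D.Sp, ∀ B ∈ S.2.1, ∀ x, p1 (pn S.1 B S.2.2) x =
      if S.1 ∈ J ∧ B ∈ J then w (pn S.1 B S.2.2) x else φ S B x := by
    intro S hS B hB x
    show (if (pn S.1 B S.2.2).1 ∈ J ∧ (pn S.1 B S.2.2).2.1 ∈ J then w (pn S.1 B S.2.2) x
      else ∑ S' ∈ D.Sp, ∑ B' ∈ S'.2.1, if pn S.1 B S.2.2 = pn S'.1 B' S'.2.2 then φ S' B' x else 0)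
      = _
    by_cases h : S.1 ∈ J ∧ B ∈ J
    · rw [if_pos ((pn_mem _ _ _ _).2 h), if_pos h]
    · rw [if_neg (fun h' => h ((pn_mem _ _ _ _).1 h')), if_neg h]
      rw [sum_eq_single_of_mem S hS, sum_eq_single_of_mem B hB, if_pos rfl]
      · intro B' _ hne
        rw [if_neg]
        intro h1
        exact hne (pn_inj h1).symm
      · intro S' hS' hne
        refine sum_eq_zero fun B' hB' => ?_
        rw [if_neg]
        intro h1
        exact hne (hD.c4 S hS S' hS' B hB B' hB' h1).symm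
  have hgv : ∀ S ∈ D.Sp, ∀ x, gv (p1, u) S x =
      ∑ B ∈ S.2.1, if S.1 ∈ J ∧ B ∈ J then w (pn S.1 B S.2.2) x else φ S B x := by
    intro S hS x
    exact sum_congr rfl fun B hB => hval S hS B hB x
  have hout : ∀ S ∈ D.Sp, S.1 ∉ J → gv (p1, u) S = g S := by
    intro S hS hC
    funext x
    rw [hgv S hS x]
    have h1 : ∀ B ∈ S.2.1, (if S.1 ∈ J ∧ B ∈ J then w (pn S.1 B S.2.2) x else φ S B x) =
        if bl D.n x = B then g S x else 0 := by
      intro B _
      rw [if_neg (fun h => hC h.1)]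
      show (if bl D.n x = B then (if S.1 ∈ J then 0 else g S x)
        else if bl D.n x = S.1 then (if S.1 ∈ J ∧ B = ff S then
          - ∑ B' ∈ S.2.1.filter (· ∈ J), w (pn S.1 B' S.2.2) x else 0) else 0) = _
      rw [if_neg hC, if_neg (c := S.1 ∈ J ∧ B = ff S) (fun h => hC h.1)]
      simp only [ite_self]
    rw [sum_congr rfl h1, sum_ite_eq]
    by_cases hx : bl D.n x ∈ S.2.1
    · rw [if_pos hx]
    · rw [if_neg hx]
      by_contra hne
      exact hx (hg S hS x (Ne.symm hne))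
  refine ⟨(p1, u), ⟨?_, hu, ?_⟩, rfl, ?_, hout⟩
  · intro τ x hne
    by_cases h : τ.1 ∈ J ∧ τ.2.1 ∈ J
    · refine hw τ x ?_
      have h1 : p1 τ x = w τ x := if_pos h
      rw [← h1]
      exact hne
    · have h1 : p1 τ x = ∑ S ∈ D.Sp, ∑ B ∈ S.2.1, if τ = pn S.1 B S.2.2 then φ S B x else 0 :=
        if_neg h
      have h2 : (∑ S ∈ D.Sp, ∑ B ∈ S.2.1, if τ = pn S.1 B S.2.2 then φ S B x else 0) ≠ 0 := by
        rw [← h1]
        exact hne
      obtain ⟨S, hS, h3⟩ := exists_ne_zero_of_sum_ne_zero h2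
      obtain ⟨B, hB, h4⟩ := exists_ne_zero_of_sum_ne_zero h3
      have h5 : τ = pn S.1 B S.2.2 := by
        by_contra h6
        rw [if_neg h6] at h4
        exact h4 rfl
      rw [if_pos h5] at h4
      rw [h5]
      refine pn_or _ _ _ _ ?_
      by_contra h6
      push Not at h6
      apply h4
      show (if bl D.n x = B then (if S.1 ∈ J then 0 else g S x)
        else if bl D.n x = S.1 then (if S.1 ∈ J ∧ B = ff S then
          - ∑ B' ∈ S.2.1.filter (· ∈ J), w (pn S.1 B' S.2.2) x else 0) else 0) = 0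
      rw [if_neg h6.2, if_neg h6.1]
  · intro S hS x hx
    by_cases hC : S.1 ∈ J
    · rw [hgv S hS x]
      have h1 : ∀ B ∈ S.2.1, (if S.1 ∈ J ∧ B ∈ J then w (pn S.1 B S.2.2) x else φ S B x) =
          (if B ∈ J then w (pn S.1 B S.2.2) x else 0) +
          if B = ff S ∧ B ∉ J then - ∑ B' ∈ S.2.1.filter (· ∈ J), w (pn S.1 B' S.2.2) x
            else 0 := by
        intro B hB
        by_cases hBJ : B ∈ J
        · rw [if_pos ⟨hC, hBJ⟩, if_pos hBJ, if_neg (fun h => h.2 hBJ), add_zero]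
        · rw [if_neg (fun h => hBJ h.2), if_neg hBJ, zero_add]
          have h2 : bl D.n x ≠ B := by
            intro h3
            apply hD.c1 S hS
            rw [← hx, h3]
            exact hB
          show (if bl D.n x = B then (if S.1 ∈ J then 0 else g S x)
            else if bl D.n x = S.1 then (if S.1 ∈ J ∧ B = ff S then
              - ∑ B' ∈ S.2.1.filter (· ∈ J), w (pn S.1 B' S.2.2) x else 0) else 0) = _
          rw [if_neg h2, if_pos hx]
          by_cases h3 : B = ff S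
          · rw [if_pos ⟨hC, h3⟩, if_pos ⟨h3, hBJ⟩]
          · rw [if_neg (fun h => h3 h.2), if_neg (fun h => h3 h.1)]
      rw [sum_congr rfl h1, sum_add_distrib, ← sum_filter]
      by_cases hL : ∃ B' ∈ S.2.1, B' ∉ J
      · obtain ⟨h2, h3⟩ := hff S hL
        rw [sum_eq_single_of_mem (ff S) h2, if_pos ⟨rfl, h3⟩, add_neg_cancel]
        intro B _ hne
        rw [if_neg (fun h => hne h.1)]
      · push Not at hL
        rw [filter_true_of_mem hL, sum_eq_zero (f := fun B => if B = ff S ∧ B ∉ J then _ else _)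
          (fun B hB => by rw [if_neg (fun h => h.2 (hL B hB))]), add_zero]
        exact hs S hS (insert_subset hC fun B hB => hL B hB) x hx
    · rw [hout S hS hC]
      by_contra hne
      apply hD.c1 S hS
      have := hg S hS x hne
      rwa [hx] at this
  · intro τ _ h1 h2
    funext x
    exact if_pos ⟨h1, h2⟩

end Pool.Agent.KZ.AL
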