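import Mathlib

/-!
# KZ4, ALPHA: block filtration, abstract form

`E` = columns, `ρ` = rows of a matrix `M`, `jj : E → ι`, `jr : ρ → ι`, `sz : ι → ℕ`.  If the row `r` has
non-zero entries only in columns `e` with `jj e = jr r` or `sz (jj e) < sz (jr r)`, then the solution
space has at most the dimension of the sum of the solution spaces of the diagonal blocks.
-/

set_option autoImplicit false

namespace Pool.Agent.KZ

open Finset

section

variable {K : Type*} [Field K] {E ι ρ : Type*} [Fintype E]

/-- The solution space of a matrix. -/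
def solM (M : Matrix ρ E K) : Submodule K (E → K) where
  carrier := {f | ∀ r, ∑ e, M r e * f e = 0}
  add_mem' := by
    intro f g hf hg r
    show ∑ e, M r e * (f e + g e) = 0
    simp only [mul_add, sum_add_distrib]
    rw [hf r, hg r, add_zero]
  zero_mem' := by
    intro r
    show ∑ e, M r e * (0 : K) = 0
    simp only [mul_zero, sum_const_zero]
  smul_mem' := by
    intro a f hf r
    show ∑ e, M r e * (a * f e) = 0
    have h : ∀ e, M r e * (a * f e) = a * (M r e * f e) := fun e => by ring
    simp only [h]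
    rw [← mul_sum, hf r, mul_zero]

theorem mem_solM (M : Matrix ρ E K) (f : E → K) : f ∈ solM M ↔ ∀ r, ∑ e, M r e * f e = 0 := Iff.rfl

theorem solM_eq_ker (M : Matrix ρ E K) : solM M = LinearMap.ker M.mulVecLin := by
  ext f
  rw [mem_solM, LinearMap.mem_ker, Matrix.mulVecLin_apply]
  constructor
  · intro h
    funext r
    exact h r
  · intro h r
    exact congrFun h r

theorem finrank_solM (M : Matrix ρ E K) :
    Module.finrank K (solM M) + M.rank = Fintype.card E := by
  rw [solM_eq_ker, Matrix.rank, add_comm, LinearMap.finrank_range_add_finrank_ker,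
    Module.finrank_fintype_fun_eq_card]

/-- The diagonal block `J`. -/
def blkJ (M : Matrix ρ E K) (jj : E → ι) (jr : ρ → ι) (J : ι) :
    Matrix {r // jr r = J} {e // jj e = J} K :=
  fun r e => M r.1 e.1

variable [DecidableEq ι]

/-- The solutions which vanish on the columns of the blocks in `S`. -/
private def US (M : Matrix ρ E K) (jj : E → ι) (S : Finset ι) : Submodule K (E → K) where
  carrier := {f | (∀ r, ∑ e, M r e * f e = 0) ∧ ∀ e, jj e ∈ S → f e = 0}
  add_mem' := by
    intro f g hf hg
    refine ⟨(solM M).add_mem hf.1 hg.1, fun e he => ?_⟩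
    show f e + g e = 0
    rw [hf.2 e he, hg.2 e he, add_zero]
  zero_mem' := ⟨(solM M).zero_mem, fun _ _ => rfl⟩
  smul_mem' := by
    intro a f hf
    refine ⟨(solM M).smul_mem a hf.1, fun e he => ?_⟩
    show a * f e = 0
    rw [hf.2 e he, mul_zero]

private theorem step (M : Matrix ρ E K) (jj : E → ι) (jr : ρ → ι) (sz : ι → ℕ)
    (h : ∀ r e, M r e ≠ 0 → jj e = jr r ∨ sz (jj e) < sz (jr r)) (JJ : Finset ι)
    (hJJ : ∀ e, jj e ∈ JJ) (S : Finset ι) (a : ι) (hS : ∀ J ∈ JJ, sz J < sz a → J ∈ S) :
    Module.finrank K (US M jj S) ≤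
      Module.finrank K (solM (blkJ M jj jr a)) + Module.finrank K (US M jj (insert a S)) := by
  classical
  let L : US M jj S →ₗ[K] ({e // jj e = a} → K) :=
    { toFun := fun f e => f.1 e.1
      map_add' := fun _ _ => rfl
      map_smul' := fun _ _ => rfl }
  have hL : ∀ f, L f ∈ solM (blkJ M jj jr a) := by
    rintro ⟨f, hf1, hf2⟩ ⟨r, hr⟩
    show ∑ e : {e // jj e = a}, M r e.1 * f e.1 = 0
    rw [← hf1 r]
    have h1 : ∑ e, M r e * f e = ∑ e ∈ univ.filter (fun e => jj e = a), M r e * f e := by
      refine (sum_subset (subset_univ _) fun e _ he => ?_).symm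
      rw [mem_filter, not_and] at he
      have he' : jj e ≠ a := he (mem_univ e)
      by_cases hm : M r e = 0
      · rw [hm, zero_mul]
      · rcases h r e hm with h2 | h2
        · exact absurd (h2.trans hr) he'
        · rw [hr] at h2
          rw [hf2 e (hS _ (hJJ e) h2), mul_zero]
    rw [h1]
    exact (sum_subtype (univ.filter fun e => jj e = a)
      (fun e => by rw [mem_filter]; exact ⟨fun h => h.2, fun h => ⟨mem_univ e, h⟩⟩)
      (fun e => M r e * f e)).symm
  have h1 := LinearMap.finrank_range_add_finrank_ker L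
  rw [← h1]
  refine Nat.add_le_add ?_ ?_
  · refine Submodule.finrank_mono ?_
    rintro _ ⟨f, rfl⟩
    exact hL f
  · let G : LinearMap.ker L →ₗ[K] US M jj (insert a S) :=
      { toFun := fun f => ⟨f.1.1, f.1.2.1, fun e he => by
          rcases mem_insert.1 he with he | he
          · have h2 : L f.1 = 0 := f.2
            exact congrFun h2 ⟨e, he⟩
          · exact f.1.2.2 e he⟩
        map_add' := fun _ _ => rfl
        map_smul' := fun _ _ => rfl }
    refine LinearMap.finrank_le_finrank_of_injective (f := G) fun f g hfg => ?_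
    have h2 : (G f).1 = (G g).1 := congrArg Subtype.val hfg
    exact Subtype.ext (Subtype.ext h2)

/-- **The filtration.** -/
theorem finrank_solM_le (M : Matrix ρ E K) (jj : E → ι) (jr : ρ → ι) (sz : ι → ℕ)
    (h : ∀ r e, M r e ≠ 0 → jj e = jr r ∨ sz (jj e) < sz (jr r)) (JJ : Finset ι)
    (hJJ : ∀ e, jj e ∈ JJ) :
    Module.finrank K (solM M) ≤ ∑ J ∈ JJ, Module.finrank K (solM (blkJ M jj jr J)) := by
  classical
  have key : ∀ S : Finset ι, (∀ J ∈ JJ, J ∉ S → ∀ x ∈ S, sz x ≤ sz J) →
      Module.finrank K (solM M) ≤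
        ∑ J ∈ S, Module.finrank K (solM (blkJ M jj jr J)) + Module.finrank K (US M jj S) := by
    intro S
    induction S using Finset.induction_on_max_value sz with
    | empty =>
      intro _
      rw [sum_empty, zero_add]
      refine Submodule.finrank_mono fun f hf => ⟨hf, fun e he => ?_⟩
      exact absurd he (notMem_empty _)
    | insert a S ha hmax ih =>
      intro hlow
      have h1 : ∀ J ∈ JJ, J ∉ S → ∀ x ∈ S, sz x ≤ sz J := by
        intro J hJJ' hJ x hx
        by_cases hJa : J = a
        · rw [hJa]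
          exact hmax x hx
        · exact hlow J hJJ' (fun h2 => (mem_insert.1 h2).elim hJa hJ) x (mem_insert_of_mem hx)
      have h2 : ∀ J ∈ JJ, sz J < sz a → J ∈ S := by
        intro J hJJ' hJ
        by_contra h3
        have h4 : J ≠ a := fun h5 => by rw [h5] at hJ; exact lt_irrefl _ hJ
        have h5 := hlow J hJJ' (fun h2 => (mem_insert.1 h2).elim h4 h3) a (mem_insert_self a S)
        omega
      have h3 := step M jj jr sz h JJ hJJ S a h2
      have h4 := ih h1
      rw [sum_insert ha]
      omega
  have h1 := key JJ fun J hJ hJ' => absurd hJ hJ'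
  have h2 : Module.finrank K (US M jj JJ) = 0 := by
    have h3 : US M jj JJ = ⊥ := by
      rw [eq_bot_iff]
      intro f hf
      rw [Submodule.mem_bot]
      funext e
      exact hf.2 e (hJJ e)
    rw [h3, finrank_bot]
  omega

/-- The filtration with ranks. -/
theorem finrank_solM_add_le (M : Matrix ρ E K) (jj : E → ι) (jr : ρ → ι) (sz : ι → ℕ)
    (h : ∀ r e, M r e ≠ 0 → jj e = jr r ∨ sz (jj e) < sz (jr r)) (JJ : Finset ι)
    (hJJ : ∀ e, jj e ∈ JJ) :
    Module.finrank K (solM M) + ∑ J ∈ JJ, (blkJ M jj jr J).rank ≤ Fintype.card E := by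
  classical
  have h1 := finrank_solM_le M jj jr sz h JJ hJJ
  have h2 : ∑ J ∈ JJ, Module.finrank K (solM (blkJ M jj jr J)) +
      ∑ J ∈ JJ, (blkJ M jj jr J).rank = Fintype.card E := by
    rw [← sum_add_distrib]
    have h3 : ∀ J, Module.finrank K (solM (blkJ M jj jr J)) + (blkJ M jj jr J).rank =
        Fintype.card {e // jj e = J} := fun J => finrank_solM _
    rw [sum_congr rfl fun J _ => h3 J]
    have h4 : ∀ J, Fintype.card {e // jj e = J} = (univ.filter fun e => jj e = J).card :=
      fun J => Fintype.card_subtype _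
    rw [sum_congr rfl fun J _ => h4 J, ← card_univ]
    exact (card_eq_sum_card_fiberwise fun e _ => mem_coe.2 (hJJ e)).symm
  omega

/-- The filtration with lower bounds of the ranks. -/
theorem finrank_solM_add_le' (M : Matrix ρ E K) (jj : E → ι) (jr : ρ → ι) (sz : ι → ℕ)
    (h : ∀ r e, M r e ≠ 0 → jj e = jr r ∨ sz (jj e) < sz (jr r)) (JJ : Finset ι)
    (hJJ : ∀ e, jj e ∈ JJ) (rk : ι → ℕ) (hrk : ∀ J ∈ JJ, rk J ≤ (blkJ M jj jr J).rank) :
    Module.finrank K (solM M) + ∑ J ∈ JJ, rk J ≤ Fintype.card E :=
  (Nat.add_le_add_left (sum_le_sum hrk) _).trans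
    (finrank_solM_add_le M jj jr sz h JJ hJJ)

end

end Pool.Agent.KZ
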