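import Pool.Agent.KZ.AL.Des
import Pool.Agent.KZ.AL.DropL

/-!
# KZ4, ALPHA: the main statements
-/

set_option autoImplicit false

namespace Pool.Agent.KZ

open Pool.Agent.KZ.AL

theorem Fin.xx_lt : xx < 18351 / 100000 := by
  unfold xx
  have h : (81649 : ℝ) / 100000 < Real.sqrt (2 / 3) := by
    refine Real.lt_sqrt_of_sq_lt ?_
    norm_num
  linarith

/-- The configuration and the full one. -/
theorem Fin.down2 {h n : ℕ} {a : L2} (t : Bool) (h60 : 60 ≤ h) (h6 : 6 ∣ h)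
    (hn : 1000 * (h * h) ≤ n) (hs : Sm2 (4 * h) n a) (hx : a.x = 0)
    (hT : a.T ≤ (if t then 3 else 4) * h * h)
    (hU : a.U ≤ (if t then 4 else 3) * h * (n / 4 - 2 * h))
    (hY : a.Y ≤ 3 * h * (n / 4 - 2 * h)) : (H2 (4 * h) n a : ℤ) ≤ v2 (4 * h) n a := by
  obtain ⟨m, rfl⟩ := h6
  have hn1 : 60000 * (6 * m) ≤ n := by
    refine le_trans ?_ hn
    calc 60000 * (6 * m) = 1000 * (60 * (6 * m)) := by ring
      _ ≤ 1000 * ((6 * m) * (6 * m)) :=
        Nat.mul_le_mul_left _ (Nat.mul_le_mul_right _ h60)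
  have s1 := hs.p
  have s2 := hs.q
  have s3 := hs.r
  have s4 := hs.d
  have s5 := hs.py
  have s6 := hs.qy
  have s7 := hs.z
  have s8 := hs.pu
  have s9 := hs.w
  have hR : Rm2 n (6 * m) a :=
    { hh := by omega
      hn := by omega
      p := by omega
      q := by omega
      r := by omega
      pu := by omega
      py := by omega
      qy := by omega
      d := by omega
      z := by omega
      w := by omega }
  have hdes := des2 t n (6 * m) a hR
  set h := 6 * m with hh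
  have hT' : (if t then 3 else 4) * h * h ≤ 4 * (h * h) := by
    split_ifs <;> nlinarith
  have hU' : (if t then 4 else 3) * h * (n / 4 - 2 * h) ≤ 4 * h * (n / 4 - 2 * h) := by
    split_ifs
    · exact le_rfl
    · exact Nat.mul_le_mul_right _ (Nat.mul_le_mul_right _ (by norm_num))
  obtain ⟨N, hN⟩ : ∃ N, n = N + 8 * h := ⟨n - 8 * h, by omega⟩
  have hN1 : 4 * (n / 4 - 2 * h) ≤ N := by omega
  have hN2 : n - 2 * (4 * h) = N := by omega
  have hN3 : 50000 * h ≤ N := by omega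
  have hhN : 60 * N ≤ h * N := Nat.mul_le_mul_right _ h60
  have hhh : h * (50000 * h) ≤ h * N := Nat.mul_le_mul_left _ hN3
  have hd : Dr2 (4 * h) n (full2 t n h a) :=
    { hc := by omega
      hn := by omega
      A := by
        show 3 * (a.p + a.q) + 3 * (4 * h) ≤ 9 * (4 * h)
        omega
      B := by
        show 3 * a.r + 3 * (4 * h - 9) +
          ((if t then 3 else 4) * h * h - (2 * a.p + 3 * a.q + 3 * a.r)) ≤ (4 * h - 9) * (4 * h)
        have h1 : (if t then 3 else 4) * h * h - (2 * a.p + 3 * a.q + 3 * a.r) ≤ 4 * (h * h) :=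
          (Nat.sub_le _ _).trans hT'
        obtain ⟨l, hl⟩ : ∃ l, h = l + 60 := ⟨h - 60, by omega⟩
        have h2 : 4 * h - 9 = 4 * l + 231 := by omega
        rw [h2]
        have h3 : h * h = l * l + 120 * l + 3600 := by rw [hl]; ring
        have h4 : (4 * l + 231) * (4 * h) = 16 * (l * l) + 1884 * l + 55440 := by rw [hl]; ring
        rw [h4]
        omega
      U := by
        show 3 * a.pu + 3 * (4 * h) + ((if t then 4 else 3) * h * (n / 4 - 2 * h) - 2 * a.pu) ≤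
          4 * h * (n - 2 * (4 * h))
        rw [hN2]
        have h1 : (if t then 4 else 3) * h * (n / 4 - 2 * h) - 2 * a.pu ≤ h * N := by
          refine (Nat.sub_le _ _).trans (hU'.trans ?_)
          calc 4 * h * (n / 4 - 2 * h) = h * (4 * (n / 4 - 2 * h)) := by ring
            _ ≤ h * N := Nat.mul_le_mul_left _ hN1
        have h2 : 4 * h * N = 4 * (h * N) := by ring
        rw [h2]
        omega
      Y := by
        show 3 * (a.py + a.qy) + 3 * (4 * h) + (3 * h * (n / 4 - 2 * h) - (2 * a.py + 3 * a.qy)) ≤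
          4 * h * (n - 2 * (4 * h))
        rw [hN2]
        have h1 : 3 * h * (n / 4 - 2 * h) - (2 * a.py + 3 * a.qy) ≤ h * N := by
          refine (Nat.sub_le _ _).trans ?_
          calc 3 * h * (n / 4 - 2 * h) ≤ 4 * h * (n / 4 - 2 * h) :=
                Nat.mul_le_mul_right _ (Nat.mul_le_mul_right _ (by norm_num))
            _ = h * (4 * (n / 4 - 2 * h)) := by ring
            _ ≤ h * N := Nat.mul_le_mul_left _ hN1
        have h2 : 4 * h * N = 4 * (h * N) := by ring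
        rw [h2]
        omega }
  refine H2_down hd rfl ?_ ?_ ?_ ?_ hdes
  · obtain ⟨t', p, q, r, u, pu, y, py, qy, x, d, w, z⟩ := a
    have hx' : x = 0 := hx
    subst hx'
    rfl
  · show a.t ≤ (if t then 3 else 4) * h * h - (2 * a.p + 3 * a.q + 3 * a.r)
    have h1 : a.T = a.t + 2 * a.p + 3 * a.q + 3 * a.r := rfl
    omega
  · show a.u ≤ (if t then 4 else 3) * h * (n / 4 - 2 * h) - 2 * a.pu
    have h1 : a.U = a.u + 2 * a.pu := rfl
    omega
  · show a.y ≤ 3 * h * (n / 4 - 2 * h) - (2 * a.py + 3 * a.qy)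
    have h1 : a.Y = a.y + 2 * a.py + 3 * a.qy := rfl
    omega

theorem alpha2 (c : ℕ) (h : 240 ∣ c) (hc : 240 ≤ c) : ALPHA2 c := by
  obtain ⟨m, rfl⟩ := h
  have hm : 1 ≤ m := by omega
  set h := 60 * m with hh
  have hc4 : 240 * m = 4 * h := by omega
  have h60 : 60 ≤ h := by omega
  refine ⟨1 / 10, by norm_num, 1000 * (h * h), fun n hn k hk a ha hx => ?_⟩
  rw [hc4] at ha ⊢
  have hxx := Fin.xx_lt
  have hhR : (60 : ℝ) ≤ h := by exact_mod_cast h60
  have hnR : 1000 * ((h : ℝ) * h) ≤ n := by exact_mod_cast hn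
  have hn0 : (0 : ℝ) ≤ n := Nat.cast_nonneg n
  have hn8 : 8 * h + 4 ≤ n := by nlinarith
  -- the number of blocks
  have hq : (n : ℝ) / 4 - 3 / 4 - 2 * h ≤ ((n / 4 - 2 * h : ℕ) : ℝ) := by
    have h1 : n ≤ 4 * (n / 4 - 2 * h) + 8 * h + 3 := by omega
    have h2 : (n : ℝ) ≤ 4 * ((n / 4 - 2 * h : ℕ) : ℝ) + 8 * h + 3 := by exact_mod_cast h1
    linarith
  have hU := (abs_le.1 ha.U).2
  have hY := (abs_le.1 ha.Y).2
  push_cast at hU hY
  have hYn : a.Y ≤ 3 * h * (n / 4 - 2 * h) := by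
    have h1 : (a.Y : ℝ) ≤ 3 * h * ((n / 4 - 2 * h : ℕ) : ℝ) := by
      have h2 : xx * (4 * h) * n ≤ 18351 / 100000 * (4 * h) * n := by gcongr
      have h3 : 3 * (h : ℝ) * ((n : ℝ) / 4 - 3 / 4 - 2 * h) ≤
        3 * h * ((n / 4 - 2 * h : ℕ) : ℝ) := by gcongr
      nlinarith
    exact_mod_cast h1
  rcases hk with rfl | rfl
  · refine Fin.down2 false h60 ⟨10 * m, by omega⟩ hn ha.toSm2 hx ?_ ?_ hYn
    · have h1 := ha.T
      have h2 : (4 * h) ^ 2 = 16 * (h * h) := by ring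
      have h3 : (if false = true then 3 else 4) * h * h = 4 * (h * h) := by
        rw [if_neg (by decide)]
        ring
      rw [h3]
      omega
    · rw [if_neg (by decide)]
      have h1 : (a.U : ℝ) ≤ 3 * h * ((n / 4 - 2 * h : ℕ) : ℝ) := by
        have h2 : (3 * xx - 1 / 5) / 2 * (4 * h) * n ≤
            (3 * (18351 / 100000) - 1 / 5) / 2 * (4 * h) * n := by gcongr
        have h3 : 3 * (h : ℝ) * ((n : ℝ) / 4 - 3 / 4 - 2 * h) ≤
          3 * h * ((n / 4 - 2 * h : ℕ) : ℝ) := by gcongr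
        nlinarith
      exact_mod_cast h1
  · refine Fin.down2 true h60 ⟨10 * m, by omega⟩ hn ha.toSm2 hx ?_ ?_ hYn
    · have h1 := ha.T
      have h2 : (4 * h) ^ 2 = 16 * (h * h) := by ring
      have h3 : (if true = true then 3 else 4) * h * h = 3 * (h * h) := by
        rw [if_pos rfl]
        ring
      rw [h3]
      omega
    · rw [if_pos rfl]
      have h1 : (a.U : ℝ) ≤ 4 * h * ((n / 4 - 2 * h : ℕ) : ℝ) := by
        have h2 : (3 * xx - 1 / 6) / 2 * (4 * h) * n ≤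
            (3 * (18351 / 100000) - 1 / 6) / 2 * (4 * h) * n := by gcongr
        have h3 : 4 * (h : ℝ) * ((n : ℝ) / 4 - 3 / 4 - 2 * h) ≤
          4 * h * ((n / 4 - 2 * h : ℕ) : ℝ) := by gcongr
        nlinarith
      exact_mod_cast h1

theorem alpha1 (c : ℕ) (h : 240 ∣ c) (hc : 240 ≤ c) : ALPHA1 c := by
  obtain ⟨m, rfl⟩ := h
  have hm : 1 ≤ m := by omega
  set h := 60 * m with hh
  have hc4 : 240 * m = 4 * h := by omega
  have h60 : 60 ≤ h := by omega
  refine ⟨1 / 10, by norm_num, 1000 * (h * h), fun n hn a ha hu hs0 => ?_⟩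
  rw [hc4] at ha ⊢
  have hs := ha.toSm1
  have hxx := Fin.xx_lt
  have hhR : (60 : ℝ) ≤ h := by exact_mod_cast h60
  have hnR : 1000 * ((h : ℝ) * h) ≤ n := by exact_mod_cast hn
  have hn0 : (0 : ℝ) ≤ n := Nat.cast_nonneg n
  have hn1 : 60000 * h ≤ n := by
    refine le_trans ?_ hn
    calc 60000 * h = 1000 * (60 * h) := by ring
      _ ≤ 1000 * (h * h) := Nat.mul_le_mul_left _ (Nat.mul_le_mul_right _ h60)
  have s1 := hs.p
  have s2 := hs.q
  have s3 := hs.d
  have s4 := hs.w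
  have hR : Rm1 n h a :=
    { hh := by omega
      hn := by omega
      p := by omega
      q := by omega
      d := by omega
      w := by omega }
  have hdes := des1 n h a hR
  have hq : (n : ℝ) / 4 - 3 / 4 - h ≤ ((n / 4 - h : ℕ) : ℝ) := by
    have h1 : n ≤ 4 * (n / 4 - h) + 4 * h + 3 := by omega
    have h2 : (n : ℝ) ≤ 4 * ((n / 4 - h : ℕ) : ℝ) + 4 * h + 3 := by exact_mod_cast h1
    linarith
  have hT' := (abs_le.1 ha.T).2
  push_cast at hT'
  have hTn : a.T ≤ 4 * h * (n / 4 - h) := by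
    have h1 : (a.T : ℝ) ≤ 4 * h * ((n / 4 - h : ℕ) : ℝ) := by
      have h2 : xx * (4 * h) * n ≤ 18351 / 100000 * (4 * h) * n := by gcongr
      have h3 : 4 * (h : ℝ) * ((n : ℝ) / 4 - 3 / 4 - h) ≤
        4 * h * ((n / 4 - h : ℕ) : ℝ) := by gcongr
      nlinarith
    exact_mod_cast h1
  have hTa : a.T = a.t + 2 * a.p + 3 * a.q := rfl
  set i := 4 * h * (n / 4 - h) - (2 * a.p + 3 * a.q) - a.t with hi
  have hfull : full1 n h a = a.at i := by
    obtain ⟨t, p, q, u, d, w, s⟩ := a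
    have hu' : u = 0 := hu
    have hs' : s = 0 := hs0
    subst hu' hs'
    show (⟨4 * h * (n / 4 - h) - (2 * p + 3 * q), p, q, 0, d, w, 0⟩ : L1) =
      ⟨t + i, p, q, 0, d, w, 0⟩
    congr 1
    have e1 : i = 4 * h * (n / 4 - h) - (2 * p + 3 * q) - t := hi
    have e2 : (⟨t, p, q, 0, d, w, 0⟩ : L1).T = t + 2 * p + 3 * q := rfl
    rw [e2] at hTn
    omega
  rw [hfull] at hdes
  refine H1_down i a hu ⟨by omega, by omega, ?_⟩ hdes
  show 3 * (a.p + a.q) + 3 * (4 * h) + (a.t + i) ≤ 4 * h * (n - 4 * h)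
  obtain ⟨N, hN⟩ : ∃ N, n = N + 4 * h := ⟨n - 4 * h, by omega⟩
  have hN1 : 4 * (n / 4 - h) ≤ N := by omega
  have hN2 : n - 4 * h = N := by omega
  have hN3 : 50000 * h ≤ N := by omega
  have hhN : 60 * N ≤ h * N := Nat.mul_le_mul_right _ h60
  have h1 : 4 * h * (n / 4 - h) ≤ h * N := by
    calc 4 * h * (n / 4 - h) = h * (4 * (n / 4 - h)) := by ring
      _ ≤ h * N := Nat.mul_le_mul_left _ hN1
  have h2 : 4 * h * N = 4 * (h * N) := by ring
  rw [hN2, h2]
  omega

end Pool.Agent.KZ
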