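import Pool.Agent.KZ.AL.Alg
import Pool.Agent.KZ.AL.Filt

/-!
# KZ4, ALPHA: from the claims for all labels to the dimension
-/

set_option autoImplicit false

namespace Pool.Agent.KZ.AL

open Finset

theorem bl_lt {n s : ℕ} (h : s < n) : bl n s < n / 4 + n % 4 := by
  unfold bl
  split_ifs <;> omega

theorem mem_mons {n : ℕ} {e : Multiset ℕ} :
    e ∈ mons n ↔ Multiset.card e = 4 ∧ ∀ s ∈ e, s < n := by
  unfold mons
  rw [mem_image]
  constructor
  · rintro ⟨m, hm, rfl⟩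
    refine ⟨m.2, fun s hs => ?_⟩
    exact mem_range.1 (mem_sym_iff.1 hm s hs)
  · rintro ⟨h1, h2⟩
    exact ⟨⟨e, h1⟩, mem_sym_iff.2 fun s hs => mem_range.2 (h2 s hs), rfl⟩

theorem mem_lb {n : ℕ} {e : Multiset ℕ} {b : ℕ} : b ∈ lb n e ↔ ∃ s ∈ e, bl n s = b := by
  unfold lb
  rw [mem_image]
  constructor
  · rintro ⟨s, hs, h⟩
    exact ⟨s, Multiset.mem_toFinset.1 hs, h⟩
  · rintro ⟨s, hs, h⟩
    exact ⟨s, Multiset.mem_toFinset.2 hs, h⟩

/-- The label of a row. -/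
def rl (n : ℕ) : Rw → Finset ℕ
  | .inl r => {r.1.1, r.1.2.1, bl n r.2.1, bl n r.2.2}
  | .inr (.inl r) => {r.1.1, r.1.2.1, bl n r.2}
  | .inr (.inr r) => insert (bl n r.2) r.1.2.1

/-- The rows of all labels. -/
def Dg.rb (D : Dg) : Rw → Prop
  | .inl r => (r.1 ∈ D.TP ∧ r.2.1 < D.n ∧ r.2.2 < D.n) ∧ r.2.1 ≤ r.2.2
  | .inr (.inl r) => r.1 ∈ D.Fr ∧ r.2 < D.n
  | .inr (.inr r) => (r.1 ∈ D.Sp ∧ r.2 < D.n) ∧ r.1.2.1.card = 2 ∧ bl D.n r.2 ≠ r.1.1

theorem Dg.mem_rows (D : Dg) (J : Finset ℕ) (r : Rw) :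
    r ∈ D.rows J ↔ D.rb r ∧ rl D.n r = J := by
  unfold Dg.rows
  rcases r with r | r | r
  · rw [inl_mem_disjSum]
    unfold Dg.RT
    rw [mem_filter, mem_product, mem_product, mem_range, mem_range]
    show _ ↔ ((r.1 ∈ D.TP ∧ r.2.1 < D.n ∧ r.2.2 < D.n) ∧ r.2.1 ≤ r.2.2) ∧
      ({r.1.1, r.1.2.1, bl D.n r.2.1, bl D.n r.2.2} : Finset ℕ) = J
    tauto
  · rw [inr_mem_disjSum, inl_mem_disjSum]
    unfold Dg.RF
    rw [mem_filter, mem_product, mem_range]
    exact Iff.rfl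
  · rw [inr_mem_disjSum, inr_mem_disjSum]
    unfold Dg.RG
    rw [mem_filter, mem_product, mem_range]
    show _ ↔ ((r.1 ∈ D.Sp ∧ r.2 < D.n) ∧ r.1.2.1.card = 2 ∧ bl D.n r.2 ≠ r.1.1) ∧
      insert (bl D.n r.2) r.1.2.1 = J
    tauto

private theorem Full.sT_ne {n : ℕ} {v : ℕ → ℂ} {x y : ℕ} {e : Multiset ℕ} (h : sT n v x y e ≠ 0) :
    ∃ a b, v a ≠ 0 ∧ v b ≠ 0 ∧ ({a, b, x, y} : Multiset ℕ) = e := by
  unfold sT at h
  obtain ⟨a, -, ha⟩ := exists_ne_zero_of_sum_ne_zero h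
  obtain ⟨b, -, hb⟩ := exists_ne_zero_of_sum_ne_zero ha
  by_cases h1 : ({a, b, x, y} : Multiset ℕ) = e
  · rw [if_pos h1] at hb
    exact ⟨a, b, left_ne_zero_of_mul hb, right_ne_zero_of_mul hb, h1⟩
  · exact absurd (if_neg h1) hb

private theorem Full.sD_ne {n : ℕ} {v : ℕ → ℂ} {x : ℕ} {e : Multiset ℕ} (h : sD n v x e ≠ 0) :
    ∃ a b c, v a ≠ 0 ∧ v b ≠ 0 ∧ v c ≠ 0 ∧ ({a, b, c, x} : Multiset ℕ) = e := by
  unfold sD at h
  obtain ⟨a, -, ha⟩ := exists_ne_zero_of_sum_ne_zero h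
  obtain ⟨b, -, hb⟩ := exists_ne_zero_of_sum_ne_zero ha
  obtain ⟨c, -, hc⟩ := exists_ne_zero_of_sum_ne_zero hb
  by_cases h1 : ({a, b, c, x} : Multiset ℕ) = e
  · rw [if_pos h1] at hc
    exact ⟨a, b, c, left_ne_zero_of_mul (left_ne_zero_of_mul hc),
      right_ne_zero_of_mul (left_ne_zero_of_mul hc), right_ne_zero_of_mul hc, h1⟩
  · exact absurd (if_neg h1) hc

theorem gv_ne (D : Dg) {p : Pos ℂ} (hp : D.Good p) {S : ℕ × Finset ℕ × ℕ} (hS : S ∈ D.Sp) {x : ℕ}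
    (h : gv p S x ≠ 0) : bl D.n x ∈ S.2.1 := by
  have h0 := h
  unfold gv at h
  obtain ⟨B, hB, hB'⟩ := exists_ne_zero_of_sum_ne_zero h
  have h1 := hp.v _ _ hB'
  have h2 : bl D.n x = S.1 ∨ bl D.n x = B := by
    rcases h1 with h1 | h1
    · have h3 : bl D.n x = min S.1 B := h1
      rcases min_choice S.1 B with h4 | h4
      · exact Or.inl (h3.trans h4)
      · exact Or.inr (h3.trans h4)
    · have h3 : bl D.n x = max S.1 B := h1
      rcases max_choice S.1 B with h4 | h4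
      · exact Or.inl (h3.trans h4)
      · exact Or.inr (h3.trans h4)
  rcases h2 with h2 | h2
  · exact absurd (hp.s S hS x h2) h0
  · rw [h2]
    exact hB

private theorem Full.val_sub (D : Dg) {p : Pos ℂ} (hp : D.Good p) {r : Rw} (hr : D.rb r)
    {e : Multiset ℕ} (h : D.val p r e ≠ 0) : lb D.n e ⊆ rl D.n r := by
  rcases r with r | r | r
  · obtain ⟨a, b, ha, hb, rfl⟩ := Full.sT_ne (n := D.n) (v := p.1 r.1) h
    intro c hc
    obtain ⟨s, hs, rfl⟩ := mem_lb.1 hc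
    show bl D.n s ∈ ({r.1.1, r.1.2.1, bl D.n r.2.1, bl D.n r.2.2} : Finset ℕ)
    simp only [Multiset.insert_eq_cons, Multiset.mem_cons, Multiset.mem_singleton] at hs
    simp only [mem_insert, mem_singleton]
    rcases hs with rfl | rfl | rfl | rfl
    · rcases hp.v _ _ ha with h1 | h1
      · exact Or.inl h1
      · exact Or.inr (Or.inl h1)
    · rcases hp.v _ _ hb with h1 | h1
      · exact Or.inl h1
      · exact Or.inr (Or.inl h1)
    · exact Or.inr (Or.inr (Or.inl rfl))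
    · exact Or.inr (Or.inr (Or.inr rfl))
  · obtain ⟨a, b, c, ha, hb, hc, rfl⟩ := Full.sD_ne (n := D.n) (v := p.2 r.1) h
    intro d hd
    obtain ⟨s, hs, rfl⟩ := mem_lb.1 hd
    show bl D.n s ∈ ({r.1.1, r.1.2.1, bl D.n r.2} : Finset ℕ)
    simp only [Multiset.insert_eq_cons, Multiset.mem_cons, Multiset.mem_singleton] at hs
    simp only [mem_insert, mem_singleton]
    rcases hs with rfl | rfl | rfl | rfl
    · rcases hp.u _ _ ha with h1 | h1
      · exact Or.inl h1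
      · exact Or.inr (Or.inl h1)
    · rcases hp.u _ _ hb with h1 | h1
      · exact Or.inl h1
      · exact Or.inr (Or.inl h1)
    · rcases hp.u _ _ hc with h1 | h1
      · exact Or.inl h1
      · exact Or.inr (Or.inl h1)
    · exact Or.inr (Or.inr rfl)
  · obtain ⟨a, b, c, ha, hb, hc, rfl⟩ := Full.sD_ne (n := D.n) (v := gv p r.1) h
    intro d hd
    obtain ⟨s, hs, rfl⟩ := mem_lb.1 hd
    show bl D.n s ∈ insert (bl D.n r.2) r.1.2.1
    simp only [Multiset.insert_eq_cons, Multiset.mem_cons, Multiset.mem_singleton] at hs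
    have hS : r.1 ∈ D.Sp := hr.1.1
    rcases hs with rfl | rfl | rfl | rfl
    · exact mem_insert_of_mem (gv_ne D hp hS ha)
    · exact mem_insert_of_mem (gv_ne D hp hS hb)
    · exact mem_insert_of_mem (gv_ne D hp hS hc)
    · exact mem_insert_self _ _

/-- The value of a row at a form. -/
private theorem Full.row_zero (D : Dg) (hD : D.WF) (lv : ℕ) {p : Pos ℂ} {r : Rw} (hr : D.rb r)
    {F : Multiset ℕ → ℂ} (hF : F ∈ D.sol lv p) : ∑ e ∈ D.ad lv, D.val p r e * F e = 0 := by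
  obtain ⟨h1, h2, h3⟩ := hF
  rcases r with r | r | r
  · have h4 := sum_sT D.n (p.1 r.1) r.2.1 r.2.2 (D.ad lv) F h1
    exact h4.trans (h2 _ hr.1.1 _ hr.1.2.1 _ hr.1.2.2)
  · have h4 := sum_sD D.n (p.2 r.1) r.2 (D.ad lv) F h1
    exact h4.trans (h3 _ hr.1 _ hr.2)
  · have h4 := sum_sD D.n (gv p r.1) r.2 (D.ad lv) F h1
    refine h4.trans ?_
    obtain ⟨⟨hS, hx⟩, hc, -⟩ := hr
    obtain ⟨A, B, hAB, hl⟩ := card_eq_two.1 hc
    have h5 : gv p r.1 = fun s => p.1 (pn r.1.1 A r.1.2.2) s + p.1 (pn r.1.1 B r.1.2.2) s := by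
      funext s
      unfold gv
      rw [hl, sum_pair hAB]
    rw [h5]
    have hA := hD.c3 _ hS A (by rw [hl]; exact mem_insert_self _ _)
    have hB := hD.c3 _ hS B (by rw [hl]; exact mem_insert_of_mem (mem_singleton_self _))
    exact fD_add_pt D.n _ _ F (fun x hx y hy => h2 _ hA x hx y hy)
      (fun x hx y hy => h2 _ hB x hx y hy) _ hx

/-! ### Sums over the labels -/

theorem Dg.TP_lt (D : Dg) {τ : ℕ × ℕ × ℕ} (h : τ ∈ D.TP) : τ.1 < D.nb ∧ τ.2.1 < D.nb := by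
  unfold Dg.TP at h
  have h1 := (mem_filter.1 h).1
  rw [mem_product, mem_product, mem_range, mem_range] at h1
  exact ⟨h1.1, h1.2.1⟩

theorem Dg.Sp_lt (D : Dg) (hD : D.WF) {S : ℕ × Finset ℕ × ℕ} (h : S ∈ D.Sp) :
    S.1 < D.nb ∧ ∀ B ∈ S.2.1, B < D.nb := by
  have h1 : ∀ B ∈ S.2.1, S.1 < D.nb ∧ B < D.nb := by
    intro B hB
    have h2 := D.TP_lt (hD.c3 S h B hB)
    have h3 : min S.1 B < D.nb := h2.1
    have h4 : max S.1 B < D.nb := h2.2
    exact ⟨lt_of_le_of_lt (le_max_left _ _) h4, lt_of_le_of_lt (le_max_right _ _) h4⟩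
  have h2 : S.2.1.Nonempty := by
    rw [← card_pos]
    rcases hD.c2 S h with h3 | h3 <;> omega
  obtain ⟨B, hB⟩ := h2
  exact ⟨(h1 B hB).1, fun B hB => (h1 B hB).2⟩

theorem Dg.mem_jj (D : Dg) {lv : ℕ} {J : Finset ℕ} :
    J ∈ D.jj lv ↔ J ⊆ range D.nb ∧ D.adm lv J := by
  unfold Dg.jj
  rw [mem_filter, mem_powerset]

private theorem Full.sum_card {α : Type} [DecidableEq α] (D : Dg) (lv : ℕ) (s : Finset α)
    (P : α → Prop) [DecidablePred P] (f : α → Finset ℕ)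
    (hf : ∀ a ∈ s, P a → f a ⊆ range D.nb) :
    ∑ J ∈ D.jj lv, (s.filter fun a => P a ∧ f a = J).card =
      (s.filter fun a => P a ∧ D.adm lv (f a)).card := by
  rw [card_eq_sum_card_fiberwise (f := f) (t := D.jj lv)
    (s := s.filter fun a => P a ∧ D.adm lv (f a))]
  · refine sum_congr rfl fun J hJ => ?_
    rw [filter_filter]
    congr 1
    refine filter_congr fun a _ => ?_
    constructor
    · rintro ⟨h1, h2⟩
      refine ⟨⟨h1, ?_⟩, h2⟩
      rw [h2]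
      exact (D.mem_jj.1 hJ).2
    · rintro ⟨⟨h1, -⟩, h2⟩
      exact ⟨h1, h2⟩
  · intro a ha
    have h1 := mem_filter.1 (mem_coe.1 ha)
    exact mem_coe.2 (D.mem_jj.2 ⟨hf a h1.1 h1.2.1, h1.2.2⟩)

private theorem Full.sub4 {D : Dg} {a b c d : ℕ} (ha : a < D.nb) (hb : b < D.nb) (hc : c < D.nb)
    (hd : d < D.nb) : ({a, b, c, d} : Finset ℕ) ⊆ range D.nb := by
  intro x hx
  simp only [mem_insert, mem_singleton] at hx
  rw [mem_range]
  rcases hx with rfl | rfl | rfl | rfl <;> assumption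

private theorem Full.sub3 {D : Dg} {a b c : ℕ} (ha : a < D.nb) (hb : b < D.nb) (hc : c < D.nb) :
    ({a, b, c} : Finset ℕ) ⊆ range D.nb := by
  intro x hx
  simp only [mem_insert, mem_singleton] at hx
  rw [mem_range]
  rcases hx with rfl | rfl | rfl <;> assumption

theorem Dg.sum_RT (D : Dg) (lv : ℕ) : ∑ J ∈ D.jj lv, (D.RT J).card = D.cRT lv :=
  Full.sum_card D lv (D.TP ×ˢ range D.n ×ˢ range D.n)
    (fun r => r.2.1 ≤ r.2.2) (fun r => {r.1.1, r.1.2.1, bl D.n r.2.1, bl D.n r.2.2})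
    fun r hr _ => by
      rw [mem_product, mem_product, mem_range, mem_range] at hr
      exact Full.sub4 (D.TP_lt hr.1).1 (D.TP_lt hr.1).2 (bl_lt hr.2.1) (bl_lt hr.2.2)

theorem Dg.sum_RF (D : Dg) (hD : D.WF) (lv : ℕ) : ∑ J ∈ D.jj lv, (D.RF J).card = D.cRF lv := by
  have h1 := Full.sum_card D lv (D.Fr ×ˢ range D.n)
    (fun _ => True) (fun r => {r.1.1, r.1.2.1, bl D.n r.2})
    fun r hr _ => by
      rw [mem_product, mem_range] at hr
      have h2 := hD.c6 _ hr.1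
      exact Full.sub3 (h2.1.trans h2.2) h2.2 (bl_lt hr.2)
  simp only [true_and] at h1
  exact h1

theorem Dg.sum_RG (D : Dg) (hD : D.WF) (lv : ℕ) : ∑ J ∈ D.jj lv, (D.RG J).card = D.cRG lv := by
  have h1 := Full.sum_card D lv (D.Sp ×ˢ range D.n)
    (fun r => r.1.2.1.card = 2 ∧ bl D.n r.2 ≠ r.1.1) (fun r => insert (bl D.n r.2) r.1.2.1)
    fun r hr _ => by
      rw [mem_product, mem_range] at hr
      intro b hb
      rw [mem_range]
      rcases mem_insert.1 hb with rfl | hb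
      · exact bl_lt hr.2
      · exact (D.Sp_lt hD hr.1).2 b hb
  simp only [and_assoc] at h1
  exact h1

theorem Dg.sum_prs (D : Dg) (lv : ℕ) : ∑ J ∈ D.jj lv, (D.prs J).card = D.cPr lv := by
  have h1 := Full.sum_card D lv D.TP.offDiag
    (fun _ => True) (fun r => {r.1.1, r.1.2.1, r.2.1, r.2.2.1})
    fun r hr _ => by
      rw [mem_offDiag] at hr
      exact Full.sub4 (D.TP_lt hr.1).1 (D.TP_lt hr.1).2 (D.TP_lt hr.2.1).1 (D.TP_lt hr.2.1).2
  simp only [true_and] at h1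
  exact h1

theorem Dg.sum_los (D : Dg) (hD : D.WF) (lv : ℕ) : ∑ J ∈ D.jj lv, (D.los J).card = D.cLo lv := by
  have hb : ∀ r ∈ D.Sp ×ˢ range D.n, insert r.1.1 (insert (bl D.n r.2) r.1.2.1) ⊆ range D.nb := by
    intro r hr
    rw [mem_product, mem_range] at hr
    intro b hb
    rw [mem_range]
    rcases mem_insert.1 hb with rfl | hb
    · exact (D.Sp_lt hD hr.1).1
    · rcases mem_insert.1 hb with rfl | hb
      · exact bl_lt hr.2
      · exact (D.Sp_lt hD hr.1).2 b hb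
  have h1 := Full.sum_card D lv (D.Sp ×ˢ range D.n)
    (fun r => (r.1.2.1.card = 2 ∧ bl D.n r.2 ≠ r.1.1) ∨ (r.1.2.1.card = 3 ∧ r.2 = 0))
    (fun r => if r.1.2.1.card = 2 then insert r.1.1 (insert (bl D.n r.2) r.1.2.1) else
      insert r.1.1 r.1.2.1)
    fun r hr _ => by
      beta_reduce
      split_ifs
      · exact hb r hr
      · exact (insert_subset_insert _ (subset_insert _ _)).trans (hb r hr)
  have h2 : ∀ Q : Finset ℕ → Prop, ∀ r : (ℕ × Finset ℕ × ℕ) × ℕ,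
      (((r.1.2.1.card = 2 ∧ bl D.n r.2 ≠ r.1.1) ∨ (r.1.2.1.card = 3 ∧ r.2 = 0)) ∧
        Q (if r.1.2.1.card = 2 then insert r.1.1 (insert (bl D.n r.2) r.1.2.1) else
          insert r.1.1 r.1.2.1)) ↔
      ((r.1.2.1.card = 2 ∧ bl D.n r.2 ≠ r.1.1 ∧
          Q (insert r.1.1 (insert (bl D.n r.2) r.1.2.1))) ∨
        (r.1.2.1.card = 3 ∧ r.2 = 0 ∧ Q (insert r.1.1 r.1.2.1))) := by
    intro Q r
    by_cases h3 : r.1.2.1.card = 2
    · rw [if_pos h3]
      have h4 : ¬ r.1.2.1.card = 3 := by omega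
      tauto
    · rw [if_neg h3]
      tauto
  have h3 : (D.Sp ×ˢ range D.n).filter (fun r =>
      ((r.1.2.1.card = 2 ∧ bl D.n r.2 ≠ r.1.1) ∨ (r.1.2.1.card = 3 ∧ r.2 = 0)) ∧
        D.adm lv (if r.1.2.1.card = 2 then insert r.1.1 (insert (bl D.n r.2) r.1.2.1) else
          insert r.1.1 r.1.2.1)) = (D.Sp ×ˢ range D.n).filter fun r =>
    (r.1.2.1.card = 2 ∧ bl D.n r.2 ≠ r.1.1 ∧
      D.adm lv (insert r.1.1 (insert (bl D.n r.2) r.1.2.1))) ∨
    (r.1.2.1.card = 3 ∧ r.2 = 0 ∧ D.adm lv (insert r.1.1 r.1.2.1)) :=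
    filter_congr fun r _ => h2 (D.adm lv) r
  rw [h3] at h1
  refine Eq.trans (sum_congr rfl fun J _ => ?_) h1
  unfold Dg.los
  congr 1
  exact filter_congr fun r _ => (h2 (fun X => X = J) r).symm

/-! ### The main statement -/

/-- The claims for all labels give the dimension.  (The gained rows vanish on `sol` by `fD_add_pt`.) -/
theorem full (D : Dg) (hD : D.WF) (lv : ℕ) (p : Pos ℂ) (hp : D.Good p)
    (h : ∀ J ∈ D.jj lv, D.Loc p J) :
    2 * Module.finrank ℂ (D.sol lv p) + 2 * (D.cRT lv + D.cRF lv + D.cRG lv) ≤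
      2 * (D.ad lv).card + D.cPr lv + 2 * D.cLo lv := by
  classical
  let M : Matrix {r : Rw // D.rb r} {e // e ∈ D.ad lv} ℂ := fun r e => D.val p r.1 e.1
  have hJJ : ∀ e : {e // e ∈ D.ad lv}, lb D.n e.1 ∈ D.jj lv := by
    intro e
    have h1 := mem_filter.1 e.2
    refine D.mem_jj.2 ⟨fun b hb => ?_, h1.2⟩
    obtain ⟨s, hs, rfl⟩ := mem_lb.1 hb
    rw [mem_range]
    exact bl_lt ((mem_mons.1 h1.1).2 s hs)
  have h1 := finrank_solM_add_le M (fun e => lb D.n e.1) (fun r => rl D.n r.1) Finset.card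
    (fun r e hre => by
      rcases (Full.val_sub D hp r.2 hre).eq_or_ssubset with h2 | h2
      · exact Or.inl h2
      · exact Or.inr (card_lt_card h2)) (D.jj lv) hJJ
  have h2 : Module.finrank ℂ (D.sol lv p) ≤ Module.finrank ℂ (solM M) := by
    let L : D.sol lv p →ₗ[ℂ] solM M :=
      { toFun := fun F => ⟨fun e => F.1 e.1, by
          rw [mem_solM]
          intro r
          have h3 := Full.row_zero D hD lv r.2 F.2
          rw [← sum_coe_sort] at h3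
          exact h3⟩
        map_add' := fun _ _ => rfl
        map_smul' := fun _ _ => rfl }
    refine LinearMap.finrank_le_finrank_of_injective (f := L) fun F G hFG => ?_
    refine Subtype.ext (funext fun e => ?_)
    by_cases he : e ∈ D.ad lv
    · have h3 : (L F).1 ⟨e, he⟩ = (L G).1 ⟨e, he⟩ := by rw [hFG]
      exact h3
    · rw [F.2.1 e he, G.2.1 e he]
  have h3 : ∀ J ∈ D.jj lv, (D.mat p J).rank =
      (blkJ M (fun e => lb D.n e.1) (fun r => rl D.n r.1) J).rank := by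
    intro J hJ
    have hJ' := (D.mem_jj.1 hJ).2
    let er : {r // r ∈ D.rows J} ≃ {r : {r : Rw // D.rb r} // rl D.n r.1 = J} :=
      { toFun := fun r => ⟨⟨r.1, ((D.mem_rows J r.1).1 r.2).1⟩, ((D.mem_rows J r.1).1 r.2).2⟩
        invFun := fun r => ⟨r.1.1, (D.mem_rows J r.1.1).2 ⟨r.1.2, r.2⟩⟩
        left_inv := fun _ => rfl
        right_inv := fun _ => rfl }
    let ec : {e // e ∈ D.cols J} ≃ {e : {e // e ∈ D.ad lv} // lb D.n e.1 = J} :=
      { toFun := fun e => ⟨⟨e.1, mem_filter.2 ⟨(mem_filter.1 e.2).1, by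
            rw [(mem_filter.1 e.2).2]
            exact hJ'⟩⟩, (mem_filter.1 e.2).2⟩
        invFun := fun e => ⟨e.1.1, mem_filter.2 ⟨(mem_filter.1 e.1.2).1, e.2⟩⟩
        left_inv := fun _ => rfl
        right_inv := fun _ => rfl }
    have h4 : D.mat p J =
        (blkJ M (fun e => lb D.n e.1) (fun r => rl D.n r.1) J).submatrix er ec := rfl
    rw [h4, Matrix.rank_submatrix]
  have h4 : ∑ J ∈ D.jj lv, 2 * (D.rows J).card ≤
      ∑ J ∈ D.jj lv, (2 * (blkJ M (fun e => lb D.n e.1) (fun r => rl D.n r.1) J).rank +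
        (D.prs J).card + 2 * (D.los J).card) := by
    refine sum_le_sum fun J hJ => ?_
    rw [← h3 J hJ]
    exact h J hJ
  have h5 : ∑ J ∈ D.jj lv, (D.rows J).card = D.cRT lv + D.cRF lv + D.cRG lv := by
    rw [← D.sum_RT, ← D.sum_RF hD, ← D.sum_RG hD, ← sum_add_distrib, ← sum_add_distrib]
    refine sum_congr rfl fun J _ => ?_
    unfold Dg.rows
    rw [card_disjSum, card_disjSum, Nat.add_assoc]
  rw [sum_add_distrib, sum_add_distrib, ← mul_sum, ← mul_sum, ← mul_sum, D.sum_prs, D.sum_los hD,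
    h5] at h4
  rw [Fintype.card_coe] at h1
  omega

end Pool.Agent.KZ.AL
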