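import Pool.Agent.KZ.Defs
import Pool.Agent.KZ.AL.Defs

/-!
# KZ4, ALPHA: the designs of the levels 2 and 1
-/

set_option autoImplicit false

namespace Pool.Agent.KZ.AL

open Finset

/-- `m` specials with two leaves: centres `c0, …, c0 + k - 1`, pairs of leaves from `l0` on. -/
def spP (c0 k l0 m : ℕ) : Finset (ℕ × Finset ℕ × ℕ) :=
  (range m).image fun t => (c0 + t % k, {l0 + 2 * (t / k), l0 + 2 * (t / k) + 1}, 0)

/-- `m` specials with three leaves. -/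
def spQ (c0 k l0 s m : ℕ) : Finset (ℕ × Finset ℕ × ℕ) :=
  (range m).image fun t =>
    (c0 + t % k, {l0 + 3 * (t / k), l0 + 3 * (t / k) + 1, l0 + 3 * (t / k) + 2}, s)

/-- `m` free items. -/
def frI (c0 k l0 m : ℕ) : Finset (ℕ × ℕ × ℕ) :=
  (range m).image fun t => (c0 + t % k, l0 + t / k, 0)

/-- The design of the level 2 (`c = 4 h`). -/
def mk2 (t : Bool) (n h : ℕ) (a : L2) : Dg where
  n := n
  h0 := h
  h1 := h
  n01 := if t then 3 else 4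
  n02 := 3
  n12 := if t then 4 else 3
  Sp := spP 0 4 h a.p ∪ spQ 4 14 h 1 a.q ∪ spQ h 12 0 2 a.r ∪ spP h 8 (2 * h) a.pu ∪
    spP 0 4 (2 * h) a.py ∪ spQ 4 14 (2 * h) 1 a.qy
  Fr := frI 0 2 h a.d ∪ frI 0 2 (2 * h) a.z ∪ frI h 4 (2 * h) a.w

/-- The design of the level 1. -/
def mk1 (n h : ℕ) (a : L1) : Dg where
  n := n
  h0 := h
  h1 := n / 4 - h
  n01 := 4
  n02 := 3
  n12 := 3
  Sp := spP 0 4 h a.p ∪ spQ 4 14 h 1 a.q
  Fr := frI 0 2 h a.d ∪ (range a.w).image fun t => (h + t / 4, h + t / 4 + 2 + t % 4, 0)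

/-- There is room for the specials and the free items. -/
structure Rm2 (n h : ℕ) (a : L2) : Prop where
  hh : 18 ≤ h
  hn : 2 * h + 1 ≤ n / 4
  p : a.p ≤ 4 * (h / 2)
  q : a.q ≤ 14 * (h / 3)
  r : a.r ≤ 12 * (h / 3)
  pu : a.pu ≤ 8 * ((n / 4 - 2 * h) / 2)
  py : a.py ≤ 4 * ((n / 4 - 2 * h) / 2)
  qy : a.qy ≤ 14 * ((n / 4 - 2 * h) / 3)
  d : a.d ≤ 2 * h
  z : a.z ≤ 2 * (n / 4 - 2 * h)
  w : a.w ≤ 4 * (n / 4 - 2 * h)

structure Rm1 (n h : ℕ) (a : L1) : Prop where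
  hh : 18 ≤ h
  hn : h + 18 ≤ n / 4
  p : a.p ≤ 4 * ((n / 4 - h) / 2)
  q : a.q ≤ 14 * ((n / 4 - h) / 3)
  d : a.d ≤ 2 * (n / 4 - h)
  w : a.w + 20 ≤ 4 * (n / 4 - h)

/-- The configuration of `mk2`: all points of all edges. -/
def full2 (t : Bool) (n h : ℕ) (a : L2) : L2 :=
  { a with
    t := (if t then 3 else 4) * h * h - (2 * a.p + 3 * a.q + 3 * a.r)
    u := (if t then 4 else 3) * h * (n / 4 - 2 * h) - 2 * a.pu
    y := 3 * h * (n / 4 - 2 * h) - (2 * a.py + 3 * a.qy)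
    x := 0 }

def full1 (n h : ℕ) (a : L1) : L1 :=
  { a with
    t := 4 * h * (n / 4 - h) - (2 * a.p + 3 * a.q)
    u := 0
    s := 0 }

end Pool.Agent.KZ.AL
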