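import Pool.Agent.KZ.Fs
import Pool.Agent.KZ.AL.Defs

/-!
# KZ4, ALPHA: a certificate gives a finite check

`ok_of_chk`: the certificate of `Pool/Agent/KZ/Cert.lean` for a small design.
-/

set_option autoImplicit false
set_option linter.unusedSectionVars false

namespace Pool.Agent.KZ.AL

open Finset
open Pool.Agent.KZ (Tri chk sqL cuL rwS cfL dig)

/-! ### Codes of multisets -/

/-- The code of a multiset. -/
def mcd (e : Multiset ℕ) : ℕ := (e.map fun x => 8 ^ x).sum

private theorem OkC.mcd_eq {n : ℕ} {e : Multiset ℕ} (he : ∀ x ∈ e, x < n) :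
    mcd e = ∑ s ∈ range n, e.count s * 8 ^ s := by
  unfold mcd
  rw [Finset.sum_multiset_map_count]
  simp only [smul_eq_mul]
  refine sum_subset (fun x hx => mem_range.2 (he x (Multiset.mem_toFinset.1 hx))) fun x _ hx => ?_
  rw [Multiset.count_eq_zero_of_notMem fun h => hx (Multiset.mem_toFinset.2 h), Nat.zero_mul]

theorem mcd_inj {n : ℕ} {e e' : Multiset ℕ} (he : ∀ x ∈ e, x < n) (he' : ∀ x ∈ e', x < n)
    (hc : e.card < 8) (hc' : e'.card < 8) (h : mcd e = mcd e') : e = e' := by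
  rw [OkC.mcd_eq he, OkC.mcd_eq he'] at h
  have h1 := Pool.Agent.KZ.digits_uniq n _ _
    (fun j _ => lt_of_le_of_lt (Multiset.count_le_card j e) hc)
    (fun j _ => lt_of_le_of_lt (Multiset.count_le_card j e') hc') h
  ext s
  by_cases hs : s < n
  · exact h1 s hs
  · rw [Multiset.count_eq_zero_of_notMem fun h2 => hs (he s h2),
      Multiset.count_eq_zero_of_notMem fun h2 => hs (he' s h2)]

theorem mem_mons' {n : ℕ} {e : Multiset ℕ} : e ∈ mons n ↔ e.card = 4 ∧ ∀ x ∈ e, x < n := by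
  unfold mons
  rw [mem_image]
  constructor
  · rintro ⟨m, hm, rfl⟩
    rw [Finset.mem_sym_iff] at hm
    exact ⟨m.2, fun x hx => mem_range.1 (hm x hx)⟩
  · rintro ⟨h1, h2⟩
    exact ⟨Sym.mk e h1, Finset.mem_sym_iff.2 fun x hx => mem_range.2 (h2 x hx), rfl⟩

theorem mcd_four (a b x y : ℕ) : mcd {a, b, x, y} = 8 ^ a + 8 ^ b + 8 ^ x + 8 ^ y := by
  unfold mcd
  simp only [Multiset.insert_eq_cons, Multiset.map_cons, Multiset.map_singleton, Multiset.sum_cons,
    Multiset.sum_singleton]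
  ring

/-- The multiset with the code `k`. -/
def mof (n k : ℕ) : Multiset ℕ := ∑ s ∈ range n, Multiset.replicate (dig k s) s

theorem count_mof (n k s : ℕ) : (mof n k).count s = if s < n then dig k s else 0 := by
  unfold mof
  rw [Multiset.count_sum']
  simp only [Multiset.count_replicate]
  rw [sum_ite_eq' (range n) s fun t => dig k t]
  simp only [mem_range]

theorem mcd_mof {n k : ℕ} (hk : k < 8 ^ n) : mcd (mof n k) = k := by
  rw [OkC.mcd_eq (n := n) (fun x hx => by
    by_contra h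
    have h1 := Multiset.count_pos.2 hx
    rw [count_mof, if_neg h] at h1
    exact absurd h1 (lt_irrefl 0))]
  have h4 := Pool.Agent.KZ.sum_fld 3 n k (by
    rw [show (2 : ℕ) ^ 3 = 8 by norm_num]
    exact hk)
  rw [← h4]
  refine sum_congr rfl fun s hs => ?_
  rw [count_mof, if_pos (mem_range.1 hs)]
  rw [h4]
  rfl

/-- The number `k` is the code of a column of the label `range nb`. -/
def okM (n nb k : ℕ) : Bool :=
  Nat.blt k (8 ^ n) && (Nat.beq ((List.range n).map (dig k)).sum 4 &&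
    ((List.range n).all fun s => Nat.blt (bl n s) nb) &&
    (List.range nb).all fun i => (List.range n).any fun s => Nat.beq (bl n s) i && !Nat.beq (dig k s) 0)

private theorem OkC.sum_range (f : ℕ → ℕ) (m : ℕ) : ((List.range m).map f).sum = ∑ s ∈ range m, f s := by
  induction m with
  | zero => rfl
  | succ m ih =>
    rw [List.range_succ, List.map_append, List.sum_append, ih, sum_range_succ]
    simp

theorem mem_cols_of_okM (D : Dg) {k : ℕ} (h : okM D.n D.nb k = true) :
    ∃ e : {e // e ∈ D.cols (range D.nb)}, mcd e.1 = k := by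
  unfold okM at h
  rw [Bool.and_eq_true, Bool.and_eq_true, Bool.and_eq_true] at h
  obtain ⟨h1, ⟨h2, h3⟩, h4⟩ := h
  have h1' : k < 8 ^ D.n := Nat.le_of_ble_eq_true h1
  rw [Nat.beq_eq, OkC.sum_range] at h2
  rw [List.all_eq_true] at h3 h4
  have hlt : ∀ x ∈ mof D.n k, x < D.n := by
    intro x hx
    by_contra h
    have h5 := Multiset.count_pos.2 hx
    rw [count_mof, if_neg h] at h5
    exact absurd h5 (lt_irrefl 0)
  refine ⟨⟨mof D.n k, ?_⟩, mcd_mof h1'⟩
  unfold Dg.cols
  rw [mem_filter, mem_mons']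
  refine ⟨⟨?_, hlt⟩, ?_⟩
  · unfold mof
    rw [Multiset.card_sum]
    simp only [Multiset.card_replicate]
    exact h2
  · unfold lb
    ext B
    rw [mem_image, mem_range]
    constructor
    · rintro ⟨s, hs, rfl⟩
      exact Nat.le_of_ble_eq_true (h3 s (List.mem_range.2 (hlt s (Multiset.mem_toFinset.1 hs))))
    · intro hB
      have h5 := h4 B (List.mem_range.2 hB)
      rw [List.any_eq_true] at h5
      obtain ⟨s, hs, h6⟩ := h5
      rw [List.mem_range] at hs
      rw [Bool.and_eq_true] at h6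
      refine ⟨s, ?_, ?_⟩
      · rw [Multiset.mem_toFinset, ← Multiset.count_pos, count_mof, if_pos hs]
        refine Nat.pos_of_ne_zero fun h7 => ?_
        have h8 := h6.2
        rw [h7] at h8
        exact absurd h8 (by decide)
      · have h7 := h6.1
        rw [Nat.beq_eq] at h7
        exact h7

/-! ### Rows -/

/-- The list `L` represents the vector `v` modulo `p`. -/
def Rp (p n : ℕ) (v : ℕ → ℤ) (L : List (ℕ × ℕ)) : Prop :=
  ∀ G : ℕ → ℤ, (p : ℤ) ∣ ∑ s ∈ range n, v s * G s - (L.map fun e => (e.2 : ℤ) * G e.1).sum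

private theorem OkC.rep_map {p n : ℕ} {q : ℕ → ℤ} {L : List (ℕ × ℕ)} (hL : Rp p n q L)
    {ι : Type*} (L' : List ι) (f : ι → ℤ) (g : ι → ℕ → ℤ) :
    (p : ℤ) ∣ (L'.map fun a => f a * ∑ s ∈ range n, q s * g a s).sum -
      (L'.map fun a => f a * (L.map fun e => (e.2 : ℤ) * g a e.1).sum).sum := by
  induction L' with
  | nil => exact ⟨0, by simp⟩
  | cons a L' ih =>
    rw [List.map_cons, List.sum_cons, List.map_cons, List.sum_cons]
    obtain ⟨u, hu⟩ := hL (g a)
    obtain ⟨v, hv⟩ := ih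
    exact ⟨f a * u + v, by linear_combination f a * hu + hv⟩

private theorem OkC.sum_flatMap {ι κ : Type*} (L : List ι) (f : ι → List κ) (g : κ → ℤ) :
    ((L.flatMap f).map g).sum = (L.map fun a => ((f a).map g).sum).sum := by
  induction L with
  | nil => rfl
  | cons a L ih =>
    rw [List.flatMap_cons, List.map_append, List.sum_append, ih, List.map_cons, List.sum_cons]

private theorem OkC.fT_rep {p n : ℕ} {q : ℕ → ℤ} {L : List (ℕ × ℕ)} (hL : Rp p n q L) (x y : ℕ)
    (F : ℕ → ℤ) : (p : ℤ) ∣ fT n q x y (fun e => F (mcd e)) -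
      (((sqL L).map fun c => (c.1, c.2 + 8 ^ x + 8 ^ y)).map fun c => (c.1 : ℤ) * F c.2).sum := by
  have h1 : fT n q x y (fun e => F (mcd e)) =
      ∑ a ∈ range n, q a * ∑ b ∈ range n, q b * F (8 ^ a + 8 ^ b + 8 ^ x + 8 ^ y) := by
    unfold fT
    refine sum_congr rfl fun a _ => ?_
    rw [mul_sum]
    refine sum_congr rfl fun b _ => ?_
    beta_reduce
    rw [mcd_four, mul_assoc]
  have h2 : (((sqL L).map fun c => (c.1, c.2 + 8 ^ x + 8 ^ y)).map
      fun c => (c.1 : ℤ) * F c.2).sum = (L.map fun a => (a.2 : ℤ) *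
        (L.map fun b => (b.2 : ℤ) * F (8 ^ a.1 + 8 ^ b.1 + 8 ^ x + 8 ^ y)).sum).sum := by
    unfold sqL
    rw [List.map_map, OkC.sum_flatMap]
    refine congrArg List.sum (List.map_congr_left fun a _ => ?_)
    rw [List.map_map, ← List.sum_map_mul_left]
    refine congrArg List.sum (List.map_congr_left fun b _ => ?_)
    show ((a.2 * b.2 : ℕ) : ℤ) * _ = _
    rw [Nat.cast_mul, mul_assoc]
  rw [h1, h2]
  obtain ⟨u, hu⟩ := hL fun a => ∑ b ∈ range n, q b * F (8 ^ a + 8 ^ b + 8 ^ x + 8 ^ y)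
  obtain ⟨v, hv⟩ := OkC.rep_map hL L (fun a => (a.2 : ℤ)) fun a b =>
    F (8 ^ a.1 + 8 ^ b + 8 ^ x + 8 ^ y)
  exact ⟨u + v, by linear_combination hu + hv⟩

private theorem OkC.fD_rep {p n : ℕ} {q : ℕ → ℤ} {L : List (ℕ × ℕ)} (hL : Rp p n q L) (x : ℕ)
    (F : ℕ → ℤ) : (p : ℤ) ∣ fD n q x (fun e => F (mcd e)) -
      (((cuL L).map fun c => (c.1, c.2 + 8 ^ x)).map fun c => (c.1 : ℤ) * F c.2).sum := by
  have h1 : fD n q x (fun e => F (mcd e)) = ∑ a ∈ range n, q a * ∑ b ∈ range n, q b *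
      ∑ c ∈ range n, q c * F (8 ^ a + 8 ^ b + 8 ^ c + 8 ^ x) := by
    unfold fD
    refine sum_congr rfl fun a _ => ?_
    rw [mul_sum]
    refine sum_congr rfl fun b _ => ?_
    rw [mul_sum, mul_sum]
    refine sum_congr rfl fun c _ => ?_
    beta_reduce
    rw [mcd_four]
    ring
  have h2 : (((cuL L).map fun c => (c.1, c.2 + 8 ^ x)).map fun c => (c.1 : ℤ) * F c.2).sum =
      (L.map fun a => (a.2 : ℤ) * (L.map fun b => (b.2 : ℤ) *
        (L.map fun c => (c.2 : ℤ) * F (8 ^ a.1 + 8 ^ b.1 + 8 ^ c.1 + 8 ^ x)).sum).sum).sum := by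
    unfold cuL
    rw [List.map_map, OkC.sum_flatMap]
    refine congrArg List.sum (List.map_congr_left fun a _ => ?_)
    rw [OkC.sum_flatMap, ← List.sum_map_mul_left]
    refine congrArg List.sum (List.map_congr_left fun b _ => ?_)
    rw [List.map_map, ← List.sum_map_mul_left, ← List.sum_map_mul_left]
    refine congrArg List.sum (List.map_congr_left fun c _ => ?_)
    show ((a.2 * b.2 * c.2 : ℕ) : ℤ) * _ = _
    push_cast
    ring
  rw [h1, h2]
  obtain ⟨u, hu⟩ := hL fun a => ∑ b ∈ range n, q b *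
      ∑ c ∈ range n, q c * F (8 ^ a + 8 ^ b + 8 ^ c + 8 ^ x)
  obtain ⟨v, hv⟩ := OkC.rep_map hL L (fun a => (a.2 : ℤ)) fun a b =>
      ∑ c ∈ range n, q c * F (8 ^ a.1 + 8 ^ b + 8 ^ c + 8 ^ x)
  have h3 : (p : ℤ) ∣ (L.map fun a => (a.2 : ℤ) * (L.map fun b => (b.2 : ℤ) *
      ∑ c ∈ range n, q c * F (8 ^ a.1 + 8 ^ b.1 + 8 ^ c + 8 ^ x)).sum).sum -
      (L.map fun a => (a.2 : ℤ) * (L.map fun b => (b.2 : ℤ) *
        (L.map fun c => (c.2 : ℤ) * F (8 ^ a.1 + 8 ^ b.1 + 8 ^ c.1 + 8 ^ x)).sum).sum).sum := by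
    have key : ∀ L' : List (ℕ × ℕ), (p : ℤ) ∣ (L'.map fun a => (a.2 : ℤ) * (L.map fun b =>
      (b.2 : ℤ) * ∑ c ∈ range n, q c * F (8 ^ a.1 + 8 ^ b.1 + 8 ^ c + 8 ^ x)).sum).sum -
      (L'.map fun a => (a.2 : ℤ) * (L.map fun b => (b.2 : ℤ) *
        (L.map fun c => (c.2 : ℤ) * F (8 ^ a.1 + 8 ^ b.1 + 8 ^ c.1 + 8 ^ x)).sum).sum).sum := by
      intro L'
      induction L' with
      | nil => exact ⟨0, by simp⟩
      | cons a L' ih =>
        rw [List.map_cons, List.sum_cons, List.map_cons, List.sum_cons]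
        obtain ⟨u', hu'⟩ := OkC.rep_map hL L (fun b => (b.2 : ℤ)) fun b c =>
          F (8 ^ a.1 + 8 ^ b.1 + 8 ^ c + 8 ^ x)
        obtain ⟨v', hv'⟩ := ih
        exact ⟨a.2 * u' + v', by linear_combination (a.2 : ℤ) * hu' + hv'⟩
    exact key L
  obtain ⟨z, hz⟩ := h3
  exact ⟨u + v + z, by linear_combination hu + hv + hz⟩

/-- The product of a row of a triple point with a function of the codes. -/
private theorem OkC.sum_sT {n : ℕ} {C : Finset (Multiset ℕ)} (hC : C ⊆ mons n) (v : ℕ → ℤ)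
    {x y : ℕ} (hx : x < n) (hy : y < n) (F : ℕ → ℤ)
    (hF : ∀ k, k ∉ Set.range (fun e : {e // e ∈ C} => mcd e.1) → F k = 0) :
    ∑ e : {e // e ∈ C}, sT n v x y e.1 * F (mcd e.1) = fT n v x y fun e => F (mcd e) := by
  rw [sum_coe_sort C fun e => sT n v x y e * F (mcd e)]
  unfold sT fT
  simp only [sum_mul]
  rw [sum_comm]
  refine sum_congr rfl fun a ha => ?_
  rw [sum_comm]
  refine sum_congr rfl fun b hb => ?_
  rw [mem_range] at ha hb
  by_cases hm : ({a, b, x, y} : Multiset ℕ) ∈ C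
  · rw [sum_eq_single_of_mem _ hm]
    · rw [if_pos rfl]
    · intro e _ he
      rw [if_neg (Ne.symm he), zero_mul]
  · rw [hF (mcd {a, b, x, y}), mul_zero]
    · refine sum_eq_zero fun e he => ?_
      rw [if_neg, zero_mul]
      rintro rfl
      exact hm he
    · rintro ⟨e, he⟩
      apply hm
      have h1 := mem_mons'.1 (hC e.2)
      have h2 : e.1 = {a, b, x, y} := by
        refine mcd_inj (n := n) h1.2 ?_ (by rw [h1.1]; norm_num) (by simp) he
        intro z hz
        simp only [Multiset.insert_eq_cons, Multiset.mem_cons, Multiset.mem_singleton] at hz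
        rcases hz with rfl | rfl | rfl | rfl <;> assumption
      rw [← h2]
      exact e.2

private theorem OkC.sum_sD {n : ℕ} {C : Finset (Multiset ℕ)} (hC : C ⊆ mons n) (v : ℕ → ℤ)
    {x : ℕ} (hx : x < n) (F : ℕ → ℤ)
    (hF : ∀ k, k ∉ Set.range (fun e : {e // e ∈ C} => mcd e.1) → F k = 0) :
    ∑ e : {e // e ∈ C}, sD n v x e.1 * F (mcd e.1) = fD n v x fun e => F (mcd e) := by
  rw [sum_coe_sort C fun e => sD n v x e * F (mcd e)]
  unfold sD fD
  simp only [sum_mul]
  rw [sum_comm]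
  refine sum_congr rfl fun a ha => ?_
  rw [sum_comm]
  refine sum_congr rfl fun b hb => ?_
  rw [sum_comm]
  refine sum_congr rfl fun c hc => ?_
  rw [mem_range] at ha hb hc
  by_cases hm : ({a, b, c, x} : Multiset ℕ) ∈ C
  · rw [sum_eq_single_of_mem _ hm]
    · rw [if_pos rfl]
    · intro e _ he
      rw [if_neg (Ne.symm he), zero_mul]
  · rw [hF (mcd {a, b, c, x}), mul_zero]
    · refine sum_eq_zero fun e he => ?_
      rw [if_neg, zero_mul]
      rintro rfl
      exact hm he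
    · rintro ⟨e, he⟩
      apply hm
      have h1 := mem_mons'.1 (hC e.2)
      have h2 : e.1 = {a, b, c, x} := by
        refine mcd_inj (n := n) h1.2 ?_ (by rw [h1.1]; norm_num) (by simp) he
        intro z hz
        simp only [Multiset.insert_eq_cons, Multiset.mem_cons, Multiset.mem_singleton] at hz
        rcases hz with rfl | rfl | rfl | rfl <;> assumption
      rw [← h2]
      exact e.2

/-! ### Positions -/

/-- The value of the variable `x`. -/
def lkv (L : List (ℕ × ℤ)) (x : ℕ) : ℤ := (L.map fun e => bif Nat.beq e.1 x then e.2 else 0).sum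

/-- Equality of points. -/
def beq3 (a b : ℕ × ℕ × ℕ) : Bool := Nat.beq a.1 b.1 && (Nat.beq a.2.1 b.2.1 && Nat.beq a.2.2 b.2.2)

/-- The vector of the point `τ`. -/
def lkp : List ((ℕ × ℕ × ℕ) × List (ℕ × ℤ)) → ℕ × ℕ × ℕ → ℕ → ℤ
  | [], _, _ => 0
  | e :: P, τ, x => bif beq3 e.1 τ then lkv e.2 x else lkp P τ x

/-- The vectors are in the blocks of the points. -/
def okP (n : ℕ) (P : List ((ℕ × ℕ × ℕ) × List (ℕ × ℤ))) : Bool :=
  P.all fun e => e.2.all fun c =>
    Nat.blt c.1 n && (Nat.beq (bl n c.1) e.1.1 || Nat.beq (bl n c.1) e.1.2.1)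

private theorem OkC.beq3_iff {a b : ℕ × ℕ × ℕ} : beq3 a b = true ↔ a = b := by
  obtain ⟨a1, a2, a3⟩ := a
  obtain ⟨b1, b2, b3⟩ := b
  unfold beq3
  rw [Bool.and_eq_true, Bool.and_eq_true]
  simp only [Nat.beq_eq, Prod.mk.injEq]

private theorem OkC.lkv_ne {L : List (ℕ × ℤ)} {x : ℕ} (h : lkv L x ≠ 0) : ∃ c ∈ L, c.1 = x := by
  by_contra hcon
  apply h
  unfold lkv
  refine List.sum_eq_zero fun z hz => ?_
  obtain ⟨c, hc, rfl⟩ := List.mem_map.1 hz
  cases hb : Nat.beq c.1 x
  · rfl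
  · rw [Nat.beq_eq] at hb
    exact absurd ⟨c, hc, hb⟩ hcon

theorem lkp_ne {n : ℕ} {P : List ((ℕ × ℕ × ℕ) × List (ℕ × ℤ))} (hP : okP n P = true)
    {τ : ℕ × ℕ × ℕ} {x : ℕ} (h : lkp P τ x ≠ 0) : x < n ∧ (bl n x = τ.1 ∨ bl n x = τ.2.1) := by
  induction P with
  | nil => exact absurd rfl h
  | cons e P ih =>
    unfold okP at hP
    rw [List.all_cons, Bool.and_eq_true] at hP
    have h1 : lkp (e :: P) τ x = bif beq3 e.1 τ then lkv e.2 x else lkp P τ x := rfl
    rw [h1] at h
    cases hb : beq3 e.1 τ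
    · rw [hb] at h
      exact ih hP.2 h
    · rw [hb] at h
      rw [OkC.beq3_iff] at hb
      obtain ⟨c, hc, rfl⟩ := OkC.lkv_ne h
      have h2 := List.all_eq_true.1 hP.1 c hc
      rw [Bool.and_eq_true, Bool.or_eq_true, Nat.beq_eq, Nat.beq_eq] at h2
      refine ⟨Nat.le_of_ble_eq_true h2.1, ?_⟩
      rw [← hb]
      exact h2.2

/-- The list `L` represents the vector of the point `τ` modulo `p`. -/
def rpOk (p n : ℕ) (P : List ((ℕ × ℕ × ℕ) × List (ℕ × ℤ))) (τ : ℕ × ℕ × ℕ)
    (L : List (ℕ × ℕ)) : Bool :=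
  (L.all fun e => Nat.blt e.1 n) &&
    (List.range n).all fun s => (lkp P τ s - (cfL L s : ℤ)) % (p : ℤ) == 0

/-- All lists represent the points. -/
def rpAll (p n : ℕ) (P : List ((ℕ × ℕ × ℕ) × List (ℕ × ℤ))) :
    List (ℕ × ℕ × ℕ) → List (List (ℕ × ℕ)) → Bool
  | [], [] => true
  | τ :: T, L :: T' => rpOk p n P τ L && rpAll p n P T T'
  | _, _ => false

private theorem OkC.cfL_cons (e : ℕ × ℕ) (L : List (ℕ × ℕ)) (s : ℕ) :
    cfL (e :: L) s = (if e.1 = s then e.2 else 0) + cfL L s := by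
  unfold cfL
  rw [List.map_cons, List.sum_cons]
  congr 1
  by_cases h6 : e.1 = s
  · rw [if_pos h6, h6, Nat.beq_refl]
    rfl
  · rw [if_neg h6]
    cases h7 : Nat.beq e.1 s
    · rfl
    · rw [Nat.beq_eq] at h7
      exact absurd h7 h6

private theorem OkC.sum_cfL {n : ℕ} (G : ℕ → ℤ) (L : List (ℕ × ℕ)) (h : ∀ e ∈ L, e.1 < n) :
    (L.map fun e => (e.2 : ℤ) * G e.1).sum = ∑ s ∈ range n, (cfL L s : ℤ) * G s := by
  induction L with
  | nil =>
    refine (sum_eq_zero fun s _ => ?_).symm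
    show (((([] : List (ℕ × ℕ)).map fun e => bif Nat.beq e.1 s then e.2 else 0).sum : ℕ) : ℤ) *
      G s = 0
    rw [List.map_nil, List.sum_nil, Nat.cast_zero, zero_mul]
  | cons e L ih =>
    have h4 : e.1 < n := h e List.mem_cons_self
    rw [List.map_cons, List.sum_cons, ih fun f hf => h f (List.mem_cons_of_mem _ hf)]
    simp only [OkC.cfL_cons, Nat.cast_add, add_mul, sum_add_distrib]
    congr 1
    rw [sum_eq_single_of_mem e.1 (mem_range.2 h4)]
    · rw [if_pos rfl]
    · intro s _ hs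
      rw [if_neg (Ne.symm hs), Nat.cast_zero, zero_mul]

private theorem OkC.rep_of_rpOk {p n : ℕ} {P : List ((ℕ × ℕ × ℕ) × List (ℕ × ℤ))}
    {τ : ℕ × ℕ × ℕ} {L : List (ℕ × ℕ)} (h : rpOk p n P τ L = true) : Rp p n (lkp P τ) L := by
  unfold rpOk at h
  rw [Bool.and_eq_true, List.all_eq_true, List.all_eq_true] at h
  obtain ⟨h1, h2⟩ := h
  intro G
  rw [OkC.sum_cfL (n := n) G L fun e he => Nat.le_of_ble_eq_true (h1 e he), ← sum_sub_distrib]
  refine dvd_sum fun s hs => ?_
  have h3 := h2 s (List.mem_range.2 (mem_range.1 hs))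
  rw [beq_iff_eq] at h3
  rw [← sub_mul]
  exact Dvd.dvd.mul_right (Int.dvd_of_emod_eq_zero h3) _

private theorem OkC.rpAll_spec {p n : ℕ} {P : List ((ℕ × ℕ × ℕ) × List (ℕ × ℤ))} :
    ∀ {T : List (ℕ × ℕ × ℕ)} {T' : List (List (ℕ × ℕ))}, rpAll p n P T T' = true →
    T'.length = T.length ∧ ∀ i, i < T.length → Rp p n (lkp P (T.getD i (0, 0, 0))) (T'.getD i []) := by
  intro T
  induction T with
  | nil =>
    intro T' h
    rcases T' with _ | ⟨L', T'⟩
    · exact ⟨rfl, fun i hi => absurd hi (Nat.not_lt_zero i)⟩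
    · exact absurd h (by simp [rpAll])
  | cons L T ih =>
    intro T' h
    rcases T' with _ | ⟨L', T'⟩
    · exact absurd h (by simp [rpAll])
    · have h1 : (rpOk p n P L L' && rpAll p n P T T') = true := h
      rw [Bool.and_eq_true] at h1
      obtain ⟨h2, h3⟩ := ih h1.2
      refine ⟨by rw [List.length_cons, List.length_cons, h2], fun i hi => ?_⟩
      rcases i with _ | i
      · exact OkC.rep_of_rpOk h1.1
      · exact h3 i (by simpa using hi)

/-! ### Labels -/

/-- The set of four blocks is `range nb`. -/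
def okJ (nb a b c d : ℕ) : Bool :=
  (Nat.blt a nb && (Nat.blt b nb && (Nat.blt c nb && Nat.blt d nb))) &&
    (List.range nb).all fun i => Nat.beq a i || (Nat.beq b i || (Nat.beq c i || Nat.beq d i))

private theorem OkC.okJ_spec {nb a b c d : ℕ} (h : okJ nb a b c d = true) :
    ({a, b, c, d} : Finset ℕ) = range nb := by
  unfold okJ at h
  rw [Bool.and_eq_true, Bool.and_eq_true, Bool.and_eq_true, Bool.and_eq_true] at h
  obtain ⟨⟨h1, h2, h3, h4⟩, h5⟩ := h
  have h1' : a < nb := Nat.le_of_ble_eq_true h1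
  have h2' : b < nb := Nat.le_of_ble_eq_true h2
  have h3' : c < nb := Nat.le_of_ble_eq_true h3
  have h4' : d < nb := Nat.le_of_ble_eq_true h4
  rw [List.all_eq_true] at h5
  ext i
  simp only [mem_insert, mem_singleton, mem_range]
  constructor
  · rintro (rfl | rfl | rfl | rfl) <;> assumption
  · intro hi
    have h6 := h5 i (List.mem_range.2 hi)
    simp only [Bool.or_eq_true, Nat.beq_eq] at h6
    rcases h6 with h6 | h6 | h6 | h6
    · exact Or.inl h6.symm
    · exact Or.inr (Or.inl h6.symm)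
    · exact Or.inr (Or.inr (Or.inl h6.symm))
    · exact Or.inr (Or.inr (Or.inr h6.symm))

/-- The label is a row. -/
def okL (n nb : ℕ) (T F : List (ℕ × ℕ × ℕ)) (l : ℕ × ℕ × ℕ) : Bool :=
  Nat.blt l.2.1 n && (bif Nat.blt l.1 T.length then
    Nat.blt l.2.2 n && (Nat.ble l.2.1 l.2.2 &&
      (match T.getD l.1 (0, 0, 0) with | (A, B, _) => okJ nb A B (bl n l.2.1) (bl n l.2.2)))
  else Nat.blt (l.1 - T.length) F.length &&
    (match F.getD (l.1 - T.length) (0, 0, 0) with | (A, B, _) => okJ nb A B (bl n l.2.1) A))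

/-- **A finite check from a certificate.** -/
theorem ok_of_chk (D : Dg) (n nb : ℕ) (hn : D.n = n) (hnb : D.nb = nb)
    (P1 P2 : List ((ℕ × ℕ × ℕ) × List (ℕ × ℤ))) (T F : List (ℕ × ℕ × ℕ))
    (L1 L2 : List (List (ℕ × ℕ))) {w u q p r : ℕ} (N : Tri) (S : List (List (ℕ × ℕ × ℕ)))
    (hP1 : okP n P1 = true) (hP2 : okP n P2 = true)
    (hs : ∀ S ∈ D.Sp, ∀ x ∈ range n, bl n x = S.1 → gv (K := ℤ) (lkp P1, lkp P2) S x = 0)
    (hT : ∀ τ ∈ T, τ ∈ D.TP) (hF : ∀ τ ∈ F, τ ∈ D.Fr)
    (h : chk w u q p N (okM n nb) (rwS L1 L2) S = true)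
    (h1 : rpAll p n P1 T L1 = true) (h2 : rpAll p n P2 F L2 = true)
    (hS : (S.all fun ls => ls.all (okL n nb T F)) = true) (hr : (S.map List.length).sum = r)
    (hc : 2 * (D.rows (range nb)).card ≤ 2 * r + (D.prs (range nb)).card +
      2 * (D.los (range nb)).card) : D.OK := by
  subst hn hnb
  refine ⟨(lkp P1, lkp P2), ⟨fun τ x hx => (lkp_ne hP1 hx).2, fun τ x hx => (lkp_ne hP2 hx).2,
    fun S hS x hx => ?_⟩, ?_⟩
  · by_cases hxn : x < D.n
    · exact hs S hS x (mem_range.2 hxn) hx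
    · unfold gv
      refine sum_eq_zero fun B _ => ?_
      by_contra h0
      exact hxn (lkp_ne hP1 h0).1
  · refine hc.trans ?_
    have key : r ≤ ((D.mat (K := ℤ) (lkp P1, lkp P2) (range D.nb)).map (Int.cast : ℤ → ℂ)).rank := by
      rw [← hr]
      obtain ⟨h3, h4⟩ := OkC.rpAll_spec h1
      obtain ⟨h5, h6⟩ := OkC.rpAll_spec h2
      have hCm : D.cols (range D.nb) ⊆ mons D.n := filter_subset _ _
      refine Pool.Agent.KZ.rank_of_chk _ (fun e : {e // e ∈ D.cols (range D.nb)} => mcd e.1) h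
        (fun k hk => ?_) fun ls hls l hl => ?_
      · obtain ⟨e, he⟩ := mem_cols_of_okM D hk
        exact ⟨e, he⟩
      · have h7 := List.all_eq_true.1 (List.all_eq_true.1 hS _ hls) l hl
        unfold okL at h7
        rw [Bool.and_eq_true] at h7
        obtain ⟨h8, h9⟩ := h7
        have h8' : l.2.1 < D.n := Nat.le_of_ble_eq_true h8
        by_cases hl1 : l.1 < T.length
        · rw [show Nat.blt l.1 T.length = true from Nat.ble_eq_true_of_le hl1, cond_true,
            Bool.and_eq_true, Bool.and_eq_true] at h9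
          obtain ⟨h10, h11, h12⟩ := h9
          have h10' : l.2.2 < D.n := Nat.le_of_ble_eq_true h10
          have h11' : l.2.1 ≤ l.2.2 := Nat.le_of_ble_eq_true h11
          obtain ⟨τ, hτ⟩ : ∃ τ, τ = T.getD l.1 (0, 0, 0) := ⟨_, rfl⟩
          have h12' : okJ D.nb τ.1 τ.2.1 (bl D.n l.2.1) (bl D.n l.2.2) = true := by
            rw [hτ]
            exact h12
          have hτm : τ ∈ D.TP := by
            refine hT τ ?_
            rw [hτ, List.getD_eq_getElem _ _ hl1]
            exact List.getElem_mem _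
          have hrow : (Sum.inl (τ, l.2.1, l.2.2) : Rw) ∈ D.rows (range D.nb) := by
            unfold Dg.rows
            rw [inl_mem_disjSum]
            unfold Dg.RT
            rw [mem_filter, mem_product, mem_product, mem_range, mem_range]
            exact ⟨⟨hτm, h8', h10'⟩, h11', OkC.okJ_spec h12'⟩
          refine ⟨⟨_, hrow⟩, fun G hG => ?_⟩
          have h13 : ∑ e : {e // e ∈ D.cols (range D.nb)},
              D.mat (K := ℤ) (lkp P1, lkp P2) (range D.nb) ⟨_, hrow⟩ e * G (mcd e.1) =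
              fT D.n (lkp P1 τ) l.2.1 l.2.2 fun e => G (mcd e) :=
            OkC.sum_sT hCm (lkp P1 τ) h8' h10' G hG
          rw [h13]
          have h14 : rwS L1 L2 l = (sqL (L1.getD l.1 [])).map
              fun c => (c.1, c.2 + 8 ^ l.2.1 + 8 ^ l.2.2) := by
            unfold rwS
            rw [show Nat.blt l.1 L1.length = true from Nat.ble_eq_true_of_le (by rw [h3]; exact hl1)]
            rfl
          rw [h14]
          have h15 := h4 l.1 hl1
          rw [← hτ] at h15
          exact OkC.fT_rep h15 l.2.1 l.2.2 G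
        · have h9' : Nat.blt l.1 T.length = false := by
            cases h10 : Nat.blt l.1 T.length
            · rfl
            · exact absurd (Nat.le_of_ble_eq_true h10) hl1
          rw [h9', cond_false, Bool.and_eq_true] at h9
          obtain ⟨h10, h12⟩ := h9
          have h10' : l.1 - T.length < F.length := Nat.le_of_ble_eq_true h10
          obtain ⟨τ, hτ⟩ : ∃ τ, τ = F.getD (l.1 - T.length) (0, 0, 0) := ⟨_, rfl⟩
          have h12' : okJ D.nb τ.1 τ.2.1 (bl D.n l.2.1) τ.1 = true := by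
            rw [hτ]
            exact h12
          have hτm : τ ∈ D.Fr := by
            refine hF τ ?_
            rw [hτ, List.getD_eq_getElem _ _ h10']
            exact List.getElem_mem _
          have hrow : (Sum.inr (Sum.inl (τ, l.2.1)) : Rw) ∈ D.rows (range D.nb) := by
            unfold Dg.rows
            rw [inr_mem_disjSum, inl_mem_disjSum]
            unfold Dg.RF
            rw [mem_filter, mem_product, mem_range]
            refine ⟨⟨hτm, h8'⟩, ?_⟩
            rw [← OkC.okJ_spec h12']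
            ext i
            simp only [mem_insert, mem_singleton]
            tauto
          refine ⟨⟨_, hrow⟩, fun G hG => ?_⟩
          have h13 : ∑ e : {e // e ∈ D.cols (range D.nb)},
              D.mat (K := ℤ) (lkp P1, lkp P2) (range D.nb) ⟨_, hrow⟩ e * G (mcd e.1) =
              fD D.n (lkp P2 τ) l.2.1 fun e => G (mcd e) :=
            OkC.sum_sD hCm (lkp P2 τ) h8' G hG
          rw [h13]
          have h14 : rwS L1 L2 l = (cuL (L2.getD (l.1 - T.length) [])).map
              fun c => (c.1, c.2 + 8 ^ l.2.1) := by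
            unfold rwS
            rw [h3, h9']
            rfl
          rw [h14]
          have h15 := h6 (l.1 - T.length) h10'
          rw [← hτ] at h15
          exact OkC.fD_rep h15 l.2.1 G
    omega

/-- The small designs. -/
def sm (t : Bool) (n h0 h1 : ℕ) (Sp : Finset (ℕ × Finset ℕ × ℕ)) (Fr : Finset (ℕ × ℕ × ℕ)) : Dg where
  n := n
  h0 := h0
  h1 := h1
  n01 := if t then 3 else 4
  n02 := 3
  n12 := if t then 4 else 3
  Sp := Sp
  Fr := Fr

end Pool.Agent.KZ.AL
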